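import Pool.Agent.Y699.E.Pd
import Pool.Agent.Y703.CT.StmB

/-!
# The factorization of the cube-free primary elements
-/

set_option autoImplicit false
set_option linter.unusedSectionVars false

namespace Pool.Agent.X253.C3

open Pool.Agent.Y692.QS (Ei w nr)
open Pool.Agent.Y715.T.RecG (Pq)
open Pool.Agent.Y699.E (prm prm_mul prm_cancel prm_one exists_PP not_dvd_three eq_one_of_prm nrm
  nrm_mul nrm_pos' eq_of_dvd)
open Pool.Agent.Y703.CT

/-- a primary prime divisor -/
lemma exists_pdiv {D : Ei} (hD : (3 : Ei) ∣ D - 1) (h1 : D ≠ 1) : ∃ ρ : Ei, Pq ρ ∧ ρ ∣ D := by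
  have h0 : D ≠ 0 := Pool.Agent.Y699.E.prm_ne_zero hD
  have hu : ¬ IsUnit D := fun h => h1 (eq_one_of_prm hD h)
  obtain ⟨p, hp, hpD⟩ := WfDvdMonoid.exists_irreducible_factor hu h0
  have hpp : Prime p := hp.prime
  obtain ⟨ρ, hρ, ha⟩ := exists_PP hpp (not_dvd_three hpp hpD hD)
  exact ⟨ρ, hρ, ha.dvd.trans hpD⟩

lemma prm_pow {a : Ei} (ha : (3 : Ei) ∣ a - 1) (n : ℕ) : (3 : Ei) ∣ a ^ n - 1 := by
  have h := sub_dvd_pow_sub_pow a 1 n
  rw [one_pow] at h
  exact ha.trans h

/-- the factorization, as a product over a finite set -/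
theorem fac_set (N : ℕ) : ∀ D : Ei, nrm D ≤ N → (3 : Ei) ∣ D - 1 →
    (∀ p : Ei, Prime p → ¬ p ^ 3 ∣ D) →
    ∃ (s : Finset Ei) (k : Ei → ℕ), (∀ x ∈ s, Pq x) ∧ (∀ x ∈ s, k x = 1 ∨ k x = 2) ∧
      D = ∏ x ∈ s, x ^ k x := by
  classical
  induction N with
  | zero =>
    intro D hN hD _
    exfalso
    have := nrm_pos' (Pool.Agent.Y699.E.prm_ne_zero hD)
    omega
  | succ N ih =>
    intro D hN hD hcf
    by_cases h1 : D = 1
    · exact ⟨∅, fun _ => 1, by simp, by simp, by simpa using h1⟩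
    obtain ⟨ρ, hρ, c, hc⟩ := exists_pdiv hD h1
    have hc3 : (3 : Ei) ∣ c - 1 := prm_cancel (a := ρ) (b := c) hρ.three (by rw [← hc]; exact hD)
    obtain ⟨m, c', hm, hc', hc3', hρc⟩ : ∃ (m : ℕ) (c' : Ei), (m = 1 ∨ m = 2) ∧ D = ρ ^ m * c' ∧
        (3 : Ei) ∣ c' - 1 ∧ ¬ ρ ∣ c' := by
      by_cases h2 : ρ ∣ c
      · obtain ⟨d, hd⟩ := h2
        refine ⟨2, d, Or.inr rfl, by rw [hc, hd]; ring, ?_, fun h3 => ?_⟩
        · exact prm_cancel (a := ρ) (b := d) hρ.three (by rw [← hd]; exact hc3)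
        · obtain ⟨f, hf⟩ := h3
          exact hcf ρ hρ.prime ⟨f, by rw [hc, hd, hf]; ring⟩
      · exact ⟨1, c, Or.inl rfl, by rw [hc, pow_one], hc3, h2⟩
    have hlt : nrm c' ≤ N := by
      have e1 : nrm D = nrm ρ * nrm (ρ ^ (m - 1) * c') := by
        rw [← nrm_mul, hc']
        congr 1
        rcases hm with rfl | rfl
        · simp
        · simp
          ring
      have e2 : 2 ≤ nrm ρ := by
        have h5 := nrm_pos' hρ.prime.ne_zero
        have h6 : nrm ρ ≠ 1 := fun h => hρ.prime.not_isUnit (Pool.Agent.Y699.E.nrm_one_iff.1 h)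
        omega
      have e3 : nrm c' ≤ nrm (ρ ^ (m - 1) * c') := by
        rw [nrm_mul]
        have := nrm_pos' (pow_ne_zero (m - 1) hρ.prime.ne_zero)
        exact Nat.le_mul_of_pos_left _ this
      have e4 := nrm_pos' (Pool.Agent.Y699.E.prm_ne_zero hc3')
      have e5 : 2 * nrm (ρ ^ (m - 1) * c') ≤ nrm D := by
        rw [e1]
        exact Nat.mul_le_mul_right _ e2
      omega
    obtain ⟨s, k, hs, hk, hprod⟩ := ih c' hlt hc3' fun p hp h => hcf p hp (by
      rw [hc']
      exact h.mul_left _)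
    have hρs : ρ ∉ s := by
      intro h
      apply hρc
      rw [hprod]
      have h5 : ρ ∣ ρ ^ k ρ := dvd_pow_self ρ (by rcases hk ρ h with h | h <;> omega)
      exact h5.trans (Finset.dvd_prod_of_mem (fun x => x ^ k x) h)
    refine ⟨insert ρ s, Function.update k ρ m, ?_, ?_, ?_⟩
    · intro x hx
      rcases Finset.mem_insert.1 hx with rfl | hx
      · exact hρ
      · exact hs x hx
    · intro x hx
      rcases Finset.mem_insert.1 hx with rfl | hx
      · rw [Function.update_self]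
        exact hm
      · rw [Function.update_of_ne (fun h => hρs (by rw [← h]; exact hx))]
        exact hk x hx
    · rw [Finset.prod_insert hρs, Function.update_self, hc', hprod]
      congr 1
      refine Finset.prod_congr rfl fun x hx => ?_
      rw [Function.update_of_ne (fun h => hρs (by rw [← h]; exact hx))]

/-- the factorization -/
theorem fac_dt {D : Ei} (hD : (3 : Ei) ∣ D - 1) (hcf : ∀ p : Ei, Prime p → ¬ p ^ 3 ∣ D) :
    ∃ (n : ℕ) (π : Fin n → Ei) (e : Fin n → ZMod 3), Dt π e ∧ D = pD π e := by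
  classical
  obtain ⟨s, k, hs, hk, hprod⟩ := fac_set (nrm D) D le_rfl hD hcf
  refine ⟨s.card, fun i => (s.equivFin.symm i).1, fun i => (k (s.equivFin.symm i).1 : ZMod 3),
    ⟨fun i => hs _ (s.equivFin.symm i).2, fun i j hij hd => ?_, fun i => ?_⟩, ?_⟩
  · have h1 := eq_of_dvd (hs _ (s.equivFin.symm j).2) (hs _ (s.equivFin.symm i).2) hd
    apply hij
    have h2 := s.equivFin.symm.injective (Subtype.ext h1)
    exact h2.symm
  · rcases hk _ (s.equivFin.symm i).2 with h | h <;> rw [h] <;> decide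
  · unfold pD
    rw [hprod, ← Finset.prod_coe_sort, ← Equiv.prod_comp s.equivFin.symm]
    refine Finset.prod_congr rfl fun i _ => ?_
    have h1 : ((k (s.equivFin.symm i).1 : ZMod 3)).val = k (s.equivFin.symm i).1 := by
      rcases hk _ (s.equivFin.symm i).2 with h | h <;> rw [h] <;> rfl
    rw [h1]

end Pool.Agent.X253.C3
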