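import Pool.Agent.X253.C3.Law
import Pool.Agent.X253.C3.Fac

/-!
# The criterion for cube-free `D`
-/

set_option autoImplicit false
set_option linter.unusedVariables false
set_option linter.unusedSectionVars false

open scoped Classical

namespace Pool.Agent.X253.C3

open NumberField IsDedekindDomain WeierstrassCurve WithZero
open Pool.Agent.Y692.QS (Ei w toC)
open Pool.Agent.Y715.T.RecG (Pq)
open Pool.Agent.Y703.CT
open Pool.Agent.Y715.T.Rec (cs nn)
open Pool.Agent.Y696.CTK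

/-- the kernel of the weighted Laplacian consists of the constants -/
def LapE {n : ℕ} (e : Fin n → ℕ) (χ : Fin n → Fin n → ZMod 3) : Prop :=
  ∀ v : Fin n → ZMod 3, (∀ j, ∑ i, (e i : ZMod 3) * χ j i * (v i - v j) = 0) → ∀ i j, v i = v j

/-- `D = ∏ (π i) ^ (e i)` with different primary primes, exponents `1`, `2`, and
`(π i / π j)_3 = ω ^ χ j i` -/
def IsFactE {K : Type} [Field K] [NumberField K] (ω D : 𝓞 K) (n : ℕ) (π : Fin n → 𝓞 K)
    (e : Fin n → ℕ) (χ : Fin n → Fin n → ZMod 3) : Prop :=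
  (∀ i, Prime (π i) ∧ (3 : 𝓞 K) ∣ π i - 1) ∧ (∀ i, e i = 1 ∨ e i = 2) ∧
  Function.Injective π ∧ D = ∏ i, π i ^ e i ∧
  ∀ i j, i ≠ j →
    π j ∣ π i ^ (((Algebra.norm ℤ (π j)).natAbs - 1) / 3) - ω ^ (χ j i).val

lemma cast_ne {e : ℕ} (h : e = 1 ∨ e = 2) : (e : ZMod 3) ≠ 0 := by
  rcases h with rfl | rfl <;> decide

lemma cast_val {e : ℕ} (h : e = 1 ∨ e = 2) : ((e : ZMod 3)).val = e := by
  rcases h with rfl | rfl <;> rfl

variable {K : Type} [Field K] [NumberField K] (j : Ei ≃+* 𝓞 K)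

/-- the factorization as data `Dt` -/
lemma factE_dt {ω D : 𝓞 K} {n : ℕ} {π : Fin n → 𝓞 K} {e : Fin n → ℕ}
    {χ : Fin n → Fin n → ZMod 3} (h : IsFactE ω D n π e χ) :
    Dt (fun i => j.symm (π i)) (fun i => (e i : ZMod 3)) ∧
      pD (fun i => j.symm (π i)) (fun i => (e i : ZMod 3)) = j.symm D := by
  obtain ⟨h1, h2, h3, h4, h5⟩ := h
  refine ⟨⟨fun i => pq_symm j (h1 i).1 (h1 i).2, fun i k hik hd => ?_, fun i => cast_ne (h2 i)⟩, ?_⟩
  · have h6 := Pool.Agent.Y699.E.eq_of_dvd (pq_symm j (h1 k).1 (h1 k).2)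
      (pq_symm j (h1 i).1 (h1 i).2) hd
    exact hik (h3 (j.symm.injective h6)).symm
  · unfold pD
    rw [h4, map_prod]
    refine Finset.prod_congr rfl fun i _ => ?_
    rw [cast_val (h2 i), map_pow]

/-- the kernels -/
lemma kerE_iff (hj : ∀ z : Ei, Algebra.norm ℤ (j z) = Pool.Agent.Y692.QS.nr z)
    {ω D : 𝓞 K} {n : ℕ} {π : Fin n → 𝓞 K} {e : Fin n → ℕ} {χ : Fin n → Fin n → ZMod 3}
    (hω : ω ^ 2 + ω + 1 = 0) (h : IsFactE ω D n π e χ) :
    Ker (fun i => j.symm (π i)) (fun i => (e i : ZMod 3)) ↔ LapE e χ := by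
  obtain ⟨h1, h2, -, -, h3⟩ := h
  obtain ⟨ε, hε, hcs⟩ : ∃ ε : ZMod 3, ε ≠ 0 ∧ ∀ i k, i ≠ k →
      cs (j.symm (π k)) (j.symm (π i)) = ε * χ k i := by
    have hnn : ∀ k, nn (j.symm (π k)) = ((Algebra.norm ℤ (π k)).natAbs - 1) / 3 := by
      intro k
      unfold nn
      rw [← hj, RingEquiv.apply_symm_apply]
    have hww : (w : Ei) ^ 2 + w + 1 = 0 := by decide
    have hfac : (ω - j w) * (ω - j (w ^ 2)) = 0 := by
      have e1 : (w : Ei) ^ 2 = -w - 1 := by linear_combination hww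
      rw [e1, map_sub, map_neg, map_one]
      have e2 : (j w) ^ 2 + j w + 1 = 0 := by
        rw [← map_pow, ← map_one j, ← map_add, ← map_add, hww, map_zero]
      linear_combination hω - e2
    rcases mul_eq_zero.1 hfac with h4 | h4
    · refine ⟨1, one_ne_zero, fun i k hik => ?_⟩
      rw [one_mul]
      have hpq := pq_symm j (h1 k).1 (h1 k).2
      apply Pool.Agent.Y715.T.RecG.cs_of hpq.prime hpq.norm
      have h5 := map_dvd j.symm (h3 i k hik)
      rw [sub_eq_zero.1 h4, map_sub, map_pow, map_pow, RingEquiv.symm_apply_apply, ← hnn k] at h5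
      exact h5
    · refine ⟨-1, by decide, fun i k hik => ?_⟩
      rw [neg_one_mul]
      have hpq := pq_symm j (h1 k).1 (h1 k).2
      apply Pool.Agent.Y715.T.RecG.cs_of hpq.prime hpq.norm
      have h5 := map_dvd j.symm (h3 i k hik)
      rw [sub_eq_zero.1 h4, map_sub, map_pow, map_pow, RingEquiv.symm_apply_apply, ← hnn k,
        w_two] at h5
      exact h5
  have key : ∀ (v : Fin n → ZMod 3) (k : Fin n),
      ∑ i, (e i : ZMod 3) * cs (j.symm (π k)) (j.symm (π i)) * (v i - v k) =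
        ε * ∑ i, (e i : ZMod 3) * χ k i * (v i - v k) := by
    intro v k
    rw [Finset.mul_sum]
    refine Finset.sum_congr rfl fun i _ => ?_
    by_cases hik : i = k
    · rw [hik, sub_self, mul_zero, mul_zero, mul_zero]
    · rw [hcs i k hik]
      ring
  unfold Ker LapE
  simp only [key, mul_eq_zero, hε, false_or]

/-- the data as a factorization -/
lemma dt_fact (hj : ∀ z : Ei, Algebra.norm ℤ (j z) = Pool.Agent.Y692.QS.nr z) {n : ℕ}
    {π : Fin n → Ei} {e : Fin n → ZMod 3} (hdt : Dt π e) :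
    ∃ (ω : 𝓞 K) (χ : Fin n → Fin n → ZMod 3), ω ^ 2 + ω + 1 = 0 ∧
      IsFactE ω (j (pD π e)) n (fun i => j (π i)) (fun i => (e i).val) χ := by
  refine ⟨j w, fun k i => cs (π k) (π i), ?_, fun i => ⟨?_, ?_⟩, fun i => ?_, fun i k hik => ?_,
    ?_, ?_⟩
  · have hww : (w : Ei) ^ 2 + w + 1 = 0 := by decide
    rw [← map_pow, ← map_one j, ← map_add, ← map_add, hww, map_zero]
  · exact (MulEquiv.prime_iff (j : Ei ≃* 𝓞 K)).2 (hdt.pq i).prime
  · have h1 := map_dvd j (hdt.pq i).three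
    rwa [map_sub, map_one, map_ofNat] at h1
  · exact val_cases (hdt.e0 i)
  · by_contra hne
    have h1 : π i = π k := j.injective hik
    exact hdt.nd i k hne (by rw [h1])
  · unfold pD
    rw [map_prod]
    exact Finset.prod_congr rfl fun i _ => map_pow j _ _
  · intro i k hik
    have h1 := map_dvd j (Pool.Agent.Y715.T.RecG.cs_spec (hdt.pq k).prime (hdt.pq k).norm
      (hdt.nd i k hik))
    rw [map_sub, map_pow, map_pow] at h1
    rw [hj]
    exact h1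

/-- the cube-free `D = 1` modulo `3` with norm different from `1` modulo `9` -/
def ClsC (D : 𝓞 K) : Prop :=
  (3 : 𝓞 K) ∣ D - 1 ∧ (∀ p : 𝓞 K, Prime p → ¬ p ^ 3 ∣ D) ∧ ¬ (9 : ℤ) ∣ Algebra.norm ℤ D - 1

/-- the factorization of the elements of the class -/
lemma cls_dt (hj : ∀ z : Ei, Algebra.norm ℤ (j z) = Pool.Agent.Y692.QS.nr z) {D : 𝓞 K}
    (hD : ClsC D) : ∃ (n : ℕ) (π : Fin n → Ei) (e : Fin n → ZMod 3), Dt π e ∧ D = j (pD π e) ∧
      Nonempty (Fin n) ∧ ¬ (9 : ℤ) ∣ Pool.Agent.Y692.QS.nr (pD π e) - 1 := by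
  obtain ⟨h1, h2, h3⟩ := hD
  obtain ⟨n, π, e, hdt, hD'⟩ := fac_dt (D := j.symm D) (three_dvd_symm j h1) fun p hp hd => by
    refine h2 (j p) ((MulEquiv.prime_iff (j : Ei ≃* 𝓞 K)).2 hp) ?_
    have := map_dvd j hd
    rwa [map_pow, RingEquiv.apply_symm_apply] at this
  have e1 : D = j (pD π e) := by rw [← hD', RingEquiv.apply_symm_apply]
  have h9 : ¬ (9 : ℤ) ∣ Pool.Agent.Y692.QS.nr (pD π e) - 1 := by
    rw [← hj, ← e1]
    exact h3
  refine ⟨n, π, e, hdt, e1, ?_, h9⟩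
  rw [← not_isEmpty_iff]
  intro hn
  apply h9
  unfold pD
  rw [Finset.univ_eq_empty, Finset.prod_empty]
  have : Pool.Agent.Y692.QS.nr (1 : Ei) = 1 := by decide
  rw [this, sub_self]
  exact dvd_zero _

/-- the criterion -/
def CritE (D : 𝓞 K) : Prop :=
  (∃ (ω : 𝓞 K) (n : ℕ) (π : Fin n → 𝓞 K) (e : Fin n → ℕ) (χ : Fin n → Fin n → ZMod 3),
    ω ^ 2 + ω + 1 = 0 ∧ IsFactE ω D n π e χ) ∧
  ∀ (ω : 𝓞 K) (n : ℕ) (π : Fin n → 𝓞 K) (e : Fin n → ℕ) (χ : Fin n → Fin n → ZMod 3),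
    ω ^ 2 + ω + 1 = 0 → IsFactE ω D n π e χ → (Tri D ↔ LapE e χ)

/-- **The law and the criterion for cube-free `D`.** -/
theorem main_cf (K : Type) [Field K] [NumberField K] [IsCyclotomicExtension {3} ℚ K] (D : 𝓞 K)
    (hD : ClsC D) : Law3 D ∧ CritE D := by
  obtain ⟨⟨j, hj⟩, hdisc⟩ := Pool.Agent.Y455.CTK.jex K
  obtain ⟨n, π, e, hdt, e1, hn, h9⟩ := cls_dt j hj hD
  refine ⟨?_, ?_, ?_⟩
  · rw [e1]
    exact law_ofE j hdisc hdt h9
  · obtain ⟨ω, χ, h1, h2⟩ := dt_fact j hj hdt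
    rw [e1]
    exact ⟨ω, n, _, _, χ, h1, h2⟩
  · intro ω m π' e' χ hω hf
    obtain ⟨h1, h2⟩ := factE_dt j hf
    have hm : Nonempty (Fin m) := by
      rw [← not_isEmpty_iff]
      intro hm
      apply hD.2.2
      rw [hf.2.2.2.1, Finset.univ_eq_empty, Finset.prod_empty, map_one, sub_self]
      exact dvd_zero _
    have h9' : ¬ (9 : ℤ) ∣ Pool.Agent.Y692.QS.nr
        (pD (fun i => j.symm (π' i)) (fun i => (e' i : ZMod 3))) - 1 := by
      rw [h2, ← hj, RingEquiv.apply_symm_apply]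
      exact hD.2.2
    rw [← kerE_iff j hj hω hf, ← tri_iffE j h1 h9', h2, RingEquiv.apply_symm_apply]

end Pool.Agent.X253.C3
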