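import Pool.Agent.X253.C3.Fam
import Pool.Agent.X253.C3.CritE

/-!
# Infinite families of cubic twists over `ℚ(ω)`
-/

set_option autoImplicit false
set_option linter.unusedVariables false
set_option linter.unusedSectionVars false

open scoped Classical

namespace Pool.Agent.X253.C3

open NumberField IsDedekindDomain WeierstrassCurve WithZero
open Pool.Agent.Y692.QS (Ei w toC nr)
open Pool.Agent.Y715.T.RecG (Pq)
open Pool.Agent.Y715.T.Rec (cs nn)
open Pool.Agent.Y703.CT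
open Pool.Agent.Y696.CTK

/-- the products with the primes of a set -/
lemma prod_fam {K : Type} [Field K] [NumberField K] (j : Ei ≃+* 𝓞 K) {S : Finset (𝓞 K)}
    {m : 𝓞 K → ℕ} (hm : ∀ l ∈ S, m l < 3) :
    j (pD (fun t : {l : 𝓞 K // l ∈ S.filter fun l => m l ≠ 0} => j.symm t.1)
      (fun t => (m t.1 : ZMod 3))) = ∏ l ∈ S, l ^ m l := by
  unfold pD
  rw [map_prod]
  have h1 : ∏ l ∈ S, l ^ m l = ∏ l ∈ S.filter (fun l => m l ≠ 0), l ^ m l := by
    rw [Finset.prod_filter]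
    refine Finset.prod_congr rfl fun l _ => ?_
    by_cases h : m l = 0
    · rw [if_neg (by simpa using h), h, pow_zero]
    · rw [if_pos h]
  rw [h1, ← Finset.prod_coe_sort (S.filter fun l => m l ≠ 0) (fun l => l ^ m l)]
  refine Finset.prod_congr rfl fun t _ => ?_
  have h2 := (Finset.mem_filter.1 t.2)
  have h3 := hm t.1 h2.1
  have h4 : m t.1 = 1 ∨ m t.1 = 2 := by
    have := h2.2
    omega
  rw [cast_val h4, map_pow, RingEquiv.apply_symm_apply]

/-- the elements `j (pD π e)` are in the class -/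
lemma cls_of_dt {K : Type} [Field K] [NumberField K] (j : Ei ≃+* 𝓞 K)
    (hj : ∀ z : Ei, Algebra.norm ℤ (j z) = nr z) {J : Type} [Fintype J] {π : J → Ei}
    {e : J → ZMod 3} (hdt : Dt π e) (h9 : ¬ (9 : ℤ) ∣ nr (pD π e) - 1) :
    ClsC (j (pD π e)) := by
  refine ⟨?_, fun p hp hd => ?_, ?_⟩
  · have h1 := map_dvd j (pD_prim hdt).1
    rwa [map_sub, map_one, map_ofNat] at h1
  · have h1 := map_dvd j.symm hd
    rw [RingEquiv.symm_apply_apply, map_pow] at h1
    have h2 := (Pool.Agent.Y48.CT.SEL.cf_prod hdt e).2 _ h1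
    exact ((MulEquiv.prime_iff (j.symm : 𝓞 K ≃* Ei)).2 hp).not_isUnit h2
  · rw [hj]
    exact h9

/-- **The families.** For every good `D` and every prime divisor `π j₀` of `D` -/
theorem fam_dt {K : Type} [Field K] [NumberField K] (j : Ei ≃+* 𝓞 K)
    (hj : ∀ z : Ei, Algebra.norm ℤ (j z) = nr z) {J : Type} [Fintype J] {π : J → Ei}
    {e : J → ZMod 3} (hdt : Dt π e) (hk : Ker π e) (h9 : ¬ (9 : ℤ) ∣ nr (pD π e) - 1) (j₀ : J) :
    ∃ Q : Set (𝓞 K), Q.Infinite ∧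
      (∀ l ∈ Q, Prime l ∧ (3 : 𝓞 K) ∣ l - 1 ∧ (9 : ℤ) ∣ Algebra.norm ℤ l - 1 ∧
        ¬ l ∣ j (pD π e)) ∧
      ∀ S : Finset (𝓞 K), (∀ l ∈ S, l ∈ Q) → ∀ m : 𝓞 K → ℕ, (∀ l ∈ S, m l < 3) →
        ClsC (j (pD π e) * ∏ l ∈ S, l ^ m l) ∧ Tri (j (pD π e) * ∏ l ∈ S, l ^ m l) := by
  obtain ⟨f, hf, hfr⟩ := seq_ex hdt.pq hdt.nd j₀
  have hfinj : Function.Injective f := by
    intro a b hab
    by_contra hne
    exact (hfr a b hne).1 (by rw [hab])
  refine ⟨Set.range fun n => j (f n), Set.infinite_range_of_injective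
    (j.injective.comp hfinj), ?_, ?_⟩
  · rintro _ ⟨n, rfl⟩
    obtain ⟨h1, h2, h3, -⟩ := hf n
    refine ⟨(MulEquiv.prime_iff (j : Ei ≃* 𝓞 K)).2 h1.prime, ?_, ?_, fun hd => ?_⟩
    · have h4 := map_dvd j h1.three
      rwa [map_sub, map_one, map_ofNat] at h4
    · rw [hj]
      exact h2
    · have h4 : f n ∣ pD π e := (map_dvd_iff j).1 hd
      unfold pD at h4
      rw [h1.prime.dvd_finsetProd_iff] at h4
      obtain ⟨i, -, hi⟩ := h4
      exact h3 i (h1.prime.dvd_of_dvd_pow hi)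
  · intro S hS m hm
    set T := {l : 𝓞 K // l ∈ S.filter fun l => m l ≠ 0} with hT
    set F : T → Ei := fun t => j.symm t.1 with hF
    set M : T → ZMod 3 := fun t => (m t.1 : ZMod 3) with hM
    have hidx : ∀ t : T, ∃ n, F t = f n := by
      intro t
      obtain ⟨n, hn⟩ := hS t.1 (Finset.mem_filter.1 t.2).1
      refine ⟨n, ?_⟩
      show j.symm t.1 = f n
      rw [← hn]
      exact RingEquiv.symm_apply_apply j _
    choose a ha using hidx
    have hFinj : Function.Injective F := fun t t' h => Subtype.ext (j.symm.injective h)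
    have haa : ∀ t t', t ≠ t' → a t ≠ a t' := by
      intro t t' hne h
      apply hne
      apply hFinj
      rw [ha, ha, h]
    have hM0 : ∀ t, M t ≠ 0 := by
      intro t
      have h2 := (Finset.mem_filter.1 t.2)
      have h3 := hm t.1 h2.1
      have h4 : m t.1 = 1 ∨ m t.1 = 2 := by
        have := h2.2
        omega
      exact cast_ne h4
    have hdt' : Dt (Sum.elim π F) (Sum.elim e M) := by
      refine dt_sum hdt F M hM0 (fun t => ?_) (fun t i => ?_) (fun t t' hne => ?_)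
      · rw [ha]
        exact (hf _).1
      · rw [ha]
        exact (hf _).2.2.1 i
      · rw [ha, ha]
        exact (hfr _ _ (haa t t' hne)).1
    have hk' : Ker (Sum.elim π F) (Sum.elim e M) := by
      refine ker_sum hk j₀ (hdt.e0 j₀) F M (fun t i hi => ?_) (fun t => ?_) (fun t t' hne => ?_)
      · rw [ha]
        exact (hf _).2.2.2.1 i hi
      · rw [ha]
        exact (hf _).2.2.2.2.2
      · rw [ha, ha]
        exact (hfr _ _ (haa t t' hne)).2
    have e1 : j (pD (Sum.elim π F) (Sum.elim e M)) = j (pD π e) * ∏ l ∈ S, l ^ m l := by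
      rw [pD_sum, map_mul, prod_fam j hm]
    have h9' : ¬ (9 : ℤ) ∣ nr (pD (Sum.elim π F) (Sum.elim e M)) - 1 := by
      rw [pD_sum]
      refine nine_mul h9 (nine_pD F M fun t => ?_)
      rw [ha]
      exact (hf _).2.1
    rw [← e1]
    have : Nonempty (J ⊕ T) := ⟨Sum.inl j₀⟩
    exact ⟨cls_of_dt j hj hdt' h9', (tri_iffE j hdt' h9').2 hk'⟩

/-- **The families**, for elements of `𝓞 K` -/
theorem fam_K (K : Type) [Field K] [NumberField K] [IsCyclotomicExtension {3} ℚ K] (D : 𝓞 K)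
    (hD : ClsC D) (hT : Tri D) :
    ∃ Q : Set (𝓞 K), Q.Infinite ∧
      (∀ l ∈ Q, Prime l ∧ (3 : 𝓞 K) ∣ l - 1 ∧ (9 : ℤ) ∣ Algebra.norm ℤ l - 1 ∧ ¬ l ∣ D) ∧
      ∀ S : Finset (𝓞 K), (∀ l ∈ S, l ∈ Q) → ∀ m : 𝓞 K → ℕ, (∀ l ∈ S, m l < 3) →
        ClsC (D * ∏ l ∈ S, l ^ m l) ∧ Tri (D * ∏ l ∈ S, l ^ m l) := by
  obtain ⟨⟨j, hj⟩, hdisc⟩ := Pool.Agent.Y455.CTK.jex K
  obtain ⟨n, π, e, hdt, e1, hn, h9⟩ := cls_dt j hj hD
  rw [e1] at hT
  have hk := (tri_iffE j hdt h9).1 hT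
  rw [e1]
  exact fam_dt j hj hdt hk h9 hn.some

end Pool.Agent.X253.C3
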