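import Mathlib
import Pool.Agent.Y696.CTK.LK
import Pool.Agent.Y703.CT.AN1

/-!
# The `L`-function of `y² + D y = x³` over `ℚ(ω)`, `D` with arbitrary exponents

Adapted from `Pool.Agent.Y696.CTK.LK` (`D` squarefree).
-/

set_option autoImplicit false
set_option linter.unusedVariables false

namespace Pool.Agent.X253.C3

open NumberField IsDedekindDomain WeierstrassCurve
open Pool.Agent.W189.NF (aV eV redMap Ov mem_max_iff finite_res card_res redMap_eq_zero aLoc eLoc)
open Pool.Agent.H921R2.TatePole (nm two_le_nm)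
open Pool.Agent.Y715.T.Rs (eq0 eq0_coe card_quo)
open Pool.Agent.Y703.CT
open Pool.Agent.Y696 (HBd LSeries_hasProd')
open Pool.Agent.Y696.CT
open Pool.Agent.Y696.CTK
open Pool.Agent.Y692.QS hiding chi
open Pool.Agent.Y715.T.Rec (cs nn)
open Pool.Agent.Y715.T.RecG (Pq cs_spec)
open scoped Classical

variable {K : Type} [Field K] [NumberField K] (j : Ei ≃+* 𝓞 K)
variable {J : Type} [Fintype J] {π : J → Ei} {e : J → ZMod 3}

lemma val_cases {c : ZMod 3} (hc : c ≠ 0) : c.val = 1 ∨ c.val = 2 := by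
  revert hc
  revert c
  decide

lemma pD_split (π : J → Ei) (e : J → ZMod 3) (i : J) :
    pD π e = π i ^ (e i).val * ∏ l ∈ Finset.univ.erase i, π l ^ (e l).val := by
  unfold pD
  rw [Finset.mul_prod_erase _ (fun l => π l ^ (e l).val) (Finset.mem_univ i)]

/-- at the primes dividing `D` -/
theorem bad_De {P : HeightOneSpectrum Ei} (hdt : Dt π e) {i : J}
    (h : P.asIdeal = Ideal.span {π i}) :
    aV (ED (j (pD π e) : K)) (pK j P) = 0 ∧ eV (ED (j (pD π e) : K)) (pK j P) = 0 := by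
  have hi := hdt.pq i
  have hk := val_cases (hdt.e0 i)
  refine bad_of (t := j (π i))
    (r := -27 * (j (∏ l ∈ Finset.univ.erase i, π l ^ (e l).val)) ^ 4) (m := 4 * (e i).val) ?_
    (pK_span j h) (by rcases hk with h | h <;> rw [h] <;> norm_num) ?_ ?_
  · rw [Ne, map_eq_zero_iff j j.injective]
    exact hi.prime.ne_zero
  · intro h4
    rcases (pK j P).isPrime.mem_or_mem h4 with h5 | h5
    · have h6 : (-27 : 𝓞 K) = j (-(3 ^ 3)) := by
        rw [map_neg, map_pow, map_ofNat]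
        norm_num
      rw [h6, mem_pK, h, Ideal.mem_span_singleton, dvd_neg] at h5
      exact hi.norm (hi.prime.dvd_of_dvd_pow h5)
    · have h6 := (pK j P).isPrime.mem_of_pow_mem 4 h5
      rw [mem_pK, h, Ideal.mem_span_singleton, Prime.dvd_finsetProd_iff hi.prime] at h6
      obtain ⟨l, hl, h7⟩ := h6
      exact hdt.nd l i (Finset.ne_of_mem_erase hl) (hi.prime.dvd_of_dvd_pow h7)
  · rw [pD_split π e i, map_mul, map_pow, mul_pow, ← pow_mul, mul_comm (e i).val 4]
    ring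

/-- the factor of the Hecke `L`-function and its conjugate -/
theorem factorKe (hrec : S_REC) (hdt : Dt π e) (s : ℂ) (P : HeightOneSpectrum Ei) :
    HBd (aV (ED (j (pD π e) : K)) (pK j P))
      (eV (ED (j (pD π e) : K)) (pK j P)) (nm (pK j P)) ∧
    (1 - (aV (ED (j (pD π e) : K)) (pK j P) : ℂ) * (nm (pK j P) : ℂ) ^ (-s) +
      (eV (ED (j (pD π e) : K)) (pK j P) : ℂ) * ((nm (pK j P) : ℂ) ^ (-s)) ^ 2)⁻¹ =
    (1 - fI (gg π (fun i => -e i) s) P.asIdeal)⁻¹ *
      (starRingEnd ℂ) ((1 - fI (gg π (fun i => -e i) ((starRingEnd ℂ) s)) P.asIdeal)⁻¹) := by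
  have hbad : aV (ED (j (pD π e) : K)) (pK j P) = 0 ∧
      eV (ED (j (pD π e) : K)) (pK j P) = 0 →
      (∀ z, fI (gg π (fun i => -e i) z) P.asIdeal = 0) →
      HBd (aV (ED (j (pD π e) : K)) (pK j P))
      (eV (ED (j (pD π e) : K)) (pK j P)) (nm (pK j P)) ∧
    (1 - (aV (ED (j (pD π e) : K)) (pK j P) : ℂ) * (nm (pK j P) : ℂ) ^ (-s) +
      (eV (ED (j (pD π e) : K)) (pK j P) : ℂ) * ((nm (pK j P) : ℂ) ^ (-s)) ^ 2)⁻¹ =
    (1 - fI (gg π (fun i => -e i) s) P.asIdeal)⁻¹ *
      (starRingEnd ℂ) ((1 - fI (gg π (fun i => -e i) ((starRingEnd ℂ) s)) P.asIdeal)⁻¹) := by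
    rintro ⟨h1, h2⟩ h3
    refine ⟨Or.inl ⟨h1, h2⟩, ?_⟩
    rw [h1, h2, h3, h3]
    simp
  by_cases h3 : (3 : ℤ) ∣ nr (gn P.asIdeal)
  · refine hbad (bad_three j h3 (pD_prim hdt).1) fun z => ?_
    unfold fI
    rw [if_pos h3]
  · set α := ns (gn P.asIdeal) with hα
    have hs := span_ns h3
    rw [← hα] at hs
    have hpq := pq_ns h3
    rw [← hα] at hpq
    have hfI : ∀ g : Ei → ℂ, fI g P.asIdeal = g α := fun g => by
      rw [hs, fI_prim g hpq.three]
    by_cases hD : α ∣ pD π e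
    · obtain ⟨i, hi⟩ := dvd_pD hpq.prime hdt hD
      refine hbad (bad_De j hdt (i := i) ?_) fun z => ?_
      · rw [hs]
        exact Ideal.span_singleton_eq_span_singleton.2
          ((hdt.pq i).prime.associated_of_dvd hpq.prime hi).symm
      · rw [hfI]
        unfold gg
        rw [chD_bad hpq.prime hdt (Or.inl rfl) hD, mul_zero, zero_mul]
    · obtain ⟨v1, v2⟩ := good_val j hpq (pK_span j hs) hD
      have hnm := nm_nr j (pK_span j hs)
      set x := toC (w ^ (-cs α (pD π e)).val * α) with hx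
      have hxx : x * (starRingEnd ℂ) x = (nm (pK j P) : ℂ) := by
        rw [Complex.mul_conj, hx, toC_normSq, nr_mul]
        have h5 : nr (w ^ (-cs α (pD π e)).val) = 1 := by
          generalize -cs α (pD π e) = c
          revert c
          decide
        rw [h5, one_mul, ← hnm]
        push_cast
        rfl
      have hg : ∀ z, gg π (fun i => -e i) z α = x * (nm (pK j P) : ℂ) ^ (-z) := by
        intro z
        unfold gg
        have h6 := chD_prime hrec hdt (Or.inl rfl) hpq hD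
        rw [h6, ← hnm, hx, map_mul, map_pow]
        push_cast
        ring
      refine ⟨Or.inr ⟨x, v1, ?_, hxx⟩, ?_⟩
      · rw [v2, hxx]
      · rw [hfI, hfI, hg, hg, v1, v2, map_inv₀, map_sub, map_one, map_mul, conj_nat_cpow',
          map_neg, Complex.conj_conj, ← mul_inv]
        congr 1
        linear_combination (-(((nm (pK j P) : ℕ) : ℂ) ^ (-s)) ^ 2) * hxx

/-- the `L`-series -/
theorem LKe (hrec : S_REC) (hdt : Dt π e) {F : ℂ → ℂ} (hF : IsHL π (fun i => -e i) F) {s : ℂ}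
    (hs : 3 / 2 < s.re) :
    LSeriesSummable ((fun n : ℤ => (n : ℂ)) ∘ (ED (j (pD π e) : K)).LFunction) s ∧
      F s * (starRingEnd ℂ) (F ((starRingEnd ℂ) s)) = (ED (j (pD π e) : K)).LSeries s := by
  have hsc : 3 / 2 < ((starRingEnd ℂ) s).re := by rwa [Complex.conj_re]
  have h1 : HasSum (fun α : {α : Ei // (3 : Ei) ∣ α - 1} => gg π (fun i => -e i) s α) (F s) :=
    hF.2 s hs
  have h2 : HasSum (fun α : {α : Ei // (3 : Ei) ∣ α - 1} =>
      gg π (fun i => -e i) ((starRingEnd ℂ) s) α) (F ((starRingEnd ℂ) s)) := hF.2 _ hsc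
  have h3 := hasProd_Ei (gg_one hdt.pq _ s) (gg_mul hdt.pq _ s) h1
  have h4 := (hasProd_Ei (gg_one hdt.pq _ ((starRingEnd ℂ) s)) (gg_mul hdt.pq _ _) h2).map
    (starRingEnd ℂ) Complex.continuous_conj
  have h5 := h3.mul h4
  have hE : ∀ v : HeightOneSpectrum (𝓞 K), HBd (aV (ED (j (pD π e) : K)) v)
      (eV (ED (j (pD π e) : K)) v) (nm v) := by
    intro v
    obtain ⟨P, rfl⟩ := (eK j).surjective v
    exact (factorKe j hrec hdt s P).1
  obtain ⟨h6, h7⟩ := LSeries_hasProd' (ED (j (pD π e) : K)) hE hs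
  refine ⟨h6, ?_⟩
  have h8 := (eK j).hasProd_iff.2 h7
  refine h5.unique (h8.congr_fun fun P => ?_)
  exact ((factorKe j hrec hdt s P).2).symm

end Pool.Agent.X253.C3
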