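import Pool.Agent.Y350.CTK.Tam
import Pool.Agent.Y350.CTK.Loc
import Pool.Agent.Y891.CTK.E0
import Pool.Agent.Y703.CT.AN1
import Pool.Agent.X253.C3.Loc2
import Pool.Agent.X253.C3.Min3

/-!
# The Tamagawa numbers of `y² + D y = x³` over `ℚ(ω)`, `D` with arbitrary exponents

Adapted from `Pool.Agent.Y350.CTK.Tam` (`D` squarefree).
-/

set_option autoImplicit false
set_option linter.unusedSectionVars false

namespace Pool.Agent.X253.C3

open scoped Classical

open NumberField IsDedekindDomain WeierstrassCurve WithZero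
open Pool.Agent.Y692.QS (Ei w nr toC)
open Pool.Agent.Y715.T.RecG (Pq)
open Pool.Agent.Y703.CT
open Pool.Agent.Y696 (NonsingRed)
open Pool.Agent.Y696.CTK
open Pool.Agent.Y350.CTK
open Pool.Agent.Y350.CTK.Tam

variable {K : Type} [Field K] [NumberField K] (j : Ei ≃+* 𝓞 K)
variable {J : Type} [Fintype J] {π : J → Ei} {e : J → ZMod 3}

lemma pD_ne (hD : Dt π e) : pD π e ≠ 0 := by
  unfold pD
  exact Finset.prod_ne_zero_iff.2 fun i _ => pow_ne_zero _ (hD.pq i).prime.ne_zero

lemma val_D_one' {v : HeightOneSpectrum (𝓞 K)} (h : ∀ i, j (π i) ∉ v.asIdeal) :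
    v.intValuation (j (pD π e)) = 1 := by
  unfold pD
  rw [map_prod, map_prod]
  refine Finset.prod_eq_one fun i _ => ?_
  rw [map_pow, map_pow, HeightOneSpectrum.intValuation_eq_one_iff.2 (h i), one_pow]

lemma val_D_exp' (hD : Dt π e) (i : J) :
    (pl j (hD.pq i).prime).intValuation (j (pD π e)) = exp (-((e i).val : ℤ)) := by
  unfold pD
  rw [map_prod, map_prod, Finset.prod_eq_single i, map_pow, map_pow, pl_val, ← exp_nsmul]
  · congr 1
    simp
  · intro k _ hk
    have h1 : (pl j (hD.pq i).prime).intValuation (j (π k)) = 1 := by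
      rw [HeightOneSpectrum.intValuation_eq_one_iff, mem_pl]
      exact hD.nd k i hk
    rw [map_pow, map_pow, h1, one_pow]
  · intro h
    exact absurd (Finset.mem_univ i) h

lemma val_D_ge (hD : Dt π e) (v : HeightOneSpectrum (𝓞 K)) :
    exp (-2 : ℤ) ≤ v.intValuation (j (pD π e)) := by
  by_cases h : ∀ i, j (π i) ∉ v.asIdeal
  · rw [val_D_one' j h, ← exp_zero, exp_le_exp]
    norm_num
  · push Not at h
    obtain ⟨i, hi⟩ := h
    rw [eq_pl j (hD.pq i).prime hi, val_D_exp' j hD i, exp_le_exp]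
    have := ZMod.val_lt (e i)
    omega

lemma pl_inj' (hD : Dt π e) :
    Function.Injective fun i => pl j (hD.pq i).prime := by
  intro a b h
  by_contra hab
  have h1 : j (π a) ∈ (pl j (hD.pq b).prime).asIdeal := by
    have h2 : pl j (hD.pq a).prime = pl j (hD.pq b).prime := h
    rw [← h2, mem_pl]
  rw [mem_pl] at h1
  exact hD.nd a b hab h1

lemma pl_three' (hD : Dt π e) (i : J) : j 3 ∉ (pl j (hD.pq i).prime).asIdeal := by
  rw [mem_pl]
  exact (hD.pq i).norm

lemma val_casesT {c : ZMod 3} (hc : c ≠ 0) : c.val = 1 ∨ c.val = 2 := by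
  revert hc
  revert c
  decide

lemma idx_threeE {L : Type} [Field L] (v : Valuation L ℤᵐ⁰) {W : WeierstrassCurve L} {D : L}
    (hW : W = ED D) (h3 : v 3 = 1) {k : ℕ} (hk : k = 1 ∨ k = 2) (hv : v D = exp (-(k : ℤ)))
    (H : AddSubgroup W.toAffine.Point) (hH : ∀ P, P ∈ H ↔ NonsingRed v W P) : H.index = 3 := by
  subst hW
  rcases hk with h | h
  · rw [h] at hv
    exact td L v D h3 (by simpa using hv) H hH
  · rw [h] at hv
    exact td2 h3 (by simpa using hv) H hH

/-- **the Tamagawa numbers** -/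
theorem tamE (hD : Dt π e) (h9 : ¬ (9 : ℤ) ∣ nr (pD π e) - 1) :
    ∃ c : HeightOneSpectrum (𝓞 K) → ℕ, IsTam (ED (j (pD π e) : K)) c ∧
      ∃ m : ℕ, ¬ 3 ∣ m ∧ ∏ᶠ w, c w = 3 ^ Fintype.card J * m := by
  have hD0 : pD π e ≠ 0 := pD_ne hD
  have hjD0 : ((j (pD π e) : 𝓞 K) : K) ≠ 0 := by
    intro h
    have h1 : j (pD π e) = 0 := by
      apply RingOfIntegers.ext
      exact h
    exact hD0 ((map_eq_zero_iff j j.injective).1 h1)
  have hsub : ∀ v : HeightOneSpectrum (𝓞 K), ∃ H : AddSubgroup
      ((ED (j (pD π e) : K)).baseChange (v.adicCompletion K)).toAffine.Point,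
      ∀ P, P ∈ H ↔ NonsingRed Valued.v
        ((ED (j (pD π e) : K)).baseChange (v.adicCompletion K)) P := by
    intro v
    apply sub_ex Pool.Agent.Y891.CTK.e0k Valued.v (bc_ED _)
    · have h1 : (27 : v.adicCompletion K) * (algebraMap K (v.adicCompletion K)
          ((j (pD π e) : 𝓞 K) : K)) ^ 4 = algebraMap K (v.adicCompletion K)
          (27 * ((j (pD π e) : 𝓞 K) : K) ^ 4) := by
        rw [map_mul, map_pow, map_ofNat]
      rw [h1, map_ne_zero]
      exact mul_ne_zero (by norm_num) (pow_ne_zero _ hjD0)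
    · rw [val_eq]
      exact v.intValuation_le_one _
  choose H hH using hsub
  -- the indices
  have hA : (H (pl j te_prime)).index = 1 ∨ (H (pl j te_prime)).index = 2 ∨
      (H (pl j te_prime)).index = 4 := by
    obtain ⟨m, hm⟩ := (pD_prim hD).1
    have hm' : pD π e = 1 + 3 * m := by linear_combination hm
    refine idx_t t3 Valued.v (bc_ED _)
      (θ := algebraMap K ((pl j te_prime).adicCompletion K) ((j te : 𝓞 K) : K))
      (m := algebraMap K ((pl j te_prime).adicCompletion K) ((j m : 𝓞 K) : K)) ?_ ?_ ?_ ?_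
      (res j) _ (hH _)
    · have h1 : ((j te : 𝓞 K) : K) ^ 2 = -3 := by
        have h2 : (j te) ^ 2 = -3 := by rw [← map_pow, te_sq, map_neg, map_ofNat]
        have h3 := congrArg (algebraMap (𝓞 K) K) h2
        rw [map_pow, map_neg, map_ofNat] at h3
        exact h3
      rw [← map_pow, h1, map_neg, map_ofNat]
    · rw [val_eq, pl_val]
    · have h1 : ((j (pD π e) : 𝓞 K) : K) = 1 + 3 * ((j m : 𝓞 K) : K) := by
        have h2 : j (pD π e) = 1 + 3 * j m := by
          rw [hm', map_add, map_mul, map_one, map_ofNat]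
        have h3 := congrArg (algebraMap (𝓞 K) K) h2
        rw [map_add, map_mul, map_one, map_ofNat] at h3
        exact h3
      rw [h1, map_add, map_mul, map_one, map_ofNat]
    · apply val_one
      rw [mem_pl]
      rw [hm'] at h9
      exact te_m h9
  have hB : ∀ i, (H (pl j (hD.pq i).prime)).index = 3 := by
    intro i
    refine idx_threeE Valued.v (bc_ED _) ?_ (val_casesT (hD.e0 i)) ?_ _ (hH _)
    · rw [three_eq j]
      exact val_one _ (pl_three' j hD i)
    · rw [val_eq]
      exact val_D_exp' j hD i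
  have hC : ∀ v : HeightOneSpectrum (𝓞 K), j 3 ∉ v.asIdeal → (∀ i, j (π i) ∉ v.asIdeal) →
      (H v).index = 1 := by
    intro v h3 hi
    refine idx_one tg Valued.v (bc_ED _) ?_ ?_ _ (hH _)
    · rw [three_eq j]
      exact val_one _ h3
    · rw [val_eq]
      exact val_D_one' j hi
  -- the support
  have hsupp : Function.mulSupport (fun v => (H v).index) ⊆
      ((insert (pl j te_prime) (Finset.univ.image fun i => pl j (hD.pq i).prime) :
        Finset (HeightOneSpectrum (𝓞 K))) : Set (HeightOneSpectrum (𝓞 K))) := by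
    intro v hv
    rw [Function.mem_mulSupport] at hv
    by_contra hcon
    apply hv
    rw [Finset.mem_coe, Finset.mem_insert, Finset.mem_image, not_or] at hcon
    refine hC v (fun h => hcon.1 (three_mem j h)) fun i hi => hcon.2 ⟨i, Finset.mem_univ _, ?_⟩
    exact (eq_pl j (hD.pq i).prime hi).symm
  refine ⟨fun v => (H v).index, ⟨fun v => ⟨min3 j (pD_prim hD).1 (val_D_ge j hD) v, H v, hH v,
    rfl⟩, ?_⟩, (H (pl j te_prime)).index, ?_, ?_⟩
  · exact (Finset.finite_toSet _).subset hsupp
  · rcases hA with h | h | h <;> rw [h] <;> norm_num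
  · rw [finprod_eq_prod_of_mulSupport_subset _ hsupp, Finset.prod_insert, Finset.prod_image]
    · rw [Finset.prod_congr rfl fun i _ => hB i, Finset.prod_const, Finset.card_univ]
      ring
    · intro a _ b _ h
      exact pl_inj' j hD h
    · intro h
      rw [Finset.mem_image] at h
      obtain ⟨i, -, hi⟩ := h
      apply pl_three' j hD i
      rw [hi, mem_pl]
      exact ⟨-te, by linear_combination te_sq⟩

end Pool.Agent.X253.C3
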