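import Pool.Agent.X253.C3.TwL4
import Pool.Agent.X253.C3.Deg3
import Pool.Agent.X253.C3.Law

/-!
# The central value over `K(∛l : l ∈ S)`
-/

set_option autoImplicit false
set_option linter.unusedVariables false
set_option linter.unusedSectionVars false

namespace Pool.Agent.X253.C3

open Filter Complex NumberField IsDedekindDomain
open scoped Topology
open Pool.Agent.Y692.QS (Ei w nr toC toC_inj)
open Pool.Agent.H921R2.TatePole (nm two_le_nm nm_summable)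
open Pool.Agent.W189.NF (aV eV)
open Pool.Agent.TH841.NF.D (Sha)
open Pool.Agent.Y696 (HBd LSeries_hasProd')
open Pool.Agent.Y696.CTK
open scoped Classical

/-- the `L`-function of a twist -/
theorem LE {K : Type} [Field K] [NumberField K] (j : Ei ≃+* 𝓞 K)
    (hj : ∀ z : Ei, Algebra.norm ℤ (j z) = nr z) (hdisc : discr K = -3) {a : Ei}
    (hC : ClsC (j a)) (hT : Tri (j a)) :
    (∀ v, HBd (aV (ED (j a : K)) v) (eV (ED (j a : K)) v) (nm v)) ∧
    ∃ Lf : ℂ → ℂ, Differentiable ℂ Lf ∧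
      (∀ s : ℂ, 3 / 2 < s.re → HasProd (fE j a s) (Lf s)) ∧ Lf 1 ≠ 0 := by
  obtain ⟨n, π, e, hdt, e1, hn, h9⟩ := cls_dt j hj hC
  have e2 : a = Pool.Agent.Y703.CT.pD π e := j.injective e1
  subst e2
  have hE : ∀ v, HBd (aV (ED (j (Pool.Agent.Y703.CT.pD π e) : K)) v)
      (eV (ED (j (Pool.Agent.Y703.CT.pD π e) : K)) v) (nm v) := by
    intro v
    obtain ⟨P, rfl⟩ := (eK j).surjective v
    exact (factorKe j Pool.Agent.Y350.CT.rec hdt 0 P).1
  refine ⟨hE, ?_⟩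
  obtain ⟨h1, h2, Lf, c, h3, h4, h5, h6, h7⟩ := law_ofE j hdisc hdt h9
  refine ⟨Lf, h3, fun s hs => ?_, h5 hT⟩
  obtain ⟨h8, h10⟩ := LSeries_hasProd' (ED (j (Pool.Agent.Y703.CT.pD π e) : K)) hE hs
  have h11 := (eK j).hasProd_iff.2 h10
  have h12 : Lf s = (ED (j (Pool.Agent.Y703.CT.pD π e) : K)).LSeries s := (h4 s hs).2
  rw [h12]
  exact h11

/-- **The towers, with the central value** -/
theorem towerL (K : Type) [Field K] [NumberField K] [IsCyclotomicExtension {3} ℚ K] (D : 𝓞 K)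
    (hD : ClsC D) (hT : Tri D) :
    ∃ Q : Set (𝓞 K), Q.Infinite ∧
      (∀ l ∈ Q, Prime l ∧ (3 : 𝓞 K) ∣ l - 1 ∧ (9 : ℤ) ∣ Algebra.norm ℤ l - 1 ∧ ¬ l ∣ D) ∧
      ∀ S : Finset (𝓞 K), (∀ l ∈ S, l ∈ Q) →
        (∀ m : 𝓞 K → ℕ, (∀ l ∈ S, m l < 3) → ClsC (D * ∏ l ∈ S, l ^ m l) ∧
          Tri (D * ∏ l ∈ S, l ^ m l)) ∧
        ∀ (F : Type) [Field F] [NumberField F] [Algebra K F] (r : 𝓞 K → F),
          (∀ l ∈ S, r l ^ 3 = algebraMap K F l) →
          (∀ L : Subfield F, (∀ k : K, algebraMap K F k ∈ L) → (∀ l ∈ S, r l ∈ L) → L = ⊤) →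
          Module.finrank K F = 3 ^ S.card ∧
          Finite (Ec (algebraMap K F D)).toAffine.Point ∧
          (∀ (k : ℕ) (y : Sha (Ec (algebraMap K F D))), 3 ^ k • y = 0 → 3 ^ S.card • y = 0) ∧
          ∃ L : ℂ → ℂ, Differentiable ℂ L ∧ (∀ s : ℂ, 3 / 2 < s.re →
            HasProd (fun v : {v : HeightOneSpectrum (𝓞 F) //
              algebraMap (𝓞 K) (𝓞 F) (3 * D * ∏ l ∈ S, l) ∉ v.asIdeal} =>
              EF (algebraMap (𝓞 K) (𝓞 F) D) s v.1) (L s)) ∧ L 1 ≠ 0 := by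
  obtain ⟨⟨j, hj⟩, hdisc⟩ := Pool.Agent.Y455.CTK.jex K
  obtain ⟨Q, hQ1, hQ2, hQ3⟩ := tower3 K D hD hT
  refine ⟨Q, hQ1, hQ2, fun S hS => ⟨(hQ3 S hS).1, fun F _ _ _ r hr hgen => ?_⟩⟩
  obtain ⟨htw, hF⟩ := hQ3 S hS
  obtain ⟨hdeg, hfin, hsha⟩ := hF F r hr hgen
  refine ⟨hdeg, hfin, hsha, ?_⟩
  set T := {l : 𝓞 K // l ∈ S} with hTdef
  have hcard : Fintype.card T = S.card := Fintype.card_coe S
  set l : T → Ei := fun i => j.symm i.1 with hl
  have hjl : ∀ i, j (l i) = i.1 := fun i => j.apply_symm_apply i.1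
  set D₀ : Ei := j.symm D with hD₀
  have hjD : j D₀ = D := j.apply_symm_apply D
  -- the twists
  have hja : ∀ ε : T → Fin 3, j (aE D₀ l ε) =
      D * ∏ l ∈ S, l ^ (if h : l ∈ S then (ε ⟨l, h⟩ : ℕ) else 0) := by
    intro ε
    unfold aE
    rw [map_mul, hjD, map_prod]
    congr 1
    rw [← Finset.prod_coe_sort S]
    refine Finset.prod_congr rfl fun i _ => ?_
    rw [dif_pos i.2, map_pow, hjl]
  have hboth : ∀ ε : T → Fin 3, ClsC (j (aE D₀ l ε)) ∧ Tri (j (aE D₀ l ε)) := by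
    intro ε
    rw [hja]
    refine htw (fun l => if h : l ∈ S then (ε ⟨l, h⟩ : ℕ) else 0) fun l hl => ?_
    show (if h : l ∈ S then (ε ⟨l, h⟩ : ℕ) else 0) < 3
    rw [dif_pos hl]
    exact (ε ⟨l, hl⟩).2
  have hLE : ∀ ε : T → Fin 3, _ := fun ε => LE j hj hdisc (hboth ε).1 (hboth ε).2
  have hHB : ∀ ε v, HBd (aV (ED (j (aE D₀ l ε) : K)) v) (eV (ED (j (aE D₀ l ε) : K)) v) (nm v) :=
    fun ε => (hLE ε).1
  choose Lf hL1 hL2 hL3 using fun ε => (hLE ε).2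
  -- the roots
  have hint : ∀ i : T, _root_.IsIntegral ℤ (r i.1) := by
    intro i
    have h1 : _root_.IsIntegral ℤ ((r i.1) ^ 3) := by
      rw [hr i.1 i.2]
      exact (RingOfIntegers.isIntegral_coe i.1).map (algebraMap K F).toIntAlgHom
    exact _root_.IsIntegral.of_pow (by norm_num) h1
  set x : T → 𝓞 F := fun i => ⟨r i.1, hint i⟩ with hx
  have hxc : ∀ i, ((x i : 𝓞 F) : F) = r i.1 := fun i => rfl
  set ι : Ei →+* 𝓞 F := (algebraMap (𝓞 K) (𝓞 F)).comp (j : Ei →+* 𝓞 K) with hι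
  have hιa : ∀ a, ((ι a : 𝓞 F) : F) = algebraMap K F ((j a : 𝓞 K) : K) := fun a => rfl
  have hx3 : ∀ i, x i ^ 3 = ι (l i) := by
    intro i
    have h1 : ((x i ^ 3 : 𝓞 F) : F) = ((ι (l i) : 𝓞 F) : F) := by
      have h2 : ((x i ^ 3 : 𝓞 F) : F) = r i.1 ^ 3 := map_pow (algebraMap (𝓞 F) F) _ _
      rw [h2, hr i.1 i.2, hιa, hjl]
    exact RingOfIntegers.coe_injective h1
  have hl0 : ∀ i, l i ≠ 0 := by
    intro i h0
    have h1 := hjl i
    rw [h0, map_zero] at h1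
    exact (hQ2 i.1 (hS _ i.2)).1.ne_zero h1.symm
  have hgen' : ∀ L : Subfield F, (∀ k : K, algebraMap K F k ∈ L) →
      (∀ i, ((x i : 𝓞 F) : F) ∈ L) → L = ⊤ :=
    fun L h1 h2 => hgen L h1 fun l hl => h2 ⟨l, hl⟩
  -- the bad places
  set M : Ei := 3 * D₀ * ∏ i, l i with hM
  have hjM : j M = 3 * D * ∏ l ∈ S, l := by
    rw [hM, map_mul, map_mul, hjD, map_ofNat, map_prod]
    congr 1
    rw [← Finset.prod_coe_sort S]
    exact Finset.prod_congr rfl fun i _ => hjl i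
  have hD0 : D ≠ 0 := by
    intro h0
    obtain ⟨l, hl⟩ := hQ1.nonempty
    exact (hQ2 l hl).2.2.2 (h0 ▸ dvd_zero _)
  have hM0 : M ≠ 0 := by
    intro h0
    rw [h0, map_zero] at hjM
    have h1 : (3 * D * ∏ l ∈ S, l : 𝓞 K) ≠ 0 := by
      refine mul_ne_zero (mul_ne_zero (by norm_num) hD0) ?_
      exact Finset.prod_ne_zero_iff.2 fun l hl => (hQ2 l (hS l hl)).1.ne_zero
    exact h1 hjM.symm
  have hBf := bad_finite hM0
  set B : Finset (HeightOneSpectrum Ei) := hBf.toFinset with hB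
  have hBm : ∀ P, P ∈ B ↔ M ∈ P.asIdeal := fun P => by
    rw [hB, Set.Finite.mem_toFinset]
    rfl
  -- the function
  refine ⟨fun s => ∏ ε : T → Fin 3, (Lf ε s * ∏ P ∈ B,
    (1 - (aV (ED (j (aE D₀ l ε) : K)) (pK j P) : ℂ) * (nm (pK j P) : ℂ) ^ (-s) +
      (eV (ED (j (aE D₀ l ε) : K)) (pK j P) : ℂ) * ((nm (pK j P) : ℂ) ^ (-s)) ^ 2)), ?_, ?_, ?_⟩
  · refine Differentiable.fun_finsetProd fun ε _ => (hL1 ε).mul ?_
    refine Differentiable.fun_finsetProd fun P _ => ?_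
    have hq : ((nm (pK j P) : ℕ) : ℂ) ≠ 0 := by
      have := two_le_nm (pK j P)
      have h1 : nm (pK j P) ≠ 0 := by omega
      exact_mod_cast h1
    have h1 : Differentiable ℂ (fun s : ℂ => ((nm (pK j P) : ℕ) : ℂ) ^ (-s)) :=
      differentiable_id.neg.const_cpow (Or.inl hq)
    exact ((differentiable_const _).sub (h1.const_mul _)).add ((h1.pow 2).const_mul _)
  · intro s hs
    have hne : ∀ ε P, fE j (aE D₀ l ε) s P ≠ 0 := fun ε P =>
      inv_ne_zero (hbd_ne (hHB ε _) (two_le_nm _) (by linarith))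
    have key := eul3 j ι hιa l hl0 x hx3 hgen' (by rw [hdeg, hcard]) (M := M) (D := D₀)
      (by rw [hM, mul_assoc]; exact dvd_mul_right _ _)
      (by rw [hM]; exact Dvd.dvd.mul_right (dvd_mul_left _ _) _)
      (fun i => by
        rw [hM]
        exact Dvd.dvd.mul_left (Finset.dvd_prod_of_mem _ (Finset.mem_univ i)) _)
      hs B hBm (fun ε => Lf ε s) (fun ε => hL2 ε s hs) hne
    have hιM : ι M = algebraMap (𝓞 K) (𝓞 F) (3 * D * ∏ l ∈ S, l) := by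
      rw [← hjM]
      rfl
    have hιD : ι D₀ = algebraMap (𝓞 K) (𝓞 F) D := by
      conv_rhs => rw [← hjD]
      rfl
    rw [hιM, hιD] at key
    convert key using 1
    refine Finset.prod_congr ?_ fun ε _ => ?_
    · ext
      simp
    · congr 1
      refine Finset.prod_congr rfl fun P _ => ?_
      unfold fE
      rw [inv_inv]
  · show (∏ ε : T → Fin 3, (Lf ε 1 * ∏ P ∈ B, _)) ≠ 0
    refine Finset.prod_ne_zero_iff.2 fun ε _ => mul_ne_zero (hL3 ε) ?_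
    refine Finset.prod_ne_zero_iff.2 fun P _ => ?_
    exact hbd_ne (hHB ε _) (two_le_nm _) (by rw [Complex.one_re]; norm_num)

end Pool.Agent.X253.C3
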