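import Pool.Agent.X253.C3.Eq3

/-!
# The equivariant statement over `K(∛l : l ∈ S)`
-/

set_option autoImplicit false
set_option linter.unusedVariables false
set_option linter.unusedSectionVars false

namespace Pool.Agent.X253.C3

open NumberField IsDedekindDomain
open Pool.Agent.Y692.QS (Ei w nr toC toC_inj ns)
open Pool.Agent.Y715.T.Rec (cs nn)
open Pool.Agent.Y715.T.RecG (Pq cs_spec cs_uniq)
open Pool.Agent.H921R2.TatePole (nm two_le_nm)
open Pool.Agent.Y696.CTK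
open scoped Classical

lemma toCw_pow_mul (c : ZMod 3) : (toC w) ^ c.val * toC (w ^ (-c).val) = 1 := by
  rw [← map_pow, ← map_mul]
  have h : ∀ c : ZMod 3, (w : Ei) ^ c.val * w ^ (-c).val = 1 := by decide
  rw [h, map_one]

lemma chi_uu {T : Type} [Fintype T] (l : T → Ei) (m : T → Fin 3) (z : Ei) :
    ∏ i, ((toC w) ^ (cs z (l i)).val) ^ ((m i : Fin 3) : ℕ) = (uu l m z)⁻¹ := by
  unfold uu uz
  rw [← Finset.prod_inv_distrib]
  refine Finset.prod_congr rfl fun i _ => ?_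
  rw [← inv_pow]
  congr 1
  exact eq_inv_of_mul_eq_one_left (toCw_pow_mul _)

/-- **The equivariant towers** -/
theorem towerEq (K : Type) [Field K] [NumberField K] [IsCyclotomicExtension {3} ℚ K] (D : 𝓞 K)
    (hD : ClsC D) (hT : Tri D) :
    ∃ Q : Set (𝓞 K), Q.Infinite ∧
      (∀ l ∈ Q, Prime l ∧ (3 : 𝓞 K) ∣ l - 1 ∧ (9 : ℤ) ∣ Algebra.norm ℤ l - 1 ∧ ¬ l ∣ D) ∧
      ∀ S : Finset (𝓞 K), (∀ l ∈ S, l ∈ Q) →
        ∀ (F : Type) [Field F] [NumberField F] [Algebra K F] (r : 𝓞 K → F),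
          (∀ l ∈ S, r l ^ 3 = algebraMap K F l) →
          (∀ L : Subfield F, (∀ k : K, algebraMap K F k ∈ L) → (∀ l ∈ S, r l ∈ L) → L = ⊤) →
          Module.finrank K F = 3 ^ S.card ∧ IsGalois K F ∧
          (∀ σ τ : F ≃ₐ[K] F, σ * τ = τ * σ) ∧
          Finite (Ec (algebraMap K F D)).toAffine.Point ∧
          ∀ χ : (F ≃ₐ[K] F) →* ℂˣ, ∃ (c : HeightOneSpectrum (𝓞 K) → ℂ) (L : ℂ → ℂ),
            (∀ v : HeightOneSpectrum (𝓞 K), (3 * D * ∏ l ∈ S, l : 𝓞 K) ∉ v.asIdeal →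
              (∃ u σ, IsFrob (F := F) σ v u) ∧ ∀ u σ, IsFrob σ v u → ((χ σ : ℂˣ) : ℂ) = c v) ∧
            Differentiable ℂ L ∧ L 1 ≠ 0 ∧ ∀ s : ℂ, 3 / 2 < s.re →
              HasProd (fun v : {v : HeightOneSpectrum (𝓞 K) //
                (3 * D * ∏ l ∈ S, l : 𝓞 K) ∉ v.asIdeal} => TF D (c v.1) s v.1) (L s) := by
  obtain ⟨⟨j, hj⟩, hdisc⟩ := Pool.Agent.Y455.CTK.jex K
  obtain ⟨Q, hQ1, hQ2, hQ3⟩ := tower3 K D hD hT
  refine ⟨Q, hQ1, hQ2, fun S hS F _ _ _ r hr hgen => ?_⟩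
  obtain ⟨htw, hF⟩ := hQ3 S hS
  obtain ⟨hdeg, hfin, hsha⟩ := hF F r hr hgen
  set T := {l : 𝓞 K // l ∈ S} with hTdef
  have hcard : Fintype.card T = S.card := Fintype.card_coe S
  set l : T → Ei := fun i => j.symm i.1 with hl
  have hjl : ∀ i, j (l i) = i.1 := fun i => j.apply_symm_apply i.1
  set D₀ : Ei := j.symm D with hD₀
  have hjD : j D₀ = D := j.apply_symm_apply D
  -- the twists
  have hja : ∀ ε : T → Fin 3, j (aE D₀ l ε) =
      D * ∏ l ∈ S, l ^ (if h : l ∈ S then (ε ⟨l, h⟩ : ℕ) else 0) := by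
    intro ε
    unfold aE
    rw [map_mul, hjD, map_prod]
    congr 1
    rw [← Finset.prod_coe_sort S]
    refine Finset.prod_congr rfl fun i _ => ?_
    rw [dif_pos i.2, map_pow, hjl]
  have hboth : ∀ ε : T → Fin 3, ClsC (j (aE D₀ l ε)) ∧ Tri (j (aE D₀ l ε)) := by
    intro ε
    rw [hja]
    refine htw (fun l => if h : l ∈ S then (ε ⟨l, h⟩ : ℕ) else 0) fun l hl => ?_
    show (if h : l ∈ S then (ε ⟨l, h⟩ : ℕ) else 0) < 3
    rw [dif_pos hl]
    exact (ε ⟨l, hl⟩).2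
  choose Fh xh k1 k2 k3 k4 k5 using fun ε : T → Fin 3 =>
    heckeE j hj (hboth ε).1 (hboth ε).2
  -- the roots
  have hint : ∀ i : T, _root_.IsIntegral ℤ (r i.1) := by
    intro i
    have h1 : _root_.IsIntegral ℤ ((r i.1) ^ 3) := by
      rw [hr i.1 i.2]
      exact (RingOfIntegers.isIntegral_coe i.1).map (algebraMap K F).toIntAlgHom
    exact _root_.IsIntegral.of_pow (by norm_num) h1
  set x : T → 𝓞 F := fun i => ⟨r i.1, hint i⟩ with hx
  have hxc : ∀ i, ((x i : 𝓞 F) : F) = r i.1 := fun i => rfl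
  have hx3 : ∀ i, x i ^ 3 = algebraMap (𝓞 K) (𝓞 F) (j (l i)) := by
    intro i
    have h1 : ((x i ^ 3 : 𝓞 F) : F) = ((algebraMap (𝓞 K) (𝓞 F) (j (l i)) : 𝓞 F) : F) := by
      have h2 : ((x i ^ 3 : 𝓞 F) : F) = r i.1 ^ 3 := map_pow (algebraMap (𝓞 F) F) _ _
      rw [h2, hr i.1 i.2, hjl]
      rfl
    exact RingOfIntegers.coe_injective h1
  have hgen' : ∀ L : Subfield F, (∀ k : K, algebraMap K F k ∈ L) →
      (∀ i, ((x i : 𝓞 F) : F) ∈ L) → L = ⊤ :=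
    fun L h1 h2 => hgen L h1 fun l hl => h2 ⟨l, hl⟩
  set I : K := ((j w : 𝓞 K) : K) with hI
  have hI2 : I ^ 2 + I + 1 = 0 := by
    have h1 : (w : Ei) ^ 2 + w + 1 = 0 := by decide
    have h2 := congrArg (fun t : Ei => ((j t : 𝓞 K) : K)) h1
    simp only [map_add, map_pow, map_one, map_zero] at h2
    exact h2
  have hprime : ∀ i : T, Prime i.1 := fun i => (hQ2 i.1 (hS _ i.2)).1
  have hassoc : ∀ i k : T, i ≠ k → ¬ i.1 ∣ k.1 := by
    intro i k hik hdvd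
    apply hik
    apply Subtype.ext
    have h1 : Associated i.1 k.1 := (hprime i).associated_of_dvd (hprime k) hdvd
    have h2 : Associated (j.symm i.1) (j.symm k.1) := h1.map (j.symm : 𝓞 K →* Ei)
    have h3 : ∀ i : T, (3 : Ei) ∣ j.symm i.1 - 1 := by
      intro i
      have h4 := (hQ2 i.1 (hS _ i.2)).2.1
      have h5 := map_dvd j.symm h4
      rwa [map_sub, map_one, map_ofNat] at h5
    have h6 := (Pool.Agent.Y696.CT.ns_of_assoc h2).1
    rw [Pool.Agent.Y696.CT.ns_of_prim (h3 i), Pool.Agent.Y696.CT.ns_of_prim (h3 k)] at h6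
    exact j.symm.injective h6
  have hxF : ∀ i : T, ((x i : 𝓞 F) : F) ^ 3 = algebraMap K F ((i.1 : 𝓞 K) : K) :=
    fun i => hr i.1 i.2
  have hgal : IsGalois K F := galois3 I hI2 (fun i : T => ((i.1 : 𝓞 K) : K))
    (fun i => ((x i : 𝓞 F) : F)) hxF hgen'
  obtain ⟨Φ, hΦ⟩ := galPhi I hI2 (fun i : T => i.1) hprime hassoc (fun i => ((x i : 𝓞 F) : F)) hxF
    hgen'
  refine ⟨hdeg, hgal, fun σ τ => ?_, hfin, fun χ => ?_⟩
  · have h1 : Φ (Additive.ofMul (σ * τ)) = Φ (Additive.ofMul (τ * σ)) := by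
      rw [ofMul_mul, ofMul_mul, map_add, map_add, add_comm]
    exact Additive.ofMul.injective (Φ.injective h1)
  obtain ⟨m, hm⟩ := charPhi Φ χ
  -- the bad places
  set M : Ei := 3 * D₀ * ∏ i, l i with hM
  have hjM : j M = 3 * D * ∏ l ∈ S, l := by
    rw [hM, map_mul, map_mul, hjD, map_ofNat, map_prod]
    congr 1
    rw [← Finset.prod_coe_sort S]
    exact Finset.prod_congr rfl fun i _ => hjl i
  have hD0 : D ≠ 0 := by
    intro h0
    obtain ⟨l, hl⟩ := hQ1.nonempty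
    exact (hQ2 l hl).2.2.2 (h0 ▸ dvd_zero _)
  have hM0 : M ≠ 0 := by
    intro h0
    rw [h0, map_zero] at hjM
    have h1 : (3 * D * ∏ l ∈ S, l : 𝓞 K) ≠ 0 := by
      refine mul_ne_zero (mul_ne_zero (by norm_num) hD0) ?_
      exact Finset.prod_ne_zero_iff.2 fun l hl => (hQ2 l (hS l hl)).1.ne_zero
    exact h1 hjM.symm
  have h3M : (3 : Ei) ∣ M := by rw [hM, mul_assoc]; exact dvd_mul_right _ _
  have hDM : D₀ ∣ M := by rw [hM]; exact Dvd.dvd.mul_right (dvd_mul_left _ _) _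
  have hlM : ∀ i, l i ∣ M := fun i => by
    rw [hM]
    exact Dvd.dvd.mul_left (Finset.dvd_prod_of_mem _ (Finset.mem_univ i)) _
  -- the values at Frobenius
  have hval : ∀ P z, Pq z → P.asIdeal = Ideal.span {z} → ¬ z ∣ M →
      ∀ (u : HeightOneSpectrum (𝓞 F)) (σ : F ≃ₐ[K] F), IsFrob σ (pK j P) u →
        ((χ σ : ℂˣ) : ℂ) = (uu l m z)⁻¹ := by
    intro P z hz hP hzM u σ hσ
    have hzl : ∀ i, ¬ z ∣ l i := fun i h => hzM (h.trans (hlM i))
    rw [hm σ, ← chi_uu]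
    refine Finset.prod_congr rfl fun i _ => ?_
    rw [frob_act j l x hx3 hz hP hzl hσ (hΦ σ i)]
  have hexF : ∀ v : HeightOneSpectrum (𝓞 K), ∃ (u : HeightOneSpectrum (𝓞 F)) (σ : F ≃ₐ[K] F),
      IsFrob σ v u := exists_frob
  choose uF σF hσF using hexF
  obtain ⟨L, hL1, hL2, hL3⟩ := twistE j m hM0 h3M hDM hlM (k1 m) (k2 m) (k3 m) (k4 m) (k5 m)
    (k1 (-m)) (k2 (-m)) (k3 (-m)) (k4 (-m)) (k5 (-m)) (fun v => ((χ (σF v) : ℂˣ) : ℂ))
    (fun P z hz hP hzM => hval P z hz hP hzM _ _ (hσF _))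
  refine ⟨fun v => ((χ (σF v) : ℂˣ) : ℂ), L, fun v hv => ⟨⟨uF v, σF v, hσF v⟩, fun u σ hσ => ?_⟩,
    hL1, hL2, fun s hs => ?_⟩
  · obtain ⟨P, rfl⟩ := (eK j).surjective v
    have hMP : M ∉ P.asIdeal := by
      intro h
      apply hv
      rw [← hjM]
      exact (mem_pK j P M).2 h
    obtain ⟨h1, h2⟩ := zz_spec h3M hMP
    have h4 : ¬ zz P ∣ M := by
      intro h
      apply hMP
      rw [h2, Ideal.mem_span_singleton]
      exact h
    show _ = ((χ (σF (pK j P)) : ℂˣ) : ℂ)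
    rw [hval P (zz P) h1 h2 h4 u σ hσ, hval P (zz P) h1 h2 h4 _ _ (hσF (pK j P))]
  · have key := hL3 s hs
    rw [hjM, hjD] at key
    exact key

end Pool.Agent.X253.C3
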