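import Pool.Agent.X253.C3.Rep8

/-!
# The towers over `ℚ`
-/

set_option autoImplicit false
set_option linter.unusedVariables false
set_option linter.unusedSectionVars false

namespace Pool.Agent.X253.C3

open NumberField IsDedekindDomain WeierstrassCurve
open Pool.Agent.Y692.QS (Ei w nr toC toC_inj ns mul_star toC_normSq)
open Pool.Agent.Y715.T.RecG (Pq cs_spec cs_uniq)
open Pool.Agent.Y703.CT (WD Cls NoSplit IsL)
open Pool.Agent.Y703.CT
open Pool.Agent.W97.MT (ap)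
open scoped Classical

/-- the field `ℚ(ω)` inside `F` -/
theorem sub_field {F : Type} [Field F] [NumberField F] {J : F} (hJ2 : J ^ 2 + J + 1 = 0) :
    ∃ (K : Type) (_ : Field K) (_ : NumberField K) (_ : Algebra K F) (j : Ei ≃+* 𝓞 K),
      Module.finrank ℚ K = 2 ∧
      (algebraMap K F ((j w : 𝓞 K) : K) = J ∨ algebraMap K F ((j w : 𝓞 K) : K) = J ^ 2) := by
  have h3 := J3 hJ2
  have hJ1 : J ≠ 1 := by
    rintro rfl
    norm_num at hJ2
  have hprim : IsPrimitiveRoot J 3 := by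
    have h1 : orderOf J = 3 := by
      have hp : Fact (Nat.Prime 3) := ⟨Nat.prime_three⟩
      exact orderOf_eq_prime h3 hJ1
    rw [← h1]
    exact IsPrimitiveRoot.orderOf J
  have hc := hprim.intermediateField_adjoin_isCyclotomicExtension ℚ
  refine ⟨IntermediateField.adjoin ℚ {J}, inferInstance, inferInstance, inferInstance, ?_⟩
  have hc' : @IsCyclotomicExtension {3} ℚ (IntermediateField.adjoin ℚ {J}) _ _
      DivisionRing.toRatAlgebra := by
    have hsub : (DivisionRing.toRatAlgebra : Algebra ℚ (IntermediateField.adjoin ℚ {J})) =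
        (IntermediateField.adjoin ℚ {J}).algebra' := Subsingleton.elim _ _
    rw [hsub]
    exact hc
  obtain ⟨⟨j, hj⟩, -⟩ := Pool.Agent.Y455.CTK.jex (IntermediateField.adjoin ℚ {J})
  refine ⟨j, ?_, ?_⟩
  · rw [IsCyclotomicExtension.finrank (n := 3) (IntermediateField.adjoin ℚ {J})
      (Polynomial.cyclotomic.irreducible_rat (by norm_num))]
    rfl
  · set I := ((j w : 𝓞 (IntermediateField.adjoin ℚ {J})) : (IntermediateField.adjoin ℚ {J}))
      with hI
    have hI2 : I ^ 2 + I + 1 = 0 := by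
      have h1 : (w : Ei) ^ 2 + w + 1 = 0 := by decide
      have h2 := congrArg (fun t : Ei => ((j t : 𝓞 (IntermediateField.adjoin ℚ {J})) :
        (IntermediateField.adjoin ℚ {J}))) h1
      simp only [map_add, map_pow, map_one, map_zero] at h2
      exact h2
    set A : F := algebraMap _ F I with hA
    have hA2 : A ^ 2 + A + 1 = 0 := by
      rw [hA, ← map_pow, ← map_one (algebraMap (IntermediateField.adjoin ℚ {J}) F), ← map_add,
        ← map_add, hI2, map_zero]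
    have h4 : (A - J) * (A - J ^ 2) = 0 := by
      linear_combination hA2 + (-1 + J - A) * hJ2
    rcases mul_eq_zero.1 h4 with h | h
    · exact Or.inl (sub_eq_zero.1 h)
    · exact Or.inr (sub_eq_zero.1 h)

/-- **The main theorem over `ℚ`.** -/
theorem towerQ {D : ℕ} (hD : Cls D) (hN : NoSplit D) :
    ∃ Q : Set ℕ, Q.Infinite ∧ (∀ p ∈ Q, p.Prime ∧ p % 9 = 1 ∧ ¬ p ∣ D) ∧
      ∀ S : Finset ℕ, (∀ p ∈ S, p ∈ Q) →
        ∀ (F : Type) [Field F] [NumberField F] (J : F) (r : ℕ → F), J ^ 2 + J + 1 = 0 →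
          (∀ p ∈ S, r p ^ 3 = (p : F)) →
          (∀ L : Subfield F, J ∈ L → (∀ p ∈ S, r p ∈ L) → L = ⊤) →
          Module.finrank ℚ F = 2 * 3 ^ S.card ∧ IsGalois ℚ F ∧
          Finite (Ec ((D : ℕ) : F)).toAffine.Point ∧
          (∀ p : ℕ, p.Prime → ∃ (u : HeightOneSpectrum (𝓞 F)) (σ : F ≃ₐ[ℚ] F), IsFrobQ σ p u) ∧
          ∀ (V : Type) [AddCommGroup V] [Module ℂ V] [FiniteDimensional ℂ V]
            (ρ : (F ≃ₐ[ℚ] F) →* Module.End ℂ V),
            ∃ L : ℂ → ℂ, Differentiable ℂ L ∧ L 1 ≠ 0 ∧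
              ∀ σ : ℕ → (F ≃ₐ[ℚ] F),
                (∀ p : ℕ, p.Prime → ¬ p ∣ 3 * D * ∏ q ∈ S, q → ∃ u, IsFrobQ (σ p) p u) →
                ∀ s : ℂ, 3 / 2 < s.re →
                  HasProd (fun p : {p : Nat.Primes // ¬ (p : ℕ) ∣ 3 * D * ∏ q ∈ S, q} =>
                    LFac ρ (σ p.1) (ap (WD (D : ℤ)) (p.1 : ℕ)) (p.1 : ℕ) s) (L s) := by
  obtain ⟨Q, hQ1, hQ2, hQ3⟩ := famQ hD hN
  refine ⟨Q, hQ1, hQ2, fun S hS F _ _ J r hJ2 hr hgen => ?_⟩
  obtain ⟨K, _, _, _, j, hK2, hjJ⟩ := sub_field hJ2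
  set pr : {p // p ∈ S} → ℕ := fun i => i.1 with hpr
  have hprime : ∀ i, (pr i).Prime := fun i => (hQ2 i.1 (hS _ i.2)).1
  have hinj : Function.Injective pr := fun a b h => Subtype.ext h
  have h31 : ∀ i, pr i % 3 = 1 := fun i => by
    have : i.1 % 9 = 1 := (hQ2 i.1 (hS _ i.2)).2.1
    show i.1 % 3 = 1
    omega
  have hDN : ∀ ε : {p // p ∈ S} → Fin 3,
      D * ∏ p ∈ S, p ^ (if h : p ∈ S then ((ε ⟨p, h⟩ : Fin 3) : ℕ) else 0) = DN D pr ε := by
    intro ε
    unfold DN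
    congr 1
    rw [← Finset.prod_coe_sort S]
    refine Finset.prod_congr rfl fun i _ => ?_
    rw [dif_pos i.2]
  have hfam : ∀ ε : {p // p ∈ S} → Fin 3, Cls (DN D pr ε) ∧ NoSplit (DN D pr ε) ∧
      ∃ (J : Type) (_ : Fintype J) (_ : Nonempty J) (π : J → Ei) (e : J → ZMod 3), Dt π e ∧
          Ker π e ∧ (((DN D pr ε : ℕ) : Ei) = pD π e ∨ ((DN D pr ε : ℕ) : Ei) = -pD π e) := by
    intro ε
    have h1 := hQ3 S hS (fun p => if h : p ∈ S then ((ε ⟨p, h⟩ : Fin 3) : ℕ) else 0)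
      (fun p hp => by
        show (if h : p ∈ S then ((ε ⟨p, h⟩ : Fin 3) : ℕ) else 0) < 3
        rw [dif_pos hp]
        exact (ε ⟨p, hp⟩).2)
    rw [hDN ε] at h1
    exact h1
  have hgen2 : ∀ L : Subfield F, algebraMap K F ((j w : 𝓞 K) : K) ∈ L →
      (∀ i : {p // p ∈ S}, r i.1 ∈ L) → L = ⊤ := by
    intro L h1 h2
    refine hgen L ?_ fun p hp => h2 ⟨p, hp⟩
    rcases hjJ with h | h
    · rw [← h]; exact h1
    · have h4 : J = (algebraMap K F ((j w : 𝓞 K) : K)) ^ 2 := by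
        rw [h]
        linear_combination (-J) * J3 hJ2
      rw [h4]
      exact pow_mem h1 2
  have hx : ∀ i : {p // p ∈ S}, r i.1 ^ 3 = ((pr i : ℕ) : F) := fun i => hr i.1 i.2
  have hJ'2 : (algebraMap K F ((j w : 𝓞 K) : K)) ^ 2 + algebraMap K F ((j w : 𝓞 K) : K) + 1 =
      0 := by
    rcases hjJ with h | h
    · rw [h, hJ2]
    · rw [h]
      linear_combination (J ^ 2 - J + 1) * hJ2
  have hgal : IsGalois ℚ F := galQ hJ'2 (fun i : {p // p ∈ S} => ((pr i : ℕ) : ℚ))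
    (fun i => r i.1) (fun i => by rw [hx, map_natCast]) hgen2
  set I : K := ((j w : 𝓞 K) : K) with hI
  have hI2 : I ^ 2 + I + 1 = 0 := by
    have h1 : (w : Ei) ^ 2 + w + 1 = 0 := by decide
    have h2 := congrArg (fun t : Ei => ((j t : 𝓞 K) : K)) h1
    simp only [map_add, map_pow, map_one, map_zero] at h2
    exact h2
  have hdeg : Module.finrank K F = 3 ^ S.card := by
    have h1 := deg3g I hI2 (fun i : {p // p ∈ S} => ((pr i : ℕ) : 𝓞 K))
      (fun i => by exact_mod_cast (hprime i).ne_zero) (indQ j hprime hinj) (fun i => r i.1)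
      (fun i => by
        rw [hx]
        have h1 : (((pr i : ℕ) : 𝓞 K) : K) = ((pr i : ℕ) : K) :=
          map_natCast (algebraMap (𝓞 K) K) _
        rw [h1, map_natCast]) (fun L h1 h2 => hgen2 L (h1 _) h2)
    rw [h1, Fintype.card_coe]
  have hM0 : 3 * D * ∏ q ∈ S, q ≠ 0 := mul_ne_zero (mul_ne_zero (by norm_num) hD.1.1)
    (Finset.prod_ne_zero_iff.2 fun q hq => (hQ2 q (hS q hq)).1.ne_zero)
  refine ⟨?_, hgal, ?_, fun p hp => exists_frobQ hp, fun V _ _ _ ρ => ?_⟩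
  · rw [← Module.finrank_mul_finrank ℚ K F, hK2, hdeg]
  · exact pts_Q j hprime h31 (fun ε => ⟨(hfam ε).1, (hfam ε).2.2⟩) (fun i => r i.1) hx hgen2
  · exact repL j hprime hinj h31 (fun ε => ⟨(hfam ε).1, (hfam ε).2.1⟩) (fun i => r i.1) hx hgen2
      hgal hM0 (by rw [mul_assoc]; exact dvd_mul_right _ _)
      (Dvd.dvd.mul_right (dvd_mul_left _ _) _)
      (fun i => Dvd.dvd.mul_left (Finset.dvd_prod_of_mem (fun q => q) i.2) _) ρ

end Pool.Agent.X253.C3
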