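import Pool.Agent.X253.C3.FamQ
import Pool.Agent.Y274.CT.ExiCnt

/-!
# Infinite sets of rational primes, all of whose products with `D` are good: the families
-/

set_option autoImplicit false
set_option linter.unusedSectionVars false

namespace Pool.Agent.X253.C3

open NumberField
open Pool.Agent.Y692.QS (Ei w nr mul_star nr_zero_iff nr_nonneg isUnit_iff nr_mul)
open Pool.Agent.Y715.T.Gi Pool.Agent.Y715.T.Nr Pool.Agent.Y715.T.Df
open Pool.Agent.Y715.T.Rec (cs nn)
open Pool.Agent.Y715.T.RecG (Pq)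
open Pool.Agent.Y703.CT
open Pool.Agent.Y350.CT (pq_star cs_star)
open Pool.Agent.Y715.T.RecC (star_dvd star_prime)

/-- the new primes and their conjugates -/
def FS {T : Type} (f : T → Ei) : T × Bool → Ei := fun t => if t.2 then star (f t.1) else f t.1

lemma pD_FS {T : Type} [Fintype T] (f : T → Ei) (m : T → ZMod 3) :
    pD (FS f) (fun t => m t.1) = ((∏ t, (nr (f t)) ^ (m t).val : ℤ) : Ei) := by
  unfold pD
  rw [Fintype.prod_prod_type, Int.cast_prod]
  refine Finset.prod_congr rfl fun t _ => ?_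
  rw [Fintype.prod_bool]
  unfold FS
  rw [if_pos rfl, if_neg Bool.false_ne_true, ← mul_pow, Int.cast_pow, ← mul_star, mul_comm]

section

variable {J : Type} [Fintype J] {π : J → Ei} {e : J → ZMod 3} {T : Type} [Fintype T]

/-- the data -/
structure NewP (π : J → Ei) (j₀ : J) (f : T → Ei) : Prop where
  pq : ∀ t, Pq (f t)
  pr : ∀ t, ∃ p : ℕ, p.Prime ∧ nr (f t) = p
  nd : ∀ t j, ¬ f t ∣ π j
  cz : ∀ t j, j ≠ j₀ → cs (π j) (f t) = 0 ∧ cs (f t) (π j) = 0
  cn : ∀ t, cs (f t) (π j₀) ≠ 0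
  n1 : ∀ t t', t ≠ t' → ¬ f t ∣ f t'
  n2 : ∀ t t', t ≠ t' → ¬ f t ∣ star (f t')
  c1 : ∀ t t', t ≠ t' → cs (f t) (f t') = 0
  c2 : ∀ t t', t ≠ t' → cs (f t) (star (f t')) = 0

variable {j₀ : J} {f : T → Ei}

lemma FS_cases {P : Ei → Prop} {f : T → Ei} (t : T × Bool) (h1 : P (f t.1)) (h2 : P (star (f t.1))) :
    P (FS f t) := by
  unfold FS
  split_ifs
  · exact h2
  · exact h1

theorem FS_dt (hD : Dt π e) (hs : ∀ j, ∃ i, π i = star (π j)) (hN : NewP π j₀ f)
    (m : T → ZMod 3) (hm : ∀ t, m t ≠ 0) :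
    Dt (Sum.elim π (FS f)) (Sum.elim e (fun t => m t.1)) := by
  refine dt_sum hD (FS f) _ (fun t => hm t.1) (fun t => ?_) (fun t j => ?_) ?_
  · exact FS_cases (P := Pq) t (hN.pq t.1) (pq_star (hN.pq t.1))
  · refine FS_cases (P := fun x => ¬ x ∣ π j) t (hN.nd t.1 j) fun h => ?_
    obtain ⟨i, hi⟩ := hs j
    rw [star_dvd_iff, ← hi] at h
    exact hN.nd t.1 i h
  · rintro ⟨t, b⟩ ⟨t', b'⟩ hne
    by_cases htt : t = t'
    · subst htt
      obtain ⟨p, hp, hpn⟩ := hN.pr t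
      have h1 := not_dvd_star (hN.pq t) hp hpn
      have hbb : b ≠ b' := fun h => hne (by rw [h])
      rcases b with _ | _ <;> rcases b' with _ | _
      · exact absurd rfl hbb
      · exact h1
      · intro h
        have h2 : star (f t) ∣ f t := h
        rw [star_dvd_iff] at h2
        exact h1 h2
      · exact absurd rfl hbb
    · rcases b with _ | _ <;> rcases b' with _ | _
      · exact hN.n1 t t' htt
      · exact hN.n2 t t' htt
      · intro h
        have h2 : star (f t) ∣ f t' := h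
        rw [star_dvd_iff] at h2
        exact hN.n2 t t' htt h2
      · intro h
        have h2 : star (f t) ∣ star (f t') := h
        rw [star_dvd_iff, star_star] at h2
        exact hN.n1 t t' htt h2

theorem FS_ker (hD : Dt π e) (hs : ∀ j, ∃ i, π i = star (π j)) (h0 : star (π j₀) = π j₀)
    (hk : Ker π e) (hN : NewP π j₀ f) (m : T → ZMod 3) :
    Ker (Sum.elim π (FS f)) (Sum.elim e (fun t => m t.1)) := by
  refine ker_sum hk j₀ (hD.e0 j₀) (FS f) _ (fun t j hj => ?_) (fun t => ?_) ?_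
  · refine FS_cases (P := fun x => cs (π j) x = 0 ∧ cs x (π j) = 0) t (hN.cz t.1 j hj) ?_
    obtain ⟨i, hi⟩ := hs j
    have hi' : π j = star (π i) := by rw [hi, star_star]
    have hij : i ≠ j₀ := by
      rintro rfl
      apply hj
      rw [h0] at hi'
      exact Pool.Agent.Y405.CT.pi_inj hD hi'
    obtain ⟨h1, h2⟩ := hN.cz t.1 i hij
    have hn1 : ¬ π i ∣ f t.1 := by
      intro h
      exact hN.nd t.1 i (by rw [Pool.Agent.Y699.E.eq_of_dvd (hD.pq i) (hN.pq t.1) h])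
    rw [hi', cs_star (hD.pq i) hn1, cs_star (hN.pq t.1) (hN.nd t.1 i), h1, h2, neg_zero]
    exact ⟨rfl, rfl⟩
  · refine FS_cases (P := fun x => cs x (π j₀) ≠ 0) t (hN.cn t.1) ?_
    rw [← h0, cs_star (hN.pq t.1) (hN.nd t.1 j₀), neg_ne_zero]
    exact hN.cn t.1
  · rintro ⟨t, b⟩ ⟨t', b'⟩ hne
    by_cases htt : t = t'
    · subst htt
      obtain ⟨p, hp, hpn⟩ := hN.pr t
      have h1 := cs_conj (hN.pq t) hp hpn
      have hbb : b ≠ b' := fun h => hne (by rw [h])
      rcases b with _ | _ <;> rcases b' with _ | _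
      · exact absurd rfl hbb
      · exact h1.1
      · exact h1.2
      · exact absurd rfl hbb
    · rcases b with _ | _ <;> rcases b' with _ | _
      · exact hN.c1 t t' htt
      · exact hN.c2 t t' htt
      · have h2 : ¬ f t ∣ star (f t') := hN.n2 t t' htt
        have h3 := cs_star (hN.pq t) h2
        rw [star_star, hN.c2 t t' htt, neg_zero] at h3
        exact h3
      · have h2 : ¬ f t ∣ f t' := hN.n1 t t' htt
        have h3 := cs_star (hN.pq t) h2
        rw [hN.c1 t t' htt, neg_zero] at h3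
        exact h3

end

/-- the class of the products -/
theorem cls_prod {D : ℕ} (hD : Cls D) (S : Finset ℕ) (m : ℕ → ℕ)
    (hS : ∀ p ∈ S, p.Prime ∧ p % 9 = 1 ∧ ¬ p ∣ D) (hm : ∀ p ∈ S, m p < 3) :
    Cls (D * ∏ p ∈ S, p ^ m p) := by
  obtain ⟨⟨h0, h3, hcf⟩, h91, h98, q, hq, hq2, hqD, hall⟩ := hD
  have hP0 : ∏ p ∈ S, p ^ m p ≠ 0 :=
    Finset.prod_ne_zero_iff.2 fun p hp => pow_ne_zero _ (hS p hp).1.ne_zero
  have h9 : (∏ p ∈ S, p ^ m p) % 9 = 1 := by
    have h1 : (∏ p ∈ S, p ^ m p) ≡ 1 [MOD 9] := by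
      refine Finset.prod_induction _ (fun x => x ≡ 1 [MOD 9]) (fun a b ha hb => ha.mul hb) rfl ?_
      intro p hp
      have h2 : p ≡ 1 [MOD 9] := (hS p hp).2.1
      have h3 := h2.pow (m p)
      rwa [one_pow] at h3
    exact h1
  have hdvd : ∀ r : ℕ, r.Prime → r ∣ ∏ p ∈ S, p ^ m p → r ∈ S := by
    intro r hr h
    obtain ⟨p, hp, h1⟩ := (hr.prime.dvd_finsetProd_iff _).1 h
    have h2 := (Nat.prime_dvd_prime_iff_eq hr (hS p hp).1).1 (hr.dvd_of_dvd_pow h1)
    rwa [h2]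
  refine ⟨⟨mul_ne_zero h0 hP0, ?_, ?_⟩, ?_, ?_, q, hq, hq2, hqD.mul_right _, ?_⟩
  · intro h
    rcases (Nat.prime_three.dvd_mul).1 h with h | h
    · exact h3 h
    · omega
  · intro r hr h
    by_cases hrS : r ∈ S
    · have hrD : ¬ r ∣ D := (hS r hrS).2.2
      have hc : Nat.Coprime (r ^ 3) D := Nat.Coprime.pow_left 3 ((Nat.Prime.coprime_iff_not_dvd hr).2 hrD)
      have h1 : r ^ 3 ∣ ∏ p ∈ S, p ^ m p := hc.dvd_of_dvd_mul_left h
      rw [← Finset.mul_prod_erase S _ hrS] at h1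
      have hc2 : Nat.Coprime (r ^ 3) (∏ p ∈ S.erase r, p ^ m p) := by
        refine Nat.Coprime.pow_left 3 (Nat.Coprime.prod_right fun p hp => ?_)
        refine Nat.Coprime.pow_right _ ((Nat.coprime_primes hr (hS p (Finset.mem_of_mem_erase hp)).1).2 ?_)
        exact (Finset.ne_of_mem_erase hp).symm
      have h2 := hc2.dvd_of_dvd_mul_right h1
      have h4 := (Nat.pow_dvd_pow_iff_le_right hr.one_lt).1 h2
      have := hm r hrS
      omega
    · have hc : Nat.Coprime (r ^ 3) (∏ p ∈ S, p ^ m p) := by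
        refine Nat.Coprime.pow_left 3 ((Nat.Prime.coprime_iff_not_dvd hr).2 fun h1 => ?_)
        exact hrS (hdvd r hr h1)
      exact hcf r hr (hc.dvd_of_dvd_mul_right h)
  · rw [Nat.mul_mod, h9]
    omega
  · rw [Nat.mul_mod, h9]
    omega
  · intro r hr hrd hrq
    rcases (hr.dvd_mul).1 hrd with h | h
    · exact hall r hr h hrq
    · have := (hS r (hdvd r hr h)).2.1
      omega

/-- **The families over `ℚ`.** -/
theorem famQ {D : ℕ} (hD : Cls D) (hN : NoSplit D) :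
    ∃ Q : Set ℕ, Q.Infinite ∧ (∀ p ∈ Q, p.Prime ∧ p % 9 = 1 ∧ ¬ p ∣ D) ∧
      ∀ S : Finset ℕ, (∀ p ∈ S, p ∈ Q) → ∀ m : ℕ → ℕ, (∀ p ∈ S, m p < 3) →
        Cls (D * ∏ p ∈ S, p ^ m p) ∧ NoSplit (D * ∏ p ∈ S, p ^ m p) ∧
        ∃ (J : Type) (_ : Fintype J) (_ : Nonempty J) (π : J → Ei) (e : J → ZMod 3), Dt π e ∧
          Ker π e ∧ (((D * ∏ p ∈ S, p ^ m p : ℕ) : Ei) = pD π e ∨
            ((D * ∏ p ∈ S, p ^ m p : ℕ) : Ei) = -pD π e) := by
  classical
  obtain ⟨n, π, e, hdt, hDp⟩ := Pool.Agent.Y274.CT.t_exi D hD.1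
  have hrec := Pool.Agent.Y350.CT.rec
  have hk : Ker π e := Pool.Agent.Y405.CT.cri hrec D hD hN (Fin n) π e hdt hDp
  obtain ⟨j₀, hj₀⟩ := Pool.Agent.Y405.CT.fixed hD hdt hDp
  have h0 : star (π j₀) = π j₀ := (hj₀ j₀).2 rfl
  have hs := Pool.Agent.Y405.CT.exists_sigma hdt hDp
  obtain ⟨f, hf, hr⟩ := seq_exQ hdt.pq hdt.nd j₀ h0
  choose p hp hpn using fun n => (hf n).2.1
  have hpinj : Function.Injective p := by
    intro a b hab
    by_contra hne
    have h1 : f a ∣ f b * star (f b) := by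
      rw [mul_star, hpn b, ← hab, ← hpn a, ← mul_star]
      exact dvd_mul_right _ _
    rcases (hf a).1.prime.dvd_or_dvd h1 with h2 | h2
    · exact (hr a b hne).1 h2
    · exact (hr a b hne).2.1 h2
  have hpD : ∀ n, ¬ p n ∣ D := by
    intro i hdvd
    obtain ⟨c, hc⟩ := hdvd
    have h1 : f i ∣ (D : Ei) := by
      rw [hc]
      push_cast
      have h2 : ((p i : ℕ) : Ei) = f i * star (f i) := by
        rw [mul_star, hpn i]
        push_cast
        rfl
      rw [h2, mul_assoc]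
      exact dvd_mul_right _ _
    have h3 : f i ∣ pD π e := by
      rcases hDp with h | h
      · rwa [h] at h1
      · rw [h, dvd_neg] at h1
        exact h1
    unfold pD at h3
    rw [(hf i).1.prime.dvd_finsetProd_iff] at h3
    obtain ⟨j, -, hj⟩ := h3
    exact (hf i).2.2.2.1 j ((hf i).1.prime.dvd_of_dvd_pow hj)
  have hp9 : ∀ i, p i % 9 = 1 := by
    intro i
    have h1 := (hf i).2.2.1
    rw [hpn i] at h1
    omega
  have hQ : ∀ q ∈ Set.range p, q.Prime ∧ q % 9 = 1 ∧ ¬ q ∣ D := by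
    rintro _ ⟨i, rfl⟩
    exact ⟨hp i, hp9 i, hpD i⟩
  refine ⟨Set.range p, Set.infinite_range_of_injective hpinj, hQ, ?_⟩
  intro S hS m hm
  have hC' := cls_prod hD S m (fun q hq => hQ q (hS q hq)) hm
  set T := {q : ℕ // q ∈ S.filter fun q => m q ≠ 0} with hT
  have hidx : ∀ t : T, ∃ i, p i = t.1 := fun t => hS t.1 (Finset.mem_filter.1 t.2).1
  choose a ha using hidx
  have haa : ∀ t t', t ≠ t' → a t ≠ a t' := by
    intro t t' hne h
    exact hne (Subtype.ext (by rw [← ha, ← ha, h]))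
  set F : T → Ei := fun t => f (a t) with hF
  set M : T → ZMod 3 := fun t => (m t.1 : ZMod 3) with hM
  have h12 : ∀ t : T, m t.1 = 1 ∨ m t.1 = 2 := by
    intro t
    have h2 := (Finset.mem_filter.1 t.2)
    have h3 := hm t.1 h2.1
    have := h2.2
    omega
  have hM0 : ∀ t, M t ≠ 0 := by
    intro t
    show (m t.1 : ZMod 3) ≠ 0
    rcases h12 t with h | h
    · rw [h]; decide
    · rw [h]; decide
  have hMv : ∀ t, (M t).val = m t.1 := by
    intro t
    show ((m t.1 : ℕ) : ZMod 3).val = m t.1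
    rcases h12 t with h | h
    · rw [h]; rfl
    · rw [h]; rfl
  have hN' : NewP π j₀ F :=
    { pq := fun t => (hf _).1
      pr := fun t => (hf _).2.1
      nd := fun t j => (hf _).2.2.2.1 j
      cz := fun t j hj => (hf _).2.2.2.2.1 j hj
      cn := fun t => (hf _).2.2.2.2.2.2
      n1 := fun t t' h => (hr _ _ (haa t t' h)).1
      n2 := fun t t' h => (hr _ _ (haa t t' h)).2.1
      c1 := fun t t' h => (hr _ _ (haa t t' h)).2.2.1
      c2 := fun t t' h => (hr _ _ (haa t t' h)).2.2.2 }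
  have hdt' := FS_dt hdt hs hN' M hM0
  have hk' := FS_ker hdt hs h0 hk hN' M
  have hprod : pD (FS F) (fun t => M t.1) = ((∏ q ∈ S, q ^ m q : ℕ) : Ei) := by
    rw [pD_FS]
    have h1 : ∏ q ∈ S, q ^ m q = ∏ q ∈ S.filter (fun q => m q ≠ 0), q ^ m q := by
      rw [Finset.prod_filter]
      refine Finset.prod_congr rfl fun l _ => ?_
      by_cases h : m l = 0
      · rw [if_neg (by simpa using h), h, pow_zero]
      · rw [if_pos h]
    rw [h1, ← Finset.prod_coe_sort (S.filter fun q => m q ≠ 0) (fun q => q ^ m q)]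
    have h2 : ∏ t : T, (nr (F t)) ^ (M t).val = ((∏ t : T, t.1 ^ m t.1 : ℕ) : ℤ) := by
      rw [Nat.cast_prod]
      refine Finset.prod_congr rfl fun t _ => ?_
      rw [hMv, hpn (a t), ha t, Nat.cast_pow]
    rw [h2, Int.cast_natCast]
  have hDp' : ((D * ∏ q ∈ S, q ^ m q : ℕ) : Ei) =
        pD (Sum.elim π (FS F)) (Sum.elim e (fun t => M t.1)) ∨
      ((D * ∏ q ∈ S, q ^ m q : ℕ) : Ei) =
        -pD (Sum.elim π (FS F)) (Sum.elim e (fun t => M t.1)) := by
    rw [pD_sum, hprod, Nat.cast_mul]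
    rcases hDp with h | h
    · left
      rw [h]
    · right
      rw [h, neg_mul]
  refine ⟨hC', ?_, _, inferInstance, ⟨Sum.inl j₀⟩, _, _, hdt', hk', hDp'⟩
  by_contra hcon
  exact Pool.Agent.Y737.CT.even hrec _ hC' hcon _ _ _ hdt' hDp' hk'

end Pool.Agent.X253.C3
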