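import Pool.Agent.Y682.YS.Real

/-!
# The exponent of the 3-primary part of the Tate-Shafarevich group over `K(∛l : l ∈ S)`, `ω ∈ K`
-/

set_option autoImplicit false
set_option linter.unusedSectionVars false

open NumberField IsDedekindDomain WeierstrassCurve Polynomial

namespace Pool.Agent.X253.C3

open Pool.Agent.TH841.SH.D (Pt act Gal Coch IsCoc IsCob LocTriv cob)
open Pool.Agent.TH841.NF (Sc tm tF tm_some act_some' pt_ext)
open Pool.Agent.TH841.NF.D (Sha)
open Pool.Agent.Y715.CS

/-- the curve `y² + d y = x³` -/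
def Ec {k : Type} [Field k] (d : k) : WeierstrassCurve k := ⟨0, 0, d, 0, 0⟩

section sum3

variable {L : Type} [Field L]

/-- the three points of the curve on a horizontal line -/
theorem sum3 [DecidableEq L] (W : WeierstrassCurve L) (h1 : W.a₁ = 0) (h2 : W.a₂ = 0)
    (h4 : W.a₄ = 0) (h6 : W.a₆ = 0) (h3 : W.a₃ ≠ 0) {z : L} (hz : z ^ 2 + z + 1 = 0)
    (hz1 : z ≠ 1) {x y : L} (n0 : W.toAffine.Nonsingular x y)
    (n1 : W.toAffine.Nonsingular (z * x) y) (n2 : W.toAffine.Nonsingular (z ^ 2 * x) y) :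
    Affine.Point.some x y n0 + Affine.Point.some (z * x) y n1 +
      Affine.Point.some (z ^ 2 * x) y n2 = 0 := by
  have hneg : ∀ a b : L, W.toAffine.negY a b = -b - W.a₃ := by
    intro a b
    unfold Affine.negY
    rw [show W.toAffine.a₁ = 0 from h1, zero_mul, sub_zero]
  have hslope : W.toAffine.slope x (z * x) y y = 0 ∧ ¬ (x = z * x ∧ y = W.toAffine.negY (z * x) y) := by
    by_cases hx : x = z * x
    · have hx0 : x = 0 := by
        have h5 : (z - 1) * x = 0 := by linear_combination - hx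
        rcases mul_eq_zero.1 h5 with h6 | h6
        · exact absurd (by linear_combination h6) hz1
        · exact h6
      have hE := n0.1
      rw [Affine.equation_iff] at hE
      have hE' : y * (y + W.a₃) = 0 := by
        have e1 : W.toAffine.a₁ = 0 := h1
        have e2 : W.toAffine.a₂ = 0 := h2
        have e4 : W.toAffine.a₄ = 0 := h4
        have e6 : W.toAffine.a₆ = 0 := h6
        have e3 : W.toAffine.a₃ = W.a₃ := rfl
        rw [e1, e2, e4, e6, hx0, e3] at hE
        linear_combination hE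
      have hy : y ≠ W.toAffine.negY (z * x) y := by
        rw [hneg]
        intro h5
        rcases mul_eq_zero.1 hE' with h6 | h6
        · exact h3 (by linear_combination h5 - 2 * h6)
        · exact h3 (by linear_combination 2 * h6 - h5)
      refine ⟨?_, fun h => hy h.2⟩
      rw [Affine.slope_of_Y_ne hx hy]
      have e1 : W.toAffine.a₁ = 0 := h1
      have e2 : W.toAffine.a₂ = 0 := h2
      have e4 : W.toAffine.a₄ = 0 := h4
      rw [e1, e2, e4, hx0]
      simp
    · refine ⟨?_, fun h => hx h.1⟩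
      rw [Affine.slope_of_X_ne hx, sub_self, zero_div]
  obtain ⟨hs, hne⟩ := hslope
  rw [Affine.Point.add_some hne]
  have hX : W.toAffine.addX x (z * x) (W.toAffine.slope x (z * x) y y) = z ^ 2 * x := by
    unfold Affine.addX
    rw [hs, show W.toAffine.a₁ = 0 from h1, show W.toAffine.a₂ = 0 from h2]
    linear_combination (-x) * hz
  have hY : W.toAffine.addY x (z * x) y (W.toAffine.slope x (z * x) y y) = -y - W.a₃ := by
    unfold Affine.addY Affine.negAddY
    rw [hneg, hs, zero_mul, zero_add]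
  have h5 : Affine.Point.some _ _ (Affine.nonsingular_add n0 n1 hne) =
      - Affine.Point.some (z ^ 2 * x) y n2 := by
    rw [Affine.Point.neg_some, Affine.Point.some.injEq]
    exact ⟨hX, by rw [hY, hneg]⟩
  rw [h5, neg_add_cancel]

theorem sum3' [DecidableEq L] (W : WeierstrassCurve L) (h1 : W.a₁ = 0) (h2 : W.a₂ = 0)
    (h4 : W.a₄ = 0) (h6 : W.a₆ = 0) (h3 : W.a₃ ≠ 0) {z : L} (hz : z ^ 2 + z + 1 = 0)
    (hz1 : z ≠ 1) {x y x' y' x'' y'' : L} (n0 : W.toAffine.Nonsingular x y)
    (n1 : W.toAffine.Nonsingular x' y') (n2 : W.toAffine.Nonsingular x'' y'')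
    (e1 : x' = z * x) (e2 : y' = y) (e3 : x'' = z ^ 2 * x) (e4 : y'' = y) :
    Affine.Point.some x y n0 + Affine.Point.some x' y' n1 + Affine.Point.some x'' y'' n2 = 0 := by
  subst e1 e2 e3 e4
  exact sum3 W h1 h2 h4 h6 h3 hz hz1 n0 n1 n2

end sum3

section comb

lemma prod_upd {T : Type} [Fintype T] [DecidableEq T] {L : Type} [Field L] (w : T → L)
    (i0 : T) (h : w i0 ^ 3 = 1) (ε : T → Fin 3) :
    ∏ i, w i ^ ((Function.update ε i0 (ε i0 + 1) i : Fin 3) : ℕ) =
      w i0 * ∏ i, w i ^ (ε i : ℕ) := by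
  rw [← Finset.mul_prod_erase Finset.univ _ (Finset.mem_univ i0),
    ← Finset.mul_prod_erase Finset.univ (fun i => w i ^ (ε i : ℕ)) (Finset.mem_univ i0),
    Function.update_self, ← mul_assoc]
  congr 1
  · generalize ε i0 = k
    fin_cases k
    · show w i0 ^ 1 = w i0 * w i0 ^ 0
      ring
    · show w i0 ^ 2 = w i0 * w i0 ^ 1
      ring
    · show w i0 ^ 0 = w i0 * w i0 ^ 2
      rw [pow_zero, ← h]
      ring
  · refine Finset.prod_congr rfl fun i hi => ?_
    rw [Function.update_of_ne (Finset.ne_of_mem_erase hi)]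

/-- the sum over the characters -/
theorem sum_zero {T : Type} [Fintype T] [DecidableEq T]
    {L : Type} [Field L] (w : T → L) (h3 : ∀ i, w i ^ 3 = 1)
    (hne : ∃ i, w i ≠ 1) {A : Type} [AddCommGroup A]
    (f : (T → Fin 3) → A)
    (hf : ∀ (z : L), z ^ 3 = 1 → z ≠ 1 → ∀ ε ε' ε'' : T → Fin 3,
      ∏ i, w i ^ (ε' i : ℕ) = z * ∏ i, w i ^ (ε i : ℕ) →
      ∏ i, w i ^ (ε'' i : ℕ) = z ^ 2 * ∏ i, w i ^ (ε i : ℕ) → f ε + f ε' + f ε'' = 0) :
    ∑ ε, f ε = 0 := by
  classical
  obtain ⟨i0, hi0⟩ := hne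
  rw [← Equiv.sum_comp (Equiv.funSplitAt i0 (Fin 3)).symm f, Fintype.sum_prod_type_right]
  refine Finset.sum_eq_zero fun g _ => ?_
  rw [Fin.sum_univ_three]
  have e0 : ∀ c : Fin 3, (Equiv.funSplitAt i0 (Fin 3)).symm (c + 1, g) =
      Function.update ((Equiv.funSplitAt i0 (Fin 3)).symm (c, g)) i0
        ((Equiv.funSplitAt i0 (Fin 3)).symm (c, g) i0 + 1) := by
    intro c
    funext j
    by_cases hj : j = i0
    · subst hj
      rw [Function.update_self]
      simp
    · rw [Function.update_of_ne hj]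
      simp [hj]
  have e1 : ∏ i, w i ^ (((Equiv.funSplitAt i0 (Fin 3)).symm (1, g) i : Fin 3) : ℕ) =
      w i0 * ∏ i, w i ^ (((Equiv.funSplitAt i0 (Fin 3)).symm (0, g) i : Fin 3) : ℕ) := by
    have := e0 0
    rw [zero_add] at this
    rw [this, prod_upd w i0 (h3 i0)]
  have e2 : ∏ i, w i ^ (((Equiv.funSplitAt i0 (Fin 3)).symm (2, g) i : Fin 3) : ℕ) =
      w i0 ^ 2 * ∏ i, w i ^ (((Equiv.funSplitAt i0 (Fin 3)).symm (0, g) i : Fin 3) : ℕ) := by
    have := e0 1
    rw [show (1 + 1 : Fin 3) = 2 from rfl] at this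
    rw [this, prod_upd w i0 (h3 i0), e1]
    ring
  exact hf (w i0) (h3 i0) hi0 _ _ _ e1 e2

end comb

/-- an isomorphism of the algebraic closures -/
lemma exists_e3 {K F : Type} [Field K] [Field F] [Algebra K F] [Algebra.IsAlgebraic K F] :
    ∃ e : AlgebraicClosure F ≃+* AlgebraicClosure K,
      ∀ x : K, e (algebraMap F _ (algebraMap K F x)) = algebraMap K _ x := by
  have _ : IsAlgClosure K (AlgebraicClosure F) := IsAlgClosure.ofAlgebraic K F (AlgebraicClosure F)
  refine ⟨(IsAlgClosure.equiv K (AlgebraicClosure F) (AlgebraicClosure K)).toRingEquiv,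
    fun x => ?_⟩
  rw [← IsScalarTower.algebraMap_apply K F (AlgebraicClosure F)]
  exact (IsAlgClosure.equiv K (AlgebraicClosure F) (AlgebraicClosure K)).commutes x

/-- a field generated by cube roots is a Galois extension -/
lemma galois3 {K F : Type} [Field K] [NumberField K] [Field F] [NumberField F] [Algebra K F]
    (I : K) (hI : I ^ 2 + I + 1 = 0) {T : Type} [Fintype T] (l : T → K)
    (x : T → F) (hx : ∀ i, x i ^ 3 = algebraMap K F (l i))
    (hgen : ∀ S : Subfield F, (∀ k : K, algebraMap K F k ∈ S) → (∀ i, x i ∈ S) → S = ⊤) :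
    IsGalois K F := by
  classical
  have hfd : FiniteDimensional K F := finKF
  set J : F := algebraMap K F I with hJ
  have hJ2 : J ^ 2 + J + 1 = 0 := by
    rw [hJ, ← map_pow, ← map_one (algebraMap K F), ← map_add, ← map_add, hI, map_zero]
  set p : K[X] := ∏ i, (X ^ 3 - C (l i)) with hp
  have hmap : p.map (algebraMap K F) = ∏ i, ((X - C (x i)) * ((X - C (J * x i)) *
      (X - C (J ^ 2 * x i)))) := by
    rw [hp, Polynomial.map_prod]
    refine Finset.prod_congr rfl fun i _ => ?_
    have h1 : C (algebraMap K F (l i)) = C (x i) ^ 3 := by rw [← C_pow, hx]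
    have h3 : (C J : F[X]) ^ 2 + C J + 1 = 0 := by
      rw [← C_pow, ← C_1, ← C_add, ← C_add, hJ2, C_0]
    rw [Polynomial.map_sub, Polynomial.map_pow, Polynomial.map_X, Polynomial.map_C,
      h1, C_mul, C_mul, C_pow]
    linear_combination (X ^ 2 * C (x i) - C J * X * C (x i) ^ 2 + (C J - 1) * C (x i) ^ 3) * h3
  have hp0 : p ≠ 0 := by
    rw [hp]
    exact Finset.prod_ne_zero_iff.2 fun i _ =>
      (monic_X_pow_sub_C _ (by norm_num)).ne_zero
  have hspl : IsSplittingField K F p := by
    refine ⟨?_, ?_⟩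
    · rw [hmap]
      exact Splits.prod fun i _ => (Splits.X_sub_C _).mul
        ((Splits.X_sub_C _).mul (Splits.X_sub_C _))
    · have h1 := IntermediateField.adjoin_toSubalgebra_of_isAlgebraic (F := K) (E := F)
        (S := p.rootSet F) (fun y _ => (Algebra.IsAlgebraic.isAlgebraic y))
      rw [← h1]
      have h2 : (IntermediateField.adjoin K (p.rootSet F)) = ⊤ := by
        have h3 := hgen (IntermediateField.adjoin K (p.rootSet F)).toSubfield
          (fun k => (IntermediateField.adjoin K (p.rootSet F)).algebraMap_mem k) (fun i => by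
            apply IntermediateField.subset_adjoin
            rw [mem_rootSet]
            refine ⟨hp0, ?_⟩
            rw [aeval_def, eval₂_eq_eval_map, hmap, eval_prod]
            refine Finset.prod_eq_zero (Finset.mem_univ i) ?_
            rw [eval_mul, eval_sub, eval_X, eval_C, sub_self, zero_mul])
        rw [eq_top_iff]
        intro y _
        have h4 : y ∈ (IntermediateField.adjoin K (p.rootSet F)).toSubfield := by
          rw [h3]
          trivial
        exact h4
      rw [h2]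
      exact IntermediateField.top_toSubalgebra
  have hn : Normal K F := Normal.of_isSplittingField p
  exact ⟨⟩

/-- **The 3-primary part of `Ш` over `F = K(∛l : l ∈ T)`** of `y² + a y = x³` is killed by
`3 ^ #T`, if the 3-primary parts of all the cubic twists over `K` are trivial. -/
theorem cub {K F : Type} [Field K] [NumberField K] [Field F] [NumberField F] [Algebra K F]
    (I : K) (hI : I ^ 2 + I + 1 = 0) {T : Type} [Fintype T] (l : T → K)
    (hl : ∀ i, l i ≠ 0)
    (x : T → F) (hx : ∀ i, x i ^ 3 = algebraMap K F (l i))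
    (hgen : ∀ S : Subfield F, (∀ k : K, algebraMap K F k ∈ S) → (∀ i, x i ∈ S) → S = ⊤)
    (a : K) (ha : a ≠ 0)
    (hyp : ∀ ε : T → Fin 3, ∀ (k : ℕ) (y : Sha (Ec (a * ∏ i, l i ^ (ε i : ℕ)))),
        3 ^ k • y = 0 → y = 0)
    (k : ℕ) (y : Sha (Ec (algebraMap K F a))) (hy : 3 ^ k • y = 0) :
    3 ^ Fintype.card T • y = 0 := by
  classical
  have hgal : IsGalois K F := galois3 I hI l x hx hgen
  have hfd : FiniteDimensional K F := finKF
  obtain ⟨e, he⟩ := exists_e3 (K := K) (F := F)
  have hx0 : ∀ i, x i ≠ 0 := by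
    intro i h0
    have h1 := hx i
    rw [h0, zero_pow (by norm_num)] at h1
    exact hl i ((map_eq_zero _).1 h1.symm)
  obtain ⟨u, hu⟩ : ∃ u : (T → Fin 3) → F, ∀ ε, u ε = ∏ i, x i ^ (ε i : ℕ) := ⟨_, fun ε => rfl⟩
  have hune : ∀ ε, u ε ≠ 0 := fun ε => by
    rw [hu]
    exact Finset.prod_ne_zero_iff.2 fun i _ => pow_ne_zero _ (hx0 i)
  have hu3 : ∀ ε, u ε ^ 3 = algebraMap K F (∏ i, l i ^ (ε i : ℕ)) := by
    intro ε
    rw [hu, ← Finset.prod_pow, map_prod]
    refine Finset.prod_congr rfl fun i _ => ?_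
    rw [map_pow, ← hx i, ← pow_mul, ← pow_mul, mul_comm]
  have S0 : ∀ ε, Sc (RingHom.id F) (u ε) (Ec (algebraMap K F a))
      ((Ec (a * ∏ i, l i ^ (ε i : ℕ))).baseChange F) := by
    intro ε
    refine ⟨hune ε, ?_, ?_, ?_, ?_, ?_⟩
    · change algebraMap K F 0 = (0 : F) * _
      rw [map_zero, zero_mul]
    · change algebraMap K F 0 = (0 : F) * _
      rw [map_zero, zero_mul]
    · change algebraMap K F (a * _) = (algebraMap K F a) * _
      rw [hu3, map_mul]
    · change algebraMap K F 0 = (0 : F) * _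
      rw [map_zero, zero_mul]
    · change algebraMap K F 0 = (0 : F) * _
      rw [map_zero, zero_mul]
  have key := YS.sha_FG (K := K) (F := F) e he (T := T → Fin 3)
    (fun ε => Ec (a * ∏ i, l i ^ (ε i : ℕ)))
    (Ec (algebraMap K F a)) u S0 ?_ 3 hyp k y hy
  · have h1 : Fintype.card (T → Fin 3) = 3 ^ Fintype.card T := by
      rw [Fintype.card_fun, Fintype.card_fin]
    rw [← h1]
    exact key
  · intro g hg P
    set φ : AlgebraicClosure F →+* AlgebraicClosure F :=
      (e.symm : AlgebraicClosure K →+* AlgebraicClosure F).comp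
        ((g : AlgebraicClosure K →+* AlgebraicClosure K).comp
          (e : AlgebraicClosure F →+* AlgebraicClosure K)) with hφ
    have hφa : ∀ x, φ x = e.symm (g (e x)) := fun x => rfl
    set m : F →+* AlgebraicClosure F := algebraMap F (AlgebraicClosure F) with hm
    have hφK : ∀ y : K, φ (m (algebraMap K F y)) = m (algebraMap K F y) := by
      intro y
      rw [hφa, he, AlgEquiv.commutes, ← he, RingEquiv.symm_apply_apply]
    obtain ⟨w, hw⟩ : ∃ w : T → AlgebraicClosure F, ∀ i, w i = φ (m (x i)) / m (x i) :=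
      ⟨_, fun i => rfl⟩
    have hm3 : ∀ i, m (x i) ≠ 0 := fun i => (map_ne_zero m).2 (hx0 i)
    have hφ3 : ∀ i, φ (m (x i)) = w i * m (x i) := fun i => by
      rw [hw, div_mul_cancel₀ _ (hm3 i)]
    have hw3 : ∀ i, w i ^ 3 = 1 := by
      intro i
      have h1 : φ (m (x i)) ^ 3 = m (x i) ^ 3 := by
        rw [← map_pow, ← map_pow, hx i, hφK]
      rw [hw, div_pow, h1, div_self (pow_ne_zero _ (hm3 i))]
    obtain ⟨W, hW⟩ : ∃ W : (T → Fin 3) → AlgebraicClosure F, ∀ ε, W ε =
      ∏ i, w i ^ (ε i : ℕ) := ⟨_, fun ε => rfl⟩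
    have hW3 : ∀ ε, W ε ^ 3 = 1 := by
      intro ε
      rw [hW, ← Finset.prod_pow]
      refine Finset.prod_eq_one fun i _ => ?_
      rw [← pow_mul, mul_comm, pow_mul, hw3, one_pow]
    have hcu : ∀ ε, φ (m (u ε)) = W ε * m (u ε) := by
      intro ε
      rw [hu, hW, map_prod, map_prod, ← Finset.prod_mul_distrib]
      refine Finset.prod_congr rfl fun i _ => ?_
      rw [map_pow, map_pow, hφ3, mul_pow]
    have hne : ∃ i, w i ≠ 1 := by
      by_contra hcon
      push Not at hcon
      apply hg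
      have h5 := hgen (RingHom.eqLocusField (φ.comp m) m) (fun y => hφK y) (fun i => by
        show φ (m (x i)) = m (x i)
        rw [hφ3, hcon i, one_mul])
      intro y
      have h7 : y ∈ RingHom.eqLocusField (φ.comp m) m := by rw [h5]; trivial
      have h8 : e.symm (g (e (m y))) = m y := h7
      have h9 := congrArg e h8
      rw [RingEquiv.apply_symm_apply] at h9
      exact h9
    have hmu : ∀ ε, m (u ε) ≠ 0 := fun ε => (map_ne_zero m).2 (hune ε)
    refine sum_zero w hw3 hne _ fun z hz3 hz1 ε ε' ε'' h' h'' => ?_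
    rw [← hW, ← hW] at h' h''
    have hzz : z ^ 2 + z + 1 = 0 := by
      have h5 : (z - 1) * (z ^ 2 + z + 1) = 0 := by linear_combination hz3
      exact (mul_eq_zero.1 h5).resolve_left (sub_ne_zero.2 hz1)
    rcases P with _ | ⟨X, Y, h⟩
    · exact (by rw [add_zero, add_zero] : (0 : Pt (Ec (algebraMap K F a)) (AlgebraicClosure F)) +
        0 + 0 = 0)
    · have hX : ∀ T, e.symm (g (e X * (e (m (u T))) ^ 2)) * ((m (u T))⁻¹) ^ 2 =
          φ X * W T ^ 2 := by
        intro T
        rw [map_mul, map_mul, map_pow, map_pow, ← hφa, ← hφa, hcu T]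
        have h2 : (m (u T)) ^ 2 * ((m (u T))⁻¹) ^ 2 = 1 := by
          rw [← mul_pow, mul_inv_cancel₀ (hmu T), one_pow]
        linear_combination (φ X * W T ^ 2) * h2
      have hY : ∀ T, e.symm (g (e Y * (e (m (u T))) ^ 3)) * ((m (u T))⁻¹) ^ 3 = φ Y := by
        intro T
        rw [map_mul, map_mul, map_pow, map_pow, ← hφa, ← hφa, hcu T]
        have h2 : (m (u T)) ^ 3 * ((m (u T))⁻¹) ^ 3 = 1 := by
          rw [← mul_pow, mul_inv_cancel₀ (hmu T), one_pow]
        have h6 := hW3 T
        linear_combination (φ Y * W T ^ 3) * h2 + φ Y * h6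
      rw [tm_some, act_some', tm_some, tm_some, act_some', tm_some, tm_some, act_some', tm_some]
      have hz4 : (z ^ 2) ^ 2 + z ^ 2 + 1 = 0 := by linear_combination (z ^ 2 - z + 1) * hzz
      have hz5 : z ^ 2 ≠ 1 := by
        intro h5
        apply hz1
        linear_combination hz3 - z * h5
      have hb3 : ((Ec (algebraMap K F a)).baseChange (AlgebraicClosure F)).a₃ ≠ 0 := by
        change m (algebraMap K F a) ≠ 0
        exact (_root_.map_ne_zero m).2 ((_root_.map_ne_zero (algebraMap K F)).2 ha)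
      refine sum3' ((Ec (algebraMap K F a)).baseChange (AlgebraicClosure F)) (map_zero m)
        (map_zero m) (map_zero m) (map_zero m) hb3 hz4 hz5 _ _ _ ?_ ?_ ?_ ?_
      · refine (hX ε').trans (Eq.trans ?_ (congrArg (fun t => z ^ 2 * t) (hX ε)).symm)
        rw [h']
        ring
      · exact (hY ε').trans (hY ε).symm
      · refine (hX ε'').trans (Eq.trans ?_ (congrArg (fun t => (z ^ 2) ^ 2 * t) (hX ε)).symm)
        rw [h'']
        ring
      · exact (hY ε'').trans (hY ε).symm

end Pool.Agent.X253.C3
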