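import Pool.Agent.X253.C3.TwL5

/-!
# The Hecke `L`-functions of `y² + D y = x³` over `ℚ(ω)`, with nonzero central value
-/

set_option autoImplicit false
set_option linter.unusedVariables false
set_option linter.unusedSectionVars false

namespace Pool.Agent.X253.C3

open Filter Complex NumberField IsDedekindDomain
open scoped Topology
open Pool.Agent.Y692.QS (Ei w nr toC toC_inj ns)
open Pool.Agent.Y715.T.Rec (cs nn)
open Pool.Agent.Y715.T.RecG (Pq cs_spec cs_uniq)
open Pool.Agent.H921R2.TatePole (nm two_le_nm nm_summable)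
open Pool.Agent.W189.NF (aV eV)
open Pool.Agent.Y703.CT
open Pool.Agent.Y696.CT
open Pool.Agent.Y696.CTK
open scoped Classical

section

variable {K : Type} [Field K] [NumberField K] (j : Ei ≃+* 𝓞 K)

/-- the value of the completely multiplicative function at a place -/
theorem fI_val {J : Type} [Fintype J] {π : J → Ei} {e : J → ZMod 3} (hdt : Dt π e)
    (P : HeightOneSpectrum Ei) :
    ∃ x : ℂ, (x = 0 ∨ ‖x‖ = (nm (pK j P) : ℝ) ^ (1 / 2 : ℝ)) ∧
      (∀ z : Ei, Pq z → P.asIdeal = Ideal.span {z} → ¬ z ∣ pD π e → x = yz z (pD π e)) ∧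
      ∀ s : ℂ, fI (gg π (fun i => -e i) s) P.asIdeal = x * (nm (pK j P) : ℂ) ^ (-s) := by
  have hrec := Pool.Agent.Y350.CT.rec
  by_cases h3 : (3 : ℤ) ∣ nr (gn P.asIdeal)
  · refine ⟨0, Or.inl rfl, fun z hz hP hzD => ?_, fun s => ?_⟩
    · exfalso
      have h1 := three_span h3
      rw [hP] at h1
      have h2 : (Pool.Agent.Y696.CTK.tht : Ei) ∈ Ideal.span {z} := by
        rw [h1]
        exact Ideal.mem_span_singleton_self _
      rw [Ideal.mem_span_singleton] at h2
      apply hz.norm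
      refine h2.trans ⟨-tht, ?_⟩
      linear_combination tht_sq
    · unfold fI
      rw [if_pos h3, zero_mul]
  · set α := ns (gn P.asIdeal) with hα
    have hs := span_ns h3
    rw [← hα] at hs
    have hpq := pq_ns h3
    rw [← hα] at hpq
    have hfI : ∀ g : Ei → ℂ, fI g P.asIdeal = g α := fun g => by
      rw [hs, fI_prim g hpq.three]
    have huniq : ∀ z : Ei, Pq z → P.asIdeal = Ideal.span {z} → z = α := by
      intro z hz hP
      have h1 : Ideal.span {z} = Ideal.span {α} := by rw [← hP, hs]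
      have h2 := Ideal.span_singleton_eq_span_singleton.1 h1
      have h4 := (ns_of_assoc h2).1
      rwa [ns_of_prim hz.three, ns_of_prim hpq.three] at h4
    by_cases hD : α ∣ pD π e
    · refine ⟨0, Or.inl rfl, fun z hz hP hzD => ?_, fun s => ?_⟩
      · rw [huniq z hz hP] at hzD
        exact absurd hD hzD
      · rw [hfI]
        unfold gg
        rw [chD_bad hpq.prime hdt (Or.inl rfl) hD, mul_zero, zero_mul, zero_mul]
    · have hnm := nm_nr j (pK_span j hs)
      have hnm2 := nm_zz j hs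
      refine ⟨yz α (pD π e), Or.inr ?_, fun z hz hP hzD => by rw [huniq z hz hP], fun s => ?_⟩
      · rw [hnm2]
        exact norm_yz α _
      · rw [hfI]
        unfold gg yz
        have h6 := chD_prime hrec hdt (Or.inl rfl) hpq hD
        rw [h6, ← hnm, map_mul, map_pow]
        push_cast
        ring

/-- **The Hecke `L`-function** of `y² + a y = x³`, one of the two conjugate factors of the `L`-function of
the curve, for `a` in the class and with trivial `3`-part -/
theorem heckeE (hj : ∀ z : Ei, Algebra.norm ℤ (j z) = nr z) {a : Ei}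
    (hC : ClsC (j a)) (hT : Tri (j a)) :
    ∃ (F : ℂ → ℂ) (x : HeightOneSpectrum Ei → ℂ), Differentiable ℂ F ∧ F 1 ≠ 0 ∧
      (∀ P, x P = 0 ∨ ‖x P‖ = (nm (pK j P) : ℝ) ^ (1 / 2 : ℝ)) ∧
      (∀ P z, Pq z → P.asIdeal = Ideal.span {z} → ¬ z ∣ a → x P = yz z a) ∧
      ∀ s : ℂ, 3 / 2 < s.re → HasProd (fun P : HeightOneSpectrum Ei =>
        (1 - x P * (nm (pK j P) : ℂ) ^ (-s))⁻¹) (F s) := by
  obtain ⟨n, π, e, hdt, e1, hn, h9⟩ := cls_dt j hj hC
  have e2 : a = pD π e := j.injective e1
  subst e2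
  obtain ⟨F, hF, hval⟩ := val_sq hdt h9
  choose x hx1 hx2 hx3 using fI_val j hdt
  refine ⟨F, x, hF.1, ?_, hx1, hx2, fun s hs => ?_⟩
  · obtain ⟨V, hV⟩ := Pool.Agent.Y715.T.Fin.exists_over_three
    obtain ⟨Ω, hΩ, hC⟩ := Pool.Agent.Y696.exists_cur
    obtain ⟨g, -, hg2, -, hg⟩ := hval V.ValueGroup V.valuation hV _ Ω hC
    rw [hg2 ((tri_iffE j hdt h9).1 hT), mul_one] at hg
    have hl : V.valuation Pool.Agent.Y715.T.Three.lam ≠ 0 := Pool.Agent.Y715.T.Three.lam_ne
    intro h0
    rw [h0, zero_mul, zero_div, map_zero, zero_mul] at hg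
    exact pow_ne_zero _ (mul_ne_zero hl hl) hg.symm
  · have h1 : HasSum (fun α : {α : Ei // (3 : Ei) ∣ α - 1} => gg π (fun i => -e i) s α) (F s) :=
      hF.2 s hs
    have h3 := hasProd_Ei (gg_one hdt.pq _ s) (gg_mul hdt.pq _ s) h1
    refine h3.congr_fun fun P => ?_
    rw [hx3]

end

end Pool.Agent.X253.C3
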