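import Pool.Agent.X253.C3.Eq1

/-!
# The `L`-function of `y² + D y = x³` over `ℚ(ω)` twisted by a cubic character
-/

set_option autoImplicit false
set_option linter.unusedVariables false
set_option linter.unusedSectionVars false

namespace Pool.Agent.X253.C3

open Filter Complex NumberField IsDedekindDomain
open scoped Topology
open Pool.Agent.Y692.QS (Ei w nr toC toC_inj ns)
open Pool.Agent.Y715.T.Rec (cs nn)
open Pool.Agent.Y715.T.RecG (Pq cs_spec cs_uniq)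
open Pool.Agent.H921R2.TatePole (nm two_le_nm nm_summable)
open Pool.Agent.Y703.CT
open Pool.Agent.Y696.CT
open Pool.Agent.Y696.CTK
open scoped Classical

lemma uz_conj (z a : Ei) : (starRingEnd ℂ) (uz z a) = uz z a ^ 2 := by
  have h3 := uz_three z a
  have hn : ‖uz z a‖ = 1 := by
    have h1 : ‖uz z a‖ ^ 3 = 1 := by rw [← norm_pow, h3, norm_one]
    exact (pow_eq_one_iff_of_nonneg (norm_nonneg _) (by norm_num)).1 h1
  have h4 : uz z a * (starRingEnd ℂ) (uz z a) = 1 := by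
    rw [Complex.mul_conj, Complex.normSq_eq_norm_sq, hn]
    norm_num
  have h5 : uz z a ≠ 0 := by
    intro h0
    rw [h0, norm_zero] at hn
    exact zero_ne_one hn
  apply mul_left_cancel₀ h5
  rw [h4, ← h3]
  ring

/-- the root of unity of the twist -/
noncomputable def uu {T : Type} [Fintype T] (l : T → Ei) (m : T → Fin 3) (z : Ei) : ℂ :=
  ∏ i, uz z (l i) ^ ((m i : Fin 3) : ℕ)

lemma uu_conj {T : Type} [Fintype T] (l : T → Ei) (m : T → Fin 3) (z : Ei) :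
    (starRingEnd ℂ) (uu l (-m) z) = uu l m z := by
  unfold uu
  rw [map_prod]
  refine Finset.prod_congr rfl fun i _ => ?_
  rw [map_pow, uz_conj, ← pow_mul, Pi.neg_apply]
  have h3 := uz_three z (l i)
  have h4 : ∀ a : Fin 3, 2 * ((-a : Fin 3) : ℕ) % 3 = (a : ℕ) := by decide
  have h5 : ∀ n : ℕ, uz z (l i) ^ n = uz z (l i) ^ (n % 3) := by
    intro n
    conv_lhs => rw [← Nat.div_add_mod n 3, pow_add, pow_mul, h3, one_pow, one_mul]
  rw [h5, h4]

lemma uu_mul {T : Type} [Fintype T] (l : T → Ei) (m : T → Fin 3) (z : Ei) :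
    uu l m z ^ 3 = 1 := by
  unfold uu
  rw [← Finset.prod_pow]
  refine Finset.prod_eq_one fun i _ => ?_
  rw [← pow_mul, mul_comm, pow_mul, uz_three, one_pow]

section

variable {K : Type} [Field K] [NumberField K] (j : Ei ≃+* 𝓞 K)

/-- the Euler factor of the twist by a character with the value `c` at Frobenius -/
noncomputable def TF (D : 𝓞 K) (c : ℂ) (s : ℂ) (v : HeightOneSpectrum (𝓞 K)) : ℂ :=
  (1 - c⁻¹ * (((nm v : ℕ) : ℂ) - npt D v) * (nm v : ℂ) ^ (-s) +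
    (c⁻¹) ^ 2 * (nm v : ℂ) ^ (1 - 2 * s))⁻¹

theorem tf_eq {T : Type} [Fintype T] {D : Ei} {l : T → Ei} (m : T → Fin 3)
    {P : HeightOneSpectrum Ei} {z : Ei} (hz : Pq z) (hP : P.asIdeal = Ideal.span {z})
    (hD : ¬ z ∣ D) (hl : ∀ i, ¬ z ∣ l i) (s : ℂ) :
    TF (j D) (uu l m z)⁻¹ s (pK j P) =
      (1 - yz z (aE D l m) * (nm (pK j P) : ℂ) ^ (-s))⁻¹ *
      (starRingEnd ℂ) ((1 - yz z (aE D l (-m)) *
        (nm (pK j P) : ℂ) ^ (-((starRingEnd ℂ) s)))⁻¹) := by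
  have hnm := nm_zz j hP
  have hmem : (j : Ei →+* 𝓞 K) z ∈ (pK j P).asIdeal := by
    show j z ∈ (pK j P).asIdeal
    rw [mem_pK, hP]
    exact Ideal.mem_span_singleton_self _
  have h1 := npt_eq (j : Ei →+* 𝓞 K) hz hmem (Or.inl rfl) (by rw [pow_one]; exact hnm) hD
  rw [pow_one, pow_one] at h1
  have h1' : ((nm (pK j P) : ℕ) : ℂ) - (npt (j D) (pK j P) : ℂ) =
      yz z D + (starRingEnd ℂ) (yz z D) := h1
  have e1 : yz z (aE D l m) = yz z D * uu l m z := yz_aE hz hD hl m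
  have e2 : yz z (aE D l (-m)) = yz z D * uu l (-m) z := yz_aE hz hD hl (-m)
  have h3 : yz z D * (starRingEnd ℂ) (yz z D) = ((nr z).natAbs : ℂ) := yz_norm z D
  set N := (nr z).natAbs with hN
  have hq : (N : ℂ) ≠ 0 := by
    have := nrz_pos hz
    exact_mod_cast this.ne'
  have h2 : (N : ℂ) ^ (1 - 2 * s) = (N : ℂ) * ((N : ℂ) ^ (-s)) ^ 2 := by
    have e : (1 - 2 * s : ℂ) = 1 + ((2 : ℕ) : ℂ) * (-s) := by push_cast; ring
    rw [e, Complex.cpow_add _ _ hq, Complex.cpow_one, Complex.cpow_nat_mul]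
  unfold TF
  rw [h1', hnm, inv_inv, h2, map_inv₀, map_sub, map_one, map_mul, conj_nat_cpow', e1, e2, map_mul,
    uu_conj, map_neg, Complex.conj_conj, ← mul_inv]
  congr 1
  linear_combination (-(uu l m z) ^ 2 * ((N : ℂ) ^ (-s)) ^ 2) * h3

/-- **The twisted `L`-function** -/
theorem twistE {T : Type} [Fintype T] {M D : Ei} {l : T → Ei} (m : T → Fin 3) (hM0 : M ≠ 0)
    (h3M : (3 : Ei) ∣ M) (hDM : D ∣ M) (hlM : ∀ i, l i ∣ M)
    {F F' : ℂ → ℂ} {x x' : HeightOneSpectrum Ei → ℂ} (hF : Differentiable ℂ F) (hF1 : F 1 ≠ 0)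
    (hx : ∀ P, x P = 0 ∨ ‖x P‖ = (nm (pK j P) : ℝ) ^ (1 / 2 : ℝ))
    (hxz : ∀ P z, Pq z → P.asIdeal = Ideal.span {z} → ¬ z ∣ aE D l m → x P = yz z (aE D l m))
    (hFp : ∀ s : ℂ, 3 / 2 < s.re → HasProd (fun P : HeightOneSpectrum Ei =>
        (1 - x P * (nm (pK j P) : ℂ) ^ (-s))⁻¹) (F s))
    (hF' : Differentiable ℂ F') (hF1' : F' 1 ≠ 0)
    (hx' : ∀ P, x' P = 0 ∨ ‖x' P‖ = (nm (pK j P) : ℝ) ^ (1 / 2 : ℝ))
    (hxz' : ∀ P z, Pq z → P.asIdeal = Ideal.span {z} → ¬ z ∣ aE D l (-m) →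
      x' P = yz z (aE D l (-m)))
    (hFp' : ∀ s : ℂ, 3 / 2 < s.re → HasProd (fun P : HeightOneSpectrum Ei =>
        (1 - x' P * (nm (pK j P) : ℂ) ^ (-s))⁻¹) (F' s))
    (c : HeightOneSpectrum (𝓞 K) → ℂ)
    (hc : ∀ P z, Pq z → P.asIdeal = Ideal.span {z} → ¬ z ∣ M → c (pK j P) = (uu l m z)⁻¹) :
    ∃ L : ℂ → ℂ, Differentiable ℂ L ∧ L 1 ≠ 0 ∧ ∀ s : ℂ, 3 / 2 < s.re →
      HasProd (fun v : {v : HeightOneSpectrum (𝓞 K) // j M ∉ v.asIdeal} =>
        TF (j D) (c v.1) s v.1) (L s) := by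
  have hBf := bad_finite hM0
  set B : Finset (HeightOneSpectrum Ei) := hBf.toFinset with hB
  have hBm : ∀ P, P ∈ B ↔ M ∈ P.asIdeal := fun P => by
    rw [hB, Set.Finite.mem_toFinset]
    rfl
  have hdiff : ∀ {G : ℂ → ℂ} {y : HeightOneSpectrum Ei → ℂ}, Differentiable ℂ G →
      Differentiable ℂ fun s => G s * ∏ P ∈ B, (1 - y P * (nm (pK j P) : ℂ) ^ (-s)) := by
    intro G y hG
    refine hG.mul (Differentiable.fun_finsetProd fun P _ => ?_)
    have hq : ((nm (pK j P) : ℕ) : ℂ) ≠ 0 := by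
      have := two_le_nm (pK j P)
      have h1 : nm (pK j P) ≠ 0 := by omega
      exact_mod_cast h1
    have h1 : Differentiable ℂ (fun s : ℂ => ((nm (pK j P) : ℕ) : ℂ) ^ (-s)) :=
      differentiable_id.neg.const_cpow (Or.inl hq)
    exact (differentiable_const _).sub (h1.const_mul _)
  have hfac : ∀ {y : ℂ} (P : HeightOneSpectrum Ei),
      (y = 0 ∨ ‖y‖ = (nm (pK j P) : ℝ) ^ (1 / 2 : ℝ)) → ∀ s : ℂ, 1 / 2 < s.re →
      1 - y * (nm (pK j P) : ℂ) ^ (-s) ≠ 0 := by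
    intro y P hy s hs
    rcases hy with rfl | hy
    · rw [zero_mul, sub_zero]
      exact one_ne_zero
    · have h2 := two_le_nm (pK j P)
      have hq0 : (0 : ℝ) < nm (pK j P) := by
        have : 0 < nm (pK j P) := by omega
        exact_mod_cast this
      have hlt : (nm (pK j P) : ℝ) ^ (1 / 2 : ℝ) * (nm (pK j P) : ℝ) ^ (-s.re) < 1 := by
        rw [← Real.rpow_add hq0]
        refine Real.rpow_lt_one_of_one_lt_of_neg ?_ (by linarith)
        have : 1 < nm (pK j P) := by omega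
        exact_mod_cast this
      intro h0
      have h5 : y * (nm (pK j P) : ℂ) ^ (-s) = 1 := (sub_eq_zero.1 h0).symm
      have h6 := congrArg norm h5
      rw [norm_mul, hy, norm_cp (by omega), norm_one] at h6
      rw [h6] at hlt
      exact lt_irrefl _ hlt
  set G : ℂ → ℂ := fun s => F s * ∏ P ∈ B, (1 - x P * (nm (pK j P) : ℂ) ^ (-s)) with hG
  set G' : ℂ → ℂ := fun s => F' s * ∏ P ∈ B, (1 - x' P * (nm (pK j P) : ℂ) ^ (-s)) with hG'
  have hGd : Differentiable ℂ G := hdiff hF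
  have hGd' : Differentiable ℂ G' := hdiff hF'
  have hG1 : G 1 ≠ 0 := mul_ne_zero hF1 (Finset.prod_ne_zero_iff.2 fun P _ =>
    hfac P (hx P) 1 (by rw [Complex.one_re]; norm_num))
  have hG1' : G' 1 ≠ 0 := mul_ne_zero hF1' (Finset.prod_ne_zero_iff.2 fun P _ =>
    hfac P (hx' P) 1 (by rw [Complex.one_re]; norm_num))
  refine ⟨fun s => G s * (starRingEnd ℂ) (G' ((starRingEnd ℂ) s)), ?_, ?_, fun s hs => ?_⟩
  · refine hGd.mul ?_
    intro s
    have h1 := (hGd' ((starRingEnd ℂ) s)).conj_conj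
    rw [Complex.conj_conj] at h1
    exact h1
  · show G 1 * (starRingEnd ℂ) (G' ((starRingEnd ℂ) 1)) ≠ 0
    rw [map_one]
    exact mul_ne_zero hG1 ((map_ne_zero _).2 hG1')
  · have hsc : 3 / 2 < ((starRingEnd ℂ) s).re := by rwa [Complex.conj_re]
    have h1 : HasProd (fun P : {P : HeightOneSpectrum Ei // P ∉ B} =>
        (1 - x P.1 * (nm (pK j P.1) : ℂ) ^ (-s))⁻¹) (G s) := by
      have h := hasProd_compl (hFp s hs) B fun P _ =>
        inv_ne_zero (hfac P (hx P) s (by linarith))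
      rw [hG]
      simpa only [inv_inv] using h
    have h2 : HasProd (fun P : {P : HeightOneSpectrum Ei // P ∉ B} =>
        (1 - x' P.1 * (nm (pK j P.1) : ℂ) ^ (-((starRingEnd ℂ) s)))⁻¹)
          (G' ((starRingEnd ℂ) s)) := by
      have h := hasProd_compl (hFp' _ hsc) B fun P _ =>
        inv_ne_zero (hfac P (hx' P) _ (by rw [Complex.conj_re]; linarith))
      rw [hG']
      simpa only [inv_inv] using h
    have h3 := h1.mul (h2.map (starRingEnd ℂ) Complex.continuous_conj)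
    set E : {P : HeightOneSpectrum Ei // P ∉ B} ≃
        {v : HeightOneSpectrum (𝓞 K) // j M ∉ v.asIdeal} :=
      (eK j).subtypeEquiv fun P => by
        rw [not_iff_not, hBm]
        exact (mem_pK j P M).symm with hE
    refine (E.hasProd_iff).1 (h3.congr_fun fun P => ?_)
    have hM : M ∉ P.1.asIdeal := fun h => P.2 ((hBm _).2 h)
    obtain ⟨k1, k2⟩ := zz_spec h3M hM
    have k3 : ¬ zz P.1 ∣ M := by
      intro h
      apply hM
      rw [k2, Ideal.mem_span_singleton]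
      exact h
    have k4 : ¬ zz P.1 ∣ D := fun h => k3 (h.trans hDM)
    have k5 : ∀ i, ¬ zz P.1 ∣ l i := fun i h => k3 (h.trans (hlM i))
    have k6 : ∀ n : T → Fin 3, ¬ zz P.1 ∣ aE D l n := by
      intro n h
      unfold aE at h
      rcases k1.prime.dvd_or_dvd h with h | h
      · exact k4 h
      · rw [k1.prime.dvd_finsetProd_iff] at h
        obtain ⟨i, -, h⟩ := h
        exact k5 i (k1.prime.dvd_of_dvd_pow h)
    have k7 : ((E P : {v : HeightOneSpectrum (𝓞 K) // j M ∉ v.asIdeal}) :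
      HeightOneSpectrum (𝓞 K)) = pK j P.1 := rfl
    show TF (j D) (c (E P).1) s (E P).1 = (1 - x P.1 * (nm (pK j P.1) : ℂ) ^ (-s))⁻¹ *
      (starRingEnd ℂ) ((1 - x' P.1 * (nm (pK j P.1) : ℂ) ^ (-((starRingEnd ℂ) s)))⁻¹)
    rw [k7, hc P.1 (zz P.1) k1 k2 k3, tf_eq j m k1 k2 k4 k5 s,
      hxz P.1 (zz P.1) k1 k2 (k6 m), hxz' P.1 (zz P.1) k1 k2 (k6 (-m))]

end

end Pool.Agent.X253.C3
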