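import Pool.Agent.X253.C3.Eq2

/-!
# The Galois group of `K(∛l : l ∈ T)`, its characters, and their values at Frobenius
-/

set_option autoImplicit false
set_option linter.unusedVariables false
set_option linter.unusedSectionVars false

namespace Pool.Agent.X253.C3

open NumberField IsDedekindDomain
open Pool.Agent.Y692.QS (Ei w nr toC toC_inj ns)
open Pool.Agent.Y715.T.Rec (cs nn)
open Pool.Agent.Y715.T.RecG (Pq cs_spec cs_uniq)
open Pool.Agent.H921R2.TatePole (nm two_le_nm)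
open Pool.Agent.Y696.CTK
open scoped Classical

section gal

variable {K F : Type} [Field K] [NumberField K] [Field F] [NumberField F] [Algebra K F]

/-- the Galois group of `K(∛l : l ∈ T)` -/
theorem galPhi (I : K) (hI : I ^ 2 + I + 1 = 0) {T : Type} [Fintype T] (l : T → 𝓞 K)
    (hl : ∀ i, Prime (l i)) (hla : ∀ i k, i ≠ k → ¬ l i ∣ l k)
    (x : T → F) (hx : ∀ i, x i ^ 3 = algebraMap K F (l i))
    (hgen : ∀ S : Subfield F, (∀ k : K, algebraMap K F k ∈ S) → (∀ i, x i ∈ S) → S = ⊤) :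
    ∃ Φ : Additive (F ≃ₐ[K] F) ≃+ (T → ZMod 3), ∀ (σ : F ≃ₐ[K] F) (i : T),
      σ (x i) = (algebraMap K F I) ^ (Φ (Additive.ofMul σ) i).val * x i := by
  classical
  have hgal : IsGalois K F := galois3 I hI (fun i => ((l i : 𝓞 K) : K)) x hx hgen
  have hfd : FiniteDimensional K F := Pool.Agent.Y715.CS.finKF
  have hdeg := deg3 I hI l hl hla x hx hgen
  obtain ⟨J, hJ⟩ : ∃ J : F, J = algebraMap K F I := ⟨_, rfl⟩
  rw [← hJ]
  have hJ2 : J ^ 2 + J + 1 = 0 := by
    rw [hJ, ← map_pow, ← map_one (algebraMap K F), ← map_add, ← map_add, hI, map_zero]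
  have hJ1 : J ≠ 1 := by
    intro h1
    rw [h1] at hJ2
    norm_num at hJ2
  have hx0 : ∀ i, x i ≠ 0 := by
    intro i h0
    have h1 := hx i
    rw [h0, zero_pow (by norm_num)] at h1
    have h2 : ((l i : 𝓞 K) : K) = 0 := (map_eq_zero _).1 h1.symm
    exact (hl i).ne_zero (RingOfIntegers.coe_injective (h2.trans (map_zero _).symm))
  have hcube : ∀ z : F, z ^ 3 = 1 → ∃ a : ZMod 3, z = J ^ a.val := by
    intro z hz
    have h5 : (z - 1) * ((z - J) * (z - J ^ 2)) = 0 := by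
      linear_combination hz + (- z ^ 2 + z + J * z - z * 1 + (1 - J)) * hJ2
    rcases mul_eq_zero.1 h5 with h6 | h6
    · exact ⟨0, by rw [ZMod.val_zero, pow_zero]; linear_combination h6⟩
    · rcases mul_eq_zero.1 h6 with h7 | h7
      · refine ⟨1, ?_⟩
        rw [show (1 : ZMod 3).val = 1 from rfl, pow_one]
        linear_combination h7
      · refine ⟨2, ?_⟩
        rw [show (2 : ZMod 3).val = 2 from rfl]
        linear_combination h7
  have hw : ∀ (σ : F ≃ₐ[K] F) (i : T), ∃ a : ZMod 3, σ (x i) = J ^ a.val * x i := by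
    intro σ i
    obtain ⟨a, ha⟩ := hcube (σ (x i) / x i) (by
      have h1 : σ (x i) ^ 3 = x i ^ 3 := by
        rw [← map_pow, hx i, AlgEquiv.commutes]
      rw [div_pow, h1, div_self (pow_ne_zero _ (hx0 i))])
    exact ⟨a, by rw [← ha, div_mul_cancel₀ _ (hx0 i)]⟩
  choose a ha using hw
  have hJfix : ∀ σ : F ≃ₐ[K] F, σ J = J := fun σ => by rw [hJ, AlgEquiv.commutes]
  have hmul : ∀ σ τ i, a (σ * τ) i = a σ i + a τ i := by
    intro σ τ i
    have h1 := ha (σ * τ) i
    rw [AlgEquiv.mul_apply, ha τ i, map_mul, map_pow, hJfix, ha σ i, ← mul_assoc, ← pow_add] at h1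
    have h2 := mul_right_cancel₀ (hx0 i) h1
    rw [pow_mod3 hJ2 hJ1] at h2
    push_cast at h2
    rw [ZMod.natCast_zmod_val, ZMod.natCast_zmod_val, ZMod.natCast_zmod_val] at h2
    rw [← h2, add_comm]
  have hone : ∀ i, a 1 i = 0 := by
    intro i
    have h1 := hmul 1 1 i
    rw [mul_one] at h1
    exact (left_eq_add.1 h1)
  -- the homomorphism
  let Φ : Additive (F ≃ₐ[K] F) →+ (T → ZMod 3) :=
    { toFun := fun σ i => a σ.toMul i
      map_zero' := by
        funext i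
        exact hone i
      map_add' := by
        intro σ τ
        funext i
        exact hmul _ _ i }
  have hinj : Function.Injective Φ := by
    rw [injective_iff_map_eq_zero]
    intro σ hσ
    have h1 : ∀ i, a σ.toMul i = 0 := fun i => congrFun hσ i
    have h2 : ∀ i, σ.toMul (x i) = x i := by
      intro i
      rw [ha, h1, ZMod.val_zero, pow_zero, one_mul]
    have h3 := hgen (IntermediateField.fixedField (Subgroup.zpowers σ.toMul)).toSubfield
      (fun k => (IntermediateField.fixedField (Subgroup.zpowers σ.toMul)).algebraMap_mem k)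
      (fun i => by
        show x i ∈ IntermediateField.fixedField (Subgroup.zpowers σ.toMul)
        rw [IntermediateField.mem_fixedField_iff]
        intro g hg
        obtain ⟨n, rfl⟩ := Subgroup.mem_zpowers_iff.1 hg
        have h4 : σ.toMul ∈ MulAction.stabilizer (F ≃ₐ[K] F) (x i) := h2 i
        exact Subgroup.zpow_mem _ h4 n)
    have h5 : σ.toMul = 1 := by
      ext y
      have h6 : y ∈ (IntermediateField.fixedField (Subgroup.zpowers σ.toMul)).toSubfield := by
        rw [h3]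
        trivial
      have h7 : y ∈ IntermediateField.fixedField (Subgroup.zpowers σ.toMul) := h6
      rw [IntermediateField.mem_fixedField_iff] at h7
      exact h7 _ (Subgroup.mem_zpowers _)
    exact h5
  have hcard : Nat.card (Additive (F ≃ₐ[K] F)) = Nat.card (T → ZMod 3) := by
    have h2 : Nat.card (T → ZMod 3) = 3 ^ Fintype.card T := by
      rw [Nat.card_eq_fintype_card, Fintype.card_fun, ZMod.card]
    rw [h2, ← hdeg, ← IsGalois.card_aut_eq_finrank]
    rfl
  have hbij : Function.Bijective Φ := (Nat.bijective_iff_injective_and_card Φ).2 ⟨hinj, hcard⟩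
  exact ⟨AddEquiv.ofBijective Φ hbij, fun σ i => ha σ i⟩

lemma toCw : (toC w) ^ 2 + toC w + 1 = 0 := by
  have h1 : (w : Ei) ^ 2 + w + 1 = 0 := by decide
  have h2 := congrArg toC h1
  rwa [map_add, map_add, map_pow, map_one, map_zero] at h2

/-- the characters of `(ℤ/3)^T` -/
theorem charPhi {G T : Type} [Group G] [Fintype T] (Φ : Additive G ≃+ (T → ZMod 3))
    (χ : G →* ℂˣ) : ∃ m : T → Fin 3, ∀ σ : G,
      ((χ σ : ℂˣ) : ℂ) = ∏ i, ((toC w) ^ (Φ (Additive.ofMul σ) i).val) ^ ((m i : Fin 3) : ℕ) := by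
  classical
  set g : T → G := fun i => (Φ.symm (Pi.single i 1)).toMul with hg
  have h3 : ∀ i, ((χ (g i) : ℂˣ) : ℂ) ^ 3 = 1 := by
    intro i
    have h1 : g i ^ 3 = 1 := by
      have h2 : (3 : ℕ) • (Φ.symm (Pi.single i (1 : ZMod 3))) = 0 := by
        rw [← map_nsmul, ← Pi.single_smul]
        have : (3 : ℕ) • (1 : ZMod 3) = 0 := by decide
        rw [this, Pi.single_zero, map_zero]
      exact h2
    have h4 : (χ (g i)) ^ 3 = 1 := by rw [← map_pow, h1, map_one]
    have h5 := congrArg (fun u : ℂˣ => (u : ℂ)) h4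
    simpa using h5
  have hcube : ∀ z : ℂ, z ^ 3 = 1 → ∃ a : Fin 3, z = (toC w) ^ (a : ℕ) := by
    intro z hz
    have h5 : (z - 1) * ((z - toC w) * (z - (toC w) ^ 2)) = 0 := by
      linear_combination hz + (- z ^ 2 + z + toC w * z - z * 1 + (1 - toC w)) * toCw
    rcases mul_eq_zero.1 h5 with h6 | h6
    · exact ⟨0, by simp only [Fin.val_zero, pow_zero]; linear_combination h6⟩
    · rcases mul_eq_zero.1 h6 with h7 | h7
      · refine ⟨1, ?_⟩
        simp only [Fin.val_one, pow_one]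
        linear_combination h7
      · refine ⟨2, ?_⟩
        simp only [Fin.val_two]
        linear_combination h7
  choose m hm using fun i => hcube _ (h3 i)
  refine ⟨m, fun σ => ?_⟩
  let χ' : (T → ZMod 3) →+ Additive ℂˣ := (MonoidHom.toAdditive χ).comp Φ.symm.toAddMonoidHom
  have h4 : ∀ y : T → ZMod 3, χ' y = ∑ i, (y i).val • χ' (Pi.single i 1) := by
    intro y
    conv_lhs => rw [← Finset.univ_sum_single y, map_sum]
    refine Finset.sum_congr rfl fun i _ => ?_
    rw [← map_nsmul, ← Pi.single_smul, nsmul_eq_mul, mul_one, ZMod.natCast_zmod_val]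
  have h6 : χ' (Φ (Additive.ofMul σ)) = Additive.ofMul (χ σ) := by
    show Additive.ofMul (χ (Φ.symm (Φ (Additive.ofMul σ))).toMul) = _
    rw [Φ.symm_apply_apply]
    rfl
  have h5 : χ σ = ∏ i, (χ (g i)) ^ (Φ (Additive.ofMul σ) i).val := by
    have h7 := h4 (Φ (Additive.ofMul σ))
    rw [h6] at h7
    exact h7
  rw [h5, Units.coe_prod]
  refine Finset.prod_congr rfl fun i _ => ?_
  rw [Units.val_pow_eq_pow_val, hm i, ← pow_mul, ← pow_mul, mul_comm]

end gal

section frob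

variable {K F : Type} [Field K] [NumberField K] [Field F] [NumberField F] [Algebra K F]

/-- `u` lies over `v` and `σ` is a Frobenius automorphism at `u` -/
def IsFrob (σ : F ≃ₐ[K] F) (v : HeightOneSpectrum (𝓞 K)) (u : HeightOneSpectrum (𝓞 F)) : Prop :=
  u.asIdeal.comap (algebraMap (𝓞 K) (𝓞 F)) = v.asIdeal ∧
    ∀ y : 𝓞 F, σ • y - y ^ nm v ∈ u.asIdeal

lemma card_quot_nm (v : HeightOneSpectrum (𝓞 K)) : Nat.card (𝓞 K ⧸ v.asIdeal) = nm v := by
  unfold Pool.Agent.H921R2.TatePole.nm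
  rw [Ideal.absNorm_apply, Submodule.cardQuot_apply]

/-- existence -/
theorem exists_frob [IsGalois K F] (v : HeightOneSpectrum (𝓞 K)) :
    ∃ (u : HeightOneSpectrum (𝓞 F)) (σ : F ≃ₐ[K] F), IsFrob σ v u := by
  have hfd : FiniteDimensional K F := Pool.Agent.Y715.CS.finKF
  have hinv : Algebra.IsInvariant (𝓞 K) (𝓞 F) (F ≃ₐ[K] F) := by
    constructor
    intro b hb
    obtain ⟨y, hy⟩ := (IsGalois.mem_range_algebraMap_iff_fixed (F := K) (b : F)).2 (fun σ =>
      congrArg (fun z : 𝓞 F => (z : F)) (hb σ))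
    have h1 : _root_.IsIntegral ℤ y := by
      have h2 : _root_.IsIntegral ℤ (algebraMap K F y) := by rw [hy]; exact b.2
      exact (isIntegral_algHom_iff ((algebraMap K F).toIntAlgHom) (algebraMap K F).injective).1 h2
    refine ⟨⟨y, h1⟩, ?_⟩
    apply RingOfIntegers.ext
    exact hy
  obtain ⟨Q, hQ, hover⟩ : ∃ Q : Ideal (𝓞 F), Q.IsMaximal ∧
      Q.comap (algebraMap (𝓞 K) (𝓞 F)) = v.asIdeal := by
    have hmax : v.asIdeal.IsMaximal := v.isPrime.isMaximal v.ne_bot
    obtain ⟨Q, h1, h2⟩ := Ideal.exists_ideal_over_maximal_of_isIntegral v.asIdeal (S := 𝓞 F)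
      (by
        rw [(RingHom.injective_iff_ker_eq_bot _).1
          (FaithfulSMul.algebraMap_injective (𝓞 K) (𝓞 F))]
        exact bot_le)
    exact ⟨Q, h1, h2⟩
  have hQ0 : Q ≠ ⊥ := by
    intro h0
    apply v.ne_bot
    rw [← hover, h0]
    exact Ideal.comap_bot_of_injective _ (FaithfulSMul.algebraMap_injective (𝓞 K) (𝓞 F))
  have hQp := hQ.isPrime
  have hfin : Finite (𝓞 F ⧸ Q) := Ideal.finiteQuotientOfFreeOfNeBot Q hQ0
  obtain ⟨σ, hσ⟩ := IsArithFrobAt.exists_of_isInvariant (𝓞 K) (F ≃ₐ[K] F) Q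
  refine ⟨⟨Q, hQp, hQ0⟩, σ, hover, fun y => ?_⟩
  have h1 := hσ y
  have h2 : Q.under (𝓞 K) = v.asIdeal := hover
  rw [h2, card_quot_nm] at h1
  exact h1

/-- the action of a Frobenius automorphism on the cube roots -/
theorem frob_act (j : Ei ≃+* 𝓞 K) {T : Type} [Fintype T] (l : T → Ei) (x : T → 𝓞 F)
    (hx : ∀ i, x i ^ 3 = algebraMap (𝓞 K) (𝓞 F) (j (l i)))
    {P : HeightOneSpectrum Ei} {z : Ei} (hz : Pq z) (hP : P.asIdeal = Ideal.span {z})
    (hzl : ∀ i, ¬ z ∣ l i) {σ : F ≃ₐ[K] F} {u : HeightOneSpectrum (𝓞 F)}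
    (hσ : IsFrob σ (pK j P) u) {i : T} {c : ZMod 3}
    (hc : σ ((x i : 𝓞 F) : F) = (algebraMap K F ((j w : 𝓞 K) : K)) ^ c.val * ((x i : 𝓞 F) : F)) :
    c = cs z (l i) := by
  obtain ⟨hover, hfr⟩ := hσ
  have hmem : ∀ y : Ei, algebraMap (𝓞 K) (𝓞 F) (j y) ∈ u.asIdeal → z ∣ y := by
    intro y hy
    have h1 : j y ∈ (pK j P).asIdeal := by
      rw [← hover]
      exact hy
    rw [mem_pK, hP, Ideal.mem_span_singleton] at h1
    exact h1
  have hmem' : ∀ y : Ei, z ∣ y → algebraMap (𝓞 K) (𝓞 F) (j y) ∈ u.asIdeal := by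
    intro y hy
    have h1 : j y ∈ (pK j P).asIdeal := by
      rw [mem_pK, hP, Ideal.mem_span_singleton]
      exact hy
    rw [← hover] at h1
    exact h1
  have hrv : x i ∉ u.asIdeal := by
    intro h
    have h1 : algebraMap (𝓞 K) (𝓞 F) (j (l i)) ∈ u.asIdeal := by
      rw [← hx i, pow_succ]
      exact u.asIdeal.mul_mem_left _ h
    exact hzl i (hmem _ h1)
  have h1 := hfr (x i)
  rw [nm_zz j hP] at h1
  have hN := nr_mod3 hz
  have hnn : (nr z).natAbs = 3 * nn z + 1 := by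
    unfold Pool.Agent.Y715.T.Rec.nn
    omega
  have h3 : x i ^ (nr z).natAbs = algebraMap (𝓞 K) (𝓞 F) (j (l i ^ nn z)) * x i := by
    rw [map_pow, map_pow, ← hx i, ← pow_mul, ← pow_succ, hnn]
  have h4 : algebraMap (𝓞 K) (𝓞 F) (j (l i ^ nn z)) -
      algebraMap (𝓞 K) (𝓞 F) (j (w ^ (cs z (l i)).val)) ∈ u.asIdeal := by
    rw [← map_sub, ← map_sub]
    exact hmem' _ (cs_spec hz.prime hz.norm (hzl i))
  have h5 : σ • x i = algebraMap (𝓞 K) (𝓞 F) (j (w ^ c.val)) * x i := by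
    apply RingOfIntegers.ext
    change σ ((x i : 𝓞 F) : F) = _
    rw [hc, map_pow, map_pow]
    have e2 : ((algebraMap (𝓞 K) (𝓞 F) (j w) : 𝓞 F) : F) = algebraMap K F ((j w : 𝓞 K) : K) := rfl
    rw [← e2]
    exact ((map_mul (algebraMap (𝓞 F) F) (algebraMap (𝓞 K) (𝓞 F) (j w) ^ c.val) (x i)).trans
      (congrArg (· * ((x i : 𝓞 F) : F))
        (map_pow (algebraMap (𝓞 F) F) (algebraMap (𝓞 K) (𝓞 F) (j w)) c.val))).symm
  have h6 : algebraMap (𝓞 K) (𝓞 F) (j (w ^ c.val - w ^ (cs z (l i)).val)) * x i ∈ u.asIdeal := by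
    have h7 := u.asIdeal.add_mem h1 (u.asIdeal.mul_mem_right (x i) h4)
    rw [h3, h5] at h7
    have e : algebraMap (𝓞 K) (𝓞 F) (j (w ^ c.val)) * x i -
        algebraMap (𝓞 K) (𝓞 F) (j (l i ^ nn z)) * x i +
        (algebraMap (𝓞 K) (𝓞 F) (j (l i ^ nn z)) -
          algebraMap (𝓞 K) (𝓞 F) (j (w ^ (cs z (l i)).val))) * x i =
        algebraMap (𝓞 K) (𝓞 F) (j (w ^ c.val - w ^ (cs z (l i)).val)) * x i := by
      rw [map_sub, map_sub]
      ring
    rwa [e] at h7
  rcases u.isPrime.mem_or_mem h6 with h7 | h7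
  · exact w_unif hz (hmem _ h7)
  · exact absurd h7 hrv

end frob

end Pool.Agent.X253.C3
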