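import Pool.Agent.X253.C3.Pri
import Pool.Agent.Y703.CT.StmC
import Pool.Agent.Y350.CT.REC
import Pool.Agent.Y699.E.Pd

/-!
# Infinite sets of primes, all of whose products with `D` are good
-/

set_option autoImplicit false
set_option linter.unusedSectionVars false

namespace Pool.Agent.X253.C3

open NumberField
open Pool.Agent.Y692.QS (Ei w nr mul_star nr_zero_iff nr_nonneg isUnit_iff nr_mul)
open Pool.Agent.Y715.T.Gi Pool.Agent.Y715.T.Nr Pool.Agent.Y715.T.Df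
open Pool.Agent.Y715.T.Rec (cs nn)
open Pool.Agent.Y715.T.RecG (Pq)
open Pool.Agent.Y715.T.Sel (root_ne i₀_inj)
open Pool.Agent.Y703.CT

lemma not_dvd_w {ρ : Ei} (hρ : Prime ρ) (n : ℕ) : ¬ ρ ∣ (w : Ei) ^ n := by
  intro h
  have hw3 : (w : Ei) ^ 3 = 1 := by decide
  have h1 : ρ ∣ (w : Ei) := hρ.dvd_of_dvd_pow h
  have h2 : ρ ∣ 1 := by
    rw [← hw3]
    exact dvd_pow h1 (by norm_num)
  exact hρ.not_isUnit (isUnit_of_dvd_one h2)

/-- the elements of the Galois group fixing the cube roots of the units -/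
lemma fix_nine {i₀ : QB} (hi : i₀ ^ 2 + i₀ + 1 = 0) {ρ : Ei} (hρ : Prime ρ) (g : GK i₀)
    (hg : ∀ b : Ei, ¬ ρ ∣ b → ∀ s : QB, s ^ 3 = ev i₀ hi b → g s = s) (ξ : QB)
    (hξ : ξ ^ 9 = 1) : g ξ = ξ := by
  have h1 : (ξ ^ 3) ^ 3 = (1 : QB) ^ 3 := by rw [← pow_mul, one_pow]; exact hξ
  obtain ⟨n, hn⟩ := cube_eq hi h1
  refine hg (w ^ n) (not_dvd_w hρ n) ξ ?_
  rw [hn, map_pow, ev_w, mul_one]

/-- **A new prime.** -/
theorem new_prime {J : Type} [Fintype J] {π : J → Ei} (hπ : ∀ j, Pq (π j))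
    (hnd : ∀ i j, i ≠ j → ¬ π j ∣ π i) (j₀ : J) (s : Finset Ei)
    (hs : ∀ x ∈ s, Pq x ∧ ¬ x ∣ π j₀) :
    ∃ l : Ei, (Pq l ∧ (9 : ℤ) ∣ nr l - 1 ∧ (∀ j, ¬ l ∣ π j) ∧
      (∀ j, j ≠ j₀ → cs (π j) l = 0 ∧ cs l (π j) = 0) ∧ cs (π j₀) l ≠ 0 ∧ cs l (π j₀) ≠ 0) ∧
      ∀ x ∈ s, ¬ l ∣ x ∧ cs l x = 0 ∧ cs x l = 0 := by
  classical
  obtain ⟨i₀, hi3⟩ := Pool.Agent.Y261.CT.exists_prim 3 (by norm_num)
  have hi : i₀ ^ 2 + i₀ + 1 = 0 := Pool.Agent.Y261.CT.prim_sum hi3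
  have hρ := (hπ j₀).prime
  have hna : ¬ Associated (π j₀) lam := by
    intro h
    apply (hπ j₀).norm
    have h1 : (3 : Ei) = -(lam * lam) := by
      have := lam_sq
      rw [pow_two] at this
      rw [this, neg_neg]
    rw [h1, dvd_neg]
    exact Dvd.dvd.mul_right h.dvd _
  obtain ⟨g, hg, hgρ⟩ := inert_ex hi hρ hna
  have hBs : ∀ b ∈ Finset.univ.image π ∪ s, b ≠ 0 := by
    intro b hb
    rcases Finset.mem_union.1 hb with h | h
    · obtain ⟨j, -, rfl⟩ := Finset.mem_image.1 h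
      exact (hπ j).prime.ne_zero
    · exact (hs b h).1.prime.ne_zero
  obtain ⟨l, hl, -, hl9, hlb⟩ := prime_ex hi (Finset.univ.image π ∪ s) hBs g
    (fix_nine hi hρ g hg) ∅
  have hzero : ∀ b ∈ Finset.univ.image π ∪ s, ¬ π j₀ ∣ b → cs l b = 0 := by
    intro b hb hb'
    obtain ⟨s', hs'⟩ := Pool.Agent.Y715.T.Sel.ex_root (ev i₀ hi b)
    have h1 := (hlb b hb).2 s' hs'
    rw [hg b hb' s' hs'] at h1
    have h2 : i₀ ^ (cs l b).val = i₀ ^ (0 : ZMod 3).val := by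
      rw [ZMod.val_zero, pow_zero]
      apply mul_right_cancel₀ (root_ne (hBs b hb) hs')
      rw [one_mul]
      exact h1.symm
    exact i₀_inj (hi := hi) h2
  have hmemπ : ∀ j, π j ∈ Finset.univ.image π ∪ s := fun j =>
    Finset.mem_union_left _ (Finset.mem_image_of_mem _ (Finset.mem_univ j))
  have hne0 : cs l (π j₀) ≠ 0 := by
    intro h
    obtain ⟨s', hs'⟩ := Pool.Agent.Y715.T.Sel.ex_root (ev i₀ hi (π j₀))
    have h1 := (hlb _ (hmemπ j₀)).2 s' hs'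
    rw [h, ZMod.val_zero, pow_zero, one_mul] at h1
    exact hgρ s' hs' h1
  have hrec : ∀ x, Pq x → ¬ l ∣ x → cs x l = cs l x := fun x hx hlx => by
    refine Pool.Agent.Y350.CT.rec l x hl hx ?_
    intro h
    have := Pool.Agent.Y699.E.eq_of_dvd hx hl h
    exact hlx (by rw [this])
  refine ⟨l, ⟨hl, hl9, fun j => (hlb _ (hmemπ j)).1, fun j hj => ?_, ?_, hne0⟩, fun x hx => ?_⟩
  · have h1 := hzero _ (hmemπ j) (hnd j j₀ hj)
    exact ⟨by rw [hrec _ (hπ j) (hlb _ (hmemπ j)).1]; exact h1, h1⟩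
  · rw [hrec _ (hπ j₀) (hlb _ (hmemπ j₀)).1]
    exact hne0
  · have hm : x ∈ Finset.univ.image π ∪ s := Finset.mem_union_right _ hx
    have h1 : cs l x = 0 := by
      refine hzero x hm ?_
      intro h
      have := Pool.Agent.Y699.E.eq_of_dvd (hπ j₀) (hs x hx).1 h
      exact (hs x hx).2 (by rw [this])
    exact ⟨(hlb x hm).1, h1, by rw [hrec x (hs x hx).1 (hlb x hm).1]; exact h1⟩

/-- **An infinite sequence of primes** -/
theorem seq_ex {J : Type} [Fintype J] {π : J → Ei} (hπ : ∀ j, Pq (π j))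
    (hnd : ∀ i j, i ≠ j → ¬ π j ∣ π i) (j₀ : J) :
    ∃ f : ℕ → Ei, (∀ n, Pq (f n) ∧ (9 : ℤ) ∣ nr (f n) - 1 ∧ (∀ j, ¬ f n ∣ π j) ∧
      (∀ j, j ≠ j₀ → cs (π j) (f n) = 0 ∧ cs (f n) (π j) = 0) ∧
      cs (π j₀) (f n) ≠ 0 ∧ cs (f n) (π j₀) ≠ 0) ∧
      ∀ m n, m ≠ n → ¬ f m ∣ f n ∧ cs (f m) (f n) = 0 := by
  obtain ⟨f, hf, hr⟩ := exists_seq_of_forall_finset_exists
    (fun l : Ei => Pq l ∧ (9 : ℤ) ∣ nr l - 1 ∧ (∀ j, ¬ l ∣ π j) ∧
      (∀ j, j ≠ j₀ → cs (π j) l = 0 ∧ cs l (π j) = 0) ∧ cs (π j₀) l ≠ 0 ∧ cs l (π j₀) ≠ 0)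
    (fun x l => ¬ l ∣ x ∧ cs l x = 0 ∧ cs x l = 0)
    (fun s hs => new_prime hπ hnd j₀ s fun x hx => ⟨(hs x hx).1, (hs x hx).2.2.1 j₀⟩)
  refine ⟨f, hf, fun m n hmn => ?_⟩
  rcases lt_or_gt_of_ne hmn with h | h
  · obtain ⟨h1, h2, h3⟩ := hr m n h
    refine ⟨fun h4 => h1 ?_, h3⟩
    rw [Pool.Agent.Y699.E.eq_of_dvd (hf m).1 (hf n).1 h4]
  · obtain ⟨h1, h2, h3⟩ := hr n m h
    exact ⟨h1, h2⟩

section ker

variable {J : Type} [Fintype J] {π : J → Ei} {e : J → ZMod 3}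

lemma zm3 {a b : ZMod 3} (h : a * b = 0) (ha : a ≠ 0) : b = 0 := by
  revert h ha
  revert a b
  decide

/-- the kernel of the larger system -/
theorem ker_sum (hk : Ker π e) (j₀ : J) (he : e j₀ ≠ 0) {T : Type} [Fintype T] (f : T → Ei)
    (m : T → ZMod 3) (h1 : ∀ t j, j ≠ j₀ → cs (π j) (f t) = 0 ∧ cs (f t) (π j) = 0)
    (h2 : ∀ t, cs (f t) (π j₀) ≠ 0) (h3 : ∀ t t', t ≠ t' → cs (f t) (f t') = 0) :
    Ker (Sum.elim π f) (Sum.elim e m) := by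
  classical
  intro v hv
  have e1 : ∀ t, v (Sum.inr t) = v (Sum.inl j₀) := by
    intro t
    have h4 := hv (Sum.inr t)
    rw [Fintype.sum_sum_type] at h4
    simp only [Sum.elim_inl, Sum.elim_inr] at h4
    have h5 : ∑ t', m t' * cs (f t) (f t') * (v (Sum.inr t') - v (Sum.inr t)) = 0 := by
      refine Finset.sum_eq_zero fun t' _ => ?_
      by_cases h : t = t'
      · subst h
        rw [sub_self, mul_zero]
      · rw [h3 t t' h, mul_zero, zero_mul]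
    have h6 : ∑ j, e j * cs (f t) (π j) * (v (Sum.inl j) - v (Sum.inr t)) =
        e j₀ * cs (f t) (π j₀) * (v (Sum.inl j₀) - v (Sum.inr t)) := by
      refine Finset.sum_eq_single j₀ (fun j _ hj => ?_) fun h => absurd (Finset.mem_univ _) h
      rw [(h1 t j hj).2, mul_zero, zero_mul]
    rw [h5, add_zero, h6, mul_assoc] at h4
    have h7 := zm3 (zm3 h4 he) (h2 t)
    exact (sub_eq_zero.1 h7).symm
  have e2 : ∀ i j, v (Sum.inl i) = v (Sum.inl j) := by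
    refine hk (fun j => v (Sum.inl j)) fun j => ?_
    have h4 := hv (Sum.inl j)
    rw [Fintype.sum_sum_type] at h4
    simp only [Sum.elim_inl, Sum.elim_inr] at h4
    have h5 : ∑ t, m t * cs (π j) (f t) * (v (Sum.inr t) - v (Sum.inl j)) = 0 := by
      refine Finset.sum_eq_zero fun t _ => ?_
      by_cases h : j = j₀
      · rw [e1 t, h, sub_self, mul_zero]
      · rw [(h1 t j h).1, mul_zero, zero_mul]
    rwa [h5, add_zero] at h4
  have e3 : ∀ x, v x = v (Sum.inl j₀) := by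
    rintro (j | t)
    · exact e2 _ _
    · exact e1 t
  intro i j
  rw [e3 i, e3 j]

/-- the data of the larger system -/
theorem dt_sum (hD : Dt π e) {T : Type} (f : T → Ei) (m : T → ZMod 3)
    (hm : ∀ t, m t ≠ 0) (hf : ∀ t, Pq (f t)) (h1 : ∀ t j, ¬ f t ∣ π j)
    (h2 : ∀ t t', t ≠ t' → ¬ f t ∣ f t') : Dt (Sum.elim π f) (Sum.elim e m) := by
  refine ⟨?_, ?_, ?_⟩
  · rintro (j | t)
    · exact hD.pq j
    · exact hf t
  · rintro (i | t) (j | t') hne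
    · exact hD.nd i j fun h => hne (by rw [h])
    · exact h1 t' i
    · intro h
      have h3 : π j ∣ f t := h
      have h4 := Pool.Agent.Y699.E.eq_of_dvd (hD.pq j) (hf t) h3
      exact h1 t j (by rw [h4])
    · exact h2 t' t fun h => hne (by rw [h])
  · rintro (j | t)
    · exact hD.e0 j
    · exact hm t

lemma pD_sum {T : Type} [Fintype T] (f : T → Ei) (m : T → ZMod 3) :
    pD (Sum.elim π f) (Sum.elim e m) = pD π e * pD f m := by
  unfold pD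
  rw [Fintype.prod_sum_type]
  rfl

lemma nine_pow {l : Ei} (h : (9 : ℤ) ∣ nr l - 1) (n : ℕ) : (9 : ℤ) ∣ nr (l ^ n) - 1 := by
  induction n with
  | zero =>
    rw [pow_zero]
    have : nr (1 : Ei) = 1 := by decide
    rw [this, sub_self]
    exact dvd_zero _
  | succ n ih =>
    rw [pow_succ, nr_mul]
    obtain ⟨a, ha⟩ := h
    obtain ⟨b, hb⟩ := ih
    refine ⟨a + b + 9 * a * b, ?_⟩
    have e1 : nr l = 9 * a + 1 := by linarith
    have e2 : nr (l ^ n) = 9 * b + 1 := by linarith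
    rw [e1, e2]
    ring

lemma nine_pD {T : Type} [Fintype T] (f : T → Ei) (m : T → ZMod 3)
    (h : ∀ t, (9 : ℤ) ∣ nr (f t) - 1) : (9 : ℤ) ∣ nr (pD f m) - 1 := by
  unfold pD
  refine Finset.prod_induction _ (fun x => (9 : ℤ) ∣ nr x - 1) ?_ ?_ fun t _ => nine_pow (h t) _
  · rintro x y ⟨a, ha⟩ ⟨b, hb⟩
    refine ⟨a + b + 9 * a * b, ?_⟩
    have e1 : nr x = 9 * a + 1 := by linarith
    have e2 : nr y = 9 * b + 1 := by linarith
    rw [nr_mul, e1, e2]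
    ring
  · have : nr (1 : Ei) = 1 := by decide
    rw [this, sub_self]
    exact dvd_zero _

lemma nine_mul {x y : Ei} (hx : ¬ (9 : ℤ) ∣ nr x - 1) (hy : (9 : ℤ) ∣ nr y - 1) :
    ¬ (9 : ℤ) ∣ nr (x * y) - 1 := by
  intro h
  apply hx
  obtain ⟨a, ha⟩ := h
  obtain ⟨b, hb⟩ := hy
  rw [nr_mul] at ha
  have e2 : nr y = 9 * b + 1 := by linarith
  rw [e2] at ha
  exact ⟨a - b * nr x, by linear_combination ha⟩

end ker

end Pool.Agent.X253.C3
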