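import Pool.Agent.X253.C3.Fam
import Pool.Agent.Y405.CT.Cri
import Pool.Agent.Y737.CT.OddEven

/-!
# Infinite sets of rational primes, all of whose products with `D` are good
-/

set_option autoImplicit false
set_option linter.unusedSectionVars false

namespace Pool.Agent.X253.C3

open NumberField
open Pool.Agent.Y692.QS (Ei w nr mul_star nr_zero_iff nr_nonneg isUnit_iff nr_mul)
open Pool.Agent.Y715.T.Gi Pool.Agent.Y715.T.Nr Pool.Agent.Y715.T.Df
open Pool.Agent.Y715.T.Rec (cs nn)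
open Pool.Agent.Y715.T.RecG (Pq)
open Pool.Agent.Y715.T.Sel (root_ne i₀_inj)
open Pool.Agent.Y703.CT
open Pool.Agent.Y350.CT (pq_star cs_star)
open Pool.Agent.Y715.T.RecC (star_dvd star_prime)

/-- **A new prime** of prime norm -/
theorem new_primeP {J : Type} [Fintype J] {π : J → Ei} (hπ : ∀ j, Pq (π j))
    (hnd : ∀ i j, i ≠ j → ¬ π j ∣ π i) (j₀ : J) (s : Finset Ei)
    (hs : ∀ x ∈ s, Pq x ∧ ¬ x ∣ π j₀) :
    ∃ l : Ei, (Pq l ∧ (∃ p : ℕ, p.Prime ∧ nr l = p) ∧ (9 : ℤ) ∣ nr l - 1 ∧ (∀ j, ¬ l ∣ π j) ∧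
      (∀ j, j ≠ j₀ → cs (π j) l = 0 ∧ cs l (π j) = 0) ∧ cs (π j₀) l ≠ 0 ∧ cs l (π j₀) ≠ 0) ∧
      ∀ x ∈ s, ¬ l ∣ x ∧ cs l x = 0 ∧ cs x l = 0 := by
  classical
  obtain ⟨i₀, hi3⟩ := Pool.Agent.Y261.CT.exists_prim 3 (by norm_num)
  have hi : i₀ ^ 2 + i₀ + 1 = 0 := Pool.Agent.Y261.CT.prim_sum hi3
  have hρ := (hπ j₀).prime
  have hna : ¬ Associated (π j₀) lam := by
    intro h
    apply (hπ j₀).norm
    have h1 : (3 : Ei) = -(lam * lam) := by
      have := lam_sq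
      rw [pow_two] at this
      rw [this, neg_neg]
    rw [h1, dvd_neg]
    exact Dvd.dvd.mul_right h.dvd _
  obtain ⟨g, hg, hgρ⟩ := inert_ex hi hρ hna
  have hBs : ∀ b ∈ Finset.univ.image π ∪ s, b ≠ 0 := by
    intro b hb
    rcases Finset.mem_union.1 hb with h | h
    · obtain ⟨j, -, rfl⟩ := Finset.mem_image.1 h
      exact (hπ j).prime.ne_zero
    · exact (hs b h).1.prime.ne_zero
  obtain ⟨l, hl, ⟨p, hp, -, hpl⟩, hl9, hlb⟩ := prime_ex hi (Finset.univ.image π ∪ s) hBs g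
    (fix_nine hi hρ g hg) ∅
  have hzero : ∀ b ∈ Finset.univ.image π ∪ s, ¬ π j₀ ∣ b → cs l b = 0 := by
    intro b hb hb'
    obtain ⟨s', hs'⟩ := Pool.Agent.Y715.T.Sel.ex_root (ev i₀ hi b)
    have h1 := (hlb b hb).2 s' hs'
    rw [hg b hb' s' hs'] at h1
    have h2 : i₀ ^ (cs l b).val = i₀ ^ (0 : ZMod 3).val := by
      rw [ZMod.val_zero, pow_zero]
      apply mul_right_cancel₀ (root_ne (hBs b hb) hs')
      rw [one_mul]
      exact h1.symm
    exact i₀_inj (hi := hi) h2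
  have hmemπ : ∀ j, π j ∈ Finset.univ.image π ∪ s := fun j =>
    Finset.mem_union_left _ (Finset.mem_image_of_mem _ (Finset.mem_univ j))
  have hne0 : cs l (π j₀) ≠ 0 := by
    intro h
    obtain ⟨s', hs'⟩ := Pool.Agent.Y715.T.Sel.ex_root (ev i₀ hi (π j₀))
    have h1 := (hlb _ (hmemπ j₀)).2 s' hs'
    rw [h, ZMod.val_zero, pow_zero, one_mul] at h1
    exact hgρ s' hs' h1
  have hrec : ∀ x, Pq x → ¬ l ∣ x → cs x l = cs l x := fun x hx hlx => by
    refine Pool.Agent.Y350.CT.rec l x hl hx ?_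
    intro h
    have := Pool.Agent.Y699.E.eq_of_dvd hx hl h
    exact hlx (by rw [this])
  refine ⟨l, ⟨hl, ⟨p, hp, hpl⟩, hl9, fun j => (hlb _ (hmemπ j)).1, fun j hj => ?_, ?_, hne0⟩,
    fun x hx => ?_⟩
  · have h1 := hzero _ (hmemπ j) (hnd j j₀ hj)
    exact ⟨by rw [hrec _ (hπ j) (hlb _ (hmemπ j)).1]; exact h1, h1⟩
  · rw [hrec _ (hπ j₀) (hlb _ (hmemπ j₀)).1]
    exact hne0
  · have hm : x ∈ Finset.univ.image π ∪ s := Finset.mem_union_right _ hx
    have h1 : cs l x = 0 := by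
      refine hzero x hm ?_
      intro h
      have := Pool.Agent.Y699.E.eq_of_dvd (hπ j₀) (hs x hx).1 h
      exact (hs x hx).2 (by rw [this])
    exact ⟨(hlb x hm).1, h1, by rw [hrec x (hs x hx).1 (hlb x hm).1]; exact h1⟩

lemma star_dvd_iff {x y : Ei} : star x ∣ y ↔ x ∣ star y := by
  constructor
  · intro h
    have := star_dvd h
    rwa [star_star] at this
  · intro h
    have := star_dvd h
    rwa [star_star] at this

/-- **An infinite sequence of primes** for the rational `D` -/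
theorem seq_exQ {J : Type} [Fintype J] {π : J → Ei} (hπ : ∀ j, Pq (π j))
    (hnd : ∀ i j, i ≠ j → ¬ π j ∣ π i) (j₀ : J) (h0 : star (π j₀) = π j₀) :
    ∃ f : ℕ → Ei, (∀ n, Pq (f n) ∧ (∃ p : ℕ, p.Prime ∧ nr (f n) = p) ∧
      (9 : ℤ) ∣ nr (f n) - 1 ∧ (∀ j, ¬ f n ∣ π j) ∧
      (∀ j, j ≠ j₀ → cs (π j) (f n) = 0 ∧ cs (f n) (π j) = 0) ∧
      cs (π j₀) (f n) ≠ 0 ∧ cs (f n) (π j₀) ≠ 0) ∧
      ∀ m n, m ≠ n → ¬ f m ∣ f n ∧ ¬ f m ∣ star (f n) ∧ cs (f m) (f n) = 0 ∧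
        cs (f m) (star (f n)) = 0 := by
  classical
  obtain ⟨f, hf, hr⟩ := exists_seq_of_forall_finset_exists
    (fun l : Ei => Pq l ∧ (∃ p : ℕ, p.Prime ∧ nr l = p) ∧ (9 : ℤ) ∣ nr l - 1 ∧ (∀ j, ¬ l ∣ π j) ∧
      (∀ j, j ≠ j₀ → cs (π j) l = 0 ∧ cs l (π j) = 0) ∧ cs (π j₀) l ≠ 0 ∧ cs l (π j₀) ≠ 0)
    (fun x l => (¬ l ∣ x ∧ cs l x = 0 ∧ cs x l = 0) ∧
      (¬ l ∣ star x ∧ cs l (star x) = 0 ∧ cs (star x) l = 0))
    (fun s hs => by
      obtain ⟨l, hl, hl2⟩ := new_primeP hπ hnd j₀ (s ∪ s.image star) (by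
        intro x hx
        rcases Finset.mem_union.1 hx with h | h
        · exact ⟨(hs x h).1, (hs x h).2.2.2.1 j₀⟩
        · obtain ⟨y, hy, rfl⟩ := Finset.mem_image.1 h
          refine ⟨pq_star (hs y hy).1, fun h1 => (hs y hy).2.2.2.1 j₀ ?_⟩
          rw [star_dvd_iff, h0] at h1
          exact h1)
      exact ⟨l, hl, fun x hx => ⟨hl2 x (Finset.mem_union_left _ hx),
        hl2 _ (Finset.mem_union_right _ (Finset.mem_image_of_mem _ hx))⟩⟩)
  refine ⟨f, hf, fun m n hmn => ?_⟩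
  rcases lt_or_gt_of_ne hmn with h | h
  · obtain ⟨⟨h1, h2, h3⟩, ⟨h4, h5, h6⟩⟩ := hr m n h
    have h7 : ¬ star (f m) ∣ f n := by
      intro h8
      exact h4 (by rw [Pool.Agent.Y699.E.eq_of_dvd (pq_star (hf m).1) (hf n).1 h8])
    refine ⟨fun h8 => h1 ?_, fun h8 => h7 (star_dvd_iff.2 h8), h3, ?_⟩
    · rw [Pool.Agent.Y699.E.eq_of_dvd (hf m).1 (hf n).1 h8]
    · have h9 := cs_star (pq_star (hf m).1) h7
      rw [star_star, h6, neg_zero] at h9
      exact h9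
  · obtain ⟨⟨h1, h2, h3⟩, ⟨h4, h5, h6⟩⟩ := hr n m h
    exact ⟨h1, h4, h2, h5⟩

/-- a prime of prime norm does not divide its conjugate -/
lemma not_dvd_star {l : Ei} (hl : Pq l) {p : ℕ} (hp : p.Prime) (h : nr l = p) : ¬ l ∣ star l := by
  intro h1
  have h2 : l = star l := Pool.Agent.Y699.E.eq_of_dvd hl (pq_star hl) h1
  have h3 : nr l = l.re ^ 2 := by
    have h4 : l.im = 0 := by
      have h5 := congrArg (fun z : Ei => z.im) h2
      have h6 : (star l).im = - l.im := by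
        rw [QuadraticAlgebra.im_star]
      have h7 : l.im = (star l).im := h5
      omega
    have h5 := mul_star l
    have h6 := congrArg (fun z : Ei => z.re) h5
    have h7 : (l * star l).re = ((nr l : ℤ) : Ei).re := h6
    rw [← h2] at h7
    have h8 : ((nr l : ℤ) : Ei).re = nr l := by simp
    have h9 : (l * l).re = l.re ^ 2 := by
      rw [QuadraticAlgebra.re_mul, h4]
      ring
    rw [h8, h9] at h7
    exact h7.symm
  have h4 : l.re.natAbs ^ 2 = p := by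
    zify
    rw [sq_abs, ← h3, h]
  have h5 := hp.prime.irreducible
  rw [← h4] at h5
  exact (not_irreducible_pow (by norm_num)) h5

/-- the symbol of the conjugate -/
lemma cs_conj {l : Ei} (hl : Pq l) {p : ℕ} (hp : p.Prime) (h : nr l = p) :
    cs l (star l) = 0 ∧ cs (star l) l = 0 := by
  have h1 := not_dvd_star hl hp h
  have h2 : ¬ star l ∣ l := by
    intro h3
    have := Pool.Agent.Y699.E.eq_of_dvd (pq_star hl) hl h3
    exact h1 (by rw [this])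
  have h3 := Pool.Agent.Y350.CT.rec l (star l) hl (pq_star hl) h2
  have h4 := cs_star hl h1
  rw [star_star] at h4
  rw [h4] at h3
  have h5 : cs l (star l) = 0 := by
    have h6 : ∀ a : ZMod 3, -a = a → a = 0 := by decide
    exact h6 _ h3
  exact ⟨h5, by rw [h4, h5, neg_zero]⟩

end Pool.Agent.X253.C3
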