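import Pool.Agent.X253.C3.Eq4

/-!
# The Galois group of `K(∛l : l ∈ T)`, `l` independent modulo cubes
-/

set_option autoImplicit false
set_option linter.unusedVariables false
set_option linter.unusedSectionVars false

namespace Pool.Agent.X253.C3

open NumberField IsDedekindDomain

section deg

variable {K F : Type} [Field K] [NumberField K] [Field F] [NumberField F] [Algebra K F]

theorem deg3g (I : K) (hI : I ^ 2 + I + 1 = 0) {T : Type} [Fintype T] (l : T → 𝓞 K)
    (hl : ∀ i, l i ≠ 0)
    (hind : ∀ (c : T → ZMod 3) (b : 𝓞 K), b ^ 3 = ∏ i, l i ^ (c i).val → ∀ i, c i = 0)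
    (x : T → F) (hx : ∀ i, x i ^ 3 = algebraMap K F (l i))
    (hgen : ∀ S : Subfield F, (∀ k : K, algebraMap K F k ∈ S) → (∀ i, x i ∈ S) → S = ⊤) :
    Module.finrank K F = 3 ^ Fintype.card T := by
  classical
  have hgal : IsGalois K F := galois3 I hI (fun i => ((l i : 𝓞 K) : K)) x hx hgen
  have hfd : FiniteDimensional K F := Pool.Agent.Y715.CS.finKF
  obtain ⟨J, hJ⟩ : ∃ J : F, J = algebraMap K F I := ⟨_, rfl⟩
  have hJ2 : J ^ 2 + J + 1 = 0 := by
    rw [hJ, ← map_pow, ← map_one (algebraMap K F), ← map_add, ← map_add, hI, map_zero]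
  have hJ1 : J ≠ 1 := by
    intro h1
    rw [h1] at hJ2
    norm_num at hJ2
  have hx0 : ∀ i, x i ≠ 0 := by
    intro i h0
    have h1 := hx i
    rw [h0, zero_pow (by norm_num)] at h1
    have h2 : ((l i : 𝓞 K) : K) = 0 := (map_eq_zero _).1 h1.symm
    exact hl i (RingOfIntegers.coe_injective (h2.trans (map_zero _).symm))
  have hcube : ∀ z : F, z ^ 3 = 1 → ∃ a : ZMod 3, z = J ^ a.val := by
    intro z hz
    have h5 : (z - 1) * ((z - J) * (z - J ^ 2)) = 0 := by
      linear_combination hz + (- z ^ 2 + z + J * z - z * 1 + (1 - J)) * hJ2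
    rcases mul_eq_zero.1 h5 with h6 | h6
    · exact ⟨0, by rw [ZMod.val_zero, pow_zero]; linear_combination h6⟩
    · rcases mul_eq_zero.1 h6 with h7 | h7
      · refine ⟨1, ?_⟩
        rw [show (1 : ZMod 3).val = 1 from rfl, pow_one]
        linear_combination h7
      · refine ⟨2, ?_⟩
        rw [show (2 : ZMod 3).val = 2 from rfl]
        linear_combination h7
  have hw : ∀ (σ : F ≃ₐ[K] F) (i : T), ∃ a : ZMod 3, σ (x i) = J ^ a.val * x i := by
    intro σ i
    obtain ⟨a, ha⟩ := hcube (σ (x i) / x i) (by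
      have h1 : σ (x i) ^ 3 = x i ^ 3 := by
        rw [← map_pow, hx i, AlgEquiv.commutes]
      rw [div_pow, h1, div_self (pow_ne_zero _ (hx0 i))])
    exact ⟨a, by rw [← ha, div_mul_cancel₀ _ (hx0 i)]⟩
  choose a ha using hw
  have hJfix : ∀ σ : F ≃ₐ[K] F, σ J = J := fun σ => by rw [hJ, AlgEquiv.commutes]
  have hmul : ∀ σ τ i, a (σ * τ) i = a σ i + a τ i := by
    intro σ τ i
    have h1 := ha (σ * τ) i
    rw [AlgEquiv.mul_apply, ha τ i, map_mul, map_pow, hJfix, ha σ i, ← mul_assoc, ← pow_add] at h1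
    have h2 := mul_right_cancel₀ (hx0 i) h1
    rw [pow_mod3 hJ2 hJ1] at h2
    push_cast at h2
    rw [ZMod.natCast_zmod_val, ZMod.natCast_zmod_val, ZMod.natCast_zmod_val] at h2
    rw [← h2, add_comm]
  have hone : ∀ i, a 1 i = 0 := by
    intro i
    have h1 := hmul 1 1 i
    rw [mul_one] at h1
    exact (left_eq_add.1 h1)
  -- the homomorphism
  let Φ : Additive (F ≃ₐ[K] F) →+ (T → ZMod 3) :=
    { toFun := fun σ i => a σ.toMul i
      map_zero' := by
        funext i
        exact hone i
      map_add' := by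
        intro σ τ
        funext i
        exact hmul _ _ i }
  have hinj : Function.Injective Φ := by
    rw [injective_iff_map_eq_zero]
    intro σ hσ
    have h1 : ∀ i, a σ.toMul i = 0 := fun i => congrFun hσ i
    have h2 : ∀ i, σ.toMul (x i) = x i := by
      intro i
      rw [ha, h1, ZMod.val_zero, pow_zero, one_mul]
    have h3 := hgen (IntermediateField.fixedField (Subgroup.zpowers σ.toMul)).toSubfield
      (fun k => (IntermediateField.fixedField (Subgroup.zpowers σ.toMul)).algebraMap_mem k)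
      (fun i => by
        show x i ∈ IntermediateField.fixedField (Subgroup.zpowers σ.toMul)
        rw [IntermediateField.mem_fixedField_iff]
        intro g hg
        obtain ⟨n, rfl⟩ := Subgroup.mem_zpowers_iff.1 hg
        have h4 : σ.toMul ∈ MulAction.stabilizer (F ≃ₐ[K] F) (x i) := h2 i
        exact Subgroup.zpow_mem _ h4 n)
    have h5 : σ.toMul = 1 := by
      ext y
      have h6 : y ∈ (IntermediateField.fixedField (Subgroup.zpowers σ.toMul)).toSubfield := by
        rw [h3]
        trivial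
      have h7 : y ∈ IntermediateField.fixedField (Subgroup.zpowers σ.toMul) := h6
      rw [IntermediateField.mem_fixedField_iff] at h7
      exact h7 _ (Subgroup.mem_zpowers _)
    exact h5
  have hsurj : Function.Surjective Φ := by
    rw [← AddMonoidHom.range_eq_top]
    by_contra hne
    set p : Submodule (ZMod 3) (T → ZMod 3) := AddSubgroup.toZModSubmodule 3 Φ.range with hp
    have hlt : p < ⊤ := by
      rw [lt_top_iff_ne_top]
      intro h1
      apply hne
      rw [eq_top_iff]
      intro y _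
      have h2 : y ∈ p := by rw [h1]; trivial
      exact h2
    obtain ⟨f, hf0, hf⟩ := Submodule.exists_le_ker_of_lt_top p hlt
    obtain ⟨c, hc⟩ : ∃ c : T → ZMod 3, ∀ y, f y = ∑ i, c i * y i := by
      refine ⟨fun i => f (Pi.single i 1), fun y => ?_⟩
      conv_lhs => rw [← Finset.univ_sum_single y, map_sum]
      refine Finset.sum_congr rfl fun i _ => ?_
      have h1 : (Pi.single i (y i) : T → ZMod 3) = y i • Pi.single i (1 : ZMod 3) := by
        rw [← Pi.single_smul, smul_eq_mul, mul_one]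
      rw [h1, map_smul, smul_eq_mul, mul_comm]
    obtain ⟨i₀, hi₀⟩ : ∃ i, c i ≠ 0 := by
      by_contra h1
      push Not at h1
      apply hf0
      refine LinearMap.ext fun y => ?_
      rw [hc, LinearMap.zero_apply]
      exact Finset.sum_eq_zero fun i _ => by rw [h1, zero_mul]
    have hker : ∀ σ : F ≃ₐ[K] F, ∑ i, c i * a σ i = 0 := by
      intro σ
      have h1 : (fun i => a σ i) ∈ p := ⟨Additive.ofMul σ, rfl⟩
      have h2 := hf h1
      rw [LinearMap.mem_ker, hc] at h2
      exact h2
    obtain ⟨y, hy⟩ : ∃ y : F, y = ∏ i, x i ^ (c i).val := ⟨_, rfl⟩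
    have hfix : ∀ σ : F ≃ₐ[K] F, σ y = y := by
      intro σ
      have h1 : σ y = J ^ (∑ i, (a σ i).val * (c i).val) * y := by
        rw [hy, map_prod, ← Finset.prod_pow_eq_pow_sum, ← Finset.prod_mul_distrib]
        refine Finset.prod_congr rfl fun i _ => ?_
        rw [map_pow, ha σ i, mul_pow, ← pow_mul]
      have h2 : J ^ (∑ i, (a σ i).val * (c i).val) = J ^ 0 := by
        rw [pow_mod3 hJ2 hJ1]
        push_cast
        rw [← hker σ]
        refine Finset.sum_congr rfl fun i _ => ?_
        rw [ZMod.natCast_zmod_val, ZMod.natCast_zmod_val, mul_comm]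
      rw [h1, h2, pow_zero, one_mul]
    obtain ⟨z, hz⟩ : ∃ z : K, algebraMap K F z = y := by
      have h1 := (IsGalois.mem_bot_iff_fixed (F := K) (E := F) y).2 hfix
      rw [IntermediateField.mem_bot] at h1
      exact h1
    have hz3 : z ^ 3 = ((∏ i, l i ^ (c i).val : 𝓞 K) : K) := by
      have e1 : ((∏ i, l i ^ (c i).val : 𝓞 K) : K) = ∏ i, ((l i : 𝓞 K) : K) ^ (c i).val := by
        refine (map_prod (algebraMap (𝓞 K) K) _ _).trans ?_
        exact Finset.prod_congr rfl fun i _ => map_pow (algebraMap (𝓞 K) K) _ _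
      apply (algebraMap K F).injective
      rw [map_pow, hz, hy, ← Finset.prod_pow, e1, map_prod]
      refine Finset.prod_congr rfl fun i _ => ?_
      rw [map_pow, ← hx i, ← pow_mul, ← pow_mul, mul_comm]
    have hint : _root_.IsIntegral ℤ z := by
      have h1 : _root_.IsIntegral ℤ (z ^ 3) := by
        rw [hz3]
        exact RingOfIntegers.isIntegral_coe _
      exact _root_.IsIntegral.of_pow (by norm_num) h1
    obtain ⟨b, hb⟩ : ∃ b : 𝓞 K, (b : K) = z := ⟨⟨z, hint⟩, rfl⟩
    have hb3 : b ^ 3 = ∏ i, l i ^ (c i).val := by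
      exact RingOfIntegers.coe_injective ((map_pow (algebraMap (𝓞 K) K) b 3).trans
        ((congrArg (· ^ 3) hb).trans hz3))
    exact hi₀ (hind c b hb3 i₀)
  have hcard : Nat.card (F ≃ₐ[K] F) = 3 ^ Fintype.card T := by
    have h1 : Nat.card (Additive (F ≃ₐ[K] F)) = Nat.card (T → ZMod 3) :=
      Nat.card_congr (Equiv.ofBijective Φ ⟨hinj, hsurj⟩)
    have h2 : Nat.card (T → ZMod 3) = 3 ^ Fintype.card T := by
      rw [Nat.card_eq_fintype_card, Fintype.card_fun, ZMod.card]
    rw [← h2, ← h1]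
    rfl
  rw [← hcard, IsGalois.card_aut_eq_finrank]


/-- the Galois group of `K(∛l : l ∈ T)` -/
theorem galPhiG (I : K) (hI : I ^ 2 + I + 1 = 0) {T : Type} [Fintype T] (l : T → 𝓞 K)
    (hl : ∀ i, l i ≠ 0)
    (hind : ∀ (c : T → ZMod 3) (b : 𝓞 K), b ^ 3 = ∏ i, l i ^ (c i).val → ∀ i, c i = 0)
    (x : T → F) (hx : ∀ i, x i ^ 3 = algebraMap K F (l i))
    (hgen : ∀ S : Subfield F, (∀ k : K, algebraMap K F k ∈ S) → (∀ i, x i ∈ S) → S = ⊤) :
    ∃ Φ : Additive (F ≃ₐ[K] F) ≃+ (T → ZMod 3), ∀ (σ : F ≃ₐ[K] F) (i : T),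
      σ (x i) = (algebraMap K F I) ^ (Φ (Additive.ofMul σ) i).val * x i := by
  classical
  have hgal : IsGalois K F := galois3 I hI (fun i => ((l i : 𝓞 K) : K)) x hx hgen
  have hfd : FiniteDimensional K F := Pool.Agent.Y715.CS.finKF
  have hdeg := deg3g I hI l hl hind x hx hgen
  obtain ⟨J, hJ⟩ : ∃ J : F, J = algebraMap K F I := ⟨_, rfl⟩
  rw [← hJ]
  have hJ2 : J ^ 2 + J + 1 = 0 := by
    rw [hJ, ← map_pow, ← map_one (algebraMap K F), ← map_add, ← map_add, hI, map_zero]
  have hJ1 : J ≠ 1 := by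
    intro h1
    rw [h1] at hJ2
    norm_num at hJ2
  have hx0 : ∀ i, x i ≠ 0 := by
    intro i h0
    have h1 := hx i
    rw [h0, zero_pow (by norm_num)] at h1
    have h2 : ((l i : 𝓞 K) : K) = 0 := (map_eq_zero _).1 h1.symm
    exact hl i (RingOfIntegers.coe_injective (h2.trans (map_zero _).symm))
  have hcube : ∀ z : F, z ^ 3 = 1 → ∃ a : ZMod 3, z = J ^ a.val := by
    intro z hz
    have h5 : (z - 1) * ((z - J) * (z - J ^ 2)) = 0 := by
      linear_combination hz + (- z ^ 2 + z + J * z - z * 1 + (1 - J)) * hJ2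
    rcases mul_eq_zero.1 h5 with h6 | h6
    · exact ⟨0, by rw [ZMod.val_zero, pow_zero]; linear_combination h6⟩
    · rcases mul_eq_zero.1 h6 with h7 | h7
      · refine ⟨1, ?_⟩
        rw [show (1 : ZMod 3).val = 1 from rfl, pow_one]
        linear_combination h7
      · refine ⟨2, ?_⟩
        rw [show (2 : ZMod 3).val = 2 from rfl]
        linear_combination h7
  have hw : ∀ (σ : F ≃ₐ[K] F) (i : T), ∃ a : ZMod 3, σ (x i) = J ^ a.val * x i := by
    intro σ i
    obtain ⟨a, ha⟩ := hcube (σ (x i) / x i) (by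
      have h1 : σ (x i) ^ 3 = x i ^ 3 := by
        rw [← map_pow, hx i, AlgEquiv.commutes]
      rw [div_pow, h1, div_self (pow_ne_zero _ (hx0 i))])
    exact ⟨a, by rw [← ha, div_mul_cancel₀ _ (hx0 i)]⟩
  choose a ha using hw
  have hJfix : ∀ σ : F ≃ₐ[K] F, σ J = J := fun σ => by rw [hJ, AlgEquiv.commutes]
  have hmul : ∀ σ τ i, a (σ * τ) i = a σ i + a τ i := by
    intro σ τ i
    have h1 := ha (σ * τ) i
    rw [AlgEquiv.mul_apply, ha τ i, map_mul, map_pow, hJfix, ha σ i, ← mul_assoc, ← pow_add] at h1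
    have h2 := mul_right_cancel₀ (hx0 i) h1
    rw [pow_mod3 hJ2 hJ1] at h2
    push_cast at h2
    rw [ZMod.natCast_zmod_val, ZMod.natCast_zmod_val, ZMod.natCast_zmod_val] at h2
    rw [← h2, add_comm]
  have hone : ∀ i, a 1 i = 0 := by
    intro i
    have h1 := hmul 1 1 i
    rw [mul_one] at h1
    exact (left_eq_add.1 h1)
  -- the homomorphism
  let Φ : Additive (F ≃ₐ[K] F) →+ (T → ZMod 3) :=
    { toFun := fun σ i => a σ.toMul i
      map_zero' := by
        funext i
        exact hone i
      map_add' := by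
        intro σ τ
        funext i
        exact hmul _ _ i }
  have hinj : Function.Injective Φ := by
    rw [injective_iff_map_eq_zero]
    intro σ hσ
    have h1 : ∀ i, a σ.toMul i = 0 := fun i => congrFun hσ i
    have h2 : ∀ i, σ.toMul (x i) = x i := by
      intro i
      rw [ha, h1, ZMod.val_zero, pow_zero, one_mul]
    have h3 := hgen (IntermediateField.fixedField (Subgroup.zpowers σ.toMul)).toSubfield
      (fun k => (IntermediateField.fixedField (Subgroup.zpowers σ.toMul)).algebraMap_mem k)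
      (fun i => by
        show x i ∈ IntermediateField.fixedField (Subgroup.zpowers σ.toMul)
        rw [IntermediateField.mem_fixedField_iff]
        intro g hg
        obtain ⟨n, rfl⟩ := Subgroup.mem_zpowers_iff.1 hg
        have h4 : σ.toMul ∈ MulAction.stabilizer (F ≃ₐ[K] F) (x i) := h2 i
        exact Subgroup.zpow_mem _ h4 n)
    have h5 : σ.toMul = 1 := by
      ext y
      have h6 : y ∈ (IntermediateField.fixedField (Subgroup.zpowers σ.toMul)).toSubfield := by
        rw [h3]
        trivial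
      have h7 : y ∈ IntermediateField.fixedField (Subgroup.zpowers σ.toMul) := h6
      rw [IntermediateField.mem_fixedField_iff] at h7
      exact h7 _ (Subgroup.mem_zpowers _)
    exact h5
  have hcard : Nat.card (Additive (F ≃ₐ[K] F)) = Nat.card (T → ZMod 3) := by
    have h2 : Nat.card (T → ZMod 3) = 3 ^ Fintype.card T := by
      rw [Nat.card_eq_fintype_card, Fintype.card_fun, ZMod.card]
    rw [h2, ← hdeg, ← IsGalois.card_aut_eq_finrank]
    rfl
  have hbij : Function.Bijective Φ := (Nat.bijective_iff_injective_and_card Φ).2 ⟨hinj, hcard⟩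
  exact ⟨AddEquiv.ofBijective Φ hbij, fun σ i => ha σ i⟩


end deg

end Pool.Agent.X253.C3
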