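import Pool.Agent.Y261.CT.Inf
import Pool.Agent.Y715.T.Sel
import Pool.Agent.Y715.T.RecC
import Pool.Agent.Y696.CT.LQ

/-!
# Primary primes of the Eisenstein integers with given cubic symbols
-/

set_option autoImplicit false
set_option linter.unusedSectionVars false

namespace Pool.Agent.X253.C3

open NumberField
open Pool.Agent.Y692.QS (Ei w nr mul_star nr_zero_iff nr_nonneg isUnit_iff nr_mul)
open Pool.Agent.Y715.T.Gi Pool.Agent.Y715.T.Nr Pool.Agent.Y715.T.Df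
open Pool.Agent.Y715.T.Rec (cs nn)
open Pool.Agent.Y715.T.RecG (Pq)
open Pool.Agent.Y715.T.Sel (ex_root root_ne i₀_mod i₀_inj odd_of not_dvd_of_unr fix_of_unit
  iota_sq iota_ev)
open Pool.Agent.Y800 (ZBar GQ IsGeomFrob arith_of_geom exists_frob)
open Pool.Agent.Y261.CT (cc cc_inj coe_sm)

/-- the character of an element -/
lemma exists_kc {i₀ : QB} (hi : i₀ ^ 2 + i₀ + 1 = 0) {z : Ei} (hz : z ≠ 0) :
    ∃ h : GK i₀ → ZMod 3, Kc hi z h := by
  obtain ⟨u, hu⟩ := ex_root (ev i₀ hi z)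
  have h1 : ∀ σ : GK i₀, ∃ c : ZMod 3, σ u = i₀ ^ c.val * u := by
    intro σ
    have h2 : (σ u) ^ 3 = u ^ 3 := by rw [← map_pow, hu, gk_ev]
    obtain ⟨n, hn⟩ := cube_eq hi h2
    refine ⟨(n : ZMod 3), ?_⟩
    rw [← i₀_mod (hi := hi)]
    exact hn
  choose a ha using h1
  exact ⟨a, kc_of hi (root_ne hz hu) hu ha⟩

/-- an inertia element -/
theorem inert_ex {i₀ : QB} (hi : i₀ ^ 2 + i₀ + 1 = 0) {ρ : Ei} (hρ : Prime ρ)
    (hn : ¬ Associated ρ lam) :
    ∃ σ : GK i₀, (∀ b : Ei, ¬ ρ ∣ b → ∀ s : QB, s ^ 3 = ev i₀ hi b → σ s = s) ∧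
      ∀ s : QB, s ^ 3 = ev i₀ hi ρ → σ s ≠ s := by
  obtain ⟨p, hp, ι, hl⟩ := exists_emb hi hρ
  have hp3 : p ≠ 3 := odd_of hi ι hρ hl hn
  obtain ⟨h, hh⟩ := exists_kc hi hρ.ne_zero
  have hcf : CF ρ := by
    refine ⟨hρ.ne_zero, fun d hd => ?_⟩
    by_contra hu
    obtain ⟨c, hc⟩ := hd
    have h1 : ρ ∣ d ∨ ρ ∣ d ^ 2 * c := by
      apply hρ.dvd_or_dvd
      exact ⟨1, by rw [mul_one, hc]; ring⟩
    have h2 := hρ.irreducible.isUnit_or_isUnit (a := d) (b := d ^ 2 * c) (by rw [hc]; ring)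
    rcases h2 with h2 | h2
    · exact hu h2
    · exact hu (isUnit_of_dvd_unit (dvd_mul_of_dvd_left (dvd_pow_self d two_ne_zero) c) h2)
  have h1 : ∃ (τ : Au p) (σ : GK i₀), Cmp ι τ σ ∧ Inert τ ∧ h σ ≠ 0 := by
    by_contra hcon
    push Not at hcon
    exact not_dvd_of_unr hcf hh hp3 ι hρ hl (fun τ σ h1 h2 => hcon τ σ h1 h2) dvd_rfl
  obtain ⟨τ, σ, hc, hτ, hσ⟩ := h1
  refine ⟨σ, fun b hb s hs => ?_, fun s hs h2 => ?_⟩
  · have hl' := hl
    rw [iota_ev] at hl'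
    have h3 : τ (ι s) = ι s := by
      refine fix_of_unit (iota_sq hi ι) hp3 (z := b) (by rw [← map_pow, hs, iota_ev]) ?_ hτ hc.fix
      rwa [← dvd_iff (iota_sq hi ι) hρ hl']
    rw [hc] at h3
    exact ι.injective h3
  · have h3 := hh s hs σ
    rw [h2] at h3
    have h4 : i₀ ^ (h σ).val = i₀ ^ (0 : ZMod 3).val := by
      rw [ZMod.val_zero, pow_zero]
      apply mul_right_cancel₀ (root_ne hρ.ne_zero hs)
      rw [one_mul, ← h3]
    exact hσ (i₀_inj (hi := hi) h4)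

/-- the embedding of the Eisenstein integers in the algebraic integers -/
lemma int_i {i₀ : QB} (hi : i₀ ^ 2 + i₀ + 1 = 0) : IsIntegral ℤ i₀ := by
  refine IsIntegral.of_pow (n := 3) (by norm_num) ?_
  rw [i₀_cube hi]
  exact isIntegral_one

/-- the root of unity as an algebraic integer -/
noncomputable def iz {i₀ : QB} (hi : i₀ ^ 2 + i₀ + 1 = 0) : ZBar := ⟨i₀, int_i hi⟩

lemma iz_sq {i₀ : QB} (hi : i₀ ^ 2 + i₀ + 1 = 0) : (iz hi) ^ 2 + iz hi + 1 = 0 := by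
  apply cc_inj
  rw [map_add, map_add, map_pow, map_one, map_zero]
  exact hi

/-- the embedding -/
noncomputable def th {i₀ : QB} (hi : i₀ ^ 2 + i₀ + 1 = 0) : Ei →+* ZBar := ev (iz hi) (iz_sq hi)

lemma coe_th {i₀ : QB} (hi : i₀ ^ 2 + i₀ + 1 = 0) (z : Ei) : cc (th hi z) = ev i₀ hi z :=
  map_ev cc (iz_sq hi) hi rfl z

lemma ev_star {i₀ : QB} (hi : i₀ ^ 2 + i₀ + 1 = 0) {i₁ : QB} (hi' : i₁ ^ 2 + i₁ + 1 = 0)
    (h : i₁ = -1 - i₀) (z : Ei) : ev i₁ hi' z = ev i₀ hi (star z) := by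
  have e1 : ((star z).re : ℤ) = z.re - z.im := by
    rw [QuadraticAlgebra.re_star]
    ring
  have e2 : ((star z).im : ℤ) = - z.im := by
    rw [QuadraticAlgebra.im_star]
  rw [ev_apply, ev_apply, h, e1, e2]
  push_cast
  ring

/-- the action of an element of the Galois group of `ℚ` -/
lemma gq_ev {i₀ : QB} (hi : i₀ ^ 2 + i₀ + 1 = 0) (g : GQ) (z : Ei) :
    g (ev i₀ hi z) = ev i₀ hi z ∨ g (ev i₀ hi z) = ev i₀ hi (star z) := by
  have h1 : (g i₀) ^ 2 + g i₀ + 1 = 0 := by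
    rw [← map_pow, ← map_add, ← map_one g, ← map_add, hi, map_zero]
  have h2 : (g i₀ - i₀) * (g i₀ - (-1 - i₀)) = 0 := by linear_combination h1 - hi
  have h3 : g (ev i₀ hi z) = ev (g i₀) h1 z := map_ev (g : QB →+* QB) hi h1 rfl z
  rcases mul_eq_zero.1 h2 with h | h
  · left
    rw [h3]
    have h4 : g i₀ = i₀ := sub_eq_zero.1 h
    rw [ev_apply, ev_apply, h4]
  · right
    rw [h3]
    exact ev_star hi h1 (sub_eq_zero.1 h) z

lemma finite_cube (x : QB) : {y : QB | y ^ 3 = x}.Finite :=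
  Pool.Agent.Y261.CT.finite_roots 3 (by norm_num) x

lemma dvd_mul_star (z : Ei) : z ∣ ((nr z : ℤ) : Ei) := ⟨star z, (mul_star z).symm⟩

/-- **Chebotarev**: primary primes with given symbols -/
theorem prime_ex {i₀ : QB} (hi : i₀ ^ 2 + i₀ + 1 = 0) (Bs : Finset Ei) (hBs : ∀ b ∈ Bs, b ≠ 0)
    (g : GK i₀) (hg : ∀ ξ : QB, ξ ^ 9 = 1 → g ξ = ξ) (S : Finset ℕ) :
    ∃ l : Ei, Pq l ∧ (∃ p : ℕ, p.Prime ∧ p ∉ S ∧ nr l = p) ∧ (9 : ℤ) ∣ nr l - 1 ∧
      ∀ b ∈ Bs, ¬ l ∣ b ∧ ∀ s : QB, s ^ 3 = ev i₀ hi b → g s = i₀ ^ (cs l b).val * s := by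
  classical
  set R : Set QB := {x | x ^ 9 = 1} ∪ (⋃ b ∈ (Bs : Set Ei), {x : QB | x ^ 3 = ev i₀ hi b}) ∪
    (⋃ b ∈ (Bs : Set Ei), {x : QB | x ^ 3 = ev i₀ hi (star b)}) with hR
  have hRf : R.Finite := ((Pool.Agent.Y261.CT.finite_roots 9 (by norm_num) 1).union
    (Bs.finite_toSet.biUnion fun b _ => finite_cube _)).union
    (Bs.finite_toSet.biUnion fun b _ => finite_cube _)
  have hRs : ∀ (g : GQ), ∀ x ∈ R, g x ∈ R := by
    rintro g x ((hx | hx) | hx)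
    · left; left
      have hx' : x ^ 9 = 1 := hx
      show (g x) ^ 9 = 1
      rw [← map_pow, hx', map_one]
    · obtain ⟨b, hb, hx'⟩ := Set.mem_iUnion₂.1 hx
      have hx2 : x ^ 3 = ev i₀ hi b := hx'
      have h1 : (g x) ^ 3 = g (ev i₀ hi b) := by rw [← map_pow, hx2]
      rcases gq_ev hi g b with h2 | h2
      · left; right
        exact Set.mem_iUnion₂.2 ⟨b, hb, h1.trans h2⟩
      · right
        exact Set.mem_iUnion₂.2 ⟨b, hb, h1.trans h2⟩
    · obtain ⟨b, hb, hx'⟩ := Set.mem_iUnion₂.1 hx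
      have hx2 : x ^ 3 = ev i₀ hi (star b) := hx'
      have h1 : (g x) ^ 3 = g (ev i₀ hi (star b)) := by rw [← map_pow, hx2]
      rcases gq_ev hi g (star b) with h2 | h2
      · right
        exact Set.mem_iUnion₂.2 ⟨b, hb, h1.trans h2⟩
      · left; right
        refine Set.mem_iUnion₂.2 ⟨b, hb, h1.trans (h2.trans ?_)⟩
        rw [star_star]
  have hn : (Pool.Agent.Y261.CT.fixU R).Normal := Pool.Agent.Y261.CT.fixU_normal hRs
  set gq : GQ := AlgEquiv.restrictScalars ℚ g with hgq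
  have hgqa : ∀ x, gq x = g x := fun x => rfl
  obtain ⟨p, hp, hpS, P, hP, hpP, σ, hσ, τ, hτ⟩ :=
    exists_frob (Pool.Agent.Y261.CT.fixU R) (Pool.Agent.Y261.CT.fixU_open hRf)
      (S ∪ {3} ∪ Bs.biUnion fun b => (nr b).natAbs.primeFactors) gq⁻¹
  have hpS' : p ∉ S := fun h => hpS (Finset.mem_union_left _ (Finset.mem_union_left _ h))
  have hp3 : p ≠ 3 := fun h => hpS (Finset.mem_union_left _ (Finset.mem_union_right _
    (Finset.mem_singleton.2 h)))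
  have hpb : ∀ b ∈ Bs, ¬ p ∣ (nr b).natAbs := by
    intro b hb h
    refine hpS (Finset.mem_union_right _ (Finset.mem_biUnion.2 ⟨b, hb, ?_⟩))
    exact Nat.mem_primeFactors.2 ⟨hp, h, fun h0 => hBs b hb (nr_zero_iff.1
      (Int.natAbs_eq_zero.1 h0))⟩
  have hp9 : ¬ p ∣ 9 := by
    intro h
    have h1 : p ∣ 3 ^ 2 := h
    exact hp3 ((Nat.prime_dvd_prime_iff_eq hp Nat.prime_three).1 (hp.dvd_of_dvd_pow h1))
  -- the conjugate
  set φ : GQ := τ * σ⁻¹ * τ⁻¹ with hφdef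
  set P' : Ideal ZBar := P.comap (MulSemiringAction.toRingHom GQ ZBar τ⁻¹) with hP'
  have hmem : ∀ x : ZBar, x ∈ P' ↔ τ⁻¹ • x ∈ P := fun x => Iff.rfl
  have hP'm : P'.IsMaximal := by
    refine Ideal.comap_isMaximal_of_surjective _ fun x => ⟨τ • x, ?_⟩
    exact inv_smul_smul τ x
  have hpP' : (p : ZBar) ∈ P' := by
    rw [hmem]
    have : τ⁻¹ • (p : ZBar) = p := map_natCast (MulSemiringAction.toRingHom GQ ZBar τ⁻¹) p
    rw [this]
    exact hpP
  have hφ : ∀ x : ZBar, φ • x - x ^ p ∈ P' := by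
    intro x
    rw [hmem, smul_sub, smul_pow', hφdef, mul_smul, mul_smul, inv_smul_smul]
    exact arith_of_geom hσ (τ⁻¹ • x)
  have hact : ∀ x ∈ R, φ x = g x := by
    intro x hx
    have h1 : (τ * σ * τ⁻¹ * gq⁻¹⁻¹) x = x := hτ x hx
    rw [inv_inv] at h1
    have h2 : (τ * σ * τ⁻¹) (g x) = x := by
      rw [AlgEquiv.mul_apply] at h1
      exact h1
    have h3 : φ * (τ * σ * τ⁻¹) = 1 := by
      rw [hφdef]
      group
    have h4 : φ ((τ * σ * τ⁻¹) (g x)) = g x := by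
      rw [← AlgEquiv.mul_apply, h3, AlgEquiv.one_apply]
    rwa [h2] at h4
  have hmod : p ≡ 1 [MOD 9] := Pool.Agent.Y261.CT.modEq_of_fix hP'm hp hpP' hp9 (by norm_num) hφ
    fun ξ hξ => by rw [hact ξ (Or.inl (Or.inl hξ)), hg ξ hξ]
  have hp1 : p % 9 = 1 := hmod
  have hp31 : p % 3 = 1 := by omega
  -- the prime
  set 𝔮 : Ideal Ei := P'.comap (th hi) with h𝔮
  have h𝔮p : 𝔮.IsPrime := Ideal.comap_isPrime _ _
  have hp𝔮 : (p : Ei) ∈ 𝔮 := by
    show th hi (p : Ei) ∈ P'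
    rw [map_natCast]
    exact hpP'
  have hp0 : (p : Ei) ≠ 0 := by
    have h1 : ev i₀ hi (p : Ei) = (p : QB) := map_natCast _ p
    intro h0
    rw [h0, map_zero] at h1
    exact hp.ne_zero (by exact_mod_cast h1.symm)
  obtain ⟨l0, hl0⟩ := (IsPrincipalIdealRing.principal 𝔮).principal
  have hl0' : 𝔮 = Ideal.span {l0} := hl0
  have hl00 : l0 ≠ 0 := by
    rintro rfl
    rw [hl0', Ideal.mem_span_singleton] at hp𝔮
    exact hp0 (zero_dvd_iff.1 hp𝔮)
  have hl0p : Prime l0 := by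
    rw [← Ideal.span_singleton_prime hl00, ← hl0']
    exact h𝔮p
  have hcop : IsCoprime (p : Ei) (3 : Ei) := by
    have h1 : IsCoprime (p : ℤ) (3 : ℤ) := Nat.isCoprime_iff_coprime.2
      ((Nat.coprime_primes hp Nat.prime_three).2 hp3)
    have h2 := h1.map (Int.castRingHom Ei)
    simpa using h2
  have hl03 : ¬ l0 ∣ 3 := by
    intro h
    rw [hl0', Ideal.mem_span_singleton] at hp𝔮
    exact hl0p.not_isUnit (hcop.isUnit_of_dvd' hp𝔮 h)
  obtain ⟨u, hu, h3⟩ := Pool.Agent.Y715.T.RecC.exists_prim hl0p hl03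
  have ha : Associated (u * l0) l0 := (associated_isUnit_mul_left_iff hu).2 (Associated.refl l0)
  set l : Ei := u * l0 with hl
  have hlq : Pq l := ⟨ha.symm.prime hl0p, h3⟩
  have hmeml : ∀ x : Ei, th hi x ∈ P' ↔ l ∣ x := by
    intro x
    have h1 : th hi x ∈ P' ↔ x ∈ 𝔮 := Iff.rfl
    rw [h1, hl0', Ideal.mem_span_singleton]
    exact (ha.dvd_iff_dvd_left).symm
  have hlp : l ∣ (p : Ei) := (hmeml _).1 (by rw [map_natCast]; exact hpP')
  -- the norm
  have hnr : nr l = p := by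
    obtain ⟨π₁, hπ₁⟩ := Pool.Agent.Y696.CT.exists_pi hp hp31
    have h1 : (p : Ei) = π₁ * star π₁ := by
      rw [mul_star, hπ₁]
      push_cast
      rfl
    have h2 : nr l ∣ p := by
      rw [h1] at hlp
      rcases hlq.prime.dvd_or_dvd hlp with h | h
      · obtain ⟨c, hc⟩ := h
        exact ⟨nr c, by rw [← nr_mul, ← hc, hπ₁]⟩
      · obtain ⟨c, hc⟩ := h
        exact ⟨nr c, by rw [← nr_mul, ← hc, Pool.Agent.Y692.QS.nr_star, hπ₁]⟩
    have h3 : (nr l).natAbs ∣ p := by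
      rw [← Int.natCast_dvd_natCast, Int.natAbs_of_nonneg (nr_nonneg l)]
      exact h2
    rcases (Nat.dvd_prime hp).1 h3 with h4 | h4
    · exfalso
      apply hlq.prime.not_isUnit
      rw [isUnit_iff]
      have := nr_nonneg l
      omega
    · have := nr_nonneg l
      omega
  refine ⟨l, hlq, ⟨p, hp, hpS', hnr⟩, ?_, ?_⟩
  · rw [hnr]
    omega
  intro b hb
  have hlb : ¬ l ∣ b := by
    intro h
    have h1 : l ∣ ((nr b : ℤ) : Ei) := h.trans (dvd_mul_star b)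
    have h2 : IsCoprime (p : ℤ) (nr b) := by
      rw [Int.isCoprime_iff_gcd_eq_one]
      have := (Nat.Prime.coprime_iff_not_dvd hp).2 (hpb b hb)
      exact this
    have h3 := h2.map (Int.castRingHom Ei)
    simp only [eq_intCast, Int.cast_natCast] at h3
    exact hlq.prime.not_isUnit (h3.isUnit_of_dvd' hlp h1)
  refine ⟨hlb, fun s hs => ?_⟩
  have hsR : s ∈ R := Or.inl (Or.inr (Set.mem_iUnion₂.2 ⟨b, hb, hs⟩))
  have hsint : IsIntegral ℤ s := by
    refine IsIntegral.of_pow (n := 3) (by norm_num) ?_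
    rw [hs, ← coe_th]
    exact RingOfIntegers.isIntegral_coe _
  set sz : ZBar := ⟨s, hsint⟩ with hsz
  have hszc : cc sz = s := rfl
  have hsz3 : sz ^ 3 = th hi b := by
    apply cc_inj
    rw [coe_th, ← hs, map_pow]
    rfl
  have hs0 : s ≠ 0 := root_ne (hBs b hb) hs
  -- the action
  obtain ⟨n, hn⟩ : ∃ n : ℕ, φ s = i₀ ^ n * s := by
    have h1 : (φ s) ^ 3 = s ^ 3 := by
      rw [hact s hsR, ← map_pow, hs, gk_ev]
    exact cube_eq hi h1
  have h1 := hφ sz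
  have h2 : φ • sz = (iz hi) ^ n * sz := by
    apply cc_inj
    rw [coe_sm, map_mul, map_pow]
    exact hn
  have hnn : nn l = (p - 1) / 3 := by
    unfold nn
    rw [hnr, Int.natAbs_natCast]
  have hp3n : p = 3 * nn l + 1 := by
    rw [hnn]
    have := hp.pos
    omega
  have h4 : sz * (iz hi ^ n - th hi (b ^ nn l)) ∈ P' := by
    have h5 : sz * (iz hi ^ n - th hi (b ^ nn l)) = φ • sz - sz ^ p := by
      rw [h2, map_pow, ← hsz3, ← pow_mul]
      conv_rhs => rw [hp3n, pow_succ]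
      ring
    rw [h5]
    exact h1
  have h5 : sz ∉ P' := by
    intro h6
    apply hlb
    rw [← hmeml, ← hsz3]
    exact P'.pow_mem_of_mem h6 3 (by norm_num)
  have h6 := (hP'm.isPrime.mem_or_mem h4).resolve_left h5
  have h7 : iz hi = th hi w := (ev_w (iz hi) (iz_sq hi)).symm
  have h8 : l ∣ w ^ n - b ^ nn l := by
    rw [← hmeml, map_sub, map_pow (th hi) w, ← h7]
    exact h6
  have hw3 : (w : Ei) ^ 3 = 1 := by decide
  have h9 : (w : Ei) ^ n = w ^ (n : ZMod 3).val := by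
    rw [ZMod.val_natCast]
    conv_lhs => rw [← Nat.div_add_mod n 3]
    rw [pow_add, pow_mul, hw3, one_pow, one_mul]
  have h10 : cs l b = (n : ZMod 3) := by
    refine Pool.Agent.Y715.T.RecG.cs_of hlq.prime hlq.norm ?_
    rw [← h9, ← dvd_neg, neg_sub]
    exact h8
  rw [h10, ← i₀_mod (hi := hi), ← hn, hact s hsR]

end Pool.Agent.X253.C3
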