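import Pool.Agent.X253.C3.Cor3

/-!
# The points of `y² + a y = x³` over `K(∛l : l ∈ T)`
-/

set_option autoImplicit false
set_option linter.unusedSectionVars false

open NumberField WeierstrassCurve

namespace Pool.Agent.X253.C3

open Pool.Agent.TH841.NF (Sc tF tF_zero tF_some tF_add)

section tors

variable {F : Type} [Field F]

lemma Ec_negY (d x y : F) : (Ec d).toAffine.negY x y = -y - d := by
  unfold Affine.negY
  change -y - 0 * x - d = -y - d
  rw [zero_mul, sub_zero]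

lemma Ec_eqn (d x y : F) : (Ec d).toAffine.Equation x y ↔ y ^ 2 + d * y = x ^ 3 := by
  rw [Affine.equation_iff]
  change y ^ 2 + 0 * x * y + d * y = x ^ 3 + 0 * x ^ 2 + 0 * x + 0 ↔ _
  rw [show y ^ 2 + 0 * x * y + d * y = y ^ 2 + d * y by ring,
    show x ^ 3 + 0 * x ^ 2 + 0 * x + 0 = x ^ 3 by ring]

/-- the points of order three -/
lemma tors_eq [DecidableEq F] [CharZero F] {d x y : F} (h : (Ec d).toAffine.Nonsingular x y)
    (h3 : (3 : ℕ) • (Affine.Point.some x y h) = 0) :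
    x * (x ^ 3 + d ^ 2) = 0 ∧ y ^ 2 + d * y = x ^ 3 := by
  have hE := (Ec_eqn d x y).1 h.1
  refine ⟨?_, hE⟩
  have h5 : Affine.Point.some x y h + Affine.Point.some x y h = - Affine.Point.some x y h := by
    rw [eq_neg_iff_add_eq_zero, ← h3]
    abel
  by_cases hy : y = (Ec d).toAffine.negY x y
  · rw [Affine.Point.add_of_Y_eq rfl hy] at h5
    have h6 : Affine.Point.some x y h = 0 := by
      rw [← neg_eq_zero, ← h5]
    exact absurd h6 (Affine.Point.some_ne_zero _)
  · rw [Affine.Point.add_self_of_Y_ne hy, Affine.Point.neg_some, Affine.Point.some.injEq] at h5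
    have h6 := h5.1
    rw [Affine.slope_of_Y_ne rfl hy] at h6
    rw [Ec_negY] at h6 hy
    have h7 : 2 * y + d ≠ 0 := by
      intro h8
      apply hy
      linear_combination h8
    set ℓ := (3 * x ^ 2 + 2 * (Ec d).toAffine.a₂ * x + (Ec d).toAffine.a₄ -
      (Ec d).toAffine.a₁ * y) / (y - (-y - d)) with hℓ
    have hℓ' : ℓ * (2 * y + d) = 3 * x ^ 2 := by
      rw [hℓ]
      change (3 * x ^ 2 + 2 * 0 * x + 0 - 0 * y) / (y - (-y - d)) * (2 * y + d) = _
      rw [show y - (-y - d) = 2 * y + d by ring, div_mul_cancel₀ _ h7]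
      ring
    have h9 : ℓ ^ 2 = 3 * x := by
      unfold Affine.addX at h6
      change ℓ ^ 2 + 0 * ℓ - 0 - x - x = x at h6
      linear_combination h6
    have h10 : (3 : F) * (x * (x ^ 3 + d ^ 2)) = 0 := by
      linear_combination (ℓ * (2 * y + d) + 3 * x ^ 2) * hℓ' - (2 * y + d) ^ 2 * h9 -
        (12 * x) * hE
    exact (mul_eq_zero.1 h10).resolve_left (by norm_num)

open Polynomial in
lemma fin_pairs {d : F} (hd : d ≠ 0) :
    {p : F × F | p.1 * (p.1 ^ 3 + d ^ 2) = 0 ∧ p.2 ^ 2 + d * p.2 = p.1 ^ 3}.Finite := by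
  classical
  have h1 : {x : F | x * (x ^ 3 + d ^ 2) = 0}.Finite := by
    refine Set.Finite.subset (s := {x : F | x ∈ ((X : F[X]) * (X ^ 3 + C (d ^ 2))).roots}) ?_ ?_
    · exact ((X : F[X]) * (X ^ 3 + C (d ^ 2))).roots.toFinset.finite_toSet.subset
        fun x hx => by
          rw [Finset.mem_coe, Multiset.mem_toFinset]
          exact hx
    · intro x hx
      show x ∈ ((X : F[X]) * (X ^ 3 + C (d ^ 2))).roots
      rw [mem_roots (mul_ne_zero X_ne_zero (monic_X_pow_add_C _ (by norm_num)).ne_zero),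
        IsRoot.def, eval_mul, eval_add, eval_X, eval_pow, eval_X, eval_C]
      exact hx
  have h2 : ∀ x : F, {y : F | y ^ 2 + d * y = x ^ 3}.Finite := by
    intro x
    refine Set.Finite.subset (s := {y : F | y ∈ ((X : F[X]) ^ 2 + C d * X - C (x ^ 3)).roots}) ?_ ?_
    · exact ((X : F[X]) ^ 2 + C d * X - C (x ^ 3)).roots.toFinset.finite_toSet.subset
        fun x hx => by
          rw [Finset.mem_coe, Multiset.mem_toFinset]
          exact hx
    · intro y hy
      have hne : ((X : F[X]) ^ 2 + C d * X - C (x ^ 3)) ≠ 0 := by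
        intro h0
        have h5 := congrArg (fun p => coeff p 2) h0
        simp only [coeff_sub, coeff_add, coeff_X_pow, coeff_C_mul, coeff_X, coeff_C,
          coeff_zero] at h5
        norm_num at h5
      show y ∈ ((X : F[X]) ^ 2 + C d * X - C (x ^ 3)).roots
      rw [mem_roots hne, IsRoot.def, eval_sub, eval_add, eval_mul, eval_pow, eval_X, eval_C, eval_C]
      have hy' : y ^ 2 + d * y = x ^ 3 := hy
      linear_combination hy'
  refine Set.Finite.subset (h1.biUnion fun x _ => (h2 x).image fun y => (x, y)) ?_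
  rintro ⟨x, y⟩ ⟨h3, h4⟩
  exact Set.mem_biUnion (show x ∈ {x : F | x * (x ^ 3 + d ^ 2) = 0} from h3) ⟨y, h4, rfl⟩

/-- the coordinates of a point -/
def co {V : WeierstrassCurve F} : V.toAffine.Point → Option (F × F)
  | 0 => none
  | .some x y _ => some (x, y)

theorem co_inj {V : WeierstrassCurve F} : Function.Injective (co (V := V)) := by
  rintro (_ | ⟨x, y, h⟩) (_ | ⟨x', y', h'⟩) e
  · rfl
  · exact absurd e (by simp [co])
  · exact absurd e (by simp [co])
  · have e' : some (x, y) = some (x', y') := e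
    rw [Option.some.injEq, Prod.mk.injEq] at e'
    rw [Affine.Point.some.injEq]
    exact e'

theorem tors3 [DecidableEq F] [CharZero F] {d : F} (hd : d ≠ 0) :
    {P : (Ec d).toAffine.Point | (3 : ℕ) • P = 0}.Finite := by
  refine Set.Finite.subset (Set.Finite.preimage (f := co) co_inj.injOn
    (s := insert none (some '' {p : F × F | p.1 * (p.1 ^ 3 + d ^ 2) = 0 ∧
      p.2 ^ 2 + d * p.2 = p.1 ^ 3})) (((fin_pairs hd).image _).insert _)) ?_
  rintro (_ | ⟨x, y, h⟩) hP
  · exact Set.mem_insert _ _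
  · exact Set.mem_insert_of_mem _ ⟨(x, y), tors_eq h hP, rfl⟩

theorem fin_pre {G : Type*} [AddCommGroup G] (f : G →+ G) (hk : {x | f x = 0}.Finite) {S : Set G}
    (hS : S.Finite) : (f ⁻¹' S).Finite := by
  refine hS.preimage' fun b _ => ?_
  by_cases h : ∃ x₀, f x₀ = b
  · obtain ⟨x₀, hx₀⟩ := h
    refine (hk.image (fun k => x₀ + k)).subset ?_
    intro x hx
    refine ⟨x - x₀, ?_, by simp⟩
    show f (x - x₀) = 0
    rw [map_sub, hx₀, show f x = b from hx, sub_self]
  · have : f ⁻¹' {b} = ∅ := by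
      ext x
      simp only [Set.mem_preimage, Set.mem_singleton_iff, Set.mem_empty_iff_false, iff_false]
      exact fun hx => h ⟨x, hx⟩
    rw [this]
    exact Set.finite_empty

theorem fin_pow {G : Type*} [AddCommGroup G] (hk : {x : G | (3 : ℕ) • x = 0}.Finite) (n : ℕ)
    {S : Set G} (hS : S.Finite) : {x : G | (3 ^ n : ℕ) • x ∈ S}.Finite := by
  induction n with
  | zero =>
    refine hS.subset fun x hx => ?_
    have : (3 ^ 0 : ℕ) • x ∈ S := hx
    rwa [pow_zero, one_smul] at this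
  | succ n ih =>
    have h1 := fin_pre (nsmulAddMonoidHom 3) hk ih
    refine h1.subset fun x hx => ?_
    show (3 ^ n : ℕ) • ((3 : ℕ) • x) ∈ S
    rw [← mul_smul, ← pow_succ]
    exact hx

end tors

section act

variable {F : Type} [Field F] {d : F}

/-- the scaling maps of the curve -/
lemma scB (φ : F →+* F) (w : F) (hφ : φ d = d) (hw : w ^ 3 = 1) : Sc φ w (Ec d) (Ec d) := by
  have hw0 : w ≠ 0 := by
    rintro rfl
    norm_num at hw
  refine ⟨hw0, ?_, ?_, ?_, ?_, ?_⟩
  · change (0 : F) = φ 0 * _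
    rw [map_zero, zero_mul]
  · change (0 : F) = φ 0 * _
    rw [map_zero, zero_mul]
  · change d = φ d * _
    rw [hφ, hw, mul_one]
  · change (0 : F) = φ 0 * _
    rw [map_zero, zero_mul]
  · change (0 : F) = φ 0 * _
    rw [map_zero, zero_mul]

variable [DecidableEq F]

/-- the map `(x, y) ↦ (φ x w², φ y w³)` -/
def B (φ : F →+* F) (w : F) (hφ : φ d = d) (hw : w ^ 3 = 1) :
    (Ec d).toAffine.Point →+ (Ec d).toAffine.Point where
  toFun := tF (scB φ w hφ hw)
  map_zero' := rfl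
  map_add' := tF_add (scB φ w hφ hw)

lemma B_some (φ : F →+* F) (w : F) (hφ : φ d = d) (hw : w ^ 3 = 1) (x y : F)
    (h : (Ec d).toAffine.Nonsingular x y) :
    ∃ h', B φ w hφ hw (.some x y h) = .some (φ x * w ^ 2) (φ y * w ^ 3) h' := ⟨_, rfl⟩

lemma B_comp (φ ψ χ : F →+* F) (w v u : F) (hφ : φ d = d) (hw : w ^ 3 = 1) (hψ : ψ d = d)
    (hv : v ^ 3 = 1) (hχ : χ d = d) (hu : u ^ 3 = 1) (h1 : ∀ x, φ (ψ x) = χ x)
    (h2 : φ v * w = u) (P : (Ec d).toAffine.Point) :
    B φ w hφ hw (B ψ v hψ hv P) = B χ u hχ hu P := by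
  match P with
  | 0 => rw [map_zero, map_zero, map_zero]
  | .some x y h =>
    obtain ⟨g1, e1⟩ := B_some ψ v hψ hv x y h
    obtain ⟨g2, e2⟩ := B_some φ w hφ hw _ _ g1
    obtain ⟨g3, e3⟩ := B_some χ u hχ hu x y h
    rw [e1, e2, e3, Affine.Point.some.injEq, ← h2]
    simp only [map_mul, map_pow, h1]
    constructor <;> ring

end act

section main

variable {K F : Type} [Field K] [NumberField K] [Field F] [NumberField F] [Algebra K F]

/-- **The points over `F = K(∛l : l ∈ T)`** -/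
theorem pts_fin (I : K) (hI : I ^ 2 + I + 1 = 0) {T : Type} [Fintype T] (l : T → K)
    (hl : ∀ i, l i ≠ 0)
    (x : T → F) (hx : ∀ i, x i ^ 3 = algebraMap K F (l i))
    (hgen : ∀ S : Subfield F, (∀ k : K, algebraMap K F k ∈ S) → (∀ i, x i ∈ S) → S = ⊤)
    (a : K) (ha : a ≠ 0)
    (hyp : ∀ ε : T → Fin 3, Finite (Ec (a * ∏ i, l i ^ (ε i : ℕ))).toAffine.Point) :
    Finite (Ec (algebraMap K F a)).toAffine.Point := by
  classical
  have hgal : IsGalois K F := galois3 I hI l x hx hgen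
  have hfd : FiniteDimensional K F := Pool.Agent.Y715.CS.finKF
  have _ : Fintype (F ≃ₐ[K] F) := Fintype.ofFinite _
  have haF : algebraMap K F a ≠ 0 := (map_ne_zero _).2 ha
  have hx0 : ∀ i, x i ≠ 0 := by
    intro i h0
    have h1 := hx i
    rw [h0, zero_pow (by norm_num)] at h1
    exact hl i ((map_eq_zero _).1 h1.symm)
  obtain ⟨u, hu⟩ : ∃ u : (T → Fin 3) → F, ∀ ε, u ε = ∏ i, x i ^ (ε i : ℕ) := ⟨_, fun ε => rfl⟩
  have hune : ∀ ε, u ε ≠ 0 := fun ε => by
    rw [hu]
    exact Finset.prod_ne_zero_iff.2 fun i _ => pow_ne_zero _ (hx0 i)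
  have hu3 : ∀ ε, u ε ^ 3 = algebraMap K F (∏ i, l i ^ (ε i : ℕ)) := by
    intro ε
    rw [hu, ← Finset.prod_pow, map_prod]
    refine Finset.prod_congr rfl fun i _ => ?_
    rw [map_pow, ← hx i, ← pow_mul, ← pow_mul, mul_comm]
  -- the cocycle
  obtain ⟨w, hw⟩ : ∃ w : (F ≃ₐ[K] F) → T → F, ∀ σ i, w σ i = σ (x i) / x i := ⟨_, fun _ _ => rfl⟩
  have hwx : ∀ σ i, σ (x i) = w σ i * x i := fun σ i => by
    rw [hw, div_mul_cancel₀ _ (hx0 i)]
  have hw3 : ∀ σ i, w σ i ^ 3 = 1 := by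
    intro σ i
    have h1 : σ (x i) ^ 3 = x i ^ 3 := by
      rw [← map_pow, hx i, AlgEquiv.commutes]
    rw [hw, div_pow, h1, div_self (pow_ne_zero _ (hx0 i))]
  obtain ⟨J, hJ⟩ : ∃ J : F, J = algebraMap K F I := ⟨_, rfl⟩
  have hJ2 : J ^ 2 + J + 1 = 0 := by
    rw [hJ, ← map_pow, ← map_one (algebraMap K F), ← map_add, ← map_add, hI, map_zero]
  have hcube : ∀ z : F, z ^ 3 = 1 → ∃ c : K, z = algebraMap K F c := by
    intro z hz
    have h5 : (z - 1) * ((z - J) * (z - J ^ 2)) = 0 := by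
      linear_combination hz + (- z ^ 2 + z + J * z - z * 1 + (1 - J)) * hJ2
    rcases mul_eq_zero.1 h5 with h6 | h6
    · exact ⟨1, by rw [map_one]; linear_combination h6⟩
    · rcases mul_eq_zero.1 h6 with h7 | h7
      · exact ⟨I, by rw [← hJ]; linear_combination h7⟩
      · exact ⟨I ^ 2, by rw [map_pow, ← hJ]; linear_combination h7⟩
  obtain ⟨W, hW⟩ : ∃ W : (T → Fin 3) → (F ≃ₐ[K] F) → F, ∀ ε σ, W ε σ =
      ∏ i, w σ i ^ (ε i : ℕ) := ⟨_, fun _ _ => rfl⟩
  have hW3 : ∀ ε σ, W ε σ ^ 3 = 1 := by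
    intro ε σ
    rw [hW, ← Finset.prod_pow]
    refine Finset.prod_eq_one fun i _ => ?_
    rw [← pow_mul, mul_comm, pow_mul, hw3, one_pow]
  have hWu : ∀ ε σ, σ (u ε) = W ε σ * u ε := by
    intro ε σ
    rw [hu, hW, map_prod, ← Finset.prod_mul_distrib]
    refine Finset.prod_congr rfl fun i _ => ?_
    rw [map_pow, hwx, mul_pow]
  have hWfix : ∀ ε σ (τ : F ≃ₐ[K] F), τ (W ε σ) = W ε σ := by
    intro ε σ τ
    obtain ⟨c, hc⟩ := hcube _ (hW3 ε σ)
    rw [hc, AlgEquiv.commutes]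
  have hWmul : ∀ ε (τ σ : F ≃ₐ[K] F), W ε σ * W ε τ = W ε (τ * σ) := by
    intro ε τ σ
    apply mul_right_cancel₀ (hune ε)
    rw [← hWu, AlgEquiv.mul_apply, hWu ε σ, map_mul, hWfix, hWu ε τ]
    ring
  have hd : ∀ σ : F ≃ₐ[K] F, ((σ : F ≃+* F) : F →+* F) (algebraMap K F a) = algebraMap K F a :=
    fun σ => σ.commutes a
  -- the projections
  obtain ⟨Pr, hPr⟩ : ∃ Pr : (T → Fin 3) → (Ec (algebraMap K F a)).toAffine.Point →
      (Ec (algebraMap K F a)).toAffine.Point, ∀ ε P, Pr ε P =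
      ∑ σ : F ≃ₐ[K] F, B ((σ : F ≃+* F) : F →+* F) (W ε σ) (hd σ) (hW3 ε σ) P :=
    ⟨_, fun _ _ => rfl⟩
  have hfix : ∀ ε P (τ : F ≃ₐ[K] F),
      B ((τ : F ≃+* F) : F →+* F) (W ε τ) (hd τ) (hW3 ε τ) (Pr ε P) = Pr ε P := by
    intro ε P τ
    rw [hPr, map_sum]
    have h1 : ∀ σ : F ≃ₐ[K] F, B ((τ : F ≃+* F) : F →+* F) (W ε τ) (hd τ) (hW3 ε τ)
        (B ((σ : F ≃+* F) : F →+* F) (W ε σ) (hd σ) (hW3 ε σ) P) =
        B (((τ * σ : F ≃ₐ[K] F) : F ≃+* F) : F →+* F) (W ε (τ * σ)) (hd (τ * σ))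
          (hW3 ε (τ * σ)) P := by
      intro σ
      refine B_comp _ _ _ _ _ _ _ _ _ _ _ _ (fun _ => rfl) ?_ P
      rw [← hWmul]
      exact congrArg (· * W ε τ) (hWfix ε σ τ)
    rw [Finset.sum_congr rfl fun σ _ => h1 σ]
    exact Equiv.sum_comp (Equiv.mulLeft τ) (fun σ : F ≃ₐ[K] F =>
      B ((σ : F ≃+* F) : F →+* F) (W ε σ) (hd σ) (hW3 ε σ) P)
  have hsum : ∀ P, ∑ ε, Pr ε P = (3 ^ Fintype.card T : ℕ) • P := by
    intro P
    have h0 : ∑ ε, Pr ε P = ∑ σ : F ≃ₐ[K] F, ∑ ε,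
        B ((σ : F ≃+* F) : F →+* F) (W ε σ) (hd σ) (hW3 ε σ) P := by
      simp only [hPr]
      exact Finset.sum_comm
    rw [h0, Finset.sum_eq_single 1]
    · have h2 : ∀ ε, B (((1 : F ≃ₐ[K] F) : F ≃+* F) : F →+* F) (W ε 1) (hd 1) (hW3 ε 1) P =
          P := by
        intro ε
        have hW1 : W ε 1 = 1 := by
          apply mul_right_cancel₀ (hune ε)
          rw [← hWu, one_mul, AlgEquiv.one_apply]
        match P with
        | 0 => rw [map_zero]
        | .some X Y h =>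
          obtain ⟨g1, e1⟩ := B_some (((1 : F ≃ₐ[K] F) : F ≃+* F) : F →+* F) (W ε 1) (hd 1)
            (hW3 ε 1) X Y h
          rw [e1, Affine.Point.some.injEq, hW1, one_pow, one_pow, mul_one, mul_one]
          exact ⟨rfl, rfl⟩
      rw [Finset.sum_congr rfl fun ε _ => h2 ε, Finset.sum_const, Finset.card_univ,
        Fintype.card_fun, Fintype.card_fin]
    · intro σ _ hσ
      have hne : ∃ i, w σ i ≠ 1 := by
        by_contra hcon
        push Not at hcon
        apply hσ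
        have h5 := hgen (RingHom.eqLocusField ((σ : F ≃+* F) : F →+* F) (RingHom.id F))
          (fun y => σ.commutes y) (fun i => by
            show σ (x i) = x i
            rw [hwx, hcon i, one_mul])
        ext y
        have h7 : y ∈ RingHom.eqLocusField ((σ : F ≃+* F) : F →+* F) (RingHom.id F) := by
          rw [h5]; trivial
        exact h7
      refine sum_zero (w σ) (hw3 σ) hne _ fun z hz3 hz1 ε ε' ε'' h' h'' => ?_
      rw [← hW, ← hW] at h' h''
      have hzz : z ^ 2 + z + 1 = 0 := by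
        have h5 : (z - 1) * (z ^ 2 + z + 1) = 0 := by linear_combination hz3
        exact (mul_eq_zero.1 h5).resolve_left (sub_ne_zero.2 hz1)
      have hz4 : (z ^ 2) ^ 2 + z ^ 2 + 1 = 0 := by linear_combination (z ^ 2 - z + 1) * hzz
      have hz5 : z ^ 2 ≠ 1 := by
        intro h5
        apply hz1
        linear_combination hz3 - z * h5
      match P with
      | 0 => rw [map_zero, map_zero, map_zero, add_zero, add_zero]
      | .some X Y h =>
        obtain ⟨g1, e1⟩ := B_some ((σ : F ≃+* F) : F →+* F) (W ε σ) (hd σ) (hW3 ε σ) X Y h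
        obtain ⟨g2, e2⟩ := B_some ((σ : F ≃+* F) : F →+* F) (W ε' σ) (hd σ) (hW3 ε' σ) X Y h
        obtain ⟨g3, e3⟩ := B_some ((σ : F ≃+* F) : F →+* F) (W ε'' σ) (hd σ) (hW3 ε'' σ) X Y h
        rw [e1, e2, e3]
        refine sum3' (Ec (algebraMap K F a)) rfl rfl rfl rfl haF hz4 hz5 _ _ _ ?_ ?_ ?_ ?_
        · rw [h']
          ring
        · rw [hW3, hW3]
        · rw [h'']
          ring
        · rw [hW3, hW3]
    · intro h
      exact absurd (Finset.mem_univ _) h
  -- the fixed points are finite in number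
  have hfin : ∀ ε, {Q : (Ec (algebraMap K F a)).toAffine.Point | ∀ τ : F ≃ₐ[K] F,
      B ((τ : F ≃+* F) : F →+* F) (W ε τ) (hd τ) (hW3 ε τ) Q = Q}.Finite := by
    intro ε
    have hf1 := hyp ε
    let f : (Ec (a * ∏ i, l i ^ (ε i : ℕ))).toAffine.Point → Option (F × F) := fun P => match P with
      | 0 => none
      | .some X Y _ => some (algebraMap K F X / u ε ^ 2, algebraMap K F Y / u ε ^ 3)
    have hf : (Set.range f).Finite := Set.finite_range f
    refine (hf.preimage co_inj.injOn).subset ?_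
    rintro (_ | ⟨X, Y, hn⟩) hP
    · exact ⟨0, rfl⟩
    · have hfix : ∀ τ : F ≃ₐ[K] F, τ (X * u ε ^ 2) = X * u ε ^ 2 ∧
          τ (Y * u ε ^ 3) = Y * u ε ^ 3 := by
        intro τ
        have h1 := hP τ
        obtain ⟨h2, e2⟩ := B_some ((τ : F ≃+* F) : F →+* F) (W ε τ) (hd τ) (hW3 ε τ) X Y hn
        have h1' : B ((τ : F ≃+* F) : F →+* F) (W ε τ) (hd τ) (hW3 ε τ)
          (Affine.Point.some X Y hn) = Affine.Point.some X Y hn := h1
        rw [e2, Affine.Point.some.injEq] at h1'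
        obtain ⟨h3, h4⟩ := h1'
        have h3' : τ X * W ε τ ^ 2 = X := h3
        have h4' : τ Y * W ε τ ^ 3 = Y := h4
        rw [map_mul, map_mul, map_pow, map_pow, hWu]
        constructor
        · linear_combination (u ε ^ 2) * h3'
        · linear_combination (u ε ^ 3) * h4'
      obtain ⟨U, hU⟩ := (IsGalois.mem_range_algebraMap_iff_fixed (X * u ε ^ 2)).2
        fun τ => (hfix τ).1
      obtain ⟨V, hV⟩ := (IsGalois.mem_range_algebraMap_iff_fixed (Y * u ε ^ 3)).2
        fun τ => (hfix τ).2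
      have heq : Y ^ 2 + algebraMap K F a * Y = X ^ 3 := (Ec_eqn _ X Y).1 hn.1
      have hd0 : a * ∏ i, l i ^ (ε i : ℕ) ≠ 0 :=
        mul_ne_zero ha (Finset.prod_ne_zero_iff.2 fun i _ => pow_ne_zero _ (hl i))
      have hns : (Ec (a * ∏ i, l i ^ (ε i : ℕ))).toAffine.Nonsingular U V := by
        rw [← Affine.equation_iff_nonsingular_of_Δ_ne_zero]
        · rw [Ec_eqn]
          apply (algebraMap K F).injective
          rw [map_add, map_pow, map_pow, map_mul, map_mul, ← hu3, hU, hV]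
          linear_combination u ε ^ 6 * heq
        · have : (Ec (a * ∏ i, l i ^ (ε i : ℕ))).toAffine.Δ =
              -27 * (a * ∏ i, l i ^ (ε i : ℕ)) ^ 4 := by
            simp only [Ec, WeierstrassCurve.Δ, WeierstrassCurve.b₂, WeierstrassCurve.b₄,
              WeierstrassCurve.b₆, WeierstrassCurve.b₈]
            ring
          rw [this]
          exact mul_ne_zero (by norm_num) (pow_ne_zero 4 hd0)
      refine ⟨.some U V hns, ?_⟩
      show some (algebraMap K F U / u ε ^ 2, algebraMap K F V / u ε ^ 3) = some (X, Y)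
      rw [hU, hV, mul_div_cancel_right₀ _ (pow_ne_zero 2 (hune ε)),
        mul_div_cancel_right₀ _ (pow_ne_zero 3 (hune ε))]
  have hrange : (Set.range fun P : (Ec (algebraMap K F a)).toAffine.Point =>
      (3 ^ Fintype.card T : ℕ) • P).Finite := by
    refine Set.Finite.subset (Set.Finite.image (fun g : (T → Fin 3) →
      (Ec (algebraMap K F a)).toAffine.Point => ∑ e, g e) (Set.Finite.pi hfin)) ?_
    rintro _ ⟨P, rfl⟩
    exact ⟨fun e => Pr e P, fun e _ τ => hfix e P τ, hsum P⟩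
  have hlast := fin_pow (tors3 haF) (Fintype.card T) hrange
  rw [← Set.finite_univ_iff]
  exact hlast.subset fun P _ => ⟨P, rfl⟩

end main

end Pool.Agent.X253.C3
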