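import Mathlib

/-!
# Simultaneous eigenvectors, and determinants
-/

set_option autoImplicit false
set_option linter.unusedSectionVars false

namespace Pool.Agent.X253.C3

open Polynomial

section

variable {V : Type} [AddCommGroup V] [Module ℂ V] [FiniteDimensional ℂ V]

lemma semisimple3 {f : Module.End ℂ V} (h3 : f ^ 3 = 1) : f.IsSemisimple := by
  have hsep : (X ^ 3 - C (1 : ℂ) : ℂ[X]).Separable :=
    separable_X_pow_sub_C (1 : ℂ) (by norm_num) one_ne_zero
  refine Module.End.isSemisimple_of_squarefree_aeval_eq_zero hsep.squarefree ?_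
  rw [map_sub, map_pow, aeval_X, aeval_C, h3, map_one, sub_self]

theorem joint_basis {ι : Type} (f : ι → Module.End ℂ V) (hc : ∀ i j, Commute (f i) (f j))
    (h3 : ∀ i, f i ^ 3 = 1) :
    ∃ (κ : Type) (_ : Fintype κ) (b : Module.Basis κ ℂ V) (χ : κ → ι → ℂ),
      ∀ k i, f i (b k) = χ k i • b k := by
  classical
  have h' : ∀ i, ⨆ μ, (f i).maxGenEigenspace μ = ⊤ := fun i =>
    Module.End.iSup_maxGenEigenspace_eq_top (f i)
  have htop := Module.End.iSup_iInf_maxGenEigenspace_eq_top_of_iSup_maxGenEigenspace_eq_top_of_commute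
    f (fun i j _ => hc i j) h'
  set S : Set V := {v | ∃ χ : ι → ℂ, ∀ i, f i v = χ i • v} with hS
  have hspan : Submodule.span ℂ S = ⊤ := by
    rw [eq_top_iff, ← htop, iSup_le_iff]
    intro χ v hv
    apply Submodule.subset_span
    refine ⟨χ, fun i => ?_⟩
    rw [Submodule.mem_iInf] at hv
    have h1 := hv i
    rw [(Module.End.isFinitelySemisimple_iff_isSemisimple.2
      (semisimple3 (h3 i))).maxGenEigenspace_eq_eigenspace] at h1
    exact Module.End.mem_eigenspace_iff.1 h1
  obtain ⟨B, hB1, hB2, hB3⟩ := exists_linearIndependent ℂ S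
  have hBf : Finite B := hB3.finite
  have hfin : Fintype B := Fintype.ofFinite B
  have hBs : ⊤ ≤ Submodule.span ℂ (Set.range ((↑) : B → V)) := by
    rw [Subtype.range_coe, hB2, hspan]
  have hex : ∀ k : B, ∃ χ : ι → ℂ, ∀ i, f i k.1 = χ i • k.1 := fun k => hB1 k.2
  choose χ hχ using hex
  refine ⟨B, hfin, Module.Basis.mk hB3 hBs, χ, fun k i => ?_⟩
  rw [Module.Basis.mk_apply]
  exact hχ k i

theorem det_diag {κ : Type} [Fintype κ] (b : Module.Basis κ ℂ V) (T : Module.End ℂ V) (t : κ → ℂ)
    (h : ∀ k, T (b k) = t k • b k) : LinearMap.det T = ∏ k, t k := by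
  classical
  rw [← LinearMap.det_toMatrix b]
  have h1 : LinearMap.toMatrix b b T = Matrix.diagonal t := by
    ext i k
    rw [LinearMap.toMatrix_apply, h, map_smul, Finsupp.smul_apply, Module.Basis.repr_self,
      Matrix.diagonal_apply, Finsupp.single_apply, smul_eq_mul]
    by_cases hik : i = k
    · subst hik
      simp
    · rw [if_neg hik, if_neg (fun h => hik h.symm), mul_zero]
  rw [h1, Matrix.det_diagonal]

/-- conjugation does not change the determinant -/
theorem det_conj {G : Type} [Group G] (ρ : G →* Module.End ℂ V) (g c : G) (y : ℂ) :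
    LinearMap.det (1 - y • ρ (c * g * c⁻¹)) = LinearMap.det (1 - y • ρ g) := by
  have h1 : ρ c * ρ c⁻¹ = 1 := by rw [← map_mul, mul_inv_cancel, map_one]
  have h2 : 1 - y • ρ (c * g * c⁻¹) = ρ c * (1 - y • ρ g) * ρ c⁻¹ := by
    rw [map_mul, map_mul, mul_sub, sub_mul, mul_one, h1]
    congr 1
    rw [mul_smul_comm, smul_mul_assoc]
  rw [h2, map_mul, map_mul, mul_comm (LinearMap.det (ρ c)), mul_assoc, ← map_mul, h1, map_one,
    mul_one]

end

end Pool.Agent.X253.C3
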