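import Pool.Agent.X253.C3.Ind3
import Pool.Agent.X253.C3.Rep1

/-!
# The Galois group of `ℚ(ω, ∛p : p ∈ T)` over `ℚ`
-/

set_option autoImplicit false
set_option linter.unusedVariables false
set_option linter.unusedSectionVars false

namespace Pool.Agent.X253.C3

open NumberField IsDedekindDomain Polynomial

section galQ

variable {F : Type} [Field F] [NumberField F]

/-- `ℚ(ω, ∛p : p ∈ T)` is a Galois extension of `ℚ` -/
theorem galQ {J : F} (hJ2 : J ^ 2 + J + 1 = 0) {T : Type} [Fintype T] (l : T → ℚ)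
    (x : T → F) (hx : ∀ i, x i ^ 3 = algebraMap ℚ F (l i))
    (hgen : ∀ S : Subfield F, J ∈ S → (∀ i, x i ∈ S) → S = ⊤) : IsGalois ℚ F := by
  classical
  set p : ℚ[X] := (X ^ 2 + X + 1) * ∏ i, (X ^ 3 - C (l i)) with hp
  have h3 : (C J : F[X]) ^ 2 + C J + 1 = 0 := by
    rw [← C_pow, ← C_1, ← C_add, ← C_add, hJ2, C_0]
  have hmap : p.map (algebraMap ℚ F) = ((X - C J) * (X - C (J ^ 2))) *
      ∏ i, ((X - C (x i)) * ((X - C (J * x i)) * (X - C (J ^ 2 * x i)))) := by
    rw [hp, Polynomial.map_mul, Polynomial.map_prod]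
    congr 1
    · rw [Polynomial.map_add, Polynomial.map_add, Polynomial.map_pow, Polynomial.map_X,
        Polynomial.map_one, C_pow]
      linear_combination (1 - C J + X) * h3
    · refine Finset.prod_congr rfl fun i _ => ?_
      have h1 : C (algebraMap ℚ F (l i)) = C (x i) ^ 3 := by rw [← C_pow, hx]
      rw [Polynomial.map_sub, Polynomial.map_pow, Polynomial.map_X, Polynomial.map_C,
        h1, C_mul, C_mul, C_pow]
      linear_combination (X ^ 2 * C (x i) - C J * X * C (x i) ^ 2 + (C J - 1) * C (x i) ^ 3) * h3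
  have hq0 : (X ^ 2 + X + 1 : ℚ[X]) ≠ 0 := by
    intro h0
    have h1 := congrArg (fun q : ℚ[X] => q.eval 0) h0
    simp at h1
  have hp0 : p ≠ 0 := by
    rw [hp]
    exact mul_ne_zero hq0 (Finset.prod_ne_zero_iff.2 fun i _ =>
      (monic_X_pow_sub_C _ (by norm_num)).ne_zero)
  have hspl : IsSplittingField ℚ F p := by
    refine ⟨?_, ?_⟩
    · rw [hmap]
      exact ((Splits.X_sub_C _).mul (Splits.X_sub_C _)).mul
        (Splits.prod fun i _ => (Splits.X_sub_C _).mul
          ((Splits.X_sub_C _).mul (Splits.X_sub_C _)))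
    · have h1 := IntermediateField.adjoin_toSubalgebra_of_isAlgebraic (F := ℚ) (E := F)
        (S := p.rootSet F) (fun y _ => (Algebra.IsAlgebraic.isAlgebraic y))
      rw [← h1]
      have h2 : (IntermediateField.adjoin ℚ (p.rootSet F)) = ⊤ := by
        have h3 := hgen (IntermediateField.adjoin ℚ (p.rootSet F)).toSubfield
          (by
            apply IntermediateField.subset_adjoin
            rw [mem_rootSet]
            refine ⟨hp0, ?_⟩
            rw [aeval_def, eval₂_eq_eval_map, hmap, eval_mul, eval_mul, eval_sub, eval_X, eval_C,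
              sub_self, zero_mul, zero_mul]) (fun i => by
            apply IntermediateField.subset_adjoin
            rw [mem_rootSet]
            refine ⟨hp0, ?_⟩
            rw [aeval_def, eval₂_eq_eval_map, hmap, eval_mul, eval_prod]
            rw [Finset.prod_eq_zero (Finset.mem_univ i), mul_zero]
            rw [eval_mul, eval_sub, eval_X, eval_C, sub_self, zero_mul])
        rw [eq_top_iff]
        intro y _
        have h4 : y ∈ (IntermediateField.adjoin ℚ (p.rootSet F)).toSubfield := by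
          rw [h3]
          trivial
        exact h4
      rw [h2]
      exact IntermediateField.top_toSubalgebra
  have hn : Normal ℚ F := Normal.of_isSplittingField p
  exact ⟨⟩

lemma J_not_rat {J : F} (hJ2 : J ^ 2 + J + 1 = 0) (q : ℚ) : algebraMap ℚ F q ≠ J := by
  intro h
  have h1 : algebraMap ℚ F (q ^ 2 + q + 1) = 0 := by
    rw [map_add, map_add, map_pow, map_one, h, hJ2]
  have h2 : q ^ 2 + q + 1 = 0 := (map_eq_zero _).1 h1
  nlinarith [sq_nonneg (2 * q + 1)]

/-- the images of the root of unity -/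
lemma sJ {J : F} (hJ2 : J ^ 2 + J + 1 = 0) (σ : F ≃ₐ[ℚ] F) : σ J = J ∨ σ J = J ^ 2 := by
  have h1 : (σ J) ^ 2 + σ J + 1 = 0 := by
    rw [← map_pow, ← map_add, ← map_one σ, ← map_add, hJ2, map_zero]
  have h2 : (σ J - J) * (σ J - J ^ 2) = 0 := by
    linear_combination h1 + (-1 + J - σ J) * hJ2
  rcases mul_eq_zero.1 h2 with h | h
  · exact Or.inl (sub_eq_zero.1 h)
  · exact Or.inr (sub_eq_zero.1 h)

lemma J_ne {J : F} (hJ2 : J ^ 2 + J + 1 = 0) : J ^ 2 ≠ J := by
  intro h
  have h1 : (2 * J + 1 : F) = 0 := by linear_combination hJ2 - h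
  have h2 : (3 : F) = 0 := by linear_combination (-4 : F) * (hJ2) + (2 * J + 1) * h1
    + 8 * hJ2 - 2 * (2 * J + 1) * h1
  norm_num at h2

/-- an automorphism that moves the root of unity -/
theorem exists_c [IsGalois ℚ F] {J : F} (hJ2 : J ^ 2 + J + 1 = 0) :
    ∃ c : F ≃ₐ[ℚ] F, c J = J ^ 2 := by
  by_contra hcon
  push Not at hcon
  have h1 : ∀ σ : F ≃ₐ[ℚ] F, σ J = J := fun σ => (sJ hJ2 σ).resolve_right (hcon σ)
  obtain ⟨q, hq⟩ := (IsGalois.mem_range_algebraMap_iff_fixed (F := ℚ) J).2 h1
  exact J_not_rat hJ2 q hq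

end galQ

end Pool.Agent.X253.C3
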