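import Pool.Agent.X253.C3.Rep2

/-!
# The relations in the Galois group of `ℚ(ω, ∛p : p ∈ T)` and the Frobenius automorphisms
-/

set_option autoImplicit false
set_option linter.unusedVariables false
set_option linter.unusedSectionVars false

namespace Pool.Agent.X253.C3

open NumberField IsDedekindDomain

section rel

variable {F : Type} [Field F] [NumberField F]

lemma cube_root {J : F} (hJ2 : J ^ 2 + J + 1 = 0) (z : F) (hz : z ^ 3 = 1) :
    ∃ a : ZMod 3, z = J ^ a.val := by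
  have h5 : (z - 1) * ((z - J) * (z - J ^ 2)) = 0 := by
    linear_combination hz + (- z ^ 2 + z + J * z - z * 1 + (1 - J)) * hJ2
  rcases mul_eq_zero.1 h5 with h6 | h6
  · exact ⟨0, by rw [ZMod.val_zero, pow_zero]; linear_combination h6⟩
  · rcases mul_eq_zero.1 h6 with h7 | h7
    · refine ⟨1, ?_⟩
      rw [show (1 : ZMod 3).val = 1 from rfl, pow_one]
      linear_combination h7
    · refine ⟨2, ?_⟩
      rw [show (2 : ZMod 3).val = 2 from rfl]
      linear_combination h7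

lemma extQ {J : F} {T : Type} (x : T → F)
    (hgen : ∀ S : Subfield F, J ∈ S → (∀ i, x i ∈ S) → S = ⊤) (σ : F ≃ₐ[ℚ] F) (h1 : σ J = J)
    (h2 : ∀ i, σ (x i) = x i) : σ = 1 := by
  have h3 := hgen (IntermediateField.fixedField (Subgroup.zpowers σ)).toSubfield
    (by
      show J ∈ IntermediateField.fixedField (Subgroup.zpowers σ)
      rw [IntermediateField.mem_fixedField_iff]
      intro g hg
      obtain ⟨n, rfl⟩ := Subgroup.mem_zpowers_iff.1 hg
      have h4 : σ ∈ MulAction.stabilizer (F ≃ₐ[ℚ] F) J := h1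
      exact Subgroup.zpow_mem _ h4 n)
    (fun i => by
      show x i ∈ IntermediateField.fixedField (Subgroup.zpowers σ)
      rw [IntermediateField.mem_fixedField_iff]
      intro g hg
      obtain ⟨n, rfl⟩ := Subgroup.mem_zpowers_iff.1 hg
      have h4 : σ ∈ MulAction.stabilizer (F ≃ₐ[ℚ] F) (x i) := h2 i
      exact Subgroup.zpow_mem _ h4 n)
  ext y
  have h6 : y ∈ (IntermediateField.fixedField (Subgroup.zpowers σ)).toSubfield := by
    rw [h3]
    trivial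
  have h7 : y ∈ IntermediateField.fixedField (Subgroup.zpowers σ) := h6
  rw [IntermediateField.mem_fixedField_iff] at h7
  exact h7 _ (Subgroup.mem_zpowers _)

variable {J : F} {T : Type} {l : T → ℚ} {x : T → F}

lemma sx (hJ2 : J ^ 2 + J + 1 = 0) (hx : ∀ i, x i ^ 3 = algebraMap ℚ F (l i)) (hl : ∀ i, l i ≠ 0)
    (σ : F ≃ₐ[ℚ] F) (i : T) : ∃ a : ZMod 3, σ (x i) = J ^ a.val * x i := by
  have hx0 : x i ≠ 0 := by
    intro h0
    have h1 := hx i
    rw [h0, zero_pow (by norm_num)] at h1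
    exact hl i ((map_eq_zero _).1 h1.symm)
  obtain ⟨a, ha⟩ := cube_root hJ2 (σ (x i) / x i) (by
    have h1 : σ (x i) ^ 3 = x i ^ 3 := by
      rw [← map_pow, hx i, AlgEquiv.commutes]
    rw [div_pow, h1, div_self (pow_ne_zero _ hx0)])
  exact ⟨a, by rw [← ha, div_mul_cancel₀ _ hx0]⟩

lemma J3 (hJ2 : J ^ 2 + J + 1 = 0) : J ^ 3 = 1 := by linear_combination (J - 1) * hJ2

/-- the automorphisms that move the root of unity are involutions -/
theorem inv_c (hJ2 : J ^ 2 + J + 1 = 0) (hx : ∀ i, x i ^ 3 = algebraMap ℚ F (l i))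
    (hl : ∀ i, l i ≠ 0) (hgen : ∀ S : Subfield F, J ∈ S → (∀ i, x i ∈ S) → S = ⊤)
    {c : F ≃ₐ[ℚ] F} (hc : c J = J ^ 2) : c * c = 1 := by
  have h3 := J3 hJ2
  refine extQ x hgen _ ?_ fun i => ?_
  · rw [AlgEquiv.mul_apply, hc, map_pow, hc, ← pow_mul]
    linear_combination J * h3
  · obtain ⟨a, ha⟩ := sx hJ2 hx hl c i
    rw [AlgEquiv.mul_apply, ha, map_mul, map_pow, hc, ha, ← mul_assoc, ← pow_mul, ← pow_add]
    have h4 : 2 * a.val + a.val = 3 * a.val := by ring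
    rw [h4, pow_mul, h3, one_pow, one_mul]

theorem conj_inv (hJ2 : J ^ 2 + J + 1 = 0) (hx : ∀ i, x i ^ 3 = algebraMap ℚ F (l i))
    (hl : ∀ i, l i ≠ 0) (hgen : ∀ S : Subfield F, J ∈ S → (∀ i, x i ∈ S) → S = ⊤)
    {a c : F ≃ₐ[ℚ] F} (ha : a J = J) (hc : c J = J ^ 2) : c * a * c⁻¹ = a⁻¹ := by
  have h1 := inv_c hJ2 hx hl hgen hc
  have h2 : (c * a) J = J ^ 2 := by rw [AlgEquiv.mul_apply, ha, hc]
  have h3 := inv_c hJ2 hx hl hgen h2
  have h4 : c⁻¹ = c := inv_eq_of_mul_eq_one_left h1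
  rw [h4]
  refine eq_inv_of_mul_eq_one_left ?_
  rw [mul_assoc (c * a) c a]
  exact h3

lemma extQ2 (hgen : ∀ S : Subfield F, J ∈ S → (∀ i, x i ∈ S) → S = ⊤) {σ τ : F ≃ₐ[ℚ] F}
    (h1 : σ J = τ J) (h2 : ∀ i, σ (x i) = τ (x i)) : σ = τ := by
  have h3 : τ⁻¹ * σ = 1 := by
    refine extQ x hgen _ ?_ fun i => ?_
    · rw [AlgEquiv.mul_apply, h1, ← AlgEquiv.mul_apply, inv_mul_cancel]
      rfl
    · rw [AlgEquiv.mul_apply, h2, ← AlgEquiv.mul_apply, inv_mul_cancel]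
      rfl
  exact (inv_mul_eq_one.1 h3).symm

theorem comm_A (hJ2 : J ^ 2 + J + 1 = 0) (hx : ∀ i, x i ^ 3 = algebraMap ℚ F (l i))
    (hl : ∀ i, l i ≠ 0) (hgen : ∀ S : Subfield F, J ∈ S → (∀ i, x i ∈ S) → S = ⊤)
    {a b : F ≃ₐ[ℚ] F} (ha : a J = J) (hb : b J = J) : a * b = b * a := by
  refine extQ2 hgen ?_ fun i => ?_
  · rw [AlgEquiv.mul_apply, AlgEquiv.mul_apply, ha, hb, ha]
  · obtain ⟨u, hu⟩ := sx hJ2 hx hl a i
    obtain ⟨v, hv⟩ := sx hJ2 hx hl b i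
    rw [AlgEquiv.mul_apply, AlgEquiv.mul_apply, hu, hv, map_mul, map_mul, map_pow, map_pow, ha,
      hb, hu, hv]
    ring

theorem cube_A (hJ2 : J ^ 2 + J + 1 = 0) (hx : ∀ i, x i ^ 3 = algebraMap ℚ F (l i))
    (hl : ∀ i, l i ≠ 0) (hgen : ∀ S : Subfield F, J ∈ S → (∀ i, x i ∈ S) → S = ⊤)
    {a : F ≃ₐ[ℚ] F} (ha : a J = J) : a ^ 3 = 1 := by
  have h3 := J3 hJ2
  refine extQ x hgen _ ?_ fun i => ?_
  · rw [pow_succ, pow_succ, pow_one, AlgEquiv.mul_apply, AlgEquiv.mul_apply, ha, ha, ha]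
  · obtain ⟨u, hu⟩ := sx hJ2 hx hl a i
    rw [pow_succ, pow_succ, pow_one, AlgEquiv.mul_apply, AlgEquiv.mul_apply, hu, map_mul, map_pow,
      ha, hu, map_mul, map_mul, map_pow, ha, hu, ← mul_assoc, ← mul_assoc, ← pow_add, ← pow_add]
    have h4 : u.val + u.val + u.val = 3 * u.val := by ring
    rw [h4, pow_mul, h3, one_pow, one_mul]

end rel

end Pool.Agent.X253.C3
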