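import Pool.Agent.X253.C3.Rep3

/-!
# The Frobenius automorphisms of `ℚ(ω, ∛p : p ∈ T)` over `ℚ`
-/

set_option autoImplicit false
set_option linter.unusedVariables false
set_option linter.unusedSectionVars false

namespace Pool.Agent.X253.C3

open NumberField IsDedekindDomain
open Pool.Agent.Y692.QS (Ei w nr toC toC_inj ns mul_star)
open Pool.Agent.Y715.T.Rec (cs nn)
open Pool.Agent.Y715.T.RecG (Pq cs_spec cs_uniq)
open Pool.Agent.H921R2.TatePole (nm two_le_nm)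
open Pool.Agent.Y696.CTK
open scoped Classical

section frobQ

variable {F : Type} [Field F] [NumberField F]

/-- `u` lies over the prime number `p` and `σ` is a Frobenius automorphism at `u` -/
def IsFrobQ (σ : F ≃ₐ[ℚ] F) (p : ℕ) (u : HeightOneSpectrum (𝓞 F)) : Prop :=
  (p : 𝓞 F) ∈ u.asIdeal ∧ ∀ y : 𝓞 F, σ • y - y ^ p ∈ u.asIdeal

theorem exists_frobQ [IsGalois ℚ F] {p : ℕ} (hp : p.Prime) :
    ∃ (u : HeightOneSpectrum (𝓞 F)) (σ : F ≃ₐ[ℚ] F), IsFrobQ σ p u := by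
  have hinv : Algebra.IsInvariant ℤ (𝓞 F) (F ≃ₐ[ℚ] F) := by
    constructor
    intro b hb
    obtain ⟨y, hy⟩ := (IsGalois.mem_range_algebraMap_iff_fixed (F := ℚ) (b : F)).2 (fun σ =>
      congrArg (fun z : 𝓞 F => (z : F)) (hb σ))
    have h1 : _root_.IsIntegral ℤ y := by
      have h2 : _root_.IsIntegral ℤ (algebraMap ℚ F y) := by rw [hy]; exact b.2
      exact (isIntegral_algHom_iff ((algebraMap ℚ F).toIntAlgHom) (algebraMap ℚ F).injective).1 h2
    obtain ⟨n, hn⟩ := IsIntegrallyClosed.isIntegral_iff.1 h1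
    refine ⟨n, ?_⟩
    apply RingOfIntegers.ext
    rw [← hy, ← hn]
    simp
  have hmaxp : (Ideal.span {(p : ℤ)}).IsMaximal :=
    PrincipalIdealRing.isMaximal_of_irreducible (Nat.prime_iff_prime_int.1 hp).irreducible
  obtain ⟨Q, hQ, hover⟩ := Ideal.exists_ideal_over_maximal_of_isIntegral
    (Ideal.span {(p : ℤ)}) (S := 𝓞 F) (by
      rw [(RingHom.injective_iff_ker_eq_bot _).1
        (FaithfulSMul.algebraMap_injective ℤ (𝓞 F))]
      exact bot_le)
  have hpQ : (p : 𝓞 F) ∈ Q := by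
    have h1 : (p : ℤ) ∈ Q.comap (algebraMap ℤ (𝓞 F)) := by
      rw [hover]
      exact Ideal.mem_span_singleton_self _
    rw [Ideal.mem_comap] at h1
    simpa using h1
  have hQ0 : Q ≠ ⊥ := by
    intro h0
    rw [h0, Ideal.mem_bot] at hpQ
    exact hp.ne_zero (by exact_mod_cast hpQ)
  have hQp := hQ.isPrime
  have hfin : Finite (𝓞 F ⧸ Q) := Ideal.finiteQuotientOfFreeOfNeBot Q hQ0
  obtain ⟨σ, hσ⟩ := IsArithFrobAt.exists_of_isInvariant ℤ (F ≃ₐ[ℚ] F) Q
  refine ⟨⟨Q, hQp, hQ0⟩, σ, hpQ, fun y => ?_⟩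
  have h1 := hσ y
  have h2 : Q.under ℤ = Ideal.span {(p : ℤ)} := hover
  have h3 : Nat.card (ℤ ⧸ Ideal.span {(p : ℤ)}) = p := by
    rw [Nat.card_congr (Int.quotientSpanEquivZMod (p : ℤ)).toEquiv, Int.natAbs_natCast,
      Nat.card_zmod]
  rw [h2, h3] at h1
  exact h1

/-- the Frobenius automorphism on the root of unity -/
theorem frobQ_J {J : F} (hJ2 : J ^ 2 + J + 1 = 0) {p : ℕ} (hp : p.Prime) (hp3 : p ≠ 3)
    {σ : F ≃ₐ[ℚ] F} {u : HeightOneSpectrum (𝓞 F)} (hσ : IsFrobQ σ p u) :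
    (p % 3 = 1 → σ J = J) ∧ (p % 3 = 2 → σ J = J ^ 2) := by
  have h3 := J3 hJ2
  have hint : _root_.IsIntegral ℤ J := by
    have h1 : _root_.IsIntegral ℤ (J ^ 3) := by rw [h3]; exact isIntegral_one
    exact _root_.IsIntegral.of_pow (by norm_num) h1
  set Jo : 𝓞 F := ⟨J, hint⟩ with hJo
  have hcoe : ((Jo : 𝓞 F) : F) = J := rfl
  have hJo3 : Jo ^ 3 = 1 := by
    apply RingOfIntegers.ext
    exact h3
  have hJo2 : Jo ^ 2 + Jo + 1 = 0 := by
    apply RingOfIntegers.ext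
    exact hJ2
  have hno : Jo ^ 2 - Jo ∉ u.asIdeal := by
    intro h
    have h4 : (3 : 𝓞 F) ∈ u.asIdeal := by
      have h5 : (3 : 𝓞 F) = -(Jo ^ 2 - Jo) * (Jo ^ 2 - Jo) := by
        linear_combination (Jo - 2) * hJo3 + hJo2
      rw [h5]
      exact u.asIdeal.mul_mem_left _ h
    have h6 : IsCoprime (p : ℤ) 3 := by
      have := (Nat.coprime_primes hp Nat.prime_three).2 hp3
      exact_mod_cast Nat.isCoprime_iff_coprime.2 this
    obtain ⟨a, b, hab⟩ := h6
    apply u.isPrime.ne_top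
    rw [Ideal.eq_top_iff_one]
    have h7 : (1 : 𝓞 F) = (a : 𝓞 F) * (p : 𝓞 F) + (b : 𝓞 F) * 3 := by
      have := congrArg (fun z : ℤ => (z : 𝓞 F)) hab
      push_cast at this
      exact this.symm
    rw [h7]
    exact u.asIdeal.add_mem (u.asIdeal.mul_mem_left _ hσ.1) (u.asIdeal.mul_mem_left _ h4)
  have hfr := hσ.2 Jo
  have hpow : Jo ^ p = Jo ^ (p % 3) := by
    conv_lhs => rw [← Nat.div_add_mod p 3, pow_add, pow_mul, hJo3, one_pow, one_mul]
  rw [hpow] at hfr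
  have hsm : ∀ k : ℕ, σ J = J ^ k → σ • Jo = Jo ^ k := by
    intro k hk
    apply RingOfIntegers.ext
    exact hk
  constructor
  · intro h1
    rcases sJ hJ2 σ with h | h
    · exact h
    · exfalso
      rw [hsm 2 h, h1, pow_one] at hfr
      exact hno hfr
  · intro h1
    rcases sJ hJ2 σ with h | h
    · exfalso
      rw [hsm 1 (by rw [pow_one]; exact h), h1, pow_one] at hfr
      apply hno
      have := u.asIdeal.neg_mem hfr
      rwa [neg_sub] at this
    · exact h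

variable {K : Type} [Field K] [NumberField K] [Algebra K F]

/-- an automorphism that fixes the root of unity is `K`-linear -/
theorem lift_K (j : Ei ≃+* 𝓞 K) {σ : F ≃ₐ[ℚ] F}
    (h : σ (algebraMap K F ((j w : 𝓞 K) : K)) = algebraMap K F ((j w : 𝓞 K) : K)) :
    ∃ τ : F ≃ₐ[K] F, ∀ y, τ y = σ y := by
  have hO : ∀ o : 𝓞 K, σ (algebraMap K F (o : K)) = algebraMap K F (o : K) := by
    intro o
    obtain ⟨z, rfl⟩ := j.surjective o
    have h1 : z = (z.re : Ei) + (z.im : Ei) * w := by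
      apply QuadraticAlgebra.ext
      · simp [Pool.Agent.Y692.QS.w]
      · simp [Pool.Agent.Y692.QS.w]
    have h2 : algebraMap K F ((j z : 𝓞 K) : K) =
        (z.re : F) + (z.im : F) * algebraMap K F ((j w : 𝓞 K) : K) := by
      conv_lhs => rw [h1]
      simp
    rw [h2, map_add, map_mul, h, map_intCast, map_intCast]
  have hK : ∀ k : K, σ (algebraMap K F k) = algebraMap K F k := by
    intro k
    obtain ⟨a, b, hb, rfl⟩ := IsFractionRing.div_surjective (A := 𝓞 K) k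
    rw [map_div₀, map_div₀]
    have h1 := hO a
    have h2 := hO b
    congr 1
  refine ⟨AlgEquiv.ofRingEquiv (f := σ.toRingEquiv) hK, fun y => rfl⟩

/-- the split primes -/
theorem frobQ_split (j : Ei ≃+* 𝓞 K) {p : ℕ} (hp : p.Prime) (hp1 : p % 3 = 1)
    {σ : F ≃ₐ[ℚ] F} {u : HeightOneSpectrum (𝓞 F)} (hσ : IsFrobQ σ p u) :
    ∃ (P : HeightOneSpectrum Ei) (z : Ei) (τ : F ≃ₐ[K] F), Pq z ∧ nr z = p ∧
      P.asIdeal = Ideal.span {z} ∧ (∀ y, τ y = σ y) ∧ IsFrob τ (pK j P) u := by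
  have hp3 : p ≠ 3 := by
    rintro rfl
    norm_num at hp1
  set I : K := ((j w : 𝓞 K) : K) with hI
  have hI2 : I ^ 2 + I + 1 = 0 := by
    have h1 : (w : Ei) ^ 2 + w + 1 = 0 := by decide
    have h2 := congrArg (fun t : Ei => ((j t : 𝓞 K) : K)) h1
    simp only [map_add, map_pow, map_one, map_zero] at h2
    exact h2
  have hJ2 : (algebraMap K F I) ^ 2 + algebraMap K F I + 1 = 0 := by
    rw [← map_pow, ← map_one (algebraMap K F), ← map_add, ← map_add, hI2, map_zero]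
  obtain ⟨τ, hτ⟩ := lift_K j ((frobQ_J hJ2 hp hp3 hσ).1 hp1)
  have hv0 : u.asIdeal.comap (algebraMap (𝓞 K) (𝓞 F)) ≠ ⊥ := by
    intro h
    have h1 : (p : 𝓞 K) ∈ u.asIdeal.comap (algebraMap (𝓞 K) (𝓞 F)) := by
      rw [Ideal.mem_comap, map_natCast]
      exact hσ.1
    rw [h, Ideal.mem_bot] at h1
    exact hp.ne_zero (by exact_mod_cast h1)
  set v : HeightOneSpectrum (𝓞 K) :=
    ⟨u.asIdeal.comap (algebraMap (𝓞 K) (𝓞 F)), u.isPrime.comap _, hv0⟩ with hv
  obtain ⟨P, hP⟩ := (eK j).surjective v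
  have hP' : pK j P = v := hP
  have hmem : ∀ n : ℕ, (n : Ei) ∈ P.asIdeal ↔ (n : 𝓞 F) ∈ u.asIdeal := by
    intro n
    rw [← mem_pK j P, hP', hv, map_natCast]
    show (n : 𝓞 K) ∈ u.asIdeal.comap (algebraMap (𝓞 K) (𝓞 F)) ↔ _
    rw [Ideal.mem_comap, map_natCast]
  have hpP : ((p : ℕ) : Ei) ∈ P.asIdeal := (hmem p).2 hσ.1
  have h3P : (3 : Ei) ∉ P.asIdeal := by
    intro h
    have h6 : IsCoprime (p : ℤ) 3 := by
      have := (Nat.coprime_primes hp Nat.prime_three).2 hp3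
      exact_mod_cast Nat.isCoprime_iff_coprime.2 this
    obtain ⟨a, b, hab⟩ := h6
    apply P.isPrime.ne_top
    rw [Ideal.eq_top_iff_one]
    have h7 : (1 : Ei) = (a : Ei) * (p : Ei) + (b : Ei) * 3 := by
      have := congrArg (fun z : ℤ => (z : Ei)) hab
      push_cast at this
      exact this.symm
    rw [h7]
    exact P.asIdeal.add_mem (P.asIdeal.mul_mem_left _ hpP) (P.asIdeal.mul_mem_left _ h)
  obtain ⟨hz, hPz⟩ := zz_spec (dvd_refl 3) h3P
  obtain ⟨α, hα, hnα⟩ := Pool.Agent.Y696.CT.exists_pq hp hp1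
  have hα' := Pool.Agent.Y350.CT.pq_star hα
  have h4 : zz P ∣ α * star α := by
    rw [mul_star, hnα]
    rw [hPz, Ideal.mem_span_singleton] at hpP
    exact_mod_cast hpP
  have hnz : nr (zz P) = p := by
    rcases hz.prime.dvd_or_dvd h4 with h5 | h5
    · have h6 := (Pool.Agent.Y696.CT.ns_of_assoc (hz.prime.associated_of_dvd hα.prime h5)).2
      rw [h6, hnα]
    · have h6 := (Pool.Agent.Y696.CT.ns_of_assoc (hz.prime.associated_of_dvd hα'.prime h5)).2
      rw [h6, Pool.Agent.Y692.QS.nr_star, hnα]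
  refine ⟨P, zz P, τ, hz, hnz, hPz, hτ, ?_, fun y => ?_⟩
  · rw [hP']
  · have h5 : nm (pK j P) = p := by
      rw [nm_zz j hPz, hnz, Int.natAbs_natCast]
    rw [h5]
    have h6 : τ • y = σ • y := by
      apply RingOfIntegers.ext
      exact hτ y
    rw [h6]
    exact hσ.2 y

end frobQ

end Pool.Agent.X253.C3
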