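import Pool.Agent.X253.C3.Rep4
import Pool.Agent.Y696.CT.LQ

/-!
# The Euler factors of the twists of `y² + D y = x³` over `ℚ` by representations
-/

set_option autoImplicit false
set_option linter.unusedVariables false
set_option linter.unusedSectionVars false

namespace Pool.Agent.X253.C3

open NumberField IsDedekindDomain
open Pool.Agent.Y692.QS (Ei w nr toC toC_inj ns mul_star toC_normSq)
open Pool.Agent.Y715.T.Rec (cs nn)
open Pool.Agent.Y715.T.RecG (Pq cs_spec cs_uniq)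
open Pool.Agent.H921R2.TatePole (nm two_le_nm)
open Pool.Agent.Y703.CT (WD)
open Pool.Agent.W97.MT (ap)
open Pool.Agent.Y696.CTK
open Pool.Agent.Y696.CT
open scoped Classical

/-- the twists -/
def DN {T : Type} [Fintype T] (D : ℕ) (pr : T → ℕ) (ε : T → Fin 3) : ℕ :=
  D * ∏ i, pr i ^ ((ε i : Fin 3) : ℕ)

lemma aE_nat {T : Type} [Fintype T] (D : ℕ) (pr : T → ℕ) (ε : T → Fin 3) :
    aE (D : Ei) (fun i => (pr i : Ei)) ε = ((DN D pr ε : ℕ) : Ei) := by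
  unfold aE DN
  push_cast
  rfl

theorem ap_yz {z : Ei} (hz : Pq z) {p : ℕ} (hp : p.Prime) (hnz : nr z = p) (hp1 : p % 3 = 1)
    {N : ℕ} (hN : ¬ p ∣ N) :
    ((ap (WD (N : ℤ)) p : ℤ) : ℂ) = yz z (N : Ei) + (starRingEnd ℂ) (yz z (N : Ei)) := by
  have hfact : Fact p.Prime := ⟨hp⟩
  have h1 := congrArg toC (ap_one (p := p) hz hnz (by rintro rfl; norm_num at hp1)
    (by rintro rfl; norm_num at hp1) (D := (N : ℤ)) (by exact_mod_cast hN))
  rw [map_intCast, map_add, Pool.Agent.Y696.CTK.toC_star'] at h1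
  unfold yz
  rw [h1, Int.cast_natCast]

section

variable {F : Type} [Field F] [NumberField F] {V : Type} [AddCommGroup V] [Module ℂ V]
  [FiniteDimensional ℂ V]

/-- the Euler factor `det(1 - a p⁻ˢ ρ(σ)⁻¹ + p^(1-2s) ρ(σ)⁻²)⁻¹` -/
noncomputable def LFac (ρ : (F ≃ₐ[ℚ] F) →* Module.End ℂ V) (σ : F ≃ₐ[ℚ] F) (a : ℤ) (p : ℕ)
    (s : ℂ) : ℂ :=
  (LinearMap.det (1 - ((a : ℂ) * (p : ℂ) ^ (-s)) • ρ σ⁻¹ +
    ((p : ℂ) ^ (1 - 2 * s)) • (ρ σ⁻¹ * ρ σ⁻¹)))⁻¹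

/-- the Euler factor of `y² + N y = x³` -/
noncomputable def fQ (N : ℕ) (s : ℂ) (p : ℕ) : ℂ :=
  (1 - (ap (WD (N : ℤ)) p : ℂ) * (p : ℂ) ^ (-s) + (p : ℂ) ^ (1 - 2 * s))⁻¹

variable {K : Type} [Field K] [NumberField K] [Algebra K F]

/-- the inert primes -/
theorem lfac_inert {J : F} (hJ2 : J ^ 2 + J + 1 = 0) {T : Type} [Fintype T] {l : T → ℚ} {x : T → F}
    (hx : ∀ i, x i ^ 3 = algebraMap ℚ F (l i))
    (hl : ∀ i, l i ≠ 0) (hgen : ∀ S : Subfield F, J ∈ S → (∀ i, x i ∈ S) → S = ⊤)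
    (ρ : (F ≃ₐ[ℚ] F) →* Module.End ℂ V) {κ : Type} [Fintype κ] (b : Module.Basis κ ℂ V)
    {p : ℕ} (hp : p.Prime) (hp2 : p % 3 = 2) {σ : F ≃ₐ[ℚ] F} {u : HeightOneSpectrum (𝓞 F)}
    (hσ : IsFrobQ σ p u) (D : ℕ) (N : κ → ℕ) (s : ℂ) :
    LFac ρ σ (ap (WD (D : ℤ)) p) p s = ∏ k, fQ (N k) s p := by
  have hfact : Fact p.Prime := ⟨hp⟩
  have hp3 : p ≠ 3 := by
    rintro rfl
    norm_num at hp2
  have hc := (frobQ_J hJ2 hp hp3 hσ).2 hp2
  have h1 := inv_c hJ2 hx hl hgen hc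
  have h2 : σ⁻¹ = σ := inv_eq_of_mul_eq_one_left h1
  have h3 : ρ σ⁻¹ * ρ σ⁻¹ = 1 := by rw [h2, ← map_mul, h1, map_one]
  have h4 : ∀ n : ℕ, ap (WD (n : ℤ)) p = 0 := fun n => ap_cube (cube_two hp2) _
  unfold LFac fQ
  rw [h4, h3, Finset.prod_inv_distrib]
  congr 1
  rw [det_diag b _ (fun _ => 1 + (p : ℂ) ^ (1 - 2 * s)) (fun k => ?_)]
  · refine Finset.prod_congr rfl fun k _ => ?_
    rw [h4, Int.cast_zero, zero_mul, sub_zero]
  · rw [Int.cast_zero, zero_mul, zero_smul, sub_zero, LinearMap.add_apply, LinearMap.smul_apply,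
      Module.End.one_apply, add_smul, one_smul]

lemma uu_inv {T : Type} [Fintype T] (l : T → Ei) (m : T → Fin 3) (z : Ei) :
    (starRingEnd ℂ) (uu l m z) = (uu l m z)⁻¹ := by
  have h3 := uu_mul l m z
  have hn : ‖uu l m z‖ = 1 := by
    have h1 : ‖uu l m z‖ ^ 3 = 1 := by rw [← norm_pow, h3, norm_one]
    exact (pow_eq_one_iff_of_nonneg (norm_nonneg _) (by norm_num)).1 h1
  have h4 : (starRingEnd ℂ) (uu l m z) * uu l m z = 1 := by
    rw [mul_comm, Complex.mul_conj, Complex.normSq_eq_norm_sq, hn]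
    norm_num
  exact eq_inv_of_mul_eq_one_left h4

/-- the split primes -/
theorem lfac_split (j : Ei ≃+* 𝓞 K) {T : Type} [Fintype T] {pr : T → ℕ} (hpr : ∀ i, pr i ≠ 0)
    {x : T → 𝓞 F} (hx3 : ∀ i, x i ^ 3 = algebraMap (𝓞 K) (𝓞 F) (j (pr i : Ei)))
    (hgen : ∀ S : Subfield F, algebraMap K F ((j w : 𝓞 K) : K) ∈ S →
      (∀ i, ((x i : 𝓞 F) : F) ∈ S) → S = ⊤)
    (hgal : IsGalois ℚ F)
    (Φ : Additive (F ≃ₐ[K] F) ≃+ (T → ZMod 3))
    (hΦ : ∀ (σ : F ≃ₐ[K] F) (i : T),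
      σ ((x i : 𝓞 F) : F) =
        (algebraMap K F ((j w : 𝓞 K) : K)) ^ (Φ (Additive.ofMul σ) i).val * ((x i : 𝓞 F) : F))
    (ρ : (F ≃ₐ[ℚ] F) →* Module.End ℂ V) {κ : Type} [Fintype κ] (b : Module.Basis κ ℂ V)
    (χ : κ → ((F ≃ₐ[K] F) →* ℂˣ))
    (hχ : ∀ k (τ : F ≃ₐ[K] F), ρ (τ.restrictScalars ℚ) (b k) = ((χ k τ : ℂˣ) : ℂ) • b k)
    (m : κ → T → Fin 3)
    (hm : ∀ k (τ : F ≃ₐ[K] F), ((χ k τ : ℂˣ) : ℂ) =
      ∏ i, ((toC w) ^ (Φ (Additive.ofMul τ) i).val) ^ ((m k i : Fin 3) : ℕ))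
    {p : ℕ} (hp : p.Prime) (hp1 : p % 3 = 1) {σ : F ≃ₐ[ℚ] F} {u : HeightOneSpectrum (𝓞 F)}
    (hσ : IsFrobQ σ p u) {D : ℕ} (hpD : ¬ p ∣ D) (hpp : ∀ i, ¬ p ∣ pr i) (s : ℂ) :
    LFac ρ σ (ap (WD (D : ℤ)) p) p s = ∏ k, fQ (DN D pr (m k)) s p := by
  have hp3 : p ≠ 3 := by
    rintro rfl
    norm_num at hp1
  set I : K := ((j w : 𝓞 K) : K) with hI
  have hI2 : I ^ 2 + I + 1 = 0 := by
    have h1 : (w : Ei) ^ 2 + w + 1 = 0 := by decide
    have h2 := congrArg (fun t : Ei => ((j t : 𝓞 K) : K)) h1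
    simp only [map_add, map_pow, map_one, map_zero] at h2
    exact h2
  have hJ2 : (algebraMap K F I) ^ 2 + algebraMap K F I + 1 = 0 := by
    rw [← map_pow, ← map_one (algebraMap K F), ← map_add, ← map_add, hI2, map_zero]
  set lq : T → ℚ := fun i => (pr i : ℚ) with hlq
  have hlq0 : ∀ i, lq i ≠ 0 := fun i => by
    show ((pr i : ℕ) : ℚ) ≠ 0
    exact_mod_cast hpr i
  have hxq : ∀ i, ((x i : 𝓞 F) : F) ^ 3 = algebraMap ℚ F (lq i) := by
    intro i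
    have h1 : ((x i ^ 3 : 𝓞 F) : F) = ((x i : 𝓞 F) : F) ^ 3 := map_pow (algebraMap (𝓞 F) F) _ _
    rw [← h1, hx3, map_natCast, map_natCast, hlq, map_natCast]
    exact map_natCast (algebraMap (𝓞 F) F) _
  obtain ⟨P, z, τ, hz, hnz, hPz, hτ, hfr⟩ := frobQ_split j hp hp1 hσ
  have hJσ : σ (algebraMap K F I) = algebraMap K F I := (frobQ_J hJ2 hp hp3 hσ).1 hp1
  obtain ⟨c, hc⟩ := exists_c hJ2
  have hconj : c * σ⁻¹ * c⁻¹ = σ := by
    have h4 : σ⁻¹ (algebraMap K F I) = algebraMap K F I := by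
      have h5 : σ ∈ MulAction.stabilizer (F ≃ₐ[ℚ] F) (algebraMap K F I) := hJσ
      exact Subgroup.inv_mem _ h5
    have h6 := conj_inv hJ2 hxq hlq0 hgen h4 hc
    rw [h6, inv_inv]
  have hfact : Fact p.Prime := ⟨hp⟩
  have hzdvd : ∀ n : ℕ, z ∣ (n : Ei) → p ∣ n := by
    intro n hn
    by_contra h
    exact int_ndvd hnz (D := (n : ℤ)) (by exact_mod_cast h) (by rwa [Int.cast_natCast])
  have hzl : ∀ i, ¬ z ∣ ((pr i : ℕ) : Ei) := fun i h => hpp i (hzdvd _ h)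
  have hzD : ¬ z ∣ (D : Ei) := fun h => hpD (hzdvd _ h)
  set l : T → Ei := fun i => (pr i : Ei) with hl
  -- the values
  have hval : ∀ k, ((χ k τ : ℂˣ) : ℂ) = (uu l (m k) z)⁻¹ := by
    intro k
    rw [hm k τ, ← chi_uu]
    refine Finset.prod_congr rfl fun i _ => ?_
    rw [frob_act j l x hx3 hz hPz hzl hfr (hΦ τ i)]
  have hst : τ.restrictScalars ℚ = σ := by
    ext y
    exact hτ y
  have hst' : (τ⁻¹).restrictScalars ℚ = σ⁻¹ := by
    rw [← hst]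
    rfl
  have hR : ∀ k, ρ σ (b k) = (uu l (m k) z)⁻¹ • b k := by
    intro k
    rw [← hst, hχ, hval]
  have hR' : ∀ k, ρ σ⁻¹ (b k) = uu l (m k) z • b k := by
    intro k
    rw [← hst', hχ, map_inv, Units.val_inv_eq_inv_val, hval, inv_inv]
  set U : κ → ℂ := fun k => uu l (m k) z with hU
  have hR2 : ∀ k, ρ σ⁻¹ (b k) = U k • b k := hR'
  set X : ℂ := (p : ℂ) ^ (-s) with hX
  set y : ℂ := yz z (D : Ei) with hy
  have hyy : y * (starRingEnd ℂ) y = (p : ℂ) := by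
    have h1 := yz_norm z (D : Ei)
    rw [hnz, Int.natAbs_natCast] at h1
    exact h1
  have hq : (p : ℂ) ≠ 0 := by exact_mod_cast hp.ne_zero
  have h2 : (p : ℂ) ^ (1 - 2 * s) = (p : ℂ) * X ^ 2 := by
    have e : (1 - 2 * s : ℂ) = 1 + ((2 : ℕ) : ℂ) * (-s) := by push_cast; ring
    rw [e, Complex.cpow_add _ _ hq, Complex.cpow_one, Complex.cpow_nat_mul]
  have hapD := ap_yz hz hp hnz hp1 hpD
  have d1 : LinearMap.det (1 - (((starRingEnd ℂ) y) * X) • ρ σ⁻¹) =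
      ∏ k, (1 - ((starRingEnd ℂ) y * X) * U k) := by
    refine det_diag b _ _ fun k => ?_
    rw [LinearMap.sub_apply, LinearMap.smul_apply, Module.End.one_apply, hR', smul_smul, sub_smul,
      one_smul]
  have d2 : LinearMap.det (1 - (((starRingEnd ℂ) y) * X) • ρ σ) =
      ∏ k, (1 - ((starRingEnd ℂ) y * X) * (U k)⁻¹) := by
    refine det_diag b _ _ fun k => ?_
    rw [LinearMap.sub_apply, LinearMap.smul_apply, Module.End.one_apply, hR, smul_smul, sub_smul,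
      one_smul]
  have d3 : LinearMap.det (1 - (((starRingEnd ℂ) y) * X) • ρ σ) =
      LinearMap.det (1 - (((starRingEnd ℂ) y) * X) • ρ σ⁻¹) := by
    have h := det_conj ρ σ⁻¹ c (((starRingEnd ℂ) y) * X)
    rwa [hconj] at h
  have d4 : LinearMap.det (1 - ((ap (WD (D : ℤ)) p : ℂ) * (p : ℂ) ^ (-s)) • ρ σ⁻¹ +
      ((p : ℂ) ^ (1 - 2 * s)) • (ρ σ⁻¹ * ρ σ⁻¹)) =
      ∏ k, ((1 - (y * X) * U k) * (1 - ((starRingEnd ℂ) y * X) * U k)) := by
    refine det_diag b _ _ fun k => ?_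
    rw [LinearMap.add_apply, LinearMap.sub_apply, LinearMap.smul_apply, LinearMap.smul_apply,
      Module.End.one_apply, Module.End.mul_apply, hR2, map_smul, hR2, smul_smul, smul_smul,
      smul_smul]
    have e1 : (1 - y * X * U k) * (1 - (starRingEnd ℂ) y * X * U k) =
        1 - (ap (WD (D : ℤ)) p : ℂ) * (p : ℂ) ^ (-s) * U k +
          (p : ℂ) ^ (1 - 2 * s) * (U k * U k) := by
      rw [hapD, h2]
      linear_combination (X ^ 2 * U k ^ 2) * hyy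
    rw [e1, add_smul, sub_smul, one_smul]
    congr 2
    ring
  unfold LFac fQ
  rw [d4, Finset.prod_mul_distrib, ← d1, ← d3, d2, ← Finset.prod_mul_distrib,
    Finset.prod_inv_distrib]
  congr 1
  refine Finset.prod_congr rfl fun k _ => ?_
  have hndN : ¬ p ∣ DN D pr (m k) := by
    unfold DN
    intro h
    rcases hp.dvd_mul.1 h with h | h
    · exact hpD h
    · obtain ⟨i, -, hi⟩ := (hp.prime.dvd_finsetProd_iff _).1 h
      exact hpp i (hp.dvd_of_dvd_pow hi)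
  have hapN := ap_yz hz hp hnz hp1 hndN
  have e1 : yz z (aE (D : Ei) l (m k)) = y * U k := yz_aE hz hzD hzl (m k)
  have e2 : aE (D : Ei) l (m k) = ((DN D pr (m k) : ℕ) : Ei) := aE_nat D pr (m k)
  rw [e2] at e1
  have hUU : (starRingEnd ℂ) (U k) = (U k)⁻¹ := uu_inv l (m k) z
  have hU0 : U k ≠ 0 := by
    intro h0
    have := uu_mul l (m k) z
    have h0' : uu l (m k) z = 0 := h0
    rw [h0'] at this
    norm_num at this
  have hUi : U k * (U k)⁻¹ = 1 := mul_inv_cancel₀ hU0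
  rw [hapN, h2, e1, map_mul, hUU]
  linear_combination (X ^ 2) * hyy + (y * (starRingEnd ℂ) y * X ^ 2) * hUi

end

end Pool.Agent.X253.C3
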