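import Pool.Agent.X253.C3.TwL2
import Pool.Agent.X253.C3.LKe

/-!
# The Euler product of `y² + D y = x³` over `K(∛l : l ∈ T)` and the Euler products of the twists
-/

set_option autoImplicit false
set_option linter.unusedVariables false
set_option linter.unusedSectionVars false

namespace Pool.Agent.X253.C3

open Filter Complex NumberField IsDedekindDomain
open scoped Topology
open Pool.Agent.Y692.QS (Ei w nr toC)
open Pool.Agent.Y715.T.Rec (cs nn)
open Pool.Agent.Y715.T.RecG (Pq cs_spec cs_uniq)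
open Pool.Agent.H921R2.TatePole (nm two_le_nm nm_summable)
open Pool.Agent.W189.NF (aV eV)
open Pool.Agent.Y696 (HBd)
open Pool.Agent.Y696.CT
open Pool.Agent.Y696.CTK
open scoped Classical

section loc

variable {T : Type*} [Fintype T] [DecidableEq T]

/-- splitting off one coordinate -/
theorem split_one (u : T → ℂ) (Y : ℂ) (t : T) :
    (∏ e : T → Fin 3, (1 - Y * ∏ q, u q ^ ((e q : Fin 3) : ℕ))) =
      ∏ e : {j // j ≠ t} → Fin 3, ∏ a : Fin 3,
        (1 - (Y * ∏ q : {j // j ≠ t}, u q.1 ^ ((e q : Fin 3) : ℕ)) * u t ^ (a : ℕ)) := by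
  rw [← Fintype.prod_prod_type', ← (Equiv.prodComm _ _).prod_comp,
    ← (Equiv.funSplitAt t (Fin 3)).symm.prod_comp]
  refine Fintype.prod_congr _ _ fun p => ?_
  rw [Fintype.prod_eq_mul_prod_subtype_ne _ t]
  have h1 : (Equiv.funSplitAt t (Fin 3)).symm p t = p.1 := by
    simp [Equiv.funSplitAt_symm_apply]
  have h2 : ∀ q : {j // j ≠ t}, (Equiv.funSplitAt t (Fin 3)).symm p q.1 = p.2 q := by
    intro q
    rw [Equiv.funSplitAt_symm_apply, dif_neg q.2]
  rw [h1, Fintype.prod_congr _ _ fun q => by rw [h2 q]]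
  simp only [Equiv.prodComm_apply, Prod.fst_swap, Prod.snd_swap]
  ring

/-- the identity -/
theorem gen3 (u : T → ℂ) (hu : ∀ q, u q ^ 3 = 1) (Y : ℂ) {f : ℕ}
    (hf : f = if ∀ q, u q = 1 then 1 else 3) :
    (∏ e : T → Fin 3, (1 - Y * ∏ q, u q ^ ((e q : Fin 3) : ℕ))) =
      (1 - Y ^ f) ^ (3 ^ Fintype.card T / f) := by
  by_cases h : ∀ q, u q = 1
  · rw [if_pos h] at hf
    subst hf
    have h1 : ∀ e : T → Fin 3, (1 - Y * ∏ q, u q ^ ((e q : Fin 3) : ℕ)) = 1 - Y := by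
      intro e
      rw [Finset.prod_eq_one fun q _ => by rw [h q, one_pow], mul_one]
    rw [Fintype.prod_congr _ _ h1, Finset.prod_const, Finset.card_univ, Fintype.card_fun,
      Fintype.card_fin, pow_one, Nat.div_one]
  · rw [if_neg h] at hf
    subst hf
    push Not at h
    obtain ⟨t, ht⟩ := h
    have ht1 : u t ^ 2 + u t + 1 = 0 := by
      have h3 : (u t - 1) * (u t ^ 2 + u t + 1) = 0 := by
        linear_combination hu t
      exact (mul_eq_zero.1 h3).resolve_left (sub_ne_zero.2 ht)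
    rw [split_one u Y t]
    have h3 : ∀ e : {j // j ≠ t} → Fin 3, ∏ a : Fin 3,
        (1 - (Y * ∏ q : {j // j ≠ t}, u q.1 ^ ((e q : Fin 3) : ℕ)) * u t ^ (a : ℕ)) =
        1 - Y ^ 3 := by
      intro e
      have h4 : (∏ q : {j // j ≠ t}, u q.1 ^ ((e q : Fin 3) : ℕ)) ^ 3 = 1 := by
        rw [← Finset.prod_pow]
        refine Finset.prod_eq_one fun q _ => ?_
        rw [← pow_mul, mul_comm, pow_mul, hu, one_pow]
      rw [Fin.prod_univ_three]
      simp only [Fin.val_zero, Fin.val_one, Fin.val_two]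
      set W := ∏ q : {j // j ≠ t}, u q.1 ^ ((e q : Fin 3) : ℕ)
      linear_combination (-(Y * W) + (Y * W) ^ 2 * (u t - (0 : ℂ)) - (Y * W) ^ 3 * (u t - 1)) * ht1
        - Y ^ 3 * h4
    rw [Fintype.prod_congr _ _ h3, Finset.prod_const, Finset.card_univ, Fintype.card_fun,
      Fintype.card_fin]
    congr 1
    have h5 : 0 < Fintype.card T := Fintype.card_pos_iff.2 ⟨t⟩
    obtain ⟨n, hn⟩ : ∃ n, Fintype.card T = n + 1 := ⟨Fintype.card T - 1, by omega⟩
    have h6 : Fintype.card {j // j ≠ t} = n := by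
      rw [Fintype.card_subtype_compl, Fintype.card_subtype_eq, hn, Nat.add_sub_cancel]
    rw [hn, h6, pow_succ]
    omega

end loc

lemma hbd_ne {a e : ℤ} {q : ℕ} (h : HBd a e q) (hq : 2 ≤ q) {s : ℂ} (hs : 1 / 2 < s.re) :
    1 - (a : ℂ) * (q : ℂ) ^ (-s) + (e : ℂ) * ((q : ℂ) ^ (-s)) ^ 2 ≠ 0 := by
  rcases h with ⟨rfl, rfl⟩ | ⟨x, h1, h2, h3⟩
  · simp
  · have e1 : 1 - (a : ℂ) * (q : ℂ) ^ (-s) + (e : ℂ) * ((q : ℂ) ^ (-s)) ^ 2 =
        (1 - x * (q : ℂ) ^ (-s)) * (1 - (starRingEnd ℂ) x * (q : ℂ) ^ (-s)) := by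
      rw [h1, h2]
      ring
    have hq0 : (0 : ℝ) < q := by
      have : 0 < q := by omega
      exact_mod_cast this
    have hn : ‖x‖ ^ 2 = q := by
      have h4 := congrArg norm h3
      rw [norm_mul, Complex.norm_conj, Complex.norm_natCast] at h4
      rw [pow_two, h4]
    have hn2 : ‖x‖ = (q : ℝ) ^ (1 / 2 : ℝ) := by
      rw [← hn, ← Real.sqrt_eq_rpow, Real.sqrt_sq (norm_nonneg _)]
    have hc : ‖(q : ℂ) ^ (-s)‖ = (q : ℝ) ^ (-s.re) := by
      have h2 : (q : ℂ) = ((q : ℝ) : ℂ) := by push_cast; rfl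
      rw [h2, Complex.norm_cpow_eq_rpow_re_of_pos hq0, Complex.neg_re]
    have hlt : (q : ℝ) ^ (1 / 2 : ℝ) * (q : ℝ) ^ (-s.re) < 1 := by
      rw [← Real.rpow_add hq0]
      refine Real.rpow_lt_one_of_one_lt_of_neg ?_ (by linarith)
      have : 1 < q := by omega
      exact_mod_cast this
    have key : ∀ y : ℂ, ‖y‖ = (q : ℝ) ^ (1 / 2 : ℝ) → 1 - y * (q : ℂ) ^ (-s) ≠ 0 := by
      intro y hy h0
      have h5 : y * (q : ℂ) ^ (-s) = 1 := (sub_eq_zero.1 h0).symm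
      have h6 := congrArg norm h5
      rw [norm_mul, hy, hc, norm_one] at h6
      rw [h6] at hlt
      exact lt_irrefl _ hlt
    rw [e1]
    exact mul_ne_zero (key x hn2) (key _ (by rw [Complex.norm_conj]; exact hn2))

/-- removing finitely many factors -/
theorem hasProd_compl {V : Type*} [DecidableEq V] {f : V → ℂ} {L : ℂ} (h : HasProd f L)
    (B : Finset V) (hB : ∀ v ∈ B, f v ≠ 0) :
    HasProd (fun v : {v : V // v ∉ B} => f v.1) (L * ∏ v ∈ B, (f v)⁻¹) := by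
  have h1 : HasProd (fun v => if v ∈ B then (f v)⁻¹ else 1) (∏ v ∈ B, (f v)⁻¹) := by
    have h2 : HasProd (fun v => if v ∈ B then (f v)⁻¹ else 1)
        (∏ v ∈ B, if v ∈ B then (f v)⁻¹ else 1) :=
      hasProd_prod_of_ne_finset_one (fun v hv => if_neg hv)
    rwa [Finset.prod_congr rfl (fun v hv => if_pos hv)] at h2
  have h3 := h.mul h1
  have h4 : (fun v => f v * (if v ∈ B then (f v)⁻¹ else 1)) =
      fun v => if v ∈ B then 1 else f v := by
    funext v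
    by_cases hv : v ∈ B
    · rw [if_pos hv, if_pos hv, mul_inv_cancel₀ (hB v hv)]
    · rw [if_neg hv, if_neg hv, mul_one]
  rw [h4] at h3
  have h5 : HasProd ((fun v => if v ∈ B then 1 else f v) ∘ (Subtype.val : {v // v ∉ B} → V))
      (L * ∏ v ∈ B, (f v)⁻¹) := by
    refine (hasProd_subtype_iff_of_mulSupport_subset (s := {v | v ∉ B}) ?_).2 h3
    intro v hv hvB
    rw [Function.mem_mulSupport] at hv
    exact hv (if_pos hvB)
  refine h5.congr_fun fun v => ?_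
  show _ = if v.1 ∈ B then 1 else f v.1
  rw [if_neg v.2]

section factor

variable {F : Type} [Field F] [NumberField F]

/-- the Euler factor of `y² + b y = x³` over `F` -/
noncomputable def EF (b : 𝓞 F) (s : ℂ) (v : HeightOneSpectrum (𝓞 F)) : ℂ :=
  (1 - (((nm v : ℕ) : ℂ) - npt b v) * (nm v : ℂ) ^ (-s) + (nm v : ℂ) ^ (1 - 2 * s))⁻¹

lemma nrz_pos {z : Ei} (hz : Pq z) : 0 < (nr z).natAbs := by
  have := nr_mod3 hz
  omega

lemma norm_yz (z a : Ei) : ‖yz z a‖ = ((nr z).natAbs : ℝ) ^ (1 / 2 : ℝ) := by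
  have h4 := congrArg norm (yz_norm z a)
  rw [norm_mul, Complex.norm_conj, Complex.norm_natCast] at h4
  rw [← h4, ← pow_two, ← Real.sqrt_eq_rpow, Real.sqrt_sq (norm_nonneg _)]

lemma norm_cp {q : ℕ} (hq : 0 < q) (s : ℂ) : ‖(q : ℂ) ^ (-s)‖ = (q : ℝ) ^ (-s.re) := by
  have hq0 : (0 : ℝ) < q := by exact_mod_cast hq
  have h2 : (q : ℂ) = ((q : ℝ) : ℂ) := by push_cast; rfl
  rw [h2, Complex.norm_cpow_eq_rpow_re_of_pos hq0, Complex.neg_re]

/-- the Euler factor at a place above `z` -/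
theorem ef_eq3 (ι : Ei →+* 𝓞 F) {v : HeightOneSpectrum (𝓞 F)} {z : Ei} (hz : Pq z)
    (hv : ι z ∈ v.asIdeal) {f : ℕ} (hf : f = 1 ∨ f = 3)
    (hn : Ideal.absNorm v.asIdeal = (nr z).natAbs ^ f) {a : Ei} (ha : ¬ z ∣ a) (s : ℂ) :
    EF (ι a) s v = ((1 - (yz z a * ((nr z).natAbs : ℂ) ^ (-s)) ^ f) *
      (1 - ((starRingEnd ℂ) (yz z a) * ((nr z).natAbs : ℂ) ^ (-s)) ^ f))⁻¹ := by
  have h1 := npt_eq ι hz hv hf hn ha
  have hnm : nm v = (nr z).natAbs ^ f := hn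
  have h1' : ((nm v : ℕ) : ℂ) - (npt (ι a) v : ℂ) = yz z a ^ f + (starRingEnd ℂ) (yz z a) ^ f := h1
  unfold EF
  rw [h1', hnm]
  set N := (nr z).natAbs with hN
  have hq : (N : ℂ) ≠ 0 := by
    have := nrz_pos hz
    exact_mod_cast this.ne'
  have hpow : ∀ t : ℂ, (((N ^ f : ℕ) : ℂ)) ^ t = ((N : ℂ) ^ t) ^ f := by
    intro t
    rw [Nat.cast_pow, ← Complex.natCast_cpow_natCast_mul, Complex.cpow_nat_mul]
  have h2 : (N : ℂ) ^ (1 - 2 * s) = (N : ℂ) * ((N : ℂ) ^ (-s)) ^ 2 := by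
    have e : (1 - 2 * s : ℂ) = 1 + ((2 : ℕ) : ℂ) * (-s) := by push_cast; ring
    rw [e, Complex.cpow_add _ _ hq, Complex.cpow_one, Complex.cpow_nat_mul]
  have h3 : yz z a * (starRingEnd ℂ) (yz z a) = (N : ℂ) := yz_norm z a
  rw [hpow, hpow, h2]
  congr 1
  have h5 : ((N : ℂ) * ((N : ℂ) ^ (-s)) ^ 2) ^ f =
      (yz z a * (N : ℂ) ^ (-s)) ^ f * ((starRingEnd ℂ) (yz z a) * (N : ℂ) ^ (-s)) ^ f := by
    rw [← mul_pow, ← h3]
    congr 1
    ring
  rw [h5, mul_pow, mul_pow]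
  ring

end factor

end Pool.Agent.X253.C3
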