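import Pool.Agent.X253.C3.Rep5
import Pool.Agent.X253.C3.FamQ2
import Pool.Agent.X253.C3.TwL3
import Pool.Agent.Y703.CT.T1d
import Pool.Agent.Y703.CX.Fin

/-!
# The `L`-functions over `ℚ` without the bad primes
-/

set_option autoImplicit false
set_option linter.unusedVariables false
set_option linter.unusedSectionVars false

namespace Pool.Agent.X253.C3

open NumberField IsDedekindDomain
open Pool.Agent.Y692.QS (Ei w nr toC toC_inj ns mul_star toC_normSq)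
open Pool.Agent.Y715.T.Rec (cs nn)
open Pool.Agent.Y715.T.RecG (Pq cs_spec cs_uniq)
open Pool.Agent.H921R2.TatePole (nm two_le_nm)
open Pool.Agent.Y703.CT (WD Cls NoSplit IsL)
open Pool.Agent.W97.MT (ap)
open Pool.Agent.Y696 (HBd)
open Pool.Agent.Y696.CTK
open Pool.Agent.Y696.CT
open Pool.Agent.Y700 (Omega tam)
open scoped Classical

/-- the `L`-functions of the good curves -/
theorem l_ne {D : ℕ} (hC : Cls D) (hN : NoSplit D) : ∃ f, IsL (WD (D : ℤ)) f ∧ f 1 ≠ 0 := by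
  obtain ⟨hmin, f, hf, u, hu, -, hu2, hu3⟩ := Pool.Agent.Y703.CT.fin_all hC
  have hT := hu3.2 hN
  have hU : Pool.Agent.Y703.CT.ThreeUnit u := hu2.2 (hu3.2 hN)
  refine ⟨f, hf, ?_⟩
  have hfin : Finite (Pool.Agent.Y703.CT.EQ
      (Pool.Agent.Y703.CT.WD D)).toAffine.Point := hT.1
  have hcard : Pool.Agent.Y703.CT.tors D ≠ 0 := by
    unfold Pool.Agent.Y703.CT.tors
    exact Nat.card_pos.ne'
  have hB := hC.1
  have hpos : 0 < D := Nat.pos_of_ne_zero hB.1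
  have hper : Omega (WD (D : ℤ)) = √3 * (Real.Gamma (1 / 3) ^ 3 / (2 * Real.pi)) /
    (D : ℝ) ^ (1 / 3 : ℝ) := Pool.Agent.Y333.CT.per D hpos
  obtain ⟨m, hm3, hm⟩ := Pool.Agent.Y145.CT.tamThm Pool.Agent.Y809.BSD14.t_E0 D hB
  have hm0 : m ≠ 0 := by
    rintro rfl
    exact hm3 (dvd_zero 3)
  have hO : Omega (WD (D : ℤ)) ≠ 0 := by
    rw [hper]
    have hD' : (0 : ℝ) < D := by exact_mod_cast hpos
    have h1 : (0 : ℝ) < Real.Gamma (1 / 3) := Real.Gamma_pos_of_pos (by norm_num)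
    have h2 : (0 : ℝ) < (D : ℝ) ^ (1 / 3 : ℝ) := Real.rpow_pos_of_pos hD' _
    have h3 := Real.pi_pos
    positivity
  rw [hu]
  refine mul_ne_zero hU.1 (div_ne_zero (mul_ne_zero (Complex.ofReal_ne_zero.2 hO) ?_)
    (pow_ne_zero _ ?_))
  · rw [hm]
    exact_mod_cast mul_ne_zero (pow_ne_zero _ (by norm_num)) hm0
  · exact_mod_cast hcard

/-- the coefficient at `p^(-2s)` -/
noncomputable def eQ (N p : ℕ) : ℤ := if ((p : ℕ) : ℤ) ∣ (WD (N : ℤ)).Δ then 0 else (p : ℤ)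

lemma wd_delta (N : ℤ) : (WD N).Δ = -27 * N ^ 4 := by
  simp only [WD, WeierstrassCurve.Δ, WeierstrassCurve.b₂, WeierstrassCurve.b₄,
    WeierstrassCurve.b₆, WeierstrassCurve.b₈]
  ring

lemma dvd_delta {N p : ℕ} (hp : p.Prime) (h : ((p : ℕ) : ℤ) ∣ (WD (N : ℤ)).Δ) : p = 3 ∨ p ∣ N := by
  rw [wd_delta] at h
  have h1 : (p : ℤ) ∣ 27 * (N : ℤ) ^ 4 := by
    have h2 := (dvd_neg (a := (p : ℤ))).2 h
    rwa [show -(-27 * (N : ℤ) ^ 4) = 27 * (N : ℤ) ^ 4 by ring] at h2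
  rcases (Nat.prime_iff_prime_int.1 hp).dvd_or_dvd h1 with h2 | h2
  · left
    have h3 : p ∣ 3 ^ 3 := by
      have : (p : ℤ) ∣ ((3 ^ 3 : ℕ) : ℤ) := by exact_mod_cast h2
      exact_mod_cast this
    exact (Nat.prime_dvd_prime_iff_eq hp Nat.prime_three).1 (hp.dvd_of_dvd_pow h3)
  · right
    have h3 := (Nat.prime_iff_prime_int.1 hp).dvd_of_dvd_pow h2
    exact_mod_cast h3

theorem hbdQ (N : ℕ) {p : ℕ} (hp : p.Prime) : HBd (ap (WD (N : ℤ)) p) (eQ N p) p := by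
  have hfact : Fact p.Prime := ⟨hp⟩
  unfold eQ
  split_ifs with h
  · left
    refine ⟨?_, rfl⟩
    rcases dvd_delta hp h with h1 | h1
    · subst h1
      exact ap_cube cube_three _
    · exact ap_bad (by exact_mod_cast h1)
  · right
    have h3 : p ≠ 3 := by
      rintro rfl
      apply h
      rw [wd_delta]
      exact Dvd.dvd.mul_right (by norm_num) _
    have hN : ¬ p ∣ N := by
      intro hd
      apply h
      rw [wd_delta]
      exact Dvd.dvd.mul_left (dvd_pow (by exact_mod_cast hd) (by norm_num)) _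
    have hmod : p % 3 = 1 ∨ p % 3 = 2 := by
      have h4 : ¬ 3 ∣ p := fun hd =>
        h3 ((Nat.prime_dvd_prime_iff_eq Nat.prime_three hp).1 hd).symm
      omega
    rcases hmod with h4 | h4
    · obtain ⟨z, hz, hnz⟩ := exists_pq hp h4
      have h5 := yz_norm z (N : Ei)
      rw [hnz, Int.natAbs_natCast] at h5
      exact ⟨yz z (N : Ei), ap_yz hz hp hnz h4 hN, by rw [h5]; norm_cast, h5⟩
    · have h6 : (((√(p : ℝ) : ℝ) : ℂ) * Complex.I) *
          (starRingEnd ℂ) (((√(p : ℝ) : ℝ) : ℂ) * Complex.I) = (p : ℂ) := by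
        rw [map_mul, Complex.conj_ofReal, Complex.conj_I]
        have h5 : (((√(p : ℝ) : ℝ) : ℂ)) ^ 2 = (p : ℂ) := by
          have := Real.sq_sqrt (Nat.cast_nonneg (α := ℝ) p)
          exact_mod_cast this
        linear_combination h5 - ((((√(p : ℝ) : ℝ) : ℂ)) ^ 2) * Complex.I_sq
      refine ⟨((√(p : ℝ) : ℝ) : ℂ) * Complex.I, ?_, ?_, h6⟩
      · rw [ap_cube (cube_two h4), map_mul, Complex.conj_ofReal, Complex.conj_I]
        push_cast
        ring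
      · rw [h6]
        norm_cast

/-- the product without the bad primes -/
theorem l_out {N : ℕ} (hC : Cls N) (hN : NoSplit N) {M : ℕ} (hM : M ≠ 0) (h3M : 3 ∣ M)
    (hNM : ∀ p : ℕ, p.Prime → p ∣ N → p ∣ M) :
    ∃ L : ℂ → ℂ, Differentiable ℂ L ∧ L 1 ≠ 0 ∧ ∀ s : ℂ, 3 / 2 < s.re →
      HasProd (fun p : {p : Nat.Primes // ¬ (p : ℕ) ∣ M} => fQ N s (p.1 : ℕ)) (L s) := by
  obtain ⟨f, ⟨hf1, hf2⟩, hf3⟩ := l_ne hC hN
  have hfin : {p : Nat.Primes | (p : ℕ) ∣ M}.Finite := by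
    refine Set.Finite.preimage (f := fun p : Nat.Primes => (p : ℕ))
      (fun a _ b _ h => Subtype.ext h) (s := {n : ℕ | n ∣ M})
        ((Finset.finite_toSet M.divisors).subset fun n hn => ?_)
    rw [Finset.mem_coe, Nat.mem_divisors]
    exact ⟨hn, hM⟩
  set B : Finset Nat.Primes := hfin.toFinset with hB
  have hBm : ∀ p, p ∈ B ↔ (p : ℕ) ∣ M := fun p => by rw [hB, Set.Finite.mem_toFinset]; rfl
  have hcp : ∀ (p : Nat.Primes), ((p : ℕ) : ℂ) ≠ 0 := fun p => by exact_mod_cast p.2.ne_zero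
  have hfac : ∀ (s : ℂ) (p : Nat.Primes), 1 - (ap (WD (N : ℤ)) p : ℂ) * ((p : ℕ) : ℂ) ^ (-s) +
      (if ((p : ℕ) : ℤ) ∣ (WD (N : ℤ)).Δ then 0 else ((p : ℕ) : ℂ) ^ (1 - 2 * s)) =
      1 - (ap (WD (N : ℤ)) p : ℂ) * ((p : ℕ) : ℂ) ^ (-s) +
        (eQ N p : ℂ) * (((p : ℕ) : ℂ) ^ (-s)) ^ 2 := by
    intro s p
    congr 1
    unfold eQ
    split_ifs with h
    · simp
    · have e : (1 - 2 * s : ℂ) = 1 + ((2 : ℕ) : ℂ) * (-s) := by push_cast; ring
      rw [e, Complex.cpow_add _ _ (hcp p), Complex.cpow_one, Complex.cpow_nat_mul]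
      norm_cast
  refine ⟨fun s => f s * ∏ p ∈ B, (1 - (ap (WD (N : ℤ)) p : ℂ) * ((p : ℕ) : ℂ) ^ (-s) +
        (eQ N p : ℂ) * (((p : ℕ) : ℂ) ^ (-s)) ^ 2), ?_, ?_, ?_⟩
  · refine hf1.mul ?_
    refine Differentiable.fun_finsetProd fun p _ => ?_
    have h1 : Differentiable ℂ (fun s : ℂ => ((p : ℕ) : ℂ) ^ (-s)) :=
      differentiable_id.neg.const_cpow (Or.inl (hcp p))
    exact ((differentiable_const _).sub (h1.const_mul _)).add ((h1.pow 2).const_mul _)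
  · refine mul_ne_zero hf3 (Finset.prod_ne_zero_iff.2 fun p _ => ?_)
    exact hbd_ne (hbdQ N p.2) p.2.two_le (by rw [Complex.one_re]; norm_num)
  · intro s hs
    have h1 := hf2 s hs
    have h2 := hasProd_compl h1 B fun p _ => inv_ne_zero (by
      rw [hfac]
      exact hbd_ne (hbdQ N p.2) p.2.two_le (by linarith))
    have hEq : (fun p : Nat.Primes => p ∉ B) = fun p : Nat.Primes => ¬ (p : ℕ) ∣ M := by
      funext p
      rw [hBm p]
    have key : ∀ (P : Nat.Primes → Prop) (hP : (fun p : Nat.Primes => p ∉ B) = P) (g : ℕ → ℂ)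
        (a : ℂ), HasProd (fun p : {p : Nat.Primes // p ∉ B} => g (p.1 : ℕ)) a →
        HasProd (fun p : {p : Nat.Primes // P p} => g (p.1 : ℕ)) a := by
      rintro P rfl g a h
      exact h
    refine key _ hEq _ _ ?_
    have h3 : (∏ p ∈ B, ((1 - (ap (WD (N : ℤ)) p : ℂ) * ((p : ℕ) : ℂ) ^ (-s) +
      (if ((p : ℕ) : ℤ) ∣ (WD (N : ℤ)).Δ then 0 else ((p : ℕ) : ℂ) ^ (1 - 2 * s)))⁻¹)⁻¹) =
        ∏ p ∈ B, (1 - (ap (WD (N : ℤ)) p : ℂ) * ((p : ℕ) : ℂ) ^ (-s) +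
        (eQ N p : ℂ) * (((p : ℕ) : ℂ) ^ (-s)) ^ 2) :=
      Finset.prod_congr rfl fun p _ => by rw [inv_inv, hfac]
    rw [h3] at h2
    refine h2.congr_fun fun p => ?_
    have hpM : ¬ (p.1 : ℕ) ∣ M := fun h => p.2 ((hBm _).2 h)
    unfold fQ
    rw [if_neg]
    intro hd
    rcases dvd_delta p.1.2 hd with h | h
    · exact hpM (h ▸ h3M)
    · exact hpM (hNM _ p.1.2 h)

end Pool.Agent.X253.C3
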