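import Pool.Agent.X253.C3.Rep6
import Pool.Agent.X253.C3.Pts3
import Pool.Agent.X253.C3.Law

/-!
# The field `ℚ(ω)` inside `F`, independence of rational primes modulo cubes, and the points
-/

set_option autoImplicit false
set_option linter.unusedVariables false
set_option linter.unusedSectionVars false

namespace Pool.Agent.X253.C3

open NumberField IsDedekindDomain WeierstrassCurve
open Pool.Agent.Y692.QS (Ei w nr toC toC_inj ns mul_star toC_normSq)
open Pool.Agent.Y715.T.Rec (cs nn)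
open Pool.Agent.Y715.T.RecG (Pq cs_spec cs_uniq)
open Pool.Agent.Y703.CT (WD Cls NoSplit IsL)
open Pool.Agent.Y703.CT
open Pool.Agent.W97.MT (ap)
open Pool.Agent.Y696.CTK
open Pool.Agent.Y696.CT
open scoped Classical

/-- different prime numbers are independent modulo cubes of `ℚ(ω)` -/
theorem indQ {K : Type} [Field K] [NumberField K] (j : Ei ≃+* 𝓞 K) {T : Type} [Fintype T]
    {pr : T → ℕ} (hpr : ∀ i, (pr i).Prime) (hinj : Function.Injective pr) (c : T → ZMod 3)
    (b : 𝓞 K) (hb : b ^ 3 = ∏ i, ((pr i : ℕ) : 𝓞 K) ^ (c i).val) (i : T) : c i = 0 := by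
  set z : Ei := j.symm b with hz
  set P : ℕ := ∏ i, pr i ^ (c i).val with hP
  have h1 : z ^ 3 = ((P : ℕ) : Ei) := by
    have h2 := congrArg j.symm hb
    rw [map_pow, map_prod] at h2
    rw [hz, h2, hP, Nat.cast_prod]
    refine Finset.prod_congr rfl fun i _ => ?_
    rw [map_pow, map_natCast, Nat.cast_pow]
  have h2 : ((nr z : ℤ) : Ei) ^ 3 = ((P : ℕ) : Ei) ^ 2 := by
    have h3 : (star z) ^ 3 = ((P : ℕ) : Ei) := by
      rw [← star_pow, h1, star_natCast]
    calc ((nr z : ℤ) : Ei) ^ 3 = (z * star z) ^ 3 := by rw [mul_star]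
      _ = z ^ 3 * (star z) ^ 3 := mul_pow _ _ _
      _ = ((P : ℕ) : Ei) ^ 2 := by rw [h1, h3, pow_two]
  have h3 : (nr z) ^ 3 = (P : ℤ) ^ 2 := by exact_mod_cast h2
  have h4 : (nr z).natAbs ^ 3 = P ^ 2 := by
    have := congrArg Int.natAbs h3
    rwa [Int.natAbs_pow, Int.natAbs_pow, Int.natAbs_natCast] at this
  have h5 := congrArg (fun n : ℕ => n.factorization (pr i)) h4
  simp only [Nat.factorization_pow, Finsupp.smul_apply, smul_eq_mul] at h5
  have h6 : P.factorization (pr i) = (c i).val := by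
    rw [hP, Nat.factorization_prod fun k _ => pow_ne_zero _ (hpr k).ne_zero]
    rw [Finsupp.finsetSum_apply, Finset.sum_eq_single i]
    · rw [Nat.factorization_pow, Finsupp.smul_apply, (hpr i).factorization_self, smul_eq_mul,
        mul_one]
    · intro k _ hk
      rw [Nat.factorization_pow, Finsupp.smul_apply, (hpr k).factorization,
        Finsupp.single_apply, if_neg (fun h => hk (hinj h)), smul_zero]
    · intro h
      exact absurd (Finset.mem_univ i) h
  rw [h6] at h5
  have h7 : 3 ∣ (c i).val := by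
    have h8 : 3 ∣ 2 * (c i).val := ⟨_, h5.symm⟩
    omega
  have h9 := (c i).val_lt
  have h10 : (c i).val = 0 := by omega
  exact (ZMod.val_eq_zero _).1 h10

/-- the class of `D` and the norm modulo `9` -/
lemma nine_nat {N : ℕ} (hC : Cls N) {J : Type} [Fintype J] {π : J → Ei} {e : J → ZMod 3}
    (h : ((N : ℕ) : Ei) = pD π e ∨ ((N : ℕ) : Ei) = -pD π e) :
    ¬ (9 : ℤ) ∣ nr (pD π e) - 1 := by
  have h1 : nr (pD π e) = (N : ℤ) ^ 2 := by
    have h2 : nr (pD π e) = nr ((N : ℕ) : Ei) := by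
      rcases h with h | h
      · rw [h]
      · rw [h]
        unfold nr
        simp
    rw [h2]
    unfold nr
    simp
  rw [h1]
  have h3 := hC.2.1
  have h4 := hC.2.2.1
  have h5 := hC.1.2.1
  intro h6
  have h7 : (N : ℤ) ^ 2 % 9 = 1 := by omega
  have h8 : ((N % 9 : ℕ) : ℤ) ^ 2 % 9 = 1 := by
    rw [← h7]
    push_cast
    rw [pow_two, pow_two, ← Int.mul_emod]
  have h9 : N % 9 < 9 := Nat.mod_lt _ (by norm_num)
  have h10 : N % 9 ≠ 0 ∧ N % 9 ≠ 3 ∧ N % 9 ≠ 6 := by omega
  generalize N % 9 = r at *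
  interval_cases r <;> simp_all

/-- the sign of the number -/
def sgn3 (N : ℕ) : ℤ := if N % 3 = 1 then 1 else -1

lemma sgn_val {N : ℕ} {J : Type} [Fintype J] {π : J → Ei} {e : J → ZMod 3} (hdt : Dt π e)
    (h3 : ¬ 3 ∣ N) (h : ((N : ℕ) : Ei) = pD π e ∨ ((N : ℕ) : Ei) = -pD π e) :
    pD π e = ((sgn3 N * N : ℤ) : Ei) := by
  have hp := (pD_prim hdt).1
  have hd : ∀ a : ℤ, (3 : Ei) ∣ (a : Ei) → (3 : ℤ) ∣ a := by
    rintro a ⟨c, hc⟩
    have h1 := congrArg QuadraticAlgebra.re hc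
    have h2 : ((3 : Ei) * c).re = 3 * c.re := by
      have e1 : (3 : Ei) * c = c + c + c := by ring
      rw [e1, QuadraticAlgebra.re_add, QuadraticAlgebra.re_add]
      ring
    rw [h2] at h1
    exact ⟨c.re, by simpa using h1⟩
  unfold sgn3
  rcases h with h | h
  · rw [← h] at hp ⊢
    have h1 : (3 : Ei) ∣ (((N : ℤ) - 1 : ℤ) : Ei) := by
      push_cast
      exact hp
    have h2 := hd _ h1
    have h4 : N % 3 = 1 := by omega
    rw [if_pos h4]
    push_cast
    ring
  · have h0 : pD π e = -((N : ℕ) : Ei) := by rw [h, neg_neg]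
    rw [h0] at hp ⊢
    have h1 : (3 : Ei) ∣ ((-(N : ℤ) - 1 : ℤ) : Ei) := by
      push_cast
      exact hp
    have h2 := hd _ h1
    have h4 : ¬ N % 3 = 1 := by omega
    rw [if_neg h4]
    push_cast
    ring

end Pool.Agent.X253.C3
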