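import Pool.Agent.X253.C3.Rep7

/-!
# The main theorem on the twists of `y² + D y = x³` over `ℚ` by representations
-/

set_option autoImplicit false
set_option linter.unusedVariables false
set_option linter.unusedSectionVars false

namespace Pool.Agent.X253.C3

open NumberField IsDedekindDomain WeierstrassCurve
open Pool.Agent.Y692.QS (Ei w nr toC toC_inj ns mul_star toC_normSq)
open Pool.Agent.Y715.T.Rec (cs nn)
open Pool.Agent.Y715.T.RecG (Pq cs_spec cs_uniq)
open Pool.Agent.Y703.CT (WD Cls NoSplit IsL)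
open Pool.Agent.Y703.CT
open Pool.Agent.W97.MT (ap)
open Pool.Agent.Y696.CTK
open Pool.Agent.Y696.CT
open scoped Classical

/-- the sign -/
theorem fin_neg {F : Type} [Field F] [CharZero F] {d : F} (hd : d ≠ 0)
    (h : Finite (Ec (-d)).toAffine.Point) : Finite (Ec d).toAffine.Point := by
  have h1 : (Set.range (co (V := Ec (-d)))).Finite := Set.finite_range _
  have h2 := h1.image (Option.map fun p : F × F => (p.1, -p.2))
  have h3 := h2.to_subtype
  refine Finite.of_injective (β := ((Option.map fun p : F × F => (p.1, -p.2)) ''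
    Set.range (co (V := Ec (-d))))) (fun P => ⟨co P, ?_⟩) ?_
  · match P with
    | 0 => exact ⟨none, ⟨0, rfl⟩, rfl⟩
    | .some x y hn =>
      have he := (Ec_eqn _ _ _).1 hn.1
      have hns : (Ec (-d)).toAffine.Nonsingular x (-y) := by
        rw [← Affine.equation_iff_nonsingular_of_Δ_ne_zero]
        · rw [Ec_eqn]
          linear_combination he
        · have : (Ec (-d)).toAffine.Δ = -27 * d ^ 4 := by
            simp only [Ec, WeierstrassCurve.Δ, WeierstrassCurve.b₂, WeierstrassCurve.b₄,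
              WeierstrassCurve.b₆, WeierstrassCurve.b₈]
            ring
          rw [this]
          exact mul_ne_zero (by norm_num) (pow_ne_zero 4 hd)
      refine ⟨some (x, -y), ⟨.some x (-y) hns, rfl⟩, ?_⟩
      show some (x, - -y) = some (x, y)
      rw [neg_neg]
  · intro P Q hPQ
    exact co_inj (congrArg Subtype.val hPQ)

lemma prod_mod3 {T : Type} [Fintype T] {pr : T → ℕ} (h1 : ∀ i, pr i % 3 = 1) (D : ℕ)
    (ε : T → Fin 3) : DN D pr ε % 3 = D % 3 := by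
  unfold DN
  have h2 : (∏ i, pr i ^ ((ε i : Fin 3) : ℕ)) ≡ 1 [MOD 3] := by
    refine Finset.prod_induction _ (fun x => x ≡ 1 [MOD 3]) (fun a b ha hb => ha.mul hb) rfl ?_
    intro i _
    have h3 : pr i ≡ 1 [MOD 3] := h1 i
    have h4 := h3.pow ((ε i : Fin 3) : ℕ)
    rwa [one_pow] at h4
  have h5 := (Nat.ModEq.refl D).mul h2
  rw [mul_one] at h5
  exact h5

section main

variable {K F : Type} [Field K] [NumberField K] [Field F] [NumberField F] [Algebra K F]

/-- the points over `F` -/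
theorem pts_Q (j : Ei ≃+* 𝓞 K) {T : Type} [Fintype T] {pr : T → ℕ} (hpr : ∀ i, (pr i).Prime)
    (h31 : ∀ i, pr i % 3 = 1) {D : ℕ}
    (hall : ∀ ε : T → Fin 3, Cls (DN D pr ε) ∧
      ∃ (J : Type) (_ : Fintype J) (_ : Nonempty J) (π : J → Ei) (e : J → ZMod 3), Dt π e ∧
          Ker π e ∧ (((DN D pr ε : ℕ) : Ei) = pD π e ∨ ((DN D pr ε : ℕ) : Ei) = -pD π e))
    (x : T → F) (hx : ∀ i, x i ^ 3 = ((pr i : ℕ) : F))
    (hgen : ∀ S : Subfield F, algebraMap K F ((j w : 𝓞 K) : K) ∈ S →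
      (∀ i, x i ∈ S) → S = ⊤) :
    Finite (Ec ((D : ℕ) : F)).toAffine.Point := by
  set I : K := ((j w : 𝓞 K) : K) with hI
  have hI2 : I ^ 2 + I + 1 = 0 := by
    have h1 : (w : Ei) ^ 2 + w + 1 = 0 := by decide
    have h2 := congrArg (fun t : Ei => ((j t : 𝓞 K) : K)) h1
    simp only [map_add, map_pow, map_one, map_zero] at h2
    exact h2
  have hD0 : D ≠ 0 := by
    rintro rfl
    have := (hall fun _ => 0).1.1.1
    apply this
    unfold DN
    rw [zero_mul]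
  have hs0 : sgn3 D ≠ 0 := by
    unfold sgn3
    split_ifs <;> norm_num
  have hmain : Finite (Ec (algebraMap K F (((sgn3 D * D : ℤ) : K)))).toAffine.Point := by
    refine pts_fin I hI2 (fun i => ((pr i : ℕ) : K)) (fun i => ?_) x (fun i => ?_)
      (fun S h1 h2 => hgen S (h1 _) h2) _ ?_ fun ε => ?_
    · exact_mod_cast (hpr i).ne_zero
    · rw [hx, map_natCast]
    · have h1 : sgn3 D * (D : ℤ) ≠ 0 := mul_ne_zero hs0 (by exact_mod_cast hD0)
      exact_mod_cast h1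
    · obtain ⟨hC, J, hJf, hJn, π, e, hdt, hk, hpm⟩ := hall ε
      have h9 := nine_nat hC hpm
      have hT := ((tri_iffE j hdt h9).2 hk).1
      have h1 := sgn_val hdt hC.1.2.1 hpm
      have h2 : sgn3 (DN D pr ε) = sgn3 D := by
        unfold sgn3
        rw [prod_mod3 h31]
      have h3 : ((j (pD π e) : 𝓞 K) : K) =
          ((sgn3 D * D : ℤ) : K) * ∏ i, ((pr i : ℕ) : K) ^ ((ε i : Fin 3) : ℕ) := by
        have h4 : (((sgn3 D * ((DN D pr ε : ℕ) : ℤ) : ℤ) : 𝓞 K) : K) =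
          ((sgn3 D * ((DN D pr ε : ℕ) : ℤ) : ℤ) : K) := map_intCast (algebraMap (𝓞 K) K) _
        rw [h1, h2, map_intCast, h4]
        unfold DN
        push_cast
        ring
      rw [← h3]
      exact hT
  rw [map_intCast] at hmain
  unfold sgn3 at hmain
  split_ifs at hmain with h
  · push_cast at hmain
    rwa [one_mul] at hmain
  · push_cast at hmain
    rw [neg_one_mul] at hmain
    exact fin_neg (by exact_mod_cast hD0) hmain

/-- the `L`-functions -/
theorem repL (j : Ei ≃+* 𝓞 K) {T : Type} [Fintype T] {pr : T → ℕ} (hpr : ∀ i, (pr i).Prime)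
    (hinj : Function.Injective pr) (h31 : ∀ i, pr i % 3 = 1) {D : ℕ}
    (hall : ∀ ε : T → Fin 3, Cls (DN D pr ε) ∧ NoSplit (DN D pr ε))
    (x : T → F) (hx : ∀ i, x i ^ 3 = ((pr i : ℕ) : F))
    (hgen : ∀ S : Subfield F, algebraMap K F ((j w : 𝓞 K) : K) ∈ S →
      (∀ i, x i ∈ S) → S = ⊤)
    (hgal : IsGalois ℚ F) {M : ℕ} (hM : M ≠ 0) (h3M : 3 ∣ M) (hDM : D ∣ M) (hpM : ∀ i, pr i ∣ M)
    {V : Type} [AddCommGroup V] [Module ℂ V] [FiniteDimensional ℂ V]
    (ρ : (F ≃ₐ[ℚ] F) →* Module.End ℂ V) :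
    ∃ L : ℂ → ℂ, Differentiable ℂ L ∧ L 1 ≠ 0 ∧
      ∀ σ : ℕ → (F ≃ₐ[ℚ] F),
        (∀ p : ℕ, p.Prime → ¬ p ∣ M → ∃ u, IsFrobQ (σ p) p u) → ∀ s : ℂ, 3 / 2 < s.re →
          HasProd (fun p : {p : Nat.Primes // ¬ (p : ℕ) ∣ M} =>
            LFac ρ (σ p.1) (ap (WD (D : ℤ)) (p.1 : ℕ)) (p.1 : ℕ) s) (L s) := by
  set I : K := ((j w : 𝓞 K) : K) with hI
  have hI2 : I ^ 2 + I + 1 = 0 := by
    have h1 : (w : Ei) ^ 2 + w + 1 = 0 := by decide
    have h2 := congrArg (fun t : Ei => ((j t : 𝓞 K) : K)) h1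
    simp only [map_add, map_pow, map_one, map_zero] at h2
    exact h2
  have hJ2 : (algebraMap K F I) ^ 2 + algebraMap K F I + 1 = 0 := by
    rw [← map_pow, ← map_one (algebraMap K F), ← map_add, ← map_add, hI2, map_zero]
  set J : F := algebraMap K F I with hJ
  -- integral roots
  have hint : ∀ i : T, _root_.IsIntegral ℤ (x i) := by
    intro i
    have h1 : _root_.IsIntegral ℤ ((x i) ^ 3) := by
      rw [hx i]
      have h2 := isIntegral_algebraMap (R := ℤ) (A := F) (x := ((pr i : ℕ) : ℤ))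
      rwa [eq_intCast, Int.cast_natCast] at h2
    exact _root_.IsIntegral.of_pow (by norm_num) h1
  set xo : T → 𝓞 F := fun i => ⟨x i, hint i⟩ with hxo
  have hxc : ∀ i, ((xo i : 𝓞 F) : F) = x i := fun i => rfl
  have hx3 : ∀ i, xo i ^ 3 = algebraMap (𝓞 K) (𝓞 F) (j ((pr i : ℕ) : Ei)) := by
    intro i
    rw [map_natCast, map_natCast]
    apply RingOfIntegers.ext
    have h2 : ((xo i ^ 3 : 𝓞 F) : F) = x i ^ 3 := map_pow (algebraMap (𝓞 F) F) _ _
    rw [h2, hx i]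
    exact (map_natCast (algebraMap (𝓞 F) F) _).symm
  have hlq0 : ∀ i, ((pr i : ℕ) : ℚ) ≠ 0 := fun i => by exact_mod_cast (hpr i).ne_zero
  have hxq : ∀ i, x i ^ 3 = algebraMap ℚ F ((pr i : ℕ) : ℚ) := fun i => by
    rw [hx, map_natCast]
  -- the Galois group
  obtain ⟨Φ, hΦ⟩ := galPhiG I hI2 (fun i => ((pr i : ℕ) : 𝓞 K))
    (fun i => by exact_mod_cast (hpr i).ne_zero) (indQ j hpr hinj) x
    (fun i => by
      rw [hx]
      have h1 : (((pr i : ℕ) : 𝓞 K) : K) = ((pr i : ℕ) : K) := map_natCast (algebraMap (𝓞 K) K) _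
      rw [h1, map_natCast]) (fun S h1 h2 => hgen S (h1 _) h2)
  -- the basis
  have hfix : ∀ τ : F ≃ₐ[K] F, (τ.restrictScalars ℚ) J = J := fun τ => by
    show τ (algebraMap K F I) = _
    rw [AlgEquiv.commutes]
  obtain ⟨κ, hκ, b, χ₀, hb⟩ := joint_basis (fun τ : F ≃ₐ[K] F => ρ (τ.restrictScalars ℚ))
    (fun τ τ' => by
      show _ * _ = _ * _
      rw [← map_mul, ← map_mul, comm_A hJ2 hxq hlq0 hgen (hfix τ) (hfix τ')])
    (fun τ => by
      show (ρ _) ^ 3 = 1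
      rw [← map_pow, cube_A hJ2 hxq hlq0 hgen (hfix τ), map_one])
  have hb0 : ∀ k, b k ≠ 0 := fun k => b.ne_zero k
  have hmul : ∀ k (τ τ' : F ≃ₐ[K] F), χ₀ k (τ * τ') = χ₀ k τ * χ₀ k τ' := by
    intro k τ τ'
    have h1 : ρ ((τ * τ').restrictScalars ℚ) (b k) = χ₀ k (τ * τ') • b k := hb k (τ * τ')
    have h2 : (τ * τ').restrictScalars ℚ = τ.restrictScalars ℚ * τ'.restrictScalars ℚ := rfl
    rw [h2, map_mul, Module.End.mul_apply] at h1
    have h3 : ρ (τ'.restrictScalars ℚ) (b k) = χ₀ k τ' • b k := hb k τ'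
    have h4 : ρ (τ.restrictScalars ℚ) (b k) = χ₀ k τ • b k := hb k τ
    rw [h3, map_smul, h4, smul_smul] at h1
    have h5 := smul_left_injective ℂ (hb0 k) h1
    rw [← h5, mul_comm]
  have hone : ∀ k, χ₀ k 1 = 1 := by
    intro k
    have h1 : ρ ((1 : F ≃ₐ[K] F).restrictScalars ℚ) (b k) = χ₀ k 1 • b k := hb k 1
    have h2 : (1 : F ≃ₐ[K] F).restrictScalars ℚ = 1 := rfl
    rw [h2, map_one, Module.End.one_apply] at h1
    have h3 : (1 : ℂ) • b k = χ₀ k 1 • b k := by rw [one_smul]; exact h1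
    exact (smul_left_injective ℂ (hb0 k) h3).symm
  let χm : κ → ((F ≃ₐ[K] F) →* ℂ) := fun k =>
    { toFun := χ₀ k
      map_one' := hone k
      map_mul' := hmul k }
  let χ : κ → ((F ≃ₐ[K] F) →* ℂˣ) := fun k => (χm k).toHomUnits
  have hχ : ∀ k (τ : F ≃ₐ[K] F),
      ρ (τ.restrictScalars ℚ) (b k) = ((χ k τ : ℂˣ) : ℂ) • b k := fun k τ => hb k τ
  choose m hm using fun k => charPhi Φ (χ k)
  choose L hL1 hL2 hL3 using fun k : κ => l_out (hall (m k)).1 (hall (m k)).2 hM h3M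
    (fun p hp hpN => by
      unfold DN at hpN
      rcases hp.dvd_mul.1 hpN with h | h
      · exact h.trans hDM
      · obtain ⟨i, -, hi⟩ := (hp.prime.dvd_finsetProd_iff _).1 h
        exact (hp.dvd_of_dvd_pow hi).trans (hpM i))
  refine ⟨fun s => ∏ k, L k s, Differentiable.fun_finsetProd fun k _ => hL1 k,
    Finset.prod_ne_zero_iff.2 fun k _ => hL2 k, fun σ hσ s hs => ?_⟩
  have key := hasProd_prod (s := (Finset.univ : Finset κ))
    (f := fun k (p : {p : Nat.Primes // ¬ (p : ℕ) ∣ M}) => fQ (DN D pr (m k)) s (p.1 : ℕ))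
    (a := fun k => L k s) (fun k _ => hL3 k s hs)
  refine key.congr_fun fun p => ?_
  obtain ⟨u, hu⟩ := hσ (p.1 : ℕ) p.1.2 p.2
  have hp3 : (p.1 : ℕ) ≠ 3 := by
    intro h
    apply p.2
    rw [h]
    exact h3M
  have hmod : (p.1 : ℕ) % 3 = 1 ∨ (p.1 : ℕ) % 3 = 2 := by
    have h4 : ¬ 3 ∣ (p.1 : ℕ) := fun hd =>
      hp3 ((Nat.prime_dvd_prime_iff_eq Nat.prime_three p.1.2).1 hd).symm
    omega
  rcases hmod with h1 | h2
  · exact lfac_split j (fun i => (hpr i).ne_zero) hx3 hgen hgal Φ hΦ ρ b χ hχ m hm p.1.2 h1 hu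
      (fun h => p.2 (h.trans hDM)) (fun i h => p.2 (h.trans (hpM i))) s
  · exact lfac_inert hJ2 hxq hlq0 hgen ρ b p.1.2 h2 hu D (fun k => DN D pr (m k)) s

end main

end Pool.Agent.X253.C3
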