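import Mathlib
import Pool.Agent.Y696.CTK.LK
import Pool.Agent.Y696.Jac2

/-!
# The number of points of `y² + a y = x³` over the residue fields of an extension of `ℚ(ω)`
-/

set_option autoImplicit false
set_option linter.unusedVariables false

namespace Pool.Agent.X253.C3

open NumberField IsDedekindDomain WeierstrassCurve
open Pool.Agent.Y696 Pool.Agent.W192.HK
open Pool.Agent.Y715.T.Rs (eq0 eq0_coe card_quo)
open Pool.Agent.Y692.QS (Ei w nr toC toC_normSq mul_star)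
open Pool.Agent.Y715.T.Rec (cs nn)
open Pool.Agent.Y715.T.RecG (Pq cs_spec)
open Pool.Agent.Y696.CTK (card_points_d chi_val w_inv toC_w toC_star')
open scoped Classical

section field

variable {k : Type} [Field k] [Fintype k] (ρ : eis →+* k)

theorem card_aff_f (h3 : (3 : k) ≠ 0) {π : eis} (hπ : Prime π) (hπ1 : π - 1 ∈ (sp 3 : Ideal eis))
    (hker : ∀ x, ρ x = 0 ↔ π ∣ x) {f : ℕ} (hq : ((Fintype.card k : ℕ) : eis) = (π * cj π) ^ f)
    {x : eis} (hx : ρ x ≠ 0) {c : ℕ} (hc3 : c < 3)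
    (hc : π ∣ x ^ ((Fintype.card k - 1) / 3) - omr ^ c) :
    ((Nat.card {p : k × k // p.2 ^ 2 + ρ x * p.2 = p.1 ^ 3} : ℕ) : eis) =
      Fintype.card k - omr ^ (2 * c) * π ^ f - omr ^ c * (cj π) ^ f := by
  obtain ⟨χ, h, h1, hρ⟩ := exists_chi ρ h3
  have h4 := card_points_d ρ h h3 hρ hx
  obtain ⟨h5, h6⟩ := jac_eq ρ h3 h h1 hρ hπ hπ1 hker (f := f) hq
  rw [h5, h6, chi_val ρ h h3 hρ hx rfl hc3 ((hker _).2 hc)] at h4
  rw [h4]
  ring

end field

lemma eq0_w : eq0 w = omr := by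
  apply coe_inj'
  rw [eq0_coe, omr_coe]
  exact toC_w

lemma nr_mod3 {z : Ei} (hz : Pq z) : (nr z).natAbs % 3 = 1 := by
  obtain ⟨t, ht⟩ := hz.three
  have h1 : z = 1 + 3 * t := by linear_combination ht
  have r1 : (1 : Ei).re = 1 := rfl
  have r2 : (1 : Ei).im = 0 := rfl
  have r3 : (3 : Ei).re = 3 := rfl
  have r4 : (3 : Ei).im = 0 := rfl
  have h2 : nr z = 1 + 3 * (2 * t.re - t.im) + 9 * nr t := by
    rw [h1]
    unfold Pool.Agent.Y692.QS.nr
    simp only [QuadraticAlgebra.re_add, QuadraticAlgebra.im_add, QuadraticAlgebra.re_mul,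
      QuadraticAlgebra.im_mul, r1, r2, r3, r4]
    ring
  have h3 := Pool.Agent.Y692.QS.nr_nonneg z
  omega

lemma w_three : (w : Ei) ^ 3 = 1 := by decide

/-- the exponent of the symbol over the extension of degree `f` -/
noncomputable def cf (f : ℕ) (z a : Ei) : ZMod 3 := if f = 1 then cs z a else 0

lemma cf_spec {z : Ei} (hz : Pq z) {a : Ei} (ha : ¬ z ∣ a) {f : ℕ} (hf : f = 1 ∨ f = 3) :
    z ∣ a ^ (((nr z).natAbs ^ f - 1) / 3) - w ^ (cf f z a).val := by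
  have h0 := cs_spec hz.prime hz.norm ha
  rcases hf with rfl | rfl
  · unfold cf
    rw [if_pos rfl, pow_one]
    exact h0
  · unfold cf
    rw [if_neg (by norm_num), ZMod.val_zero, pow_zero]
    have hm := nr_mod3 hz
    obtain ⟨m, hm'⟩ : ∃ m, (nr z).natAbs = 3 * m + 1 := ⟨(nr z).natAbs / 3, by omega⟩
    have hnn : nn z = m := by
      unfold Pool.Agent.Y715.T.Rec.nn
      rw [hm']
      omega
    have e1 : ((nr z).natAbs ^ 3 - 1) / 3 = m * (3 * (3 * m ^ 2 + 3 * m + 1)) := by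
      rw [hm']
      have : (3 * m + 1) ^ 3 = 3 * (m * (3 * (3 * m ^ 2 + 3 * m + 1))) + 1 := by ring
      rw [this]
      omega
    rw [e1, pow_mul]
    rw [hnn] at h0
    have h1 : z ∣ (a ^ m) ^ (3 * (3 * m ^ 2 + 3 * m + 1)) -
        (w ^ (cs z a).val) ^ (3 * (3 * m ^ 2 + 3 * m + 1)) :=
      h0.trans (sub_dvd_pow_sub_pow _ _ _)
    have h2 : ((w : Ei) ^ (cs z a).val) ^ (3 * (3 * m ^ 2 + 3 * m + 1)) = 1 := by
      rw [← pow_mul, mul_comm, pow_mul, pow_mul, w_three, one_pow, one_pow]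
    rwa [h2] at h1

/-- the eigenvalue of Frobenius at the place `z` of `ℚ(ω)` -/
noncomputable def yz (z a : Ei) : ℂ := toC (w ^ (-cs z a).val * z)

lemma yz_pow {z a : Ei} {f : ℕ} (hf : f = 1 ∨ f = 3) :
    yz z a ^ f = toC (w ^ (2 * (cf f z a).val) * z ^ f) := by
  unfold yz cf
  rcases hf with rfl | rfl
  · rw [if_pos rfl, pow_one, pow_one, (w_inv (cs z a)).2]
  · rw [if_neg (by norm_num), ZMod.val_zero, mul_zero, pow_zero, one_mul, ← map_pow, mul_pow,
      ← pow_mul, mul_comm _ 3, pow_mul, w_three, one_pow, one_mul]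

lemma yz_norm (z a : Ei) : yz z a * (starRingEnd ℂ) (yz z a) = ((nr z).natAbs : ℂ) := by
  unfold yz
  rw [Complex.mul_conj, toC_normSq, Pool.Agent.Y692.QS.nr_mul]
  have h5 : nr (w ^ (-cs z a).val) = 1 := by
    generalize -cs z a = c
    revert c
    decide
  rw [h5, one_mul]
  have h6 : ((nr z).natAbs : ℤ) = nr z := Int.natAbs_of_nonneg (Pool.Agent.Y692.QS.nr_nonneg z)
  have h7 : (((nr z).natAbs : ℕ) : ℝ) = ((nr z : ℤ) : ℝ) := by
    have h8 := congrArg (Int.cast : ℤ → ℝ) h6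
    rwa [Int.cast_natCast] at h8
  rw [← h7]
  push_cast
  rfl

section place

variable {F : Type} [Field F] [NumberField F] (ι : Ei →+* 𝓞 F)

/-- the number of affine points over the residue field -/
noncomputable def npt (b : 𝓞 F) (v : HeightOneSpectrum (𝓞 F)) : ℕ :=
  Nat.card {P : (𝓞 F ⧸ v.asIdeal) × (𝓞 F ⧸ v.asIdeal) //
    P.2 ^ 2 + Ideal.Quotient.mk v.asIdeal b * P.2 = P.1 ^ 3}

theorem mem_iff_of {v : HeightOneSpectrum (𝓞 F)} {z : Ei} (hz : Prime z) (hv : ι z ∈ v.asIdeal)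
    (x : Ei) : ι x ∈ v.asIdeal ↔ z ∣ x := by
  constructor
  · intro h1
    by_contra h2
    obtain ⟨a, b, hab⟩ := (hz.irreducible.coprime_iff_not_dvd).2 h2
    apply v.isPrime.ne_top
    rw [Ideal.eq_top_iff_one, ← map_one ι, ← hab, map_add, map_mul, map_mul]
    exact v.asIdeal.add_mem (v.asIdeal.mul_mem_left _ hv) (v.asIdeal.mul_mem_left _ h1)
  · rintro ⟨c, hc⟩
    rw [hc, map_mul]
    exact v.asIdeal.mul_mem_right _ hv

/-- **The number of points** over the residue field of `v ∣ z` of degree `f = 1` or `3` -/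
theorem npt_eq {v : HeightOneSpectrum (𝓞 F)} {z : Ei} (hz : Pq z) (hv : ι z ∈ v.asIdeal)
    {f : ℕ} (hf : f = 1 ∨ f = 3) (hn : Ideal.absNorm v.asIdeal = (nr z).natAbs ^ f) {a : Ei}
    (ha : ¬ z ∣ a) :
    ((Ideal.absNorm v.asIdeal : ℕ) : ℂ) - (npt (ι a) v : ℂ) =
      yz z a ^ f + (starRingEnd ℂ) (yz z a) ^ f := by
  have hmax : v.asIdeal.IsMaximal := v.isPrime.isMaximal v.ne_bot
  have hfin : Finite (𝓞 F ⧸ v.asIdeal) := Ideal.finiteQuotientOfFreeOfNeBot v.asIdeal v.ne_bot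
  let _ : Field (𝓞 F ⧸ v.asIdeal) := Ideal.Quotient.field v.asIdeal
  let _ : Fintype (𝓞 F ⧸ v.asIdeal) := Fintype.ofFinite _
  have hcard : Fintype.card (𝓞 F ⧸ v.asIdeal) = (nr z).natAbs ^ f := by
    rw [← Nat.card_eq_fintype_card, ← hn, Ideal.absNorm_apply, Submodule.cardQuot_apply]
  set ρ : eis →+* 𝓞 F ⧸ v.asIdeal :=
    ((Ideal.Quotient.mk v.asIdeal).comp ι).comp (eq0.symm : eis →+* Ei) with hρ
  have hρa : ∀ x : Ei, ρ (eq0 x) = Ideal.Quotient.mk v.asIdeal (ι x) := by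
    intro x
    show Ideal.Quotient.mk v.asIdeal (ι (eq0.symm (eq0 x))) = _
    rw [eq0.symm_apply_apply]
  have hker : ∀ x : eis, ρ x = 0 ↔ eq0 z ∣ x := by
    intro x
    obtain ⟨y, rfl⟩ := Pool.Agent.Y696.CTK.eq0_surj x
    rw [hρa, Ideal.Quotient.eq_zero_iff_mem, mem_iff_of ι hz.prime hv, map_dvd_iff eq0]
  have hk3 : (3 : 𝓞 F ⧸ v.asIdeal) ≠ 0 := by
    intro h
    have h1 : ρ (eq0 3) = 0 := by
      rw [hρa, map_ofNat, map_ofNat]
      exact h
    rw [hker, map_dvd_iff eq0] at h1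
    exact hz.norm h1
  have hq : ((Fintype.card (𝓞 F ⧸ v.asIdeal) : ℕ) : eis) = (eq0 z * cj (eq0 z)) ^ f := by
    rw [hcard]
    push_cast
    congr 1
    apply coe_inj'
    rw [cj_mul_coe, eq0_coe, toC_normSq]
    have h6 : ((nr z).natAbs : ℤ) = nr z := Int.natAbs_of_nonneg (Pool.Agent.Y692.QS.nr_nonneg z)
    have h7 : (((nr z).natAbs : ℕ) : ℝ) = ((nr z : ℤ) : ℝ) := by
      have h8 := congrArg (Int.cast : ℤ → ℝ) h6
      rwa [Int.cast_natCast] at h8
    rw [← h7]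
    push_cast
    rfl
  have hx : ρ (eq0 a) ≠ 0 := by
    rw [Ne, hker, map_dvd_iff eq0]
    exact ha
  have hcnt := card_aff_f ρ hk3 (π := eq0 z) (by
      have := (MulEquiv.prime_iff (eq0 : Ei ≃* eis)).2 hz.prime
      exact this) (by
      obtain ⟨t, ht⟩ := hz.three
      have : eq0 z - 1 = 3 * eq0 t := by
        have := congrArg eq0 ht
        rwa [map_sub, map_one, map_mul, map_ofNat] at this
      rw [this]
      exact Ideal.mem_span_singleton.2 (dvd_mul_right _ _)) hker hq hx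
      (c := (cf f z a).val) (ZMod.val_lt _) (by
      rw [hcard, ← eq0_w, ← map_pow, ← map_pow, ← map_sub, map_dvd_iff eq0]
      exact cf_spec hz ha hf)
  have hn2 : npt (ι a) v = Nat.card {p : (𝓞 F ⧸ v.asIdeal) × (𝓞 F ⧸ v.asIdeal) //
      p.2 ^ 2 + ρ (eq0 a) * p.2 = p.1 ^ 3} := by
    unfold npt
    rw [hρa]
  have h5 := congrArg (fun t : eis => (t : ℂ)) hcnt
  push_cast at h5
  have hn3 : ((Ideal.absNorm v.asIdeal : ℕ) : ℂ) = (Fintype.card (𝓞 F ⧸ v.asIdeal) : ℂ) := by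
    rw [hcard, hn]
  rw [hn2, hn3, h5, ← map_pow (starRingEnd ℂ), yz_pow hf, ← toC_star', star_mul', star_pow]
  have e0 : (star (w ^ (2 * (cf f z a).val)) : Ei) = w ^ (cf f z a).val := by
    rw [← (w_inv (cf f z a)).2]
    exact (w_inv (cf f z a)).1
  have e1 : ((eq0 z : eis) : ℂ) = toC z := eq0_coe z
  have e2 : ((cj (eq0 z) : eis) : ℂ) = (starRingEnd ℂ) (toC z) := by rw [cj_coe, eq0_coe]
  have e3 : ((omr : eis) : ℂ) = toC w := by rw [omr_coe]; exact toC_w.symm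
  rw [← star_pow, e0, map_mul, map_mul, map_pow, map_pow, map_pow, star_pow, map_pow, toC_star',
    e1, e2, e3]
  ring

end place

end Pool.Agent.X253.C3
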