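import Pool.Agent.X253.C3.TwL1
import Pool.Agent.X253.C3.Cor3
import Pool.Agent.W164.RC.Split
import Pool.Agent.Y715.T.RecG

/-!
# Splitting of primes in `K(∛l : l ∈ T)` (adapted from `Pool.Agent.Y715.QT.SplG`)
-/

set_option autoImplicit false
set_option linter.unusedVariables false
set_option linter.unusedSectionVars false

namespace Pool.Agent.X253.C3

open NumberField IsDedekindDomain WeierstrassCurve
open Pool.Agent.Y715.T.Rs (card_quo)
open Pool.Agent.Y692.QS (Ei w nr toC)
open Pool.Agent.Y715.T.Rec (cs nn)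
open Pool.Agent.Y715.T.RecG (Pq cs_spec cs_uniq)
open Pool.Agent.W164.RC (split_abs)
open scoped Classical

/-- the residue degree -/
noncomputable def fo3 {T : Type} (l : T → Ei) (z : Ei) : ℕ := if ∀ i, cs z (l i) = 0 then 1 else 3

lemma fo3_cases {T : Type} (l : T → Ei) (z : Ei) : fo3 l z = 1 ∨ fo3 l z = 3 := by
  unfold fo3
  split_ifs
  · exact Or.inl rfl
  · exact Or.inr rfl

lemma w_unif {z : Ei} (hz : Pq z) {a b : ZMod 3} (h : z ∣ w ^ a.val - w ^ b.val) : a = b := by
  have h3 : (w : Ei) ^ 3 = 1 := w_three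
  by_contra hne
  have key : ∀ a b : ZMod 3, a ≠ b →
      nr (w ^ a.val - w ^ b.val) = 3 := by decide
  have h1 := key a b hne
  obtain ⟨c, hc⟩ := h
  have h2 : z ∣ ((nr (w ^ a.val - w ^ b.val) : ℤ) : Ei) := by
    rw [← Pool.Agent.Y692.QS.mul_star]
    rw [hc]
    exact Dvd.dvd.mul_right (dvd_mul_right _ _) _
  rw [h1] at h2
  exact hz.norm (by exact_mod_cast h2)

section

variable {K F : Type} [Field K] [NumberField K] [Field F] [NumberField F] [Algebra K F]

lemma ei_inj (j : Ei ≃+* 𝓞 K) {ι : Ei →+* 𝓞 F}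
    (hι : ∀ a, ((ι a : 𝓞 F) : F) = algebraMap K F ((j a : 𝓞 K) : K)) : Function.Injective ι := by
  intro a b hab
  apply j.injective
  apply RingOfIntegers.coe_injective
  apply (algebraMap K F).injective
  have h1 := hι a
  rw [hab, hι b] at h1
  exact h1.symm

theorem split3 (j : Ei ≃+* 𝓞 K) (ι : Ei →+* 𝓞 F)
    (hι : ∀ a, ((ι a : 𝓞 F) : F) = algebraMap K F ((j a : 𝓞 K) : K)) {T : Type} [Fintype T]
    (l : T → Ei) (hl0 : ∀ i, l i ≠ 0) (x : T → 𝓞 F) (hx : ∀ i, x i ^ 3 = ι (l i))
    (hgen : ∀ S : Subfield F, (∀ k : K, algebraMap K F k ∈ S) →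
      (∀ i, ((x i : 𝓞 F) : F) ∈ S) → S = ⊤) {z : Ei} (hz : Pq z) (hzl : ∀ i, ¬ z ∣ l i) :
    (∀ v : HeightOneSpectrum (𝓞 F), ι z ∈ v.asIdeal →
      Ideal.absNorm v.asIdeal = (nr z).natAbs ^ fo3 l z) ∧
    Nat.card {v : HeightOneSpectrum (𝓞 F) // ι z ∈ v.asIdeal} * fo3 l z =
      Module.finrank K F := by
  classical
  have inj := ei_inj j hι
  set I : K := ((j w : 𝓞 K) : K) with hI
  have hI2 : I ^ 2 + I + 1 = 0 := by
    have h1 : (w : Ei) ^ 2 + w + 1 = 0 := by decide
    have h2 := congrArg (fun t : Ei => ((j t : 𝓞 K) : K)) h1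
    simp only [map_add, map_pow, map_one, map_zero] at h2
    exact h2
  have hxF : ∀ i, ((x i : 𝓞 F) : F) ^ 3 = algebraMap K F ((j (l i) : 𝓞 K) : K) := by
    intro i
    rw [← hι, ← hx i]
    exact (map_pow (algebraMap (𝓞 F) F) _ _).symm
  have hgal : IsGalois K F := galois3 I hI2 (fun i => ((j (l i) : 𝓞 K) : K))
    (fun i => ((x i : 𝓞 F) : F)) hxF hgen
  have hfd : FiniteDimensional K F := Pool.Agent.Y715.CS.finKF
  let _ : Algebra Ei (𝓞 F) := ι.toAlgebra
  have halg : ∀ a : Ei, algebraMap Ei (𝓞 F) a = ι a := fun _ => rfl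
  have hσι : ∀ (σ : F ≃ₐ[K] F) (a : Ei), σ • (ι a) = ι a := by
    intro σ a
    apply RingOfIntegers.ext
    change σ ((ι a : 𝓞 F) : F) = _
    rw [hι, AlgEquiv.commutes]
  have hcomm : SMulCommClass (F ≃ₐ[K] F) Ei (𝓞 F) := by
    constructor
    intro g a y
    rw [Algebra.smul_def, Algebra.smul_def, halg, smul_mul', hσι]
  have hinv : Algebra.IsInvariant Ei (𝓞 F) (F ≃ₐ[K] F) := by
    constructor
    intro b hb
    obtain ⟨y, hy⟩ := (IsGalois.mem_range_algebraMap_iff_fixed (F := K) (b : F)).2 (fun σ =>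
      congrArg (fun z : 𝓞 F => (z : F)) (hb σ))
    have h1 : _root_.IsIntegral ℤ y := by
      have h2 : _root_.IsIntegral ℤ (algebraMap K F y) := by rw [hy]; exact b.2
      exact (isIntegral_algHom_iff ((algebraMap K F).toIntAlgHom) (algebraMap K F).injective).1 h2
    obtain ⟨b', hb'⟩ : ∃ b' : 𝓞 K, (b' : K) = y := ⟨⟨y, h1⟩, rfl⟩
    refine ⟨j.symm b', ?_⟩
    apply RingOfIntegers.ext
    rw [halg, hι, RingEquiv.apply_symm_apply, hb']
    exact hy
  have hp0 : z ≠ 0 := hz.prime.ne_zero
  have hmax : (Ideal.span {z}).IsMaximal :=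
    PrincipalIdealRing.isMaximal_of_irreducible hz.prime.irreducible
  have hcz : (Nat.card (Ei ⧸ Ideal.span {z}) : ℤ) = nr z := card_quo z
  have hcardz : Nat.card (Ei ⧸ Ideal.span {z}) = (nr z).natAbs := by
    rw [← hcz, Int.natAbs_natCast]
  have hnz : (nr z).natAbs ≠ 0 := by
    intro h
    exact hp0 (Pool.Agent.Y692.QS.nr_zero_iff.1 (Int.natAbs_eq_zero.1 h))
  have hfz : Finite (Ei ⧸ Ideal.span {z}) := by
    apply Nat.finite_of_card_ne_zero
    rw [hcardz]
    exact hnz
  have hx0 : ∀ i, x i ≠ 0 := by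
    intro i h
    have h1 := hx i
    rw [h, zero_pow (by norm_num)] at h1
    exact (hl0 i) (inj (by rw [map_zero]; exact h1.symm))
  -- the action on the cube roots
  have hu : ∀ (σ : F ≃ₐ[K] F) (i : T), ∃ c : ZMod 3, σ • x i = ι (w ^ c.val) * x i := by
    intro σ i
    set J : F := algebraMap K F I with hJ
    have hJ2 : J ^ 2 + J + 1 = 0 := by
      rw [hJ, ← map_pow, ← map_one (algebraMap K F), ← map_add, ← map_add, hI2, map_zero]
    have hxi : ((x i : 𝓞 F) : F) ≠ 0 := fun h => hx0 i (RingOfIntegers.coe_injective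
      (h.trans (map_zero _).symm))
    have h1 : (σ ((x i : 𝓞 F) : F) / ((x i : 𝓞 F) : F)) ^ 3 = 1 := by
      rw [div_pow, ← map_pow, hxF i, AlgEquiv.commutes, div_self]
      rw [← hxF i]
      exact pow_ne_zero _ hxi
    set u : F := σ ((x i : 𝓞 F) : F) / ((x i : 𝓞 F) : F) with hu
    have h2 : σ ((x i : 𝓞 F) : F) = u * ((x i : 𝓞 F) : F) := by
      rw [hu, div_mul_cancel₀ _ hxi]
    have h5 : (u - 1) * ((u - J) * (u - J ^ 2)) = 0 := by
      linear_combination h1 + (- u ^ 2 + u + J * u - u * 1 + (1 - J)) * hJ2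
    have hιw : ∀ c : ℕ, ((ι (w ^ c) : 𝓞 F) : F) = J ^ c := by
      intro c
      have e1 : ((j (w ^ c) : 𝓞 K) : K) = ((j w : 𝓞 K) : K) ^ c := by
        rw [map_pow]
        exact map_pow (algebraMap (𝓞 K) K) _ _
      rw [hι, e1, map_pow]
    have h3 : ∃ c : ZMod 3, u = J ^ c.val := by
      rcases mul_eq_zero.1 h5 with h6 | h6
      · exact ⟨0, by rw [ZMod.val_zero, pow_zero]; linear_combination h6⟩
      · rcases mul_eq_zero.1 h6 with h7 | h7
        · refine ⟨1, ?_⟩
          rw [show (1 : ZMod 3).val = 1 from rfl, pow_one]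
          linear_combination h7
        · refine ⟨2, ?_⟩
          rw [show (2 : ZMod 3).val = 2 from rfl]
          linear_combination h7
    obtain ⟨c, hc⟩ := h3
    refine ⟨c, ?_⟩
    apply RingOfIntegers.ext
    change σ ((x i : 𝓞 F) : F) = ((ι (w ^ c.val) * x i : 𝓞 F) : F)
    rw [h2, hc, ← hιw]
    exact (map_mul (algebraMap (𝓞 F) F) _ _).symm
  have hext : ∀ g : F ≃ₐ[K] F, (∀ i, g • x i = x i) → g = 1 := by
    intro g hg
    have h2 : ∀ i, g ((x i : 𝓞 F) : F) = ((x i : 𝓞 F) : F) := fun i =>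
      congrArg (fun y : 𝓞 F => (y : F)) (hg i)
    have h3 := hgen (IntermediateField.fixedField (Subgroup.zpowers g)).toSubfield
      (fun k => (IntermediateField.fixedField (Subgroup.zpowers g)).algebraMap_mem k)
      (fun i => by
        show ((x i : 𝓞 F) : F) ∈ IntermediateField.fixedField (Subgroup.zpowers g)
        rw [IntermediateField.mem_fixedField_iff]
        intro t ht
        obtain ⟨n, rfl⟩ := Subgroup.mem_zpowers_iff.1 ht
        have h4 : g ∈ MulAction.stabilizer (F ≃ₐ[K] F) ((x i : 𝓞 F) : F) := h2 i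
        exact Subgroup.zpow_mem _ h4 n)
    ext y
    have h6 : y ∈ (IntermediateField.fixedField (Subgroup.zpowers g)).toSubfield := by
      rw [h3]
      trivial
    have h7 : y ∈ IntermediateField.fixedField (Subgroup.zpowers g) := h6
    rw [IntermediateField.mem_fixedField_iff] at h7
    exact h7 _ (Subgroup.mem_zpowers _)
  -- one place
  have key : ∀ v : HeightOneSpectrum (𝓞 F), ι z ∈ v.asIdeal →
      Ideal.absNorm v.asIdeal = (nr z).natAbs ^ fo3 l z ∧
      ((Ideal.span {z} : Ideal Ei).primesOver (𝓞 F)).ncard * fo3 l z = Module.finrank K F := by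
    intro v hv
    have hvpr := v.isPrime
    have hvmax : v.asIdeal.IsMaximal := v.isPrime.isMaximal v.ne_bot
    have hfv : Finite (𝓞 F ⧸ v.asIdeal) := Ideal.finiteQuotientOfFreeOfNeBot v.asIdeal v.ne_bot
    have hover : v.asIdeal.LiesOver (Ideal.span {z}) := by
      constructor
      refine hmax.eq_of_le ?_ ?_
      · exact (inferInstance : (v.asIdeal.under Ei).IsPrime).ne_top
      · rw [Ideal.span_singleton_le_iff_mem, Ideal.mem_comap]
        exact hv
    have hzmem : ∀ y : Ei, ι y ∈ v.asIdeal → z ∣ y := fun y hy =>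
      (mem_iff_of ι hz.prime hv y).1 hy
    have hrv : ∀ i, x i ∉ v.asIdeal := by
      intro i h
      have h1 : ι (l i) ∈ v.asIdeal := by
        rw [← hx i, pow_succ]
        exact v.asIdeal.mul_mem_left _ h
      exact hzl i (hzmem _ h1)
    have hdet : ∀ i, ∀ a b : ZMod 3, ι (w ^ a.val) * x i - ι (w ^ b.val) * x i ∈ v.asIdeal →
        a = b := by
      intro i a b h
      have h1 : ι (w ^ a.val - w ^ b.val) * x i ∈ v.asIdeal := by rw [map_sub, sub_mul]; exact h
      rcases v.isPrime.mem_or_mem h1 with h2 | h2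
      · exact w_unif hz (hzmem _ h2)
      · exact absurd h2 (hrv i)
    obtain ⟨σ, hσ⟩ := IsArithFrobAt.exists_of_isInvariant Ei (F ≃ₐ[K] F) v.asIdeal
    have hσ' : ∀ y : 𝓞 F, σ • y - y ^ Nat.card (Ei ⧸ Ideal.span {z}) ∈ v.asIdeal := by
      intro y
      have h1 := hσ y
      rw [← hover.over] at h1
      exact h1
    have hq3 : ∀ i, σ • x i = ι (w ^ (cs z (l i)).val) * x i := by
      intro i
      obtain ⟨c, huσ⟩ := hu σ i
      have h1 := hσ' (x i)
      rw [hcardz] at h1
      have hN := nr_mod3 hz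
      have hnn : (nr z).natAbs = 3 * nn z + 1 := by
        unfold Pool.Agent.Y715.T.Rec.nn
        omega
      have h3 : x i ^ (nr z).natAbs = ι (l i ^ nn z) * x i := by
        rw [map_pow, ← hx i, ← pow_mul, ← pow_succ, hnn]
      have h4 : ι (l i ^ nn z) - ι (w ^ (cs z (l i)).val) ∈ v.asIdeal := by
        rw [← map_sub]
        obtain ⟨c, hc'⟩ := cs_spec hz.prime hz.norm (hzl i)
        rw [hc', map_mul]
        exact v.asIdeal.mul_mem_right _ hv
      have h5 : ι (w ^ c.val) * x i - ι (w ^ (cs z (l i)).val) * x i ∈ v.asIdeal := by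
        have h6 := v.asIdeal.add_mem h1 (v.asIdeal.mul_mem_right (x i) h4)
        rw [h3, huσ] at h6
        have e : ι (w ^ c.val) * x i - ι (l i ^ nn z) * x i +
          (ι (l i ^ nn z) - ι (w ^ (cs z (l i)).val)) * x i =
            ι (w ^ c.val) * x i - ι (w ^ (cs z (l i)).val) * x i := by ring
        rwa [e] at h6
      rw [huσ, hdet i c _ h5]
    have hpow : ∀ n : ℕ, ∀ i, (σ ^ n) • x i = ι ((w ^ (cs z (l i)).val) ^ n) * x i := by
      intro n
      induction n with
      | zero =>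
        intro i
        rw [pow_zero, one_smul, pow_zero, map_one, one_mul]
      | succ n ih =>
        intro i
        rw [pow_succ, mul_smul, hq3 i, smul_mul', hσι, ih i, ← mul_assoc, ← map_mul,
          ← pow_succ']
    have hord : orderOf σ = fo3 l z := by
      unfold fo3
      split_ifs with h1
      · rw [orderOf_eq_one_iff]
        apply hext
        intro i
        rw [hq3 i, h1 i, ZMod.val_zero, pow_zero, map_one, one_mul]
      · apply orderOf_eq_prime
        · apply hext
          intro i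
          have e3 : ∀ a : ZMod 3, ((w : Ei) ^ a.val) ^ 3 = 1 := by decide
          rw [hpow 3 i, e3, map_one, one_mul]
        · intro h3
          apply h1
          intro i
          have h4 := hq3 i
          rw [h3, one_smul] at h4
          refine hdet i _ _ ?_
          rw [← h4, ZMod.val_zero, pow_zero, map_one, one_mul, sub_self]
          exact v.asIdeal.zero_mem
    have h5 := split_abs (F ≃ₐ[K] F) (Ideal.span {z}) v.asIdeal (by
      intro g hg
      apply hext
      intro i
      obtain ⟨c, hug⟩ := hu g i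
      have h7 := hg (x i)
      rw [hug] at h7
      have h8 := hdet i c 0 (by rw [ZMod.val_zero, pow_zero, map_one, one_mul]; exact h7)
      rw [hug, h8, ZMod.val_zero, pow_zero, map_one, one_mul]) σ hσ'
    rw [hcardz, hord, IsGalois.card_aut_eq_finrank] at h5
    refine ⟨?_, h5.2⟩
    rw [Ideal.absNorm_apply, Submodule.cardQuot_apply]
    exact h5.1
  -- existence of a place
  have hex : ∃ v : HeightOneSpectrum (𝓞 F), ι z ∈ v.asIdeal := by
    have hnu : ¬ IsUnit (ι z) := by
      intro hun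
      obtain ⟨y, hy⟩ := hun.exists_right_inv
      obtain ⟨b, hb⟩ := hinv.isInvariant y (by
        intro t
        have h4 : ι z * (t • y) = 1 := by
          rw [← hσι t z, ← smul_mul', hy, smul_one]
        exact hun.mul_left_cancel (h4.trans hy.symm))
      apply hz.prime.not_isUnit
      refine IsUnit.of_mul_eq_one b ?_
      apply inj
      rw [map_mul, map_one, ← halg b, hb]
      exact hy
    obtain ⟨M, hM, hzM⟩ := exists_max_ideal_of_mem_nonunits (mem_nonunits_iff.2 hnu)
    refine ⟨⟨M, hM.isPrime, ?_⟩, hzM⟩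
    intro hbot
    rw [hbot, Ideal.mem_bot] at hzM
    exact hp0 (inj (by rw [hzM, map_zero]))
  obtain ⟨v0, hv0⟩ := hex
  refine ⟨fun v hv => (key v hv).1, ?_⟩
  have h6 := (key v0 hv0).2
  have h7 : Nat.card {v : HeightOneSpectrum (𝓞 F) // ι z ∈ v.asIdeal} =
      ((Ideal.span {z} : Ideal Ei).primesOver (𝓞 F)).ncard := by
    rw [← Nat.card_coe_set_eq]
    refine Nat.card_congr
      { toFun := fun v => ⟨v.1.asIdeal, v.1.isPrime, ?_⟩
        invFun := fun P => ⟨⟨P.1, P.2.1, ?_⟩, ?_⟩
        left_inv := fun v => rfl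
        right_inv := fun P => rfl }
    · constructor
      have := v.1.isPrime
      refine hmax.eq_of_le ?_ ?_
      · exact (inferInstance : (v.1.asIdeal.under Ei).IsPrime).ne_top
      · rw [Ideal.span_singleton_le_iff_mem, Ideal.mem_comap]
        exact v.2
    · have h8 := P.2.2.over
      intro hbot
      have h9 : z ∈ P.1.under Ei := by
        rw [← h8]; exact Ideal.mem_span_singleton_self z
      rw [Ideal.mem_comap, hbot, Ideal.mem_bot, halg] at h9
      exact hp0 (inj (by rw [h9, map_zero]))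
    · have h8 := P.2.2.over
      have h9 : z ∈ P.1.under Ei := by
        rw [← h8]; exact Ideal.mem_span_singleton_self z
      rw [Ideal.mem_comap] at h9
      exact h9
  rw [h7, h6]

end

end Pool.Agent.X253.C3
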