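import Pool.Agent.X253.C3.TwL3
import Pool.Agent.Y809.QT.Eul

/-!
# The Euler product of `y² + D y = x³` over `K(∛l : l ∈ T)` from the Euler products of the twists
-/

set_option autoImplicit false
set_option linter.unusedVariables false
set_option linter.unusedSectionVars false

namespace Pool.Agent.X253.C3

open Filter Complex NumberField IsDedekindDomain
open scoped Topology
open Pool.Agent.Y692.QS (Ei w nr toC toC_inj ns)
open Pool.Agent.Y715.T.Rec (cs nn)
open Pool.Agent.Y715.T.RecG (Pq cs_spec cs_uniq)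
open Pool.Agent.H921R2.TatePole (nm two_le_nm nm_summable)
open Pool.Agent.W189.NF (aV eV)
open Pool.Agent.Y696 (HBd)
open Pool.Agent.Y696.CT
open Pool.Agent.Y696.CTK
open Pool.Agent.Y809.QT (inv_bound)
open scoped Classical

/-- the primary generator -/
noncomputable def zz (P : HeightOneSpectrum Ei) : Ei := ns (gn P.asIdeal)

/-- the curve with the parameter `D ∏ l ^ ε` -/
noncomputable def aE {T : Type} [Fintype T] (D : Ei) (l : T → Ei) (ε : T → Fin 3) : Ei :=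
  D * ∏ i, l i ^ ((ε i : Fin 3) : ℕ)

/-- the root of unity -/
noncomputable def uz (z a : Ei) : ℂ := toC (w ^ (-cs z a).val)

lemma uz_three (z a : Ei) : uz z a ^ 3 = 1 := by
  unfold uz
  rw [← map_pow]
  have e3 : ∀ a : ZMod 3, ((w : Ei) ^ a.val) ^ 3 = 1 := by decide
  rw [e3, map_one]

lemma uz_one (z a : Ei) : uz z a = 1 ↔ cs z a = 0 := by
  unfold uz
  constructor
  · intro h
    have h1 : (w : Ei) ^ (-cs z a).val = 1 := toC_inj (by rw [h, map_one])
    have h2 : ∀ c : ZMod 3, (w : Ei) ^ (-c).val = 1 → c = 0 := by decide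
    exact h2 _ h1
  · intro h
    rw [h, neg_zero, ZMod.val_zero, pow_zero, map_one]

lemma w_val_add (a b : ZMod 3) : (w : Ei) ^ (a + b).val = w ^ a.val * w ^ b.val := by
  revert a b
  decide

lemma w_val_mul (a b : ZMod 3) : (w : Ei) ^ (a * b).val = (w ^ b.val) ^ a.val := by
  revert a b
  decide

lemma yz_aE {T : Type} [Fintype T] {D : Ei} {l : T → Ei} {z : Ei} (hz : Pq z) (hD : ¬ z ∣ D)
    (hl : ∀ i, ¬ z ∣ l i) (ε : T → Fin 3) :
    yz z (aE D l ε) = yz z D * ∏ i, uz z (l i) ^ ((ε i : Fin 3) : ℕ) := by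
  have h1 : ∀ i, ¬ z ∣ l i ^ ((ε i : Fin 3) : ℕ) := fun i h => hl i (hz.prime.dvd_of_dvd_pow h)
  have h2 : ¬ z ∣ ∏ i, l i ^ ((ε i : Fin 3) : ℕ) := by
    rw [hz.prime.dvd_finsetProd_iff]
    rintro ⟨i, -, h⟩
    exact h1 i h
  have h3 : cs z (aE D l ε) = cs z D + ∑ i, ((ε i : Fin 3) : ℕ) * cs z (l i) := by
    unfold aE
    rw [Pool.Agent.Y715.T.RecG.cs_mul hz.prime hz.norm hD h2,
      Pool.Agent.Y715.T.RecG.cs_prod hz.prime hz.norm _ _ fun i _ => h1 i]
    congr 1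
    exact Finset.sum_congr rfl fun i _ => Pool.Agent.Y715.T.RecG.cs_pow hz.prime hz.norm (hl i) _
  have h4 : (w : Ei) ^ (-cs z (aE D l ε)).val =
      w ^ (-cs z D).val * ∏ i, (w ^ (-cs z (l i)).val) ^ ((ε i : Fin 3) : ℕ) := by
    rw [h3, neg_add, w_val_add, ← Finset.sum_neg_distrib]
    congr 1
    have h5 : ∀ (S : Finset T) (g : T → ZMod 3), (w : Ei) ^ (∑ i ∈ S, g i).val =
        ∏ i ∈ S, w ^ (g i).val := by
      intro S g
      induction S using Finset.induction_on with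
      | empty => rw [Finset.sum_empty, Finset.prod_empty, ZMod.val_zero, pow_zero]
      | insert a S ha ih => rw [Finset.sum_insert ha, Finset.prod_insert ha, w_val_add, ih]
    rw [h5]
    refine Finset.prod_congr rfl fun i _ => ?_
    rw [← mul_neg, w_val_mul]
    have h6 : ∀ (a : Fin 3) , (((a : ℕ) : ZMod 3)).val = (a : ℕ) := by decide
    rw [h6]
  unfold yz uz
  rw [h4, map_mul, map_mul, map_mul, map_prod]
  simp only [map_pow]
  ring

section

variable {K F : Type} [Field K] [NumberField K] [Field F] [NumberField F] [Algebra K F]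

/-- the Euler factor of the twist -/
noncomputable def fE (j : Ei ≃+* 𝓞 K) (a : Ei) (s : ℂ) (P : HeightOneSpectrum Ei) : ℂ :=
  (1 - (aV (ED (j a : K)) (pK j P) : ℂ) * (nm (pK j P) : ℂ) ^ (-s) +
    (eV (ED (j a : K)) (pK j P) : ℂ) * ((nm (pK j P) : ℂ) ^ (-s)) ^ 2)⁻¹

lemma nm_zz (j : Ei ≃+* 𝓞 K) {P : HeightOneSpectrum Ei} {z : Ei} (hP : P.asIdeal = Ideal.span {z}) :
    nm (pK j P) = (nr z).natAbs := by
  have h1 := nm_nr j (pK_span j hP)
  rw [← h1, Int.natAbs_natCast]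

lemma fE_good (j : Ei ≃+* 𝓞 K) {P : HeightOneSpectrum Ei} {z a : Ei} (hz : Pq z)
    (hP : P.asIdeal = Ideal.span {z}) (ha : ¬ z ∣ a) (s : ℂ) :
    fE j a s P = ((1 - yz z a * ((nr z).natAbs : ℂ) ^ (-s)) *
      (1 - (starRingEnd ℂ) (yz z a) * ((nr z).natAbs : ℂ) ^ (-s)))⁻¹ := by
  obtain ⟨v1, v2⟩ := good_val j hz (pK_span j hP) ha
  unfold fE
  rw [v1, v2, nm_zz j hP]
  have h3 : yz z a * (starRingEnd ℂ) (yz z a) = ((nr z).natAbs : ℂ) := yz_norm z a
  have h4 : toC (w ^ (-cs z a).val * z) = yz z a := rfl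
  rw [h4]
  congr 1
  linear_combination (-((((nr z).natAbs : ℂ)) ^ (-s)) ^ 2) * h3

/-- the product over the twists -/
theorem prod_fE (j : Ei ≃+* 𝓞 K) {T : Type} [Fintype T] {D : Ei} {l : T → Ei}
    {P : HeightOneSpectrum Ei} {z : Ei} (hz : Pq z)
    (hP : P.asIdeal = Ideal.span {z}) (hD : ¬ z ∣ D) (hl : ∀ i, ¬ z ∣ l i) (s : ℂ) :
    ∏ ε : T → Fin 3, fE j (aE D l ε) s P =
      ((1 - (yz z D * ((nr z).natAbs : ℂ) ^ (-s)) ^ fo3 l z) *
      (1 - ((starRingEnd ℂ) (yz z D) * ((nr z).natAbs : ℂ) ^ (-s)) ^ fo3 l z))⁻¹ ^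
        (3 ^ Fintype.card T / fo3 l z) := by
  have h1 : ∀ ε : T → Fin 3, ¬ z ∣ aE D l ε := by
    intro ε h
    unfold aE at h
    rcases hz.prime.dvd_or_dvd h with h | h
    · exact hD h
    · rw [hz.prime.dvd_finsetProd_iff] at h
      obtain ⟨i, -, h⟩ := h
      exact hl i (hz.prime.dvd_of_dvd_pow h)
  set X : ℂ := ((nr z).natAbs : ℂ) ^ (-s) with hX
  have h2 : ∀ ε : T → Fin 3, fE j (aE D l ε) s P =
      ((1 - (yz z D * X) * ∏ i, uz z (l i) ^ ((ε i : Fin 3) : ℕ)) *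
      (1 - ((starRingEnd ℂ) (yz z D) * X) *
        ∏ i, ((starRingEnd ℂ) (uz z (l i))) ^ ((ε i : Fin 3) : ℕ)))⁻¹ := by
    intro ε
    rw [fE_good j hz hP (h1 ε), yz_aE hz hD hl, map_mul, map_prod]
    simp only [map_pow]
    congr 1
    ring
  rw [Finset.prod_congr rfl fun ε _ => h2 ε, Finset.prod_inv_distrib, Finset.prod_mul_distrib]
  have hf : fo3 l z = if ∀ i, uz z (l i) = 1 then 1 else 3 := by
    unfold fo3
    by_cases h : ∀ i, cs z (l i) = 0
    · rw [if_pos h, if_pos fun i => (uz_one z (l i)).2 (h i)]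
    · rw [if_neg h, if_neg fun h' => h fun i => (uz_one z (l i)).1 (h' i)]
  have hf' : fo3 l z = if ∀ i, (starRingEnd ℂ) (uz z (l i)) = 1 then 1 else 3 := by
    rw [hf]
    congr 1
    refine propext (forall_congr' fun i => ?_)
    constructor
    · intro h
      rw [h, map_one]
    · intro h
      have h3 := congrArg (starRingEnd ℂ) h
      rwa [Complex.conj_conj, map_one] at h3
  rw [gen3 (fun i => uz z (l i)) (fun i => uz_three z (l i)) (yz z D * X) hf,
    gen3 (fun i => (starRingEnd ℂ) (uz z (l i)))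
      (fun i => by rw [← map_pow, uz_three, map_one]) ((starRingEnd ℂ) (yz z D) * X) hf',
    ← mul_pow, inv_pow]

lemma zz_spec {P : HeightOneSpectrum Ei} {M : Ei} (h3 : (3 : Ei) ∣ M) (hM : M ∉ P.asIdeal) :
    Pq (zz P) ∧ P.asIdeal = Ideal.span {zz P} := by
  have h : ¬ (3 : ℤ) ∣ nr (gn P.asIdeal) := by
    intro h
    apply hM
    rw [three_span h, Ideal.mem_span_singleton]
    refine dvd_trans ⟨-tht, ?_⟩ h3
    linear_combination tht_sq
  exact ⟨pq_ns h, span_ns h⟩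

/-- the finite set of the bad places -/
theorem bad_finite {M : Ei} (hM : M ≠ 0) :
    {P : HeightOneSpectrum Ei | M ∈ P.asIdeal}.Finite := by
  have h1 : Ideal.span {M} ≠ (0 : Ideal Ei) := by
    rw [Ne, Ideal.zero_eq_bot, Ideal.span_singleton_eq_bot]
    exact hM
  refine (Ideal.finite_factors h1).subset fun P hP => ?_
  show P.asIdeal ∣ Ideal.span {M}
  rw [Ideal.dvd_span_singleton]
  exact hP

theorem eul3 (j : Ei ≃+* 𝓞 K) (ι : Ei →+* 𝓞 F)
    (hι : ∀ a, ((ι a : 𝓞 F) : F) = algebraMap K F ((j a : 𝓞 K) : K)) {T : Type} [Fintype T]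
    (l : T → Ei) (hl0 : ∀ i, l i ≠ 0) (x : T → 𝓞 F) (hx : ∀ i, x i ^ 3 = ι (l i))
    (hgen : ∀ S : Subfield F, (∀ k : K, algebraMap K F k ∈ S) →
      (∀ i, ((x i : 𝓞 F) : F) ∈ S) → S = ⊤) (hdeg : Module.finrank K F = 3 ^ Fintype.card T)
    {M D : Ei} (h3M : (3 : Ei) ∣ M) (hDM : D ∣ M) (hlM : ∀ i, l i ∣ M)
    {s : ℂ} (hs : 3 / 2 < s.re) (B : Finset (HeightOneSpectrum Ei))
    (hB : ∀ P, P ∈ B ↔ M ∈ P.asIdeal) (L : (T → Fin 3) → ℂ)
    (hL : ∀ ε, HasProd (fE j (aE D l ε) s) (L ε))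
    (hne : ∀ ε P, fE j (aE D l ε) s P ≠ 0) :
    HasProd (fun v : {v : HeightOneSpectrum (𝓞 F) // ι M ∉ v.asIdeal} => EF (ι D) s v.1)
      (∏ ε, (L ε * ∏ P ∈ B, (fE j (aE D l ε) s P)⁻¹)) := by
  classical
  have hzs : ∀ P : {P : HeightOneSpectrum Ei // P ∉ B},
      Pq (zz P.1) ∧ P.1.asIdeal = Ideal.span {zz P.1} ∧ ¬ zz P.1 ∣ M := by
    intro P
    have hM : M ∉ P.1.asIdeal := fun h => P.2 ((hB _).2 h)
    obtain ⟨h1, h2⟩ := zz_spec h3M hM
    refine ⟨h1, h2, fun h => hM ?_⟩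
    rw [h2, Ideal.mem_span_singleton]
    exact h
  set e : (Σ P : {P : HeightOneSpectrum Ei // P ∉ B},
      {v : HeightOneSpectrum (𝓞 F) // ι (zz P.1) ∈ v.asIdeal}) →
    {v : HeightOneSpectrum (𝓞 F) // ι M ∉ v.asIdeal} := fun y =>
      ⟨y.2.1, fun h => (hzs y.1).2.2 ((mem_iff_of ι (hzs y.1).1.prime y.2.2 M).1 h)⟩ with he
  have hcomap : ∀ (P : {P : HeightOneSpectrum Ei // P ∉ B}) (v : HeightOneSpectrum (𝓞 F)),
      ι (zz P.1) ∈ v.asIdeal → v.asIdeal.comap ι = P.1.asIdeal := by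
    intro P v hv
    ext y
    rw [Ideal.mem_comap, mem_iff_of ι (hzs P).1.prime hv, (hzs P).2.1, Ideal.mem_span_singleton]
  have hinj : Function.Injective e := by
    rintro ⟨P, ⟨v, hv⟩⟩ ⟨P', ⟨v', hv'⟩⟩ hvw
    simp only [he, Subtype.mk.injEq] at hvw
    subst hvw
    have h1 := hcomap P v hv
    have h2 := hcomap P' v hv'
    have h3 : P = P' := Subtype.ext (HeightOneSpectrum.ext (h1.symm.trans h2))
    subst h3
    rfl
  have hsurj : Function.Surjective e := by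
    rintro ⟨v, hv⟩
    have hbot : v.asIdeal.comap ι ≠ ⊥ := by
      intro h
      -- the norm is in the ideal
      have h2 : ((Ideal.absNorm v.asIdeal : ℕ) : 𝓞 F) ∈ v.asIdeal := Ideal.absNorm_mem v.asIdeal
      have h3 : ((Ideal.absNorm v.asIdeal : ℕ) : Ei) ∈ v.asIdeal.comap ι := by
        rw [Ideal.mem_comap, map_natCast]
        exact h2
      rw [h, Ideal.mem_bot] at h3
      have h4 := congrArg ι h3
      rw [map_natCast, map_zero] at h4
      have h5 : Ideal.absNorm v.asIdeal ≠ 0 := by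
        have := two_le_nm v
        unfold Pool.Agent.H921R2.TatePole.nm at this
        omega
      exact h5 (by exact_mod_cast h4)
    set P : HeightOneSpectrum Ei := ⟨v.asIdeal.comap ι, v.isPrime.comap ι, hbot⟩ with hPdef
    have hPB : P ∉ B := by
      intro h
      rw [hB] at h
      exact hv h
    have h6 := hzs ⟨P, hPB⟩
    have h7 : ι (zz P) ∈ v.asIdeal := by
      have h8 : zz P ∈ P.asIdeal := by
        have h9 : P.asIdeal = Ideal.span {zz P} := h6.2.1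
        rw [h9]
        exact Ideal.mem_span_singleton_self _
      exact h8
    exact ⟨⟨⟨P, hPB⟩, ⟨v, h7⟩⟩, rfl⟩
  set E := Equiv.ofBijective e ⟨hinj, hsurj⟩ with hE
  have hspl : ∀ P : {P : HeightOneSpectrum Ei // P ∉ B},
      (∀ v : HeightOneSpectrum (𝓞 F), ι (zz P.1) ∈ v.asIdeal →
        Ideal.absNorm v.asIdeal = (nr (zz P.1)).natAbs ^ fo3 l (zz P.1)) ∧
      Nat.card {v : HeightOneSpectrum (𝓞 F) // ι (zz P.1) ∈ v.asIdeal} * fo3 l (zz P.1) =
        3 ^ Fintype.card T := by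
    intro P
    rw [← hdeg]
    exact split3 j ι hι l hl0 x hx hgen (hzs P).1 fun i h => (hzs P).2.2 (h.trans (hlM i))
  have hloc : ∀ (P : {P : HeightOneSpectrum Ei // P ∉ B}) (v : HeightOneSpectrum (𝓞 F)),
      ι (zz P.1) ∈ v.asIdeal → EF (ι D) s v =
        ((1 - (yz (zz P.1) D * ((nr (zz P.1)).natAbs : ℂ) ^ (-s)) ^ fo3 l (zz P.1)) *
        (1 - ((starRingEnd ℂ) (yz (zz P.1) D) * ((nr (zz P.1)).natAbs : ℂ) ^ (-s)) ^
          fo3 l (zz P.1)))⁻¹ := by
    intro P v hv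
    exact ef_eq3 ι (hzs P).1 hv (fo3_cases l _) ((hspl P).1 v hv)
      (fun h => (hzs P).2.2 (h.trans hDM)) s
  -- multipliability
  have hmult : Multipliable (fun v : {v : HeightOneSpectrum (𝓞 F) // ι M ∉ v.asIdeal} =>
      EF (ι D) s v.1) := by
    have hsum0 := nm_summable (K := F) (x := s.re - 1 / 2) (by linarith)
    have hsum := hsum0.subtype {v : HeightOneSpectrum (𝓞 F) | ι M ∉ v.asIdeal}
    have h5 : Summable (fun v : {v : HeightOneSpectrum (𝓞 F) // ι M ∉ v.asIdeal} =>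
        ‖EF (ι D) s v.1 - 1‖) := by
      refine Summable.of_norm_bounded_eventually (hsum.mul_left 12) ?_
      have h6 := hsum.tendsto_cofinite_zero.eventually (Iio_mem_nhds (by norm_num : (0 : ℝ) < 1 / 4))
      filter_upwards [h6] with v hv
      rw [norm_norm]
      obtain ⟨⟨P, ⟨v', hv'⟩⟩, hev⟩ := hsurj v
      have hvv : v' = v.1 := congrArg Subtype.val hev
      rw [← hvv, hloc P v' hv']
      have hpos := nrz_pos (hzs P).1
      have hpos' : (0 : ℝ) < ((nr (zz P.1)).natAbs : ℝ) := by exact_mod_cast hpos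
      have hw : ∀ β : ℂ, ‖β‖ = ((nr (zz P.1)).natAbs : ℝ) ^ (1 / 2 : ℝ) →
          ‖(β * ((nr (zz P.1)).natAbs : ℂ) ^ (-s)) ^ fo3 l (zz P.1)‖ ≤
            (nm v' : ℝ) ^ (-(s.re - 1 / 2)) := by
        intro β hβ
        have h10 : (nm v' : ℝ) = ((nr (zz P.1)).natAbs : ℝ) ^ fo3 l (zz P.1) := by
          unfold Pool.Agent.H921R2.TatePole.nm
          rw [(hspl P).1 v' hv']
          push_cast
          rfl
        rw [h10, ← Real.rpow_natCast, ← Real.rpow_mul (Nat.cast_nonneg _), norm_pow,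
          norm_mul, hβ, norm_cp hpos, ← Real.rpow_add hpos', ← Real.rpow_natCast,
          ← Real.rpow_mul (Nat.cast_nonneg _)]
        apply le_of_eq
        congr 1
        ring
      have hv4 : (nm v' : ℝ) ^ (-(s.re - 1 / 2)) ≤ 1 / 4 := by
        rw [hvv]
        exact le_of_lt hv
      have h12 := inv_bound (hw _ (norm_yz (zz P.1) D))
        (hw _ (by rw [Complex.norm_conj]; exact norm_yz (zz P.1) D)) hv4
      rw [hvv] at h12
      exact h12
    have h7 := multipliable_one_add_of_summable h5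
    refine h7.congr (fun v => ?_)
    ring
  -- the product over the places of `K`
  have hG : HasProd (fun P : {P : HeightOneSpectrum Ei // P ∉ B} =>
      ∏ ε, fE j (aE D l ε) s P.1) (∏ ε, (L ε * ∏ P ∈ B, (fE j (aE D l ε) s P)⁻¹)) := by
    have h1 := hasProd_prod (s := (Finset.univ : Finset (T → Fin 3)))
      (f := fun ε (P : {P : HeightOneSpectrum Ei // P ∉ B}) => fE j (aE D l ε) s P.1)
      (a := fun ε => L ε * ∏ P ∈ B, (fE j (aE D l ε) s P)⁻¹)
      (fun ε _ => hasProd_compl (hL ε) B fun P _ => hne ε P)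
    exact h1
  rw [← E.hasProd_iff]
  refine HasProd.sigma_of_hasProd hG ?_ ((E.multipliable_iff).2 hmult)
  intro P
  have hcard := (hspl P).2
  have hfo : 0 < fo3 l (zz P.1) := by
    rcases fo3_cases l (zz P.1) with h | h <;> rw [h] <;> norm_num
  have hfin : Finite {v : HeightOneSpectrum (𝓞 F) // ι (zz P.1) ∈ v.asIdeal} := by
    apply Nat.finite_of_card_ne_zero
    intro h1
    rw [h1, zero_mul] at hcard
    exact (pow_ne_zero _ (by norm_num)) hcard.symm
  have _ : Fintype {v : HeightOneSpectrum (𝓞 F) // ι (zz P.1) ∈ v.asIdeal} := Fintype.ofFinite _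
  have h1 : (fun c : {v : HeightOneSpectrum (𝓞 F) // ι (zz P.1) ∈ v.asIdeal} =>
      EF (ι D) s c.1) = fun _ =>
        ((1 - (yz (zz P.1) D * ((nr (zz P.1)).natAbs : ℂ) ^ (-s)) ^ fo3 l (zz P.1)) *
        (1 - ((starRingEnd ℂ) (yz (zz P.1) D) * ((nr (zz P.1)).natAbs : ℂ) ^ (-s)) ^
          fo3 l (zz P.1)))⁻¹ := by
    funext c
    exact hloc P c.1 c.2
  show HasProd (fun c : {v : HeightOneSpectrum (𝓞 F) // ι (zz P.1) ∈ v.asIdeal} =>
    EF (ι D) s c.1) _
  rw [h1, prod_fE j (hzs P).1 (hzs P).2.1 (fun h => (hzs P).2.2 (h.trans hDM))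
    (fun i h => (hzs P).2.2 (h.trans (hlM i))) s]
  have h2 : ((1 - (yz (zz P.1) D * ((nr (zz P.1)).natAbs : ℂ) ^ (-s)) ^ fo3 l (zz P.1)) *
        (1 - ((starRingEnd ℂ) (yz (zz P.1) D) * ((nr (zz P.1)).natAbs : ℂ) ^ (-s)) ^
          fo3 l (zz P.1)))⁻¹ ^ (3 ^ Fintype.card T / fo3 l (zz P.1)) =
      ∏ _c : {v : HeightOneSpectrum (𝓞 F) // ι (zz P.1) ∈ v.asIdeal},
        ((1 - (yz (zz P.1) D * ((nr (zz P.1)).natAbs : ℂ) ^ (-s)) ^ fo3 l (zz P.1)) *
        (1 - ((starRingEnd ℂ) (yz (zz P.1) D) * ((nr (zz P.1)).natAbs : ℂ) ^ (-s)) ^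
          fo3 l (zz P.1)))⁻¹ := by
    have h13 : Fintype.card {v : HeightOneSpectrum (𝓞 F) // ι (zz P.1) ∈ v.asIdeal} =
        3 ^ Fintype.card T / fo3 l (zz P.1) := by
      rw [← hcard, Nat.mul_div_cancel _ hfo, Nat.card_eq_fintype_card]
    rw [Finset.prod_const, Finset.card_univ, h13]
  rw [h2]
  exact hasProd_fintype _

end

end Pool.Agent.X253.C3
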